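import Mathlib
import Pool.Agent.H387R2.MB4
import Pool.Agent.Y826.ZG.CritLB
import Pool.Agent.H95R2.BG.LCriterion

/-! Engine E (helper34): the mass of the sieve weight on the multiples of a small prime, linear forms. -/

set_option autoImplicit false

open Finset Filter Topology
open scoped ContDiff

namespace Pool.Agent.X34.E

open Pool.Agent.H378R2 Pool.Agent.H95R2.BG.LF
open Pool.Agent.H95R2.BG hiding ww zz qq prodv
open Pool.Agent.H387R2.MB (shf shift_sieve_bound VV_shift VV_same BE_insert log_div_le_one)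

/-- the class `n ≡ a0 (W)`, `p ∣ A n + B` -/
lemma class_pL {W a0 p A B : ℕ} (hp : p.Prime) (hpW : ¬ p ∣ W) (hpA : ¬ p ∣ A) :
    ∃ b : ℕ, ∀ n : ℕ, (n ≡ a0 [MOD W] ∧ (p : ℤ) ∣ (A : ℤ) * n + B) ↔ n ≡ b [MOD (W * p)] := by
  have hcop : Nat.Coprime W p := ((Nat.Prime.coprime_iff_not_dvd hp).2 hpW).symm
  have hcopA : Nat.Coprime A p := ((Nat.Prime.coprime_iff_not_dvd hp).2 hpA).symm
  obtain ⟨m, -, hm⟩ := Nat.exists_mul_mod_eq_one_of_coprime hcopA hp.one_lt
  obtain ⟨b, hb1, hb2⟩ := Nat.chineseRemainder hcop a0 (m * ((p - 1) * B))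
  refine ⟨b, fun n => ?_⟩
  have key0 : A * (m * ((p - 1) * B)) + B ≡ 0 [MOD p] := by
    have h1 : A * m ≡ 1 [MOD p] := by
      unfold Nat.ModEq
      rw [hm, Nat.mod_eq_of_lt hp.one_lt]
    have h2 : A * (m * ((p - 1) * B)) + B ≡ 1 * ((p - 1) * B) + B [MOD p] := by
      have h3 := (h1.mul_right ((p - 1) * B)).add_right B
      have h4 : A * m * ((p - 1) * B) + B = A * (m * ((p - 1) * B)) + B := by ring
      rwa [h4] at h3
    refine h2.trans ?_
    rw [Nat.modEq_zero_iff_dvd]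
    have : 1 * ((p - 1) * B) + B = p * B := by
      obtain ⟨r, rfl⟩ : ∃ r, p = r + 1 := ⟨p - 1, by have := hp.one_lt; omega⟩
      simp only [Nat.add_sub_cancel]
      ring
    rw [this]
    exact Dvd.intro _ rfl
  have key : (p : ℤ) ∣ (A : ℤ) * n + B ↔ n ≡ m * ((p - 1) * B) [MOD p] := by
    have e : ((A * n + B : ℕ) : ℤ) = (A : ℤ) * n + B := by push_cast; ring
    rw [← e, Int.natCast_dvd_natCast, ← Nat.modEq_zero_iff_dvd]
    constructor
    · intro h
      have h1 : A * n + B ≡ A * (m * ((p - 1) * B)) + B [MOD p] := h.trans key0.symm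
      have h2 := Nat.ModEq.add_right_cancel' B h1
      exact Nat.ModEq.cancel_left_of_coprime (hcopA.symm) h2
    · intro h
      exact ((h.mul_left A).add_right B).trans key0
  rw [key, ← Nat.modEq_and_modEq_iff_modEq_mul hcop]
  constructor
  · rintro ⟨h1, h2⟩
    exact ⟨h1.trans hb1.symm, h2.trans hb2.symm⟩
  · rintro ⟨h1, h2⟩
    exact ⟨h1.trans hb1, h2.trans hb2⟩

lemma nu_pL {X : ℝ} {W a0 p A B b : ℕ} (hb : ∀ n : ℕ, (n ≡ a0 [MOD W] ∧ (p : ℤ) ∣ (A : ℤ) * n + B) ↔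
    n ≡ b [MOD (W * p)]) (n : ℕ) (w : ℝ) :
    nu X W a0 n * (if (p : ℤ) ∣ (A : ℤ) * n + B then w else 0) = nu X (W * p) b n * w := by
  unfold nu
  by_cases h : n ≡ b [MOD (W * p)]
  · have := (hb n).2 h
    rw [if_pos h, if_pos this.1, if_pos this.2]
  · rw [if_neg h]
    by_cases h1 : n ≡ a0 [MOD W]
    · have h2 : ¬ (p : ℤ) ∣ (A : ℤ) * n + B := fun h2 => h ((hb n).1 ⟨h1, h2⟩)
      rw [if_neg h2]; ring
    · rw [if_neg h1]; ring

/-- the size condition -/
lemma size_ev {τ κ : ℝ} (hκ : κ < 4 * τ) (D : ℕ) : ∀ᶠ X : ℝ in atTop,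
    (WD D : ℝ) * X ^ κ * Real.exp (4 * Lt τ X) ≤ X := by
  have h1 : Tendsto (fun X : ℝ => X ^ (4 * τ - κ)) atTop atTop := tendsto_rpow_atTop (by linarith)
  filter_upwards [h1.eventually_ge_atTop (WD D : ℝ), eventually_gt_atTop 0] with X hX hX0
  have e1 : Real.exp (4 * Lt τ X) = X ^ (1 - 4 * τ) := by
    rw [Real.rpow_def_of_pos hX0]
    unfold Lt
    congr 1
    ring
  rw [e1]
  calc (WD D : ℝ) * X ^ κ * X ^ (1 - 4 * τ) ≤ X ^ (4 * τ - κ) * X ^ κ * X ^ (1 - 4 * τ) := by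
        gcongr
    _ = X := by
        rw [← Real.rpow_add hX0, ← Real.rpow_add hX0]
        have : 4 * τ - κ + κ + (1 - 4 * τ) = 1 := by ring
        rw [this, Real.rpow_one]

/-- contribution of a prime `p > D` -/
theorem stepL {J : ℕ} (g : Fin J → ℝ → ℝ) (c : Fin J → ℝ) (hg : ∀ j, GF (g j) (c j)) (hs : ∑ j, c j ≤ 2)
    (j0 : Fin J) :
    ∃ C : ℝ, 0 ≤ C ∧ ∀ τ : ℝ, 0 < τ → τ < 1 / 8 → ∀ κ : ℝ, 0 < κ → κ < 4 * τ →
      ∀ D : ℕ, 32 * J + 2 ≤ D → ∀ A B : Fin J → ℕ, SepL D A B → ∀ᶠ X : ℝ in atTop, ∀ a0 p : ℕ,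
      p.Prime → D < p → (p : ℝ) ≤ X ^ κ →
      ∑ n ∈ Icc 1 ⌊3 * X⌋₊, nu X (WD D) a0 n * (if (p : ℤ) ∣ (A j0 : ℤ) * n + B j0 then
        ∏ j, (vv τ D X (g j) ((A j : ℤ) * n + B j) * vv τ D X (g j) ((A j : ℤ) * n + B j)) else 0) ≤
      NN τ D X J * (2 ^ J * C * ((Real.log p / Lt τ X) ^ 2 / p)) +
        5 * 2 ^ (2 * J) * Real.exp (4 * Lt τ X) := by
  classical
  obtain ⟨C, hC0, hC⟩ := shift_sieve_bound J g g (fun j => (hg j).smooth) (fun j => (hg j).smooth)
    (fun j => (hg j).compact) (fun j => (hg j).compact) j0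
  refine ⟨C, hC0, ?_⟩
  intro τ hτ hτ' κ hκ hκ' D hD A B hsep
  have hτ4 : τ < 1 / 4 := by linarith
  have hLt := Lt_tendsto hτ4
  have e1 : ∀ᶠ X : ℝ in atTop, ∑ p ∈ PD D, Real.log p / p + 1 ≤ (Lt τ X) ^ (1 / 4 : ℝ) :=
    ((tendsto_rpow_atTop (by norm_num)).comp hLt).eventually_ge_atTop _
  have e2 : ∀ᶠ X : ℝ in atTop, ∑ p ∈ PD D, (1 : ℝ) / p + 1 ≤ Real.log (Lt τ X) / 32 :=
    ((Real.tendsto_log_atTop.comp hLt).atTop_div_const (by norm_num)).eventually_ge_atTop _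
  filter_upwards [e1, e2, size_ev hκ' D, hLt.eventually_ge_atTop 2, eventually_ge_atTop 40] with X h1 h2 hsz hL2 hX
  intro a0 p hp hDp hpX
  have hX0 : 0 < X := by linarith
  have hW : (0 : ℝ) < WD D := by exact_mod_cast WD_pos D
  have hL : 0 < Lt τ X := by linarith
  have hp0 : (0 : ℝ) < p := by exact_mod_cast hp.pos
  have hpE : p ∉ PD D := fun h => by
    have := (mem_PD.1 h).1.2
    omega
  have hpW : ¬ p ∣ WD D := fun h => hpE ((prime_dvd_WD hp).1 h)
  have hpA : ¬ p ∣ A j0 := hsep.2.2 j0 p hp hDp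
  set u := Real.log p / Lt τ X with hu
  have hu0 : 0 ≤ u := div_nonneg (Real.log_natCast_nonneg p) hL.le
  obtain ⟨b, hb⟩ := class_pL (a0 := a0) (B := B j0) hp hpW hpA
  have hlog1 := log_div_le_one hp
  have hp1 : (1 : ℝ) / p ≤ 1 := by
    rw [div_le_one hp0]; exact_mod_cast hp.one_lt.le
  have hE1 : ∑ p ∈ insert p (PD D), Real.log p / p ≤ (Lt τ X) ^ (1 / 4 : ℝ) := by
    rw [sum_insert hpE]; linarith
  have hE2 : ∑ p ∈ insert p (PD D), (1 : ℝ) / p ≤ Real.log (Lt τ X) / 32 := by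
    rw [sum_insert hpE]; linarith
  have hpr : ∀ q ∈ insert p (PD D), q.Prime := by
    intro q hq
    rcases mem_insert.1 hq with rfl | hq
    · exact hp
    · exact (mem_PD.1 hq).2
  have hvan2 : ∀ (j : Fin J) (x : ℝ), Real.log (Rt τ X) / Lt τ X < x → g j x = 0 := by
    intro j x hx
    have h7 : 2 < x := lt_of_le_of_lt (Rt_ge (by linarith)) hx
    exact (hg j).zero x (lt_of_le_of_lt (hg j).le_two h7)
  set G := shf g j0 u with hG
  have hG2 : ∀ j x, |G j x| ≤ 2 := by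
    intro j x
    rw [hG]
    unfold shf
    split_ifs
    · have h1 := (hg j).bdd x
      have h2 := (hg j).bdd (x + u)
      have := abs_sub (g j x) (g j (x + u))
      linarith
    · have h1 := (hg j).bdd x
      linarith
  have hG0 : ∀ j x, c j < x → G j x = 0 := by
    intro j x hx
    rw [hG]
    unfold shf
    split_ifs
    · rw [(hg j).zero x hx, (hg j).zero (x + u) (by linarith), sub_zero]
    · exact (hg j).zero x hx
  have hnD : ∀ q : ℕ, q.Prime → q ∉ insert p (PD D) → D < q := by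
    intro q hq hqE
    by_contra hc
    push Not at hc
    exact hqE (mem_insert_of_mem (mem_PD' hq hc))
  have hsize : ((WD D * p : ℕ) : ℝ) * Real.exp (Lt τ X * (∑ j, c j + ∑ j, c j)) ≤ X := by
    have k1 : Real.exp (Lt τ X * (∑ j, c j + ∑ j, c j)) ≤ Real.exp (4 * Lt τ X) := by
      apply Real.exp_le_exp.2
      nlinarith
    push_cast
    calc (WD D : ℝ) * p * Real.exp (Lt τ X * (∑ j, c j + ∑ j, c j)) ≤
        (WD D : ℝ) * X ^ κ * Real.exp (4 * Lt τ X) := by gcongr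
      _ ≤ X := hsz
  have k1 := sum1 X (by linarith) (WD D * p) b (Nat.mul_pos (WD_pos D) hp.pos) G G (Lt τ X) 2 hL (by norm_num) c c
    hG2 hG2 hG0 hG0
    (fun _ => insert p (PD D)) (Rt τ X) A (fun j => (B j : ℤ))
    (fun _ q hq hqE hdvd => by
      rcases (Nat.Prime.dvd_mul hq).1 hdvd with h | h
      · exact hqE (mem_insert_of_mem ((prime_dvd_WD hq).1 h))
      · have : q = p := (Nat.prime_dvd_prime_iff_eq hq hp).1 h
        exact hqE (this ▸ mem_insert_self _ _))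
    (fun j q hq hqE => hsep.2.2 j q hq (hnD q hq hqE))
    (by
      intro i j hij q hq hqE _ n hh
      apply hsep.1 i j hij q hq (hnD q hq hqE)
      have := dvd_sub (Dvd.dvd.mul_left hh.2 (A i : ℤ)) (Dvd.dvd.mul_left hh.1 (A j : ℤ))
      have h7 : (A i : ℤ) * ((A j : ℤ) * n + B j) - (A j : ℤ) * ((A i : ℤ) * n + B i) =
        (A i : ℤ) * B j - (A j : ℤ) * B i := by ring
      rwa [h7] at this)
    hsize
  have k2 := hC u hu0 (Lt τ X) (fun _ => insert p (PD D)) (fun q _ => 1 / (q : ℝ)) (Rt τ X) hL2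
    (fun j x hx => ⟨hvan2 j x hx, hvan2 j x hx⟩) (fun _ => hpr)
    (fun _ q hq hq' => mem_insert_of_mem (mem_PD' hq (hq'.trans hD))) (fun _ => hE1)
    (fun _ => hE2) (fun _ q _ _ => w_one q)
  have e3 : ∏ j : Fin J, (Lt τ X * ∏ p ∈ insert p (PD D), (1 - 1 / (p : ℝ))) =
      (Lt τ X * BE (insert p (PD D))) ^ J := by
    rw [Finset.prod_const, Finset.card_univ, Fintype.card_fin]
    rfl
  rw [e3] at k2
  set SS := sieveSum J G G (Lt τ X) (fun _ => insert p (PD D)) (fun q _ => 1 / (q : ℝ)) (Rt τ X) with hSS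
  have hBE : 0 < BE (PD D) := BE_PD_pos D
  have hBE' : 0 < BE (insert p (PD D)) := BE_pos hpr
  have hBE2 : BE (PD D) / 2 ≤ BE (insert p (PD D)) := by
    rw [BE_insert hpE]
    have h1 : (1:ℝ) / p ≤ 1 / 2 := one_div_le_one_div_of_le (by norm_num) (by exact_mod_cast hp.two_le)
    nlinarith
  have k3 : SS ≤ 1 / (Lt τ X * BE (PD D)) ^ J * (2 ^ J * (C * u ^ 2)) := by
    have h1 : (Lt τ X * BE (insert p (PD D))) ^ J * SS ≤ C * u ^ 2 := (le_abs_self _).trans k2
    have h2 : (Lt τ X * BE (PD D) / 2) ^ J ≤ (Lt τ X * BE (insert p (PD D))) ^ J := by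
      apply pow_le_pow_left₀ (by positivity)
      calc Lt τ X * BE (PD D) / 2 = Lt τ X * (BE (PD D) / 2) := by ring
        _ ≤ _ := mul_le_mul_of_nonneg_left hBE2 hL.le
    have h3 : SS ≤ C * u ^ 2 / (Lt τ X * BE (insert p (PD D))) ^ J := by
      rw [le_div_iff₀ (by positivity)]
      linarith
    refine h3.trans ?_
    calc C * u ^ 2 / (Lt τ X * BE (insert p (PD D))) ^ J ≤ C * u ^ 2 / (Lt τ X * BE (PD D) / 2) ^ J := by
          apply div_le_div_of_nonneg_left (by positivity) (by positivity) h2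
      _ = _ := by
          have e5 : (Lt τ X * BE (PD D) / 2) ^ J = (Lt τ X * BE (PD D)) ^ J / 2 ^ J := div_pow _ _ _
          rw [e5]
          have : (Lt τ X * BE (PD D)) ^ J ≠ 0 := by positivity
          field_simp
  have hM : 0 ≤ MPhi X := by
    have := MPhi_ge X hX
    linarith
  have e4 : ∀ n ∈ Icc 1 ⌊3 * X⌋₊, nu X (WD D) a0 n * (if (p : ℤ) ∣ (A j0 : ℤ) * n + B j0 then
        ∏ j, (vv τ D X (g j) ((A j : ℤ) * n + B j) * vv τ D X (g j) ((A j : ℤ) * n + B j)) else 0) =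
      (if n ≡ b [MOD (WD D * p)] then Phi (n / X) else 0) *
        ∏ j, (VVm (insert p (PD D)) (Rt τ X) (Lt τ X) (G j) ((A j : ℤ) * n + B j) *
        VVm (insert p (PD D)) (Rt τ X) (Lt τ X) (G j) ((A j : ℤ) * n + B j)) := by
    intro n _
    have e5 := nu_pL (X := X) hb n (∏ j, (VVm (insert p (PD D)) (Rt τ X) (Lt τ X) (G j) ((A j : ℤ) * n + B j) *
        VVm (insert p (PD D)) (Rt τ X) (Lt τ X) (G j) ((A j : ℤ) * n + B j)))
    unfold nu at e5 ⊢
    rw [← e5]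
    congr 1
    by_cases hd : (p : ℤ) ∣ (A j0 : ℤ) * n + B j0
    · rw [if_pos hd, if_pos hd]
      apply prod_congr rfl
      intro j _
      have : vv τ D X (g j) ((A j : ℤ) * n + B j) =
          VVm (insert p (PD D)) (Rt τ X) (Lt τ X) (G j) ((A j : ℤ) * n + B j) := by
        unfold vv
        by_cases hj : j = j0
        · subst hj
          rw [VV_shift (PD D) (Rt τ X) (Lt τ X) hL (g j) p hp hpE (hvan2 j) _ hd]
          congr 1
          funext x
          rw [hG]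
          unfold shf
          rw [if_pos rfl]
        · have hnd : ¬ (p : ℤ) ∣ (A j : ℤ) * n + B j := by
            intro h
            apply hsep.1 j j0 hj p hp hDp
            have := dvd_sub (Dvd.dvd.mul_left hd (A j : ℤ)) (Dvd.dvd.mul_left h (A j0 : ℤ))
            have h7 : (A j : ℤ) * ((A j0 : ℤ) * n + B j0) - (A j0 : ℤ) * ((A j : ℤ) * n + B j) =
              (A j : ℤ) * B j0 - (A j0 : ℤ) * B j := by ring
            rwa [h7] at this
          rw [VV_same (PD D) (Rt τ X) (Lt τ X) (g j) p hp _ hnd]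
          congr 1
          funext x
          rw [hG]
          unfold shf
          rw [if_neg hj]
      rw [this]
    · rw [if_neg hd, if_neg hd]
  rw [sum_congr rfl e4]
  have k4 := (abs_le.1 k1).2
  have k5 : MPhi X * (1 / ((WD D * p : ℕ) : ℝ)) * SS ≤ NN τ D X J * (2 ^ J * C * (u ^ 2 / p)) := by
    unfold NN
    calc MPhi X * (1 / ((WD D * p : ℕ) : ℝ)) * SS ≤ MPhi X * (1 / ((WD D * p : ℕ) : ℝ)) *
          (1 / (Lt τ X * BE (PD D)) ^ J * (2 ^ J * (C * u ^ 2))) := mul_le_mul_of_nonneg_left k3 (by positivity)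
      _ = _ := by
          rw [one_div_pow]
          push_cast
          field_simp
  have k6 : 5 * (2 : ℝ) ^ (2 * J) * Real.exp (Lt τ X * (∑ j, c j + ∑ j, c j)) ≤
      5 * 2 ^ (2 * J) * Real.exp (4 * Lt τ X) := by
    apply mul_le_mul_of_nonneg_left _ (by positivity)
    apply Real.exp_le_exp.2
    nlinarith
  linarith

end Pool.Agent.X34.E
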