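import Mathlib
import Pool.Agent.X34.E.E1

/-! Engine E (helper34): the mass of the sieve weight on the integers where one of the forms has a small
prime factor. -/

set_option autoImplicit false

open Finset Filter Topology
open scoped ContDiff

namespace Pool.Agent.X34.E

open Pool.Agent.H378R2 Pool.Agent.H95R2.BG.LF
open Pool.Agent.H95R2.BG hiding ww zz qq prodv

/-- the primes in `(D, X ^ κ]` -/
noncomputable def PK (κ : ℝ) (D : ℕ) (X : ℝ) : Finset ℕ :=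
  (Icc 1 ⌊X ^ κ⌋₊).filter (fun p => p.Prime ∧ D < p)

lemma mem_PK {κ X : ℝ} {D p : ℕ} (hX : 0 < X) : p ∈ PK κ D X ↔ p.Prime ∧ D < p ∧ (p : ℝ) ≤ X ^ κ := by
  unfold PK
  rw [mem_filter, mem_Icc]
  constructor
  · rintro ⟨⟨_, h2⟩, h3, h4⟩
    exact ⟨h3, h4, (Nat.le_floor_iff (by positivity)).1 h2⟩
  · rintro ⟨h1, h2, h3⟩
    exact ⟨⟨h1.one_lt.le, Nat.le_floor h3⟩, h1, h2⟩

lemma card_PK {κ X : ℝ} {D : ℕ} (hX : 0 < X) : ((PK κ D X).card : ℝ) ≤ X ^ κ := by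
  unfold PK
  have h1 := card_filter_le (Icc 1 ⌊X ^ κ⌋₊) (fun p => p.Prime ∧ D < p)
  rw [Nat.card_Icc, Nat.add_sub_cancel] at h1
  calc ((((Icc 1 ⌊X ^ κ⌋₊).filter (fun p => p.Prime ∧ D < p)).card : ℕ) : ℝ) ≤ (⌊X ^ κ⌋₊ : ℝ) := by
        exact_mod_cast h1
    _ ≤ _ := Nat.floor_le (by positivity)

lemma sum_PK {κ τ : ℝ} (hκ : 0 < κ) (hτ' : τ < 1 / 8) (D : ℕ) : ∀ᶠ X : ℝ in atTop,
    ∑ p ∈ PK κ D X, (Real.log p / Lt τ X) ^ 2 / p ≤ 128 * κ ^ 2 := by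
  obtain ⟨C1, hC1⟩ := Pool.Agent.Erdos456.Mert.mertens_log
  filter_upwards [Real.tendsto_log_atTop.eventually_ge_atTop (max 1 (|C1| / κ)),
    eventually_gt_atTop 1] with X hX hX1
  have hl : 1 ≤ Real.log X := (le_max_left _ _).trans hX
  have hX0 : 0 < X := by linarith
  have hlC : |C1| / κ ≤ Real.log X := (le_max_right _ _).trans hX
  have hL : Real.log X / 8 ≤ Lt τ X := by
    unfold Lt
    nlinarith
  have hL0 : 0 < Lt τ X := by linarith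
  have hN1 : 1 ≤ ⌊X ^ κ⌋₊ := by
    apply Nat.le_floor
    rw [Nat.cast_one]
    exact Real.one_le_rpow hX1.le hκ.le
  have h1 := (abs_le.1 (hC1 _ hN1)).2
  have hlogN : Real.log (⌊X ^ κ⌋₊ : ℝ) ≤ κ * Real.log X := by
    have : (⌊X ^ κ⌋₊ : ℝ) ≤ X ^ κ := Nat.floor_le (by positivity)
    have h2 := Real.log_le_log (by exact_mod_cast hN1) this
    rwa [Real.log_rpow hX0] at h2
  have h3 : ∑ p ∈ PK κ D X, Real.log p / p ≤ κ * Real.log X + |C1| := by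
    have h4 : ∑ p ∈ PK κ D X, Real.log p / p ≤ ∑ p ∈ (Icc 1 ⌊X ^ κ⌋₊).filter Nat.Prime, Real.log p / p := by
      apply sum_le_sum_of_subset_of_nonneg
      · intro p hp
        unfold PK at hp
        rw [mem_filter] at hp ⊢
        exact ⟨hp.1, hp.2.1⟩
      · intro p _ _
        exact div_nonneg (Real.log_natCast_nonneg p) (Nat.cast_nonneg p)
    have := le_abs_self C1
    linarith
  have h4 : ∑ p ∈ PK κ D X, (Real.log p / Lt τ X) ^ 2 / p ≤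
      (64 * κ / Real.log X) * ∑ p ∈ PK κ D X, Real.log p / p := by
    rw [mul_sum]
    apply sum_le_sum
    intro p hp
    rw [mem_PK hX0] at hp
    have hp0 : (0:ℝ) < p := by exact_mod_cast hp.1.pos
    have hlp : Real.log p ≤ κ * Real.log X := by
      have := Real.log_le_log hp0 hp.2.2
      rwa [Real.log_rpow hX0] at this
    have hlp0 : 0 ≤ Real.log p := Real.log_natCast_nonneg p
    have h5 : Real.log p / Lt τ X ≤ Real.log p / (Real.log X / 8) :=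
      div_le_div_of_nonneg_left hlp0 (by linarith) hL
    calc (Real.log p / Lt τ X) ^ 2 / p ≤ (Real.log p / (Real.log X / 8)) ^ 2 / p := by gcongr
      _ = 64 * (Real.log p * (Real.log p / p)) / Real.log X ^ 2 := by field_simp; ring
      _ ≤ 64 * ((κ * Real.log X) * (Real.log p / p)) / Real.log X ^ 2 := by gcongr
      _ = _ := by field_simp
  refine h4.trans ?_
  have h5 : |C1| ≤ κ * Real.log X := by
    rw [div_le_iff₀ hκ] at hlC
    linarith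
  calc (64 * κ / Real.log X) * ∑ p ∈ PK κ D X, Real.log p / p ≤
      (64 * κ / Real.log X) * (κ * Real.log X + κ * Real.log X) := by
        apply mul_le_mul_of_nonneg_left _ (by positivity)
        linarith
    _ = 128 * κ ^ 2 := by field_simp; ring

/-- negligible errors -/
lemma err_ev {τ κ : ℝ} (hτ : 0 < τ) (hτ' : τ < 1 / 8) (hκ : 0 < κ) (hκ' : κ < 4 * τ) (D J : ℕ) (C ε : ℝ)
    (hε : 0 < ε) : ∀ᶠ X : ℝ in atTop, X ^ κ * (C * Real.exp (4 * Lt τ X)) ≤ ε * NN τ D X J := by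
  have h1 := err_small (τ := τ - κ / 4) (by linarith) (by linarith) D J (ε / (|C| + 1)) (by positivity)
  filter_upwards [h1, eventually_ge_atTop 40] with X h2 hX
  have hX0 : 0 < X := by linarith
  have hX1 : 1 < X := by linarith
  have hM' := MPhi_ge X hX
  have hM : 0 < MPhi X := by linarith
  have hL := Lt_pos (by linarith : τ < 1 / 4) hX1
  have hL' := Lt_pos (by linarith : τ - κ / 4 < 1 / 4) hX1
  have hLL : Lt τ X ≤ Lt (τ - κ / 4) X := by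
    unfold Lt
    have := Real.log_pos hX1
    nlinarith
  have hW : (0 : ℝ) < WD D := by exact_mod_cast WD_pos D
  have hB := BE_PD_pos D
  have hNN : NN (τ - κ / 4) D X J ≤ NN τ D X J := by
    unfold NN
    apply mul_le_mul_of_nonneg_left _ (by positivity)
    apply pow_le_pow_left₀ (by positivity)
    apply one_div_le_one_div_of_le (by positivity)
    exact mul_le_mul_of_nonneg_right hLL hB.le
  have e1 : X ^ κ * Real.exp (4 * Lt τ X) = Real.exp (4 * Lt (τ - κ / 4) X) := by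
    rw [Real.rpow_def_of_pos hX0, ← Real.exp_add]
    congr 1
    unfold Lt
    ring
  have hC1 : 0 < |C| + 1 := by positivity
  have hE := Real.exp_pos (4 * Lt (τ - κ / 4) X)
  have hNN0 : 0 ≤ NN (τ - κ / 4) D X J := by unfold NN; positivity
  calc X ^ κ * (C * Real.exp (4 * Lt τ X)) = C * (X ^ κ * Real.exp (4 * Lt τ X)) := by ring
    _ = C * Real.exp (4 * Lt (τ - κ / 4) X) := by rw [e1]
    _ ≤ (|C| + 1) * (5 * Real.exp (4 * Lt (τ - κ / 4) X)) := by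
        have := le_abs_self C
        nlinarith
    _ ≤ (|C| + 1) * (ε / (|C| + 1) * NN (τ - κ / 4) D X J) := mul_le_mul_of_nonneg_left h2 hC1.le
    _ = ε * NN (τ - κ / 4) D X J := by field_simp
    _ ≤ ε * NN τ D X J := mul_le_mul_of_nonneg_left hNN hε.le

/-- the form `j` has a prime factor in `(D, X ^ κ]` for some `j` -/
def Bad (κ : ℝ) (D : ℕ) (X : ℝ) {J : ℕ} (A B : Fin J → ℕ) (n : ℕ) : Prop :=
  ∃ j, ∃ p : ℕ, p.Prime ∧ D < p ∧ (p : ℝ) ≤ X ^ κ ∧ p ∣ A j * n + B j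

open Classical in
/-- contribution of the `n` such that some form has a small prime factor -/
theorem nonroughL {K0 N1 M R : ℕ} (hN1 : 0 < N1) (hR : R < 2 * N1) {f : ℕ → ℝ → ℝ} {β : ℝ}
    (hf : Cells N1 M f β) (F : (Fin (K0 + 1) → ℕ) → ℝ) (hF : ∀ c, F c ≠ 0 → rad c ≤ R + 1) :
    ∃ C : ℝ, 0 ≤ C ∧ ∀ τ : ℝ, 0 < τ → τ < 1 / 8 → ∀ κ : ℝ, 0 < κ → κ < 4 * τ →
      ∀ D : ℕ, 32 * (K0 + 1) + 2 ≤ D → ∀ A B : Fin (K0 + 1) → ℕ, SepL D A B → ∀ᶠ X : ℝ in atTop, ∀ a0 : ℕ,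
      ∑ n ∈ Icc 1 ⌊3 * X⌋₊, nu X (WD D) a0 n * (if Bad κ D X A B n then ww τ D X f M F A B n ^ 2 else 0) ≤
        C * κ ^ 2 * NN τ D X (K0 + 1) := by
  have hN : (0 : ℝ) < N1 := by exact_mod_cast hN1
  -- the constants of `stepL`
  have h1 : ∀ (c : Fin (K0 + 1) → ℕ) (j0 : Fin (K0 + 1)), ∃ C : ℝ, 0 ≤ C ∧ (c ∈ Box (K0 + 1) M → F c ≠ 0 →
      ∀ τ : ℝ, 0 < τ → τ < 1 / 8 → ∀ κ : ℝ, 0 < κ → κ < 4 * τ →
      ∀ D : ℕ, 32 * (K0 + 1) + 2 ≤ D → ∀ A B : Fin (K0 + 1) → ℕ, SepL D A B → ∀ᶠ X : ℝ in atTop, ∀ a0 p : ℕ,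
      p.Prime → D < p → (p : ℝ) ≤ X ^ κ →
      ∑ n ∈ Icc 1 ⌊3 * X⌋₊, nu X (WD D) a0 n * (if (p : ℤ) ∣ (A j0 : ℤ) * n + B j0 then
        ∏ j, (vv τ D X (f (c j)) ((A j : ℤ) * n + B j) * vv τ D X (f (c j)) ((A j : ℤ) * n + B j)) else 0) ≤
      NN τ D X (K0 + 1) * (2 ^ (K0 + 1) * C * ((Real.log p / Lt τ X) ^ 2 / p)) +
        5 * 2 ^ (2 * (K0 + 1)) * Real.exp (4 * Lt τ X)) := by
    intro c j0
    by_cases hc : c ∈ Box (K0 + 1) M ∧ F c ≠ 0
    · obtain ⟨C, hC0, hC⟩ := stepL (fun j => f (c j)) (fun j => ((c j : ℝ) + 1) / N1)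
        (fun j => hf.good _ (Lim.mem_Box.1 hc.1 j)) (by
          rw [Lim.sum_len]
          have h2 := hF c hc.2
          rw [div_le_iff₀ hN]
          have h3 : (rad c : ℝ) ≤ R + 1 := by exact_mod_cast h2
          have h4 : (R : ℝ) + 1 ≤ 2 * N1 := by exact_mod_cast hR
          linarith) j0
      exact ⟨C, hC0, fun _ _ => hC⟩
    · exact ⟨0, le_rfl, fun h2 h3 => absurd ⟨h2, h3⟩ hc⟩
  choose Cc hCc0 hCc using h1
  set NB : ℝ := ((Box (K0 + 1) M).card : ℝ) with hNB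
  have hNB0 : 0 ≤ NB := Nat.cast_nonneg _
  set S0 : ℝ := ∑ j0 : Fin (K0 + 1), ∑ c ∈ Box (K0 + 1) M, NB * F c ^ 2 * (2 ^ (K0 + 1) * Cc c j0) with hS0
  have hS00 : 0 ≤ S0 := sum_nonneg fun j _ => sum_nonneg fun c _ => by
    have := hCc0 c j; positivity
  set S1 : ℝ := ∑ j0 : Fin (K0 + 1), ∑ c ∈ Box (K0 + 1) M, NB * F c ^ 2 * (5 * 2 ^ (2 * (K0 + 1))) with hS1
  refine ⟨128 * S0 + 1, by positivity, ?_⟩
  intro τ hτ hτ' κ hκ hκ' D hD A B hsep
  have h2 : ∀ᶠ X : ℝ in atTop, ∀ c ∈ Box (K0 + 1) M, ∀ j0 : Fin (K0 + 1), F c ≠ 0 → ∀ a0 p : ℕ,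
      p.Prime → D < p → (p : ℝ) ≤ X ^ κ →
      ∑ n ∈ Icc 1 ⌊3 * X⌋₊, nu X (WD D) a0 n * (if (p : ℤ) ∣ (A j0 : ℤ) * n + B j0 then
        ∏ j, (vv τ D X (f (c j)) ((A j : ℤ) * n + B j) * vv τ D X (f (c j)) ((A j : ℤ) * n + B j)) else 0) ≤
      NN τ D X (K0 + 1) * (2 ^ (K0 + 1) * Cc c j0 * ((Real.log p / Lt τ X) ^ 2 / p)) +
        5 * 2 ^ (2 * (K0 + 1)) * Real.exp (4 * Lt τ X) := by
    rw [Filter.eventually_all_finset]
    intro c hc
    rw [Filter.eventually_all]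
    intro j0
    by_cases hFc : F c = 0
    · exact Eventually.of_forall fun X h => absurd hFc h
    · filter_upwards [hCc c j0 hc hFc τ hτ hτ' κ hκ hκ' D hD A B hsep] with X hX _ using hX
  filter_upwards [h2, sum_PK hκ hτ' D, err_ev hτ hτ' hκ hκ' D (K0 + 1) S1 (κ ^ 2) (by positivity),
    NN_pos τ (by linarith) D (K0 + 1), eventually_gt_atTop 1] with X hX hX2 hX3 hNN hX1
  intro a0
  have hX0 : 0 < X := by linarith
  have hL := Lt_pos (by linarith : τ < 1 / 4) hX1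
  -- ww²
  have hww : ∀ n : ℕ, ww τ D X f M F A B n ^ 2 ≤ NB * ∑ c ∈ Box (K0 + 1) M, F c ^ 2 *
      ∏ j, (vv τ D X (f (c j)) ((A j : ℤ) * n + B j) * vv τ D X (f (c j)) ((A j : ℤ) * n + B j)) := by
    intro n
    unfold ww
    refine (sq_sum_le_card_mul_sum_sq).trans (le_of_eq ?_)
    congr 1
    apply sum_congr rfl
    intro c _
    rw [mul_pow]
    congr 1
    unfold prodv
    rw [← prod_pow]
    apply prod_congr rfl
    intro j _
    ring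
  have hun : ∀ n ∈ Icc 1 ⌊3 * X⌋₊, nu X (WD D) a0 n * (if Bad κ D X A B n then ww τ D X f M F A B n ^ 2 else 0) ≤
      ∑ j0 : Fin (K0 + 1), ∑ p ∈ PK κ D X, ∑ c ∈ Box (K0 + 1) M, NB * F c ^ 2 *
        (nu X (WD D) a0 n * (if (p : ℤ) ∣ (A j0 : ℤ) * n + B j0 then
        ∏ j, (vv τ D X (f (c j)) ((A j : ℤ) * n + B j) * vv τ D X (f (c j)) ((A j : ℤ) * n + B j)) else 0)) := by
    intro n _
    have hnu := nu_nonneg X (WD D) a0 n
    have hterm : ∀ (j0 : Fin (K0 + 1)) (p : ℕ) (c : Fin (K0 + 1) → ℕ), 0 ≤ NB * F c ^ 2 *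
        (nu X (WD D) a0 n * (if (p : ℤ) ∣ (A j0 : ℤ) * n + B j0 then
        ∏ j, (vv τ D X (f (c j)) ((A j : ℤ) * n + B j) * vv τ D X (f (c j)) ((A j : ℤ) * n + B j)) else 0)) := by
      intro j0 p c
      apply mul_nonneg (by positivity)
      apply mul_nonneg hnu
      split_ifs
      · exact prod_nonneg fun j _ => mul_self_nonneg _
      · exact le_rfl
    by_cases hb : Bad κ D X A B n
    · rw [if_pos hb]
      obtain ⟨j, p, hp, hDp, hpX, hpd⟩ := hb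
      have hpd' : (p : ℤ) ∣ (A j : ℤ) * n + B j := by
        have e : ((A j * n + B j : ℕ) : ℤ) = (A j : ℤ) * n + B j := by push_cast; ring
        rw [← e]
        exact Int.natCast_dvd_natCast.2 hpd
      refine le_trans ?_ (single_le_sum (f := fun j0 : Fin (K0 + 1) => ∑ p ∈ PK κ D X, ∑ c ∈ Box (K0 + 1) M,
        NB * F c ^ 2 * (nu X (WD D) a0 n * (if (p : ℤ) ∣ (A j0 : ℤ) * n + B j0 then
        ∏ j, (vv τ D X (f (c j)) ((A j : ℤ) * n + B j) * vv τ D X (f (c j)) ((A j : ℤ) * n + B j)) else 0)))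
        (fun j0 _ => sum_nonneg fun p _ => sum_nonneg fun c _ => hterm j0 p c) (mem_univ j))
      refine le_trans ?_ (single_le_sum (f := fun p : ℕ => ∑ c ∈ Box (K0 + 1) M,
        NB * F c ^ 2 * (nu X (WD D) a0 n * (if (p : ℤ) ∣ (A j : ℤ) * n + B j then
        ∏ j, (vv τ D X (f (c j)) ((A j : ℤ) * n + B j) * vv τ D X (f (c j)) ((A j : ℤ) * n + B j)) else 0)))
        (fun p _ => sum_nonneg fun c _ => hterm j p c) ((mem_PK hX0).2 ⟨hp, hDp, hpX⟩))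
      simp only [if_pos hpd']
      refine (mul_le_mul_of_nonneg_left (hww n) hnu).trans (le_of_eq ?_)
      rw [mul_sum, mul_sum]
      apply sum_congr rfl
      intro c _
      ring
    · rw [if_neg hb, mul_zero]
      exact sum_nonneg fun j0 _ => sum_nonneg fun p _ => sum_nonneg fun c _ => hterm j0 p c
  refine (sum_le_sum hun).trans ?_
  rw [sum_comm]
  have hj : ∀ j0 : Fin (K0 + 1), ∑ n ∈ Icc 1 ⌊3 * X⌋₊, ∑ p ∈ PK κ D X, ∑ c ∈ Box (K0 + 1) M, NB * F c ^ 2 *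
        (nu X (WD D) a0 n * (if (p : ℤ) ∣ (A j0 : ℤ) * n + B j0 then
        ∏ j, (vv τ D X (f (c j)) ((A j : ℤ) * n + B j) * vv τ D X (f (c j)) ((A j : ℤ) * n + B j)) else 0)) ≤
      NN τ D X (K0 + 1) * (128 * κ ^ 2) * (∑ c ∈ Box (K0 + 1) M, NB * F c ^ 2 * (2 ^ (K0 + 1) * Cc c j0)) +
        X ^ κ * ((∑ c ∈ Box (K0 + 1) M, NB * F c ^ 2 * (5 * 2 ^ (2 * (K0 + 1)))) * Real.exp (4 * Lt τ X)) := by
    intro j0
    rw [sum_comm]
    have hp : ∀ p ∈ PK κ D X, ∑ n ∈ Icc 1 ⌊3 * X⌋₊, ∑ c ∈ Box (K0 + 1) M, NB * F c ^ 2 *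
        (nu X (WD D) a0 n * (if (p : ℤ) ∣ (A j0 : ℤ) * n + B j0 then
        ∏ j, (vv τ D X (f (c j)) ((A j : ℤ) * n + B j) * vv τ D X (f (c j)) ((A j : ℤ) * n + B j)) else 0)) ≤
        NN τ D X (K0 + 1) * (∑ c ∈ Box (K0 + 1) M, NB * F c ^ 2 * (2 ^ (K0 + 1) * Cc c j0)) *
          ((Real.log p / Lt τ X) ^ 2 / p) +
        (∑ c ∈ Box (K0 + 1) M, NB * F c ^ 2 * (5 * 2 ^ (2 * (K0 + 1)))) * Real.exp (4 * Lt τ X) := by
      intro p hp
      have hp' := (mem_PK hX0).1 hp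
      rw [sum_comm, mul_sum, sum_mul, sum_mul, ← sum_add_distrib]
      apply sum_le_sum
      intro c hc
      rw [← mul_sum]
      by_cases hFc : F c = 0
      · rw [hFc]
        simp
      · have h3 := hX c hc j0 hFc a0 p hp'.1 hp'.2.1 hp'.2.2
        refine (mul_le_mul_of_nonneg_left h3 (by positivity)).trans (le_of_eq ?_)
        ring
    refine (sum_le_sum hp).trans ?_
    rw [sum_add_distrib, ← mul_sum, sum_const, nsmul_eq_mul]
    have hsum0 : 0 ≤ ∑ c ∈ Box (K0 + 1) M, NB * F c ^ 2 * (2 ^ (K0 + 1) * Cc c j0) :=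
      sum_nonneg fun c _ => by have := hCc0 c j0; positivity
    have hsum1 : 0 ≤ ∑ c ∈ Box (K0 + 1) M, NB * F c ^ 2 * (5 * 2 ^ (2 * (K0 + 1))) :=
      sum_nonneg fun c _ => by positivity
    apply add_le_add
    · calc NN τ D X (K0 + 1) * (∑ c ∈ Box (K0 + 1) M, NB * F c ^ 2 * (2 ^ (K0 + 1) * Cc c j0)) *
          ∑ p ∈ PK κ D X, (Real.log p / Lt τ X) ^ 2 / p ≤
          NN τ D X (K0 + 1) * (∑ c ∈ Box (K0 + 1) M, NB * F c ^ 2 * (2 ^ (K0 + 1) * Cc c j0)) *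
          (128 * κ ^ 2) := mul_le_mul_of_nonneg_left hX2 (by positivity)
        _ = _ := by ring
    · apply mul_le_mul_of_nonneg_right (card_PK hX0)
      positivity
  refine (sum_le_sum fun j0 _ => hj j0).trans ?_
  rw [sum_add_distrib, ← mul_sum, ← mul_sum, ← sum_mul]
  have e1 : NN τ D X (K0 + 1) * (128 * κ ^ 2) * S0 + κ ^ 2 * NN τ D X (K0 + 1) =
      (128 * S0 + 1) * κ ^ 2 * NN τ D X (K0 + 1) := by ring
  rw [← hS0, ← hS1, ← e1]
  linarith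

end Pool.Agent.X34.E
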