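import Mathlib
import Pool.Agent.X34.E.E2
import Pool.Agent.Y826.ZG.CritL

/-! Engine E (helper34): the criterion with cell-level coefficients, linear forms, with the right order of
magnitude: many integers `n` at which all forms are free of small prime factors and two of them are prime. -/

set_option autoImplicit false

open Finset Filter MeasureTheory
open scoped ContDiff

namespace Pool.Agent.X34.E

open Pool.Agent.H378R2 Pool.Agent.H95R2.BG.LF
open Pool.Agent.H95R2.BG hiding ww zz qq prodv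
open Pool.Agent.Y826.Z (GoodT tp Ev sum_box_A)
open Pool.Agent.Y826.ZG

/-- all forms are free of prime factors `≤ X ^ κ` -/
def RoughL (κ X : ℝ) {J : ℕ} (A B : Fin J → ℕ) (n : ℕ) : Prop :=
  ∀ i, ∀ p : ℕ, p.Prime → (p : ℝ) ≤ X ^ κ → ¬ p ∣ A i * n + B i

open Classical in
/-- the integers `n` in `(X, 3 X]` such that all forms are rough and two of them are prime -/
noncomputable def goodR (κ : ℝ) {J : ℕ} (A B : Fin J → ℕ) (X : ℝ) : Finset ℕ :=
  (Icc 1 ⌊3 * X⌋₊).filter (fun n => X < n ∧ RoughL κ X A B n ∧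
    ∃ i j, i ≠ j ∧ (A i * n + B i).Prime ∧ (A j * n + B j).Prime)

/-- few prime factors -/
lemma omega_le {κ X : ℝ} (hκ : 0 < κ) (hX : 1 < X) {m : ℕ} (hm : 1 ≤ m) (hmX : (m : ℝ) ≤ X ^ 2)
    (hr : ∀ p : ℕ, p.Prime → (p : ℝ) ≤ X ^ κ → ¬ p ∣ m) : m.primeFactors.card ≤ ⌊2 / κ⌋₊ := by
  apply Nat.le_floor
  rw [le_div_iff₀ hκ]
  have hX0 : 0 < X := by linarith
  have h1 : (X ^ κ) ^ m.primeFactors.card ≤ (m : ℝ) := by
    calc (X ^ κ) ^ m.primeFactors.card = ∏ _p ∈ m.primeFactors, X ^ κ := by rw [prod_const]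
      _ ≤ ∏ p ∈ m.primeFactors, (p : ℝ) := by
          apply prod_le_prod (fun _ _ => by positivity)
          intro p hp
          by_contra hc
          push Not at hc
          exact hr p (Nat.prime_of_mem_primeFactors hp) hc.le (Nat.dvd_of_mem_primeFactors hp)
      _ = ((∏ p ∈ m.primeFactors, p : ℕ) : ℝ) := by push_cast; rfl
      _ ≤ (m : ℝ) := by
          have := Nat.le_of_dvd (by omega) (Nat.prod_primeFactors_dvd m)
          exact_mod_cast this
  have h2 : X ^ (κ * m.primeFactors.card) ≤ X ^ (2 : ℝ) := by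
    rw [Real.rpow_mul hX0.le, Real.rpow_natCast]
    refine h1.trans (hmX.trans (le_of_eq ?_))
    norm_cast
  have h3 := (Real.rpow_le_rpow_left_iff hX).1 h2
  linarith

/-- the divisor sums at integers with few prime factors -/
lemma vv_le_omega (τ : ℝ) (D : ℕ) (X : ℝ) (f : ℝ → ℝ) (hf : ∀ x, |f x| ≤ 1) (m r : ℕ) (hm : 1 ≤ m)
    (hr : m.primeFactors.card ≤ r) : |vv τ D X f (m : ℤ)| ≤ 2 ^ r := by
  classical
  unfold vv VVm
  refine (Finset.abs_sum_le_sum_abs _ _).trans ?_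
  have h1 : ∀ d ∈ adm (PD D) (Rt τ X), |if ((d : ℕ) : ℤ) ∣ (m : ℤ) then
      ((ArithmeticFunction.moebius d : ℤ) : ℝ) * f (Real.log d / Lt τ X) else 0| ≤
      if d ∣ m then (1:ℝ) else 0 := by
    intro d _
    by_cases hd : d ∣ m
    · rw [if_pos (Int.natCast_dvd_natCast.2 hd), if_pos hd, abs_mul]
      have h2 : |((ArithmeticFunction.moebius d : ℤ) : ℝ)| ≤ 1 := by
        have := ArithmeticFunction.abs_moebius_le_one (n := d)
        exact_mod_cast this
      calc _ ≤ (1 : ℝ) * 1 := mul_le_mul h2 (hf _) (abs_nonneg _) zero_le_one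
        _ = 1 := by norm_num
    · rw [if_neg (fun h => hd (Int.natCast_dvd_natCast.1 h)), if_neg hd, abs_zero]
  refine (Finset.sum_le_sum h1).trans ?_
  rw [← Finset.sum_filter, Finset.sum_const, nsmul_eq_mul, mul_one]
  have h2 : ((adm (PD D) (Rt τ X)).filter (fun d => d ∣ m)).card ≤ m.primeFactors.powerset.card := by
    apply Finset.card_le_card_of_injOn (fun d => d.primeFactors)
    · intro d hd
      have hd' := (Finset.mem_filter.1 hd).2
      exact Finset.mem_coe.2 (Finset.mem_powerset.2 (Nat.primeFactors_mono hd' (by omega)))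
    · intro d hd e he hde
      have hd' := (mem_adm.1 (Finset.mem_filter.1 hd).1).2.1
      have he' := (mem_adm.1 (Finset.mem_filter.1 he).1).2.1
      simp only at hde
      rw [← Nat.prod_primeFactors_of_squarefree hd', ← Nat.prod_primeFactors_of_squarefree he', hde]
  rw [card_powerset] at h2
  calc (((adm (PD D) (Rt τ X)).filter (fun d => d ∣ m)).card : ℝ) ≤ ((2 ^ m.primeFactors.card : ℕ) : ℝ) := by
        exact_mod_cast h2
    _ ≤ 2 ^ r := by
        push_cast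
        exact pow_le_pow_right₀ (by norm_num) hr

/-- the sieve weight at rough integers is bounded -/
theorem wwR_le {K0 N1 M : ℕ} {f : ℕ → ℝ → ℝ} {β : ℝ} (hf : Cells N1 M f β)
    (F : (Fin (K0 + 1) → ℕ) → ℝ) (κ : ℝ) (hκ : 0 < κ) :
    ∃ C : ℝ, 0 < C ∧ ∀ (τ : ℝ) (D : ℕ) (A B : Fin (K0 + 1) → ℕ), (∀ i, 1 ≤ A i) → ∀ᶠ X : ℝ in atTop, ∀ n : ℕ,
      1 ≤ n → (n : ℝ) ≤ 3 * X → RoughL κ X A B n → ww τ D X f M F A B n ^ 2 ≤ C := by
  set r := ⌊2 / κ⌋₊ with hr
  set S : ℝ := ∑ c ∈ Box (K0 + 1) M, |F c| * (2 ^ r) ^ (K0 + 1) with hS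
  have hS0 : 0 ≤ S := sum_nonneg fun c _ => by positivity
  refine ⟨S ^ 2 + 1, by positivity, fun τ D A B hA => ?_⟩
  obtain ⟨S', hS'⟩ : ∃ S' : ℝ, S' = ((∑ i, A i : ℕ) : ℝ) + ((∑ i, B i : ℕ) : ℝ) := ⟨_, rfl⟩
  have hSA : ∀ i, (A i : ℝ) ≤ ((∑ i, A i : ℕ) : ℝ) := fun i => by
    exact_mod_cast Finset.single_le_sum (f := A) (fun _ _ => Nat.zero_le _) (mem_univ i)
  have hSB : ∀ i, (B i : ℝ) ≤ ((∑ i, B i : ℕ) : ℝ) := fun i => by
    exact_mod_cast Finset.single_le_sum (f := B) (fun _ _ => Nat.zero_le _) (mem_univ i)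
  filter_upwards [eventually_ge_atTop (4 * S'), eventually_gt_atTop 1] with X hX hX1 n hn1 hn3 hrough
  have hX0 : 0 < X := by linarith
  have hvv : ∀ (c : ℕ), c < M → ∀ j : Fin (K0 + 1),
      |vv τ D X (f c) ((A j : ℤ) * n + B j)| ≤ 2 ^ r := by
    intro c hc j
    have hm1 : 1 ≤ A j * n + B j := by
      have := Nat.mul_le_mul (hA j) hn1
      omega
    have h3 : ((A j * n + B j : ℕ) : ℝ) ≤ X ^ 2 := by
      push_cast
      have h4 := hSA j
      have h5 := hSB j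
      have h6 : (0 : ℝ) ≤ A j := Nat.cast_nonneg _
      have h7 : (0 : ℝ) ≤ B j := Nat.cast_nonneg _
      have h8 : (A j : ℝ) * n ≤ A j * (3 * X) := mul_le_mul_of_nonneg_left hn3 h6
      have h9 : (B j : ℝ) * 1 ≤ B j * X := mul_le_mul_of_nonneg_left hX1.le h7
      have h10 : ((A j : ℝ) + B j) * X ≤ S' * X := mul_le_mul_of_nonneg_right (by linarith) hX0.le
      have h11 : 0 ≤ (B j : ℝ) * X := by positivity
      nlinarith
    have h6 : (((A j * n + B j : ℕ) : ℕ) : ℤ) = (A j : ℤ) * n + B j := by push_cast; ring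
    rw [← h6]
    exact vv_le_omega τ D X (f c) (hf.good c hc).bdd _ r hm1 (omega_le hκ hX1 hm1 h3 (hrough j))
  have hprod : ∀ c ∈ Box (K0 + 1) M, |prodv τ D X f A B c n| ≤ (2 ^ r) ^ (K0 + 1) := by
    intro c hc
    unfold prodv
    rw [Finset.abs_prod]
    calc _ ≤ ∏ _j : Fin (K0 + 1), (2 : ℝ) ^ r :=
          Finset.prod_le_prod (fun _ _ => abs_nonneg _) (fun j _ => hvv (c j) (Lim.mem_Box.1 hc j) j)
      _ = _ := by rw [prod_const, card_univ, Fintype.card_fin]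
  have hww : |ww τ D X f M F A B n| ≤ S := by
    unfold ww
    refine (abs_sum_le_sum_abs _ _).trans (sum_le_sum fun c hc => ?_)
    rw [abs_mul]
    exact mul_le_mul_of_nonneg_left (hprod c hc) (abs_nonneg _)
  have h1 : ww τ D X f M F A B n ^ 2 ≤ S ^ 2 := by
    rw [← sq_abs]
    exact pow_le_pow_left₀ (abs_nonneg _) hww 2
  linarith

/-- the criterion, with the right order of magnitude -/
def S_CRITR : Prop := ∀ {K0 N1 M R : ℕ}, 0 < N1 → M ≤ 2 * N1 → R < 2 * N1 →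
    ∀ (F : (Fin (K0 + 1) → ℕ) → ℝ), (∀ c, F c ≠ 0 → rad c ≤ R + 1) →
    ∀ (S : Finset (Fin K0 → ℕ)), S ⊆ Box K0 M → (∀ i, ∀ c ∈ Box K0 M, UU M F i c ≠ 0 → c ∈ S) →
    ∀ (r : ℕ) (μ : Fin r → ℝ), (∀ l, 0 ≤ μ l) → ∀ (α : Fin r → (Fin K0 → ℕ) → ℝ)
      (κ : (Fin K0 → ℕ) → (Fin K0 → ℕ) → ℝ),
    (∀ Y : (Fin K0 → ℕ) → ℝ, ∑ c ∈ S, ∑ c' ∈ S, κ c c' * (Y c * Y c') ≤
      (∑ c ∈ S, Y c) ^ 2 + ∑ l, μ l * (∑ c ∈ S, α l c * Y c) ^ 2) →
    (∀ c ∈ S, ∀ c' ∈ S, κ c c' ≠ 0 → Ev N1 c c') →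
    (4 * N1 * ∑ c ∈ Box (K0 + 1) M, F c ^ 2 <
      ∑ i, ∑ c ∈ S, (κ c c - 4 * ∑ l, μ l * (α l c ^ 2 / (2 - (rad c : ℝ) / N1))) * UU M F i c ^ 2) →
    ∃ k : ℝ, 0 < k ∧ ∀ (A B : Fin (K0 + 1) → ℕ), AdmissibleL A B →
    ∃ c : ℝ, 0 < c ∧ ∀ᶠ X : ℝ in atTop, c * X / Real.log X ^ (K0 + 1) ≤ ((goodR k A B X).card : ℝ)

/-- the criterion with coefficients which depend on the cells, for linear forms, right order -/
theorem critr (hP2 : S_P2L) : S_CRITR := by
  classical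
  intro K0 N1 M R hN1 hM hR F hF S hS hU r μ hμ α κ hpsd hκ hcrit
  -- notation
  set SF : ℝ := ∑ c ∈ Box (K0 + 1) M, F c ^ 2 with hSF
  have hSF0 : 0 ≤ SF := Finset.sum_nonneg fun c _ => sq_nonneg _
  obtain ⟨Sq, hSq⟩ : ∃ Sq : Fin (K0 + 1) → ℝ, ∀ i, Sq i =
      ∑ c ∈ S, κ c c * UU M F i c ^ 2 := ⟨_, fun _ => rfl⟩
  obtain ⟨Sz, hSz⟩ : ∃ Sz : Fin r → Fin (K0 + 1) → ℝ, ∀ l i, Sz l i =
      ∑ c ∈ S, α l c ^ 2 / (2 - (rad c : ℝ) / N1) * UU M F i c ^ 2 :=
    ⟨_, fun _ _ => rfl⟩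
  obtain ⟨Z, hZ⟩ : ∃ Z : ℝ, Z = ∑ i, ∑ l, μ l * Sz l i := ⟨_, rfl⟩
  have hcrit' : N1 * SF + Z < (∑ i, Sq i) / 4 := by
    have h1 : ∀ i, ∑ c ∈ S, (κ c c -
        4 * ∑ l, μ l * (α l c ^ 2 / (2 - (rad c : ℝ) / N1))) * UU M F i c ^ 2 =
        Sq i - 4 * ∑ l, μ l * Sz l i := by
      intro i
      simp only [sub_mul, Finset.sum_sub_distrib, hSq i, hSz]
      congr 1
      simp only [Finset.mul_sum, Finset.sum_mul]
      rw [Finset.sum_comm]
      refine Finset.sum_congr rfl fun l _ => Finset.sum_congr rfl fun c _ => ?_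
      ring
    rw [Finset.sum_congr rfl fun i _ => h1 i, Finset.sum_sub_distrib, ← Finset.mul_sum, ← hZ] at hcrit
    linarith
  -- choice of κ₀
  obtain ⟨κ₀, hκ0, hκ₀⟩ : ∃ κ₀ : ℝ, 0 < κ₀ ∧ (1 + κ₀) * (N1 * SF + Z) < (∑ i, Sq i) / 4 := by
    have hc : Continuous fun x : ℝ => (1 + x) * (N1 * SF + Z) := by fun_prop
    have h1 : ∀ᶠ x in nhds (0 : ℝ), (1 + x) * (N1 * SF + Z) < (∑ i, Sq i) / 4 := by
      have h2 := hc.tendsto 0
      simp only [add_zero, one_mul] at h2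
      exact h2.eventually_lt_const hcrit'
    have h3 : ∀ᶠ x in nhdsWithin (0 : ℝ) (Set.Ioi 0), (1 + x) * (N1 * SF + Z) < (∑ i, Sq i) / 4 :=
      h1.filter_mono nhdsWithin_le_nhds
    obtain ⟨x, hx1, hx2⟩ := (h3.and self_mem_nhdsWithin).exists
    exact ⟨x, hx2, hx1⟩
  obtain ⟨f, β, hf, hβ⟩ := cells_exist N1 M hN1 hM κ₀ hκ0
  obtain ⟨ψ, hψ⟩ := psis_exist N1 hN1 κ₀ hκ0
  have hβ0 : 0 < β := hf.pos
  have hB0 : 0 < β ^ K0 := pow_pos hβ0 _
  -- choice of δ
  obtain ⟨δ, hδ, hδ8, hδg⟩ : ∃ δ : ℝ, 0 < δ ∧ δ < 1 / 8 ∧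
      (1 + δ) * (β ^ (K0 + 1) * SF + δ) +
        (1 + δ) * (∑ i, ∑ l, μ l * (β ^ K0 * ((1 + κ₀) * Sz l i) + δ)) <
      ∑ i, ((1 / 4 - δ) * (β ^ K0 * Sq i) - δ) := by
    have hc1 : Continuous fun x : ℝ => (1 + x) * (β ^ (K0 + 1) * SF + x) +
        (1 + x) * (∑ i, ∑ l, μ l * (β ^ K0 * ((1 + κ₀) * Sz l i) + x)) := by fun_prop
    have hc2 : Continuous fun x : ℝ => ∑ i, ((1 / 4 - x) * (β ^ K0 * Sq i) - x) := by fun_prop
    have h0 : (1 + (0 : ℝ)) * (β ^ (K0 + 1) * SF + 0) +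
        (1 + (0 : ℝ)) * (∑ i, ∑ l, μ l * (β ^ K0 * ((1 + κ₀) * Sz l i) + 0)) <
        ∑ i, ((1 / 4 - (0 : ℝ)) * (β ^ K0 * Sq i) - 0) := by
      have e1 : ∑ i, ∑ l, μ l * (β ^ K0 * ((1 + κ₀) * Sz l i) + 0) = β ^ K0 * ((1 + κ₀) * Z) := by
        rw [hZ]
        simp only [Finset.mul_sum]
        refine Finset.sum_congr rfl fun i _ => Finset.sum_congr rfl fun l _ => ?_
        ring
      have e2 : ∑ i, ((1 / 4 - (0 : ℝ)) * (β ^ K0 * Sq i) - 0) = β ^ K0 * ((∑ i, Sq i) / 4) := by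
        rw [Finset.sum_div, Finset.mul_sum]
        refine Finset.sum_congr rfl fun i _ => ?_
        ring
      rw [e1, e2, pow_succ]
      have h1 : β * SF ≤ (1 + κ₀) * N1 * SF := mul_le_mul_of_nonneg_right hβ hSF0
      have h2 : β * SF + (1 + κ₀) * Z < (∑ i, Sq i) / 4 := by
        calc β * SF + (1 + κ₀) * Z ≤ (1 + κ₀) * N1 * SF + (1 + κ₀) * Z := by linarith
          _ = (1 + κ₀) * (N1 * SF + Z) := by ring
          _ < _ := hκ₀
      have h3 := mul_lt_mul_of_pos_left h2 hB0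
      calc (1 + (0 : ℝ)) * (β ^ K0 * β * SF + 0) + (1 + (0 : ℝ)) * (β ^ K0 * ((1 + κ₀) * Z))
          = β ^ K0 * (β * SF + (1 + κ₀) * Z) := by ring
        _ < _ := h3
    have h1 := (hc1.tendsto 0).eventually_lt (hc2.tendsto 0) h0
    have h3 := h1.filter_mono (nhdsWithin_le_nhds (s := Set.Ioi (0 : ℝ)))
    have h4 : ∀ᶠ x in nhdsWithin (0 : ℝ) (Set.Ioi 0), x < 1 / 8 :=
      (gt_mem_nhds (by norm_num : (0 : ℝ) < 1 / 8)).filter_mono nhdsWithin_le_nhds
    obtain ⟨x, ⟨hx1, hx2⟩, hx3⟩ := ((h3.and h4).and self_mem_nhdsWithin).exists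
    exact ⟨x, hx3, hx2, hx1⟩
  obtain ⟨gap, hgap⟩ : ∃ gap : ℝ, gap = ∑ i, ((1 / 4 - δ) * (β ^ K0 * Sq i) - δ) -
    ((1 + δ) * (β ^ (K0 + 1) * SF + δ) +
        (1 + δ) * (∑ i, ∑ l, μ l * (β ^ K0 * ((1 + κ₀) * Sz l i) + δ))) := ⟨_, rfl⟩
  have hgap0 : 0 < gap := by rw [hgap]; linarith
  -- choice of the roughness
  obtain ⟨Cn, hCn0, hCn⟩ := nonroughL hN1 hR hf F hF
  have hK1 : (0 : ℝ) < ((K0 + 1 : ℕ) : ℝ) := by positivity
  obtain ⟨k, hk0, hk4, hkg⟩ : ∃ k : ℝ, 0 < k ∧ k < 4 * δ ∧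
      (((K0 + 1 : ℕ) : ℝ) * (1 + δ)) * (Cn * k ^ 2) ≤ gap / 2 := by
    have hc : Continuous fun x : ℝ => (((K0 + 1 : ℕ) : ℝ) * (1 + δ)) * (Cn * x ^ 2) := by fun_prop
    have h1 : ∀ᶠ x in nhds (0 : ℝ), (((K0 + 1 : ℕ) : ℝ) * (1 + δ)) * (Cn * x ^ 2) < gap / 2 := by
      have h2 := hc.tendsto 0
      simp only [ne_eq, OfNat.ofNat_ne_zero, not_false_eq_true, zero_pow, mul_zero] at h2
      exact h2.eventually_lt_const (by linarith)
    have h3 := h1.filter_mono (nhdsWithin_le_nhds (s := Set.Ioi (0 : ℝ)))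
    have h4 : ∀ᶠ x in nhdsWithin (0 : ℝ) (Set.Ioi 0), x < 4 * δ :=
      (gt_mem_nhds (by linarith : (0 : ℝ) < 4 * δ)).filter_mono nhdsWithin_le_nhds
    obtain ⟨x, ⟨hx1, hx2⟩, hx3⟩ := ((h3.and h4).and self_mem_nhdsWithin).exists
    exact ⟨x, hx3, hx2, hx1.le⟩
  obtain ⟨CR, hCR0, hCR⟩ := wwR_le hf F k hk0
  refine ⟨k, hk0, ?_⟩
  intro A B hadm
  -- choice of D
  obtain ⟨D1, hD1⟩ := lim_wwL hN1 hM hR hf F hF δ hδ hδ8 δ hδ
  obtain ⟨D2, hD2⟩ := lim_qq_cL hP2 hN1 hf F S hS κ hκ δ hδ hδ8 δ hδ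
  choose D3 hD3 using fun l => lim_zz_cL hR hf hψ F hF S hS (α l) δ hδ hδ8 δ hδ
  obtain ⟨D, hD⟩ : ∃ D, D = D1 + D2 + ∑ l, D3 l + (∑ i, ∑ j, A i * B j + ∑ i, A i) +
    (32 * (K0 + 1) + 2) := ⟨_, rfl⟩
  have hDl : ∀ l, D3 l ≤ D := by
    intro l
    have : D3 l ≤ ∑ l, D3 l := Finset.single_le_sum (f := D3) (fun _ _ => Nat.zero_le _) (mem_univ l)
    omega
  have hsep : SepL D A B := critL_sep A B hadm.1 hadm.2.1 D (by omega)
  obtain ⟨a, ha⟩ := critL_class A B hadm.2.2 D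
  obtain ⟨a0, ha0⟩ : ∃ a0 : ℕ, a0 = ∑ i, A i := ⟨_, rfl⟩
  have hAa0 : ∀ i, A i ≤ a0 := fun i => by
    rw [ha0]; exact Finset.single_le_sum (f := A) (fun _ _ => Nat.zero_le _) (mem_univ i)
  have ha01 : 1 ≤ a0 := (hadm.1 0).trans (hAa0 0)
  have ha01' : (1 : ℝ) ≤ a0 := by exact_mod_cast ha01
  have hWD : (0 : ℝ) < WD D := by exact_mod_cast WD_pos D
  have hBD := BE_PD_pos D
  have hBD1 := BE_PD_le_one D
  obtain ⟨c3, hc3⟩ : ∃ c3 : ℝ, c3 = gap / 2 / (((K0 + 1 : ℕ) : ℝ) * (1 + δ) * CR) := ⟨_, rfl⟩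
  have hc30 : 0 < c3 := by rw [hc3]; positivity
  refine ⟨c3 * (1 / (20 * WD D)), by positivity, ?_⟩
  have evP := pointwise_cL hR hf hψ F hF S hS hU r μ hμ α κ hpsd δ hδ hδ8 D A B hadm.1 a0 hAa0
  have evW := hD1 D (by omega) A B hsep a
  have evQ : ∀ᶠ X : ℝ in atTop, ∀ i, _ :=
    eventually_all.2 fun i => hD2 D (by omega) A B hsep i a (ha i)
  have evZ : ∀ᶠ X : ℝ in atTop, ∀ i l, _ :=
    eventually_all.2 fun i => eventually_all.2 fun l => hD3 l D (hDl l) A B hsep i a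
  have evN := NN_pos δ (by linarith) D (K0 + 1)
  have evL := critL_log a0 ha01 δ hδ
  have evU := hCR δ D A B hadm.1
  have evR := hCn δ hδ hδ8 k hk0 hk4 D (by omega) A B hsep
  have evB : ∀ᶠ X : ℝ in atTop, ((∑ i, B i : ℕ) : ℝ) + 40 ≤ X := eventually_ge_atTop _
  filter_upwards [evP, evW, evQ, evZ, evN, evL, evU, evR, evB] with X hP hW hQ hZZ hN hL hU hRR hB
  have hB0' : (0 : ℝ) ≤ ((∑ i, B i : ℕ) : ℝ) := Nat.cast_nonneg _
  have hX3 : (40 : ℝ) ≤ X := by linarith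
  have hX0 : 0 < X := by linarith
  have hlogX : 0 < Real.log X := Real.log_pos (by linarith)
  have h4X : (1 : ℝ) ≤ 4 * a0 * X := by nlinarith
  have hlog4 : 0 ≤ Real.log (4 * a0 * X) := Real.log_nonneg h4X
  obtain ⟨LG, hLG⟩ : ∃ LG : ℝ, LG = Real.log (4 * a0 * X) := ⟨_, rfl⟩
  rw [← hLG] at hlog4 hL
  obtain ⟨CC, hCC⟩ : ∃ CC : ℝ, CC = ((K0 + 1 : ℕ) : ℝ) * LG * CR := ⟨_, rfl⟩
  have hCC0 : 0 ≤ CC := by rw [hCC]; positivity
  -- the pointwise inequality, summed over i and multiplied by ν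
  have hpt : ∀ n ∈ Icc 1 ⌊3 * X⌋₊,
      ∑ i, (nu X (WD D) a n * (th (A i * n + B i) * qqcL δ D X f M F A B i S κ n) -
        LG * ∑ l, μ l * (nu X (WD D) a n * zzcL δ D X f ψ M F A B i S (α l) n ^ 2)) ≤
      LG * (nu X (WD D) a n * ww δ D X f M F A B n ^ 2) +
        (if n ∈ goodR k A B X then CC else 0) +
        (((K0 + 1 : ℕ) : ℝ) * LG) * (nu X (WD D) a n * (if Bad k D X A B n then ww δ D X f M F A B n ^ 2 else 0)) := by
    intro n hn
    have hn1 : 1 ≤ n := (Finset.mem_Icc.1 hn).1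
    have hn3 : (n : ℝ) ≤ 3 * X := by
      have := (Finset.mem_Icc.1 hn).2
      exact (Nat.le_floor_iff (by linarith)).1 this
    have hite : 0 ≤ (if n ∈ goodR k A B X then CC else 0) := by
      split_ifs
      · exact hCC0
      · exact le_rfl
    have hnu := nu_nonneg X (WD D) a n
    have hbt : 0 ≤ (((K0 + 1 : ℕ) : ℝ) * LG) * (nu X (WD D) a n *
        (if Bad k D X A B n then ww δ D X f M F A B n ^ 2 else 0)) := by
      apply mul_nonneg (by positivity)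
      apply mul_nonneg hnu
      split_ifs
      · exact sq_nonneg _
      · exact le_rfl
    by_cases hnX : (n : ℝ) ≤ X
    · have h0 : nu X (WD D) a n = 0 := by
        unfold nu
        split_ifs
        · apply Phi_eq_zero_of_le (by positivity)
          rw [div_le_one hX0]; exact hnX
        · rfl
      simp only [h0, zero_mul, mul_zero, Finset.sum_const_zero, sub_zero, zero_add, add_zero]
      exact hite
    · push Not at hnX
      by_cases hna : n ≡ a [MOD WD D]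
      swap
      · have h0 : nu X (WD D) a n = 0 := by
          unfold nu
          rw [if_neg hna]
        simp only [h0, zero_mul, mul_zero, Finset.sum_const_zero, sub_zero, zero_add, add_zero]
        exact hite
      have hnu1 : nu X (WD D) a n ≤ 1 := by
        unfold nu
        rw [if_pos hna]
        exact Phi_le_one _
      have hthi : ∀ i, th (A i * n + B i) ≤ LG := by
        intro i
        unfold th
        split_ifs with hp
        · rw [hLG]
          apply Real.log_le_log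
          · have := hp.pos
            exact_mod_cast this
          · have h1 : B i ≤ ∑ i, B i :=
              Finset.single_le_sum (f := B) (fun _ _ => Nat.zero_le _) (mem_univ i)
            have h2 : (B i : ℝ) ≤ ((∑ i, B i : ℕ) : ℝ) := by exact_mod_cast h1
            have h3 : (A i : ℝ) ≤ a0 := by exact_mod_cast hAa0 i
            have h5 : (A i : ℝ) * n ≤ a0 * (3 * X) :=
              mul_le_mul h3 hn3 (Nat.cast_nonneg _) (Nat.cast_nonneg _)
            have h6 : 1 * X ≤ (a0 : ℝ) * X := mul_le_mul_of_nonneg_right ha01' hX0.le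
            have h7 : ((A i * n + B i : ℕ) : ℝ) = (A i : ℝ) * n + B i := by push_cast; ring
            rw [h7]
            linarith
        · exact hlog4
      have hww0 : 0 ≤ nu X (WD D) a n * ww δ D X f M F A B n ^ 2 :=
        mul_nonneg hnu (sq_nonneg _)
      have h1 : ∑ i, th (A i * n + B i) ≤ ((K0 + 1 : ℕ) : ℝ) * LG := by
        calc _ ≤ ∑ _i : Fin (K0 + 1), LG := Finset.sum_le_sum fun i _ => hthi i
          _ = _ := by rw [Finset.sum_const, Finset.card_univ, Fintype.card_fin, nsmul_eq_mul]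
      have hth : (∑ i, th (A i * n + B i)) * (nu X (WD D) a n * ww δ D X f M F A B n ^ 2) ≤
          LG * (nu X (WD D) a n * ww δ D X f M F A B n ^ 2) +
            (if n ∈ goodR k A B X then CC else 0) +
            (((K0 + 1 : ℕ) : ℝ) * LG) * (nu X (WD D) a n *
              (if Bad k D X A B n then ww δ D X f M F A B n ^ 2 else 0)) := by
        by_cases hbad : Bad k D X A B n
        · rw [if_pos hbad]
          have h4 : 0 ≤ LG * (nu X (WD D) a n * ww δ D X f M F A B n ^ 2) := mul_nonneg hlog4 hww0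
          have h5 := mul_le_mul_of_nonneg_right h1 hww0
          linarith
        · rw [if_neg hbad, mul_zero, mul_zero, add_zero]
          by_cases hg : ∃ i j, i ≠ j ∧ (A i * n + B i).Prime ∧ (A j * n + B j).Prime
          · have hrough : RoughL k X A B n := by
              intro i p hp hpX hpd
              by_cases hDp : D < p
              · exact hbad ⟨i, p, hp, hDp, hpX, hpd⟩
              · have hpW : p ∣ WD D := (prime_dvd_WD hp).2 (mem_PD' hp (by omega))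
                have h2 : A i * n + B i ≡ A i * a + B i [MOD p] :=
                  ((hna.of_dvd hpW).mul_left (A i)).add_right (B i)
                have h3 : p ∣ A i * a + B i := (Nat.ModEq.dvd_iff h2 (dvd_refl p)).1 hpd
                have h4 := Nat.dvd_gcd h3 hpW
                rw [(ha i)] at h4
                exact hp.one_lt.ne' (Nat.dvd_one.1 h4)
            have hgood : n ∈ goodR k A B X := by
              unfold goodR
              rw [Finset.mem_filter]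
              exact ⟨hn, hnX, hrough, hg⟩
            rw [if_pos hgood]
            have h2 : nu X (WD D) a n * ww δ D X f M F A B n ^ 2 ≤ CR := by
              calc _ ≤ 1 * ww δ D X f M F A B n ^ 2 :=
                    mul_le_mul_of_nonneg_right hnu1 (sq_nonneg _)
                _ = ww δ D X f M F A B n ^ 2 := one_mul _
                _ ≤ _ := hU n hn1 hn3 hrough
            have h3 : (∑ i, th (A i * n + B i)) * (nu X (WD D) a n * ww δ D X f M F A B n ^ 2) ≤ CC := by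
              rw [hCC]
              exact mul_le_mul h1 h2 hww0 (by positivity)
            have h4 : 0 ≤ LG * (nu X (WD D) a n * ww δ D X f M F A B n ^ 2) :=
              mul_nonneg hlog4 hww0
            linarith
          · have h5 : (∑ i, th (A i * n + B i)) * (nu X (WD D) a n * ww δ D X f M F A B n ^ 2) ≤
                LG * (nu X (WD D) a n * ww δ D X f M F A B n ^ 2) := by
              refine mul_le_mul_of_nonneg_right ?_ hww0
              apply critL_sum_th (fun i => A i * n + B i) LG hlog4 _ hthi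
              intro i j hij hi hj
              exact hg ⟨i, j, hij, hi, hj⟩
            linarith
      calc ∑ i, (nu X (WD D) a n * (th (A i * n + B i) * qqcL δ D X f M F A B i S κ n) -
            LG * ∑ l, μ l * (nu X (WD D) a n * zzcL δ D X f ψ M F A B i S (α l) n ^ 2))
          = ∑ i, nu X (WD D) a n * (th (A i * n + B i) * qqcL δ D X f M F A B i S κ n -
            LG * ∑ l, μ l * zzcL δ D X f ψ M F A B i S (α l) n ^ 2) := by
            refine Finset.sum_congr rfl fun i _ => ?_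
            have : ∑ l, μ l * (nu X (WD D) a n * zzcL δ D X f ψ M F A B i S (α l) n ^ 2) =
                nu X (WD D) a n * ∑ l, μ l * zzcL δ D X f ψ M F A B i S (α l) n ^ 2 := by
              rw [Finset.mul_sum]
              refine Finset.sum_congr rfl fun l _ => ?_
              ring
            rw [this]; ring
        _ ≤ ∑ i, nu X (WD D) a n * (th (A i * n + B i) * ww δ D X f M F A B n ^ 2) := by
            refine Finset.sum_le_sum fun i _ => ?_
            rw [hLG]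
            exact mul_le_mul_of_nonneg_left (hP n hnX hn3 i) hnu
        _ = (∑ i, th (A i * n + B i)) * (nu X (WD D) a n * ww δ D X f M F A B n ^ 2) := by
            rw [Finset.sum_mul]
            refine Finset.sum_congr rfl fun i _ => ?_
            ring
        _ ≤ _ := hth
  have hsum := Finset.sum_le_sum hpt
  rw [Finset.sum_add_distrib, Finset.sum_add_distrib, ← Finset.mul_sum, ← Finset.mul_sum,
    Finset.sum_comm] at hsum
  have hcard : ∑ n ∈ Icc 1 ⌊3 * X⌋₊, (if n ∈ goodR k A B X then CC else 0) ≤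
      CC * ((goodR k A B X).card : ℝ) := by
    rw [← Finset.sum_filter, Finset.sum_const, nsmul_eq_mul, mul_comm]
    refine mul_le_mul_of_nonneg_left ?_ hCC0
    have : ((Icc 1 ⌊3 * X⌋₊).filter (fun n => n ∈ goodR k A B X)).card ≤
        (goodR k A B X).card :=
      Finset.card_le_card fun n hn => (Finset.mem_filter.1 hn).2
    exact_mod_cast this
  -- abbreviations
  obtain ⟨N, hNdef⟩ : ∃ N : ℝ, N = NN δ D X (K0 + 1) := ⟨_, rfl⟩
  obtain ⟨G, hG⟩ : ∃ G : ℝ, G = ((goodR k A B X).card : ℝ) := ⟨_, rfl⟩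
  have hG0 : 0 ≤ G := by rw [hG]; exact Nat.cast_nonneg _
  obtain ⟨AA, hA⟩ : ∃ AA : ℝ, AA = ∑ n ∈ Icc 1 ⌊3 * X⌋₊,
      nu X (WD D) a n * ww δ D X f M F A B n ^ 2 := ⟨_, rfl⟩
  obtain ⟨AB, hAB⟩ : ∃ AB : ℝ, AB = ∑ n ∈ Icc 1 ⌊3 * X⌋₊,
      nu X (WD D) a n * (if Bad k D X A B n then ww δ D X f M F A B n ^ 2 else 0) := ⟨_, rfl⟩
  obtain ⟨Q, hQd⟩ : ∃ Q : Fin (K0 + 1) → ℝ, ∀ i, Q i = ∑ n ∈ Icc 1 ⌊3 * X⌋₊,
      nu X (WD D) a n * (th (A i * n + B i) * qqcL δ D X f M F A B i S κ n) := ⟨_, fun _ => rfl⟩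
  obtain ⟨V, hV⟩ : ∃ V : Fin (K0 + 1) → Fin r → ℝ, ∀ i l, V i l = ∑ n ∈ Icc 1 ⌊3 * X⌋₊,
      nu X (WD D) a n * zzcL δ D X f ψ M F A B i S (α l) n ^ 2 := ⟨_, fun _ _ => rfl⟩
  rw [← hA, ← hAB] at hsum
  rw [← hG] at hcard
  have hA0 : 0 ≤ AA := by
    rw [hA]
    exact Finset.sum_nonneg fun n _ => mul_nonneg (nu_nonneg _ _ _ _) (sq_nonneg _)
  have hV0 : ∀ i l, 0 ≤ V i l := by
    intro i l
    rw [hV]
    exact Finset.sum_nonneg fun n _ => mul_nonneg (nu_nonneg _ _ _ _) (sq_nonneg _)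
  have hsum2 : ∑ i, (Q i - LG * ∑ l, μ l * V i l) ≤ LG * AA + CC * G + (((K0 + 1 : ℕ) : ℝ) * LG) * AB := by
    refine le_trans (le_of_eq ?_) (hsum.trans (by linarith))
    refine Finset.sum_congr rfl fun i _ => ?_
    rw [Finset.sum_sub_distrib, hQd i, ← Finset.mul_sum, Finset.sum_comm]
    congr 2
    refine Finset.sum_congr rfl fun l _ => ?_
    rw [hV, Finset.mul_sum]
  rw [← hNdef] at hN
  have hW' : AA ≤ N * (β ^ (K0 + 1) * SF + δ) := by rw [hA, hNdef]; exact hW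
  have hAB' : AB ≤ Cn * k ^ 2 * N := by rw [hAB, hNdef]; exact hRR a
  have hQ' : ∀ i, N * Real.log X * ((1 / 4 - δ) * (β ^ K0 * Sq i) - δ) ≤ Q i := by
    intro i; rw [hNdef, hSq i, hQd i]; exact hQ i
  have hZ' : ∀ i l, V i l ≤ N * (β ^ K0 * ((1 + κ₀) * Sz l i) + δ) := by
    intro i l; rw [hNdef, hSz l i, hV i l]; exact hZZ i l
  have hNL : 0 < N * Real.log X := mul_pos hN hlogX
  have h1 : LG * AA ≤ N * Real.log X * ((1 + δ) * (β ^ (K0 + 1) * SF + δ)) := by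
    calc LG * AA ≤ ((1 + δ) * Real.log X) * AA := mul_le_mul_of_nonneg_right hL hA0
      _ ≤ ((1 + δ) * Real.log X) * (N * (β ^ (K0 + 1) * SF + δ)) :=
        mul_le_mul_of_nonneg_left hW' (by positivity)
      _ = _ := by ring
  have h2 : ∀ i l, LG * (μ l * V i l) ≤
      N * Real.log X * ((1 + δ) * (μ l * (β ^ K0 * ((1 + κ₀) * Sz l i) + δ))) := by
    intro i l
    have hm := mul_nonneg (hμ l) (hV0 i l)
    calc LG * (μ l * V i l) ≤ ((1 + δ) * Real.log X) * (μ l * V i l) :=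
          mul_le_mul_of_nonneg_right hL hm
      _ ≤ ((1 + δ) * Real.log X) * (μ l * (N * (β ^ K0 * ((1 + κ₀) * Sz l i) + δ))) :=
        mul_le_mul_of_nonneg_left (mul_le_mul_of_nonneg_left (hZ' i l) (hμ l)) (by positivity)
      _ = _ := by ring
  have h3 : N * Real.log X * ∑ i, ((1 / 4 - δ) * (β ^ K0 * Sq i) - δ) ≤ ∑ i, Q i := by
    rw [Finset.mul_sum]
    exact Finset.sum_le_sum fun i _ => hQ' i
  have h4 : ∑ i, (LG * ∑ l, μ l * V i l) ≤
      N * Real.log X * ((1 + δ) * ∑ i, ∑ l, μ l * (β ^ K0 * ((1 + κ₀) * Sz l i) + δ)) := by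
    rw [Finset.mul_sum, Finset.mul_sum]
    refine Finset.sum_le_sum fun i _ => ?_
    rw [Finset.mul_sum, Finset.mul_sum, Finset.mul_sum]
    exact Finset.sum_le_sum fun l _ => h2 i l
  have hBB : (((K0 + 1 : ℕ) : ℝ) * LG) * AB ≤ N * Real.log X * (gap / 2) := by
    have h5 : (((K0 + 1 : ℕ) : ℝ) * LG) * AB ≤ (((K0 + 1 : ℕ) : ℝ) * LG) * (Cn * k ^ 2 * N) :=
      mul_le_mul_of_nonneg_left hAB' (by positivity)
    have h6 : (((K0 + 1 : ℕ) : ℝ) * LG) * (Cn * k ^ 2 * N) ≤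
        (((K0 + 1 : ℕ) : ℝ) * ((1 + δ) * Real.log X)) * (Cn * k ^ 2 * N) := by
      apply mul_le_mul_of_nonneg_right _ (by positivity)
      exact mul_le_mul_of_nonneg_left hL hK1.le
    have h7 : (((K0 + 1 : ℕ) : ℝ) * ((1 + δ) * Real.log X)) * (Cn * k ^ 2 * N) =
        N * Real.log X * ((((K0 + 1 : ℕ) : ℝ) * (1 + δ)) * (Cn * k ^ 2)) := by ring
    have h8 := mul_le_mul_of_nonneg_left hkg hNL.le
    linarith
  rw [Finset.sum_sub_distrib] at hsum2
  have h5 : N * Real.log X * (gap / 2) ≤ CC * G := by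
    have e : N * Real.log X * gap = N * Real.log X * (gap / 2) + N * Real.log X * (gap / 2) := by ring
    have e2 : N * Real.log X * gap ≤ CC * G + (((K0 + 1 : ℕ) : ℝ) * LG) * AB := by
      rw [hgap, mul_sub, mul_add]
      linarith
    linarith
  -- the lower bound for the number of good integers
  have h6 : CC ≤ (((K0 + 1 : ℕ) : ℝ) * (1 + δ)) * CR * Real.log X := by
    rw [hCC]
    calc ((K0 + 1 : ℕ) : ℝ) * LG * CR ≤ ((K0 + 1 : ℕ) : ℝ) * ((1 + δ) * Real.log X) * CR :=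
          mul_le_mul_of_nonneg_right (mul_le_mul_of_nonneg_left hL hK1.le) hCR0.le
      _ = _ := by ring
  have h7 : N * (gap / 2) * Real.log X ≤ (((K0 + 1 : ℕ) : ℝ) * (1 + δ)) * CR * G * Real.log X := by
    calc N * (gap / 2) * Real.log X = N * Real.log X * (gap / 2) := by ring
      _ ≤ CC * G := h5
      _ ≤ ((((K0 + 1 : ℕ) : ℝ) * (1 + δ)) * CR * Real.log X) * G :=
        mul_le_mul_of_nonneg_right h6 hG0
      _ = _ := by ring
  have h8 : N * (gap / 2) ≤ (((K0 + 1 : ℕ) : ℝ) * (1 + δ)) * CR * G :=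
    le_of_mul_le_mul_right h7 hlogX
  have h9 : N * c3 ≤ G := by
    rw [hc3, ← mul_div_assoc, div_le_iff₀ (by positivity)]
    linarith
  have h10 : (1 / (20 * WD D)) * X / Real.log X ^ (K0 + 1) ≤ N := by
    rw [hNdef]
    unfold NN
    have hM := MPhi_ge X hX3
    have hLt := Lt_pos (by linarith : δ < 1 / 4) (by linarith : 1 < X)
    have hLB : Lt δ X * BE (PD D) ≤ Real.log X := by
      have h11 : Lt δ X ≤ Real.log X := by unfold Lt; nlinarith
      nlinarith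
    calc (1 / (20 * WD D)) * X / Real.log X ^ (K0 + 1) =
        X / 20 * (1 / (WD D : ℝ)) * (1 / Real.log X) ^ (K0 + 1) := by
          rw [one_div_pow]; field_simp
      _ ≤ MPhi X * (1 / (WD D : ℝ)) * (1 / (Lt δ X * BE (PD D))) ^ (K0 + 1) := by
          have h12 : 1 / Real.log X ≤ 1 / (Lt δ X * BE (PD D)) :=
            one_div_le_one_div_of_le (by positivity) hLB
          have h13 : 0 < 1 / Real.log X := by positivity
          have h14 : 0 < MPhi X := by linarith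
          apply mul_le_mul _ (pow_le_pow_left₀ h13.le h12 _) (by positivity) (by positivity)
          exact mul_le_mul_of_nonneg_right hM (by positivity)
  rw [← hG]
  calc c3 * (1 / (20 * WD D)) * X / Real.log X ^ (K0 + 1) =
      ((1 / (20 * WD D)) * X / Real.log X ^ (K0 + 1)) * c3 := by ring
    _ ≤ N * c3 := mul_le_mul_of_nonneg_right h10 hc30.le
    _ ≤ G := h9

end Pool.Agent.X34.E
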