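import Mathlib
import Pool.Agent.X34.E.E3
import Pool.Agent.Y827.RO.NarA

/-! Engine E (helper34): narrow progressions in every set of rough integers of the right order of magnitude. -/

set_option autoImplicit false

open Finset Filter

namespace Pool.Agent.X34.E

open Pool.Agent.H95R2.BG.LF
open Pool.Agent.Y677.RSZ (InProg Outside)
open Pool.Agent.Y827.RO (pig inside)

open Classical in
/-- narrow progressions in every set of rough integers of the right order of magnitude -/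
theorem narrowing {K : ℕ} (hK : 0 < K) (A B : Fin K → ℕ) (hadm : AdmissibleL A B) (κ c : ℝ) (hκ : 0 < κ)
    (hc : 0 < c) (l₀ : ℕ) : ∃ C : ℕ, ∀ᶠ X : ℕ in atTop, ∀ S : Set ℕ, (∀ n ∈ S, RoughL κ X A B n) →
      c * X / Real.log X ^ K ≤ (Pool.Agent.TH977.PW.N S X (3 * X) : ℝ) →
      ∃ d : ℕ, 1 ≤ d ∧ (d : ℝ) ≤ Real.log X ^ C ∧
        (X : ℝ) / Real.log X ^ C ≤ (((Icc 1 (3 * X)).filter (fun n : ℕ => ∀ t < l₀, n + t * d ∈ S)).card : ℝ) := by
  set l : ℕ := max l₀ 2 with hl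
  have hl2 : 2 ≤ l := le_max_right _ _
  have hlr : (0 : ℝ) < l := by exact_mod_cast (by omega : 0 < l)
  have : Nonempty (Fin K) := ⟨⟨0, hK⟩⟩
  obtain ⟨r0, hr0, h⟩ := Pool.Agent.Y677.RSZ.narrow_lin (ι := Fin K) A (fun i => (B i : ℤ)) hadm.1
    (fun i => by
      rw [Nat.isCoprime_iff_coprime]
      by_contra hcop
      obtain ⟨p, hp, hpA, hpB⟩ := Nat.Prime.not_coprime_iff_dvd.1 hcop
      obtain ⟨a, ha⟩ := hadm.2.2 p hp
      exact ha i (dvd_add (hpA.mul_right _) hpB))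
    (fun i j h1 h2 => by
      by_contra hij
      apply hadm.2.1 i j hij
      have h2' : B i = B j := by exact_mod_cast h2
      rw [h1, h2'])
    (fun p hp => by
      obtain ⟨a, ha⟩ := hadm.2.2 p hp
      refine ⟨a, fun i hi => ha i ?_⟩
      exact_mod_cast hi)
    (fun r => {m | ∀ i, ∀ p : ℕ, p.Prime → (p : ℤ) ∣ (A i : ℤ) * m + B i →
      (m : ℝ) ^ (1 / (r : ℝ)) < (p : ℝ)}) (fun _ => Set.univ) K (Fintype.card_fin K)
    (fun r m _ hm => hm) (fun _ _ _ _ _ => Set.mem_univ _) (1 / 2) (by norm_num) (by norm_num)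
  set r : ℕ := max r0 ⌈2 / κ⌉₊ with hr
  have hrκ : 2 / κ ≤ r := (Nat.le_ceil _).trans (by exact_mod_cast le_max_right _ _)
  have hr0' : (0 : ℝ) < r := lt_of_lt_of_le (by positivity) hrκ
  set ε : ℝ := c / 4 with hε
  have hε0 : 0 < ε := by positivity
  obtain ⟨Bd, hBd⟩ := (h r (le_max_left _ _)).2 l hl2 ε hε0
  obtain ⟨X₀, hX₀⟩ := eventually_atTop.1 hBd
  refine ⟨K + Bd + 1, ?_⟩
  have hlog : ∀ᶠ X : ℕ in atTop, 4 * (l : ℝ) * 2 ^ Bd / c + 2 ^ Bd + 1 ≤ Real.log X :=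
    (Real.tendsto_log_atTop.comp tendsto_natCast_atTop_atTop).eventually_ge_atTop _
  filter_upwards [hlog, eventually_ge_atTop (X₀ + 4)] with X hXl hXb S hS hSc
  have hXr : (4 : ℝ) ≤ X := by exact_mod_cast (by omega : 4 ≤ X)
  have hX0 : (0 : ℝ) < X := by linarith
  have hq1 : 0 ≤ 4 * (l : ℝ) * 2 ^ Bd / c := by positivity
  have hq2 : (0 : ℝ) < 2 ^ Bd := by positivity
  have hL1 : 1 ≤ Real.log X := by linarith
  have hL0 : 0 < Real.log X := by linarith
  -- roughness of the elements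
  obtain ⟨S', hS'⟩ : ∃ S' : Set ℕ, ∀ m, m ∈ S' ↔ m ∈ S ∧ m ≤ 3 * X :=
    ⟨{n | n ∈ S ∧ n ≤ 3 * X}, fun _ => Iff.rfl⟩
  have hSR : S' ⊆ {m | ∀ i, ∀ p : ℕ, p.Prime → (p : ℤ) ∣ (A i : ℤ) * m + B i →
      (m : ℝ) ^ (1 / (r : ℝ)) < (p : ℝ)} := by
    intro m hm i p hp hd
    obtain ⟨hm1, hm2⟩ := (hS' m).1 hm
    have hd' : p ∣ A i * m + B i := by
      have e : ((A i * m + B i : ℕ) : ℤ) = (A i : ℤ) * m + B i := by push_cast; ring
      rw [← e] at hd
      exact Int.natCast_dvd_natCast.1 hd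
    have h1 : X ^ κ < (p : ℝ) := by
      by_contra hcon
      push Not at hcon
      exact hS m hm1 i p hp hcon hd'
    refine lt_of_le_of_lt ?_ h1
    have hm3 : (m : ℝ) ≤ (X : ℝ) ^ (2 : ℝ) := by
      have h2 : (m : ℝ) ≤ 3 * X := by exact_mod_cast hm2
      have h3 : (X : ℝ) ^ (2 : ℝ) = X * X := by
        rw [Real.rpow_two]; ring
      rw [h3]
      nlinarith
    calc (m : ℝ) ^ (1 / (r : ℝ)) ≤ ((X : ℝ) ^ (2 : ℝ)) ^ (1 / (r : ℝ)) :=
          Real.rpow_le_rpow (Nat.cast_nonneg _) hm3 (by positivity)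
      _ = (X : ℝ) ^ (2 / (r : ℝ)) := by
          rw [← Real.rpow_mul hX0.le]
          congr 1
          ring
      _ ≤ (X : ℝ) ^ κ := by
          apply Real.rpow_le_rpow_of_exponent_le (by linarith)
          rw [div_le_iff₀ hr0']
          rw [div_le_iff₀ hκ] at hrκ
          linarith
  -- the two halves
  have hsplit : (Pool.Agent.TH977.PW.N S X (3 * X) : ℝ) ≤
      (Pool.Agent.TH977.PW.N S' X (X + X) : ℝ) + (Pool.Agent.TH977.PW.N S' (2 * X) (2 * X + X) : ℝ) := by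
    unfold Pool.Agent.TH977.PW.N
    rw [← Nat.cast_add, Nat.cast_le]
    refine le_trans (card_le_card ?_) (card_union_le _ _)
    intro m hm
    obtain ⟨h1, h2⟩ := mem_filter.1 hm
    rw [mem_Ioc] at h1
    by_cases h3 : m ≤ X + X
    · exact mem_union_left _ (mem_filter.2 ⟨mem_Ioc.2 ⟨h1.1, h3⟩, (hS' m).2 ⟨h2, h1.2⟩⟩)
    · exact mem_union_right _ (mem_filter.2 ⟨mem_Ioc.2 ⟨by omega, by omega⟩, (hS' m).2 ⟨h2, h1.2⟩⟩)
  have hq0 : 0 < (X : ℝ) / Real.log X ^ K := by positivity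
  obtain ⟨X', hX1, hX2, hX'b, hX'c⟩ : ∃ X' : ℕ, X ≤ X' ∧ X' ≤ 2 * X ∧ X' + X ≤ 3 * X ∧
      c / 2 * (X / Real.log X ^ K) ≤ (Pool.Agent.TH977.PW.N S' X' (X' + X) : ℝ) := by
    by_contra hcon
    push Not at hcon
    have h1 := hcon X le_rfl (by omega) (by omega)
    have h2 := hcon (2 * X) (by omega) le_rfl (by omega)
    have h3 : c * X / Real.log X ^ K = c / 2 * (X / Real.log X ^ K) + c / 2 * (X / Real.log X ^ K) := by
      ring
    linarith
  have hX'r : (X : ℝ) ≤ X' := by exact_mod_cast hX1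
  have hX'r2 : (X' : ℝ) ≤ 2 * X := by exact_mod_cast hX2
  have hll : Real.log X ≤ Real.log X' := Real.log_le_log hX0 hX'r
  have hll2 : Real.log X' ≤ 2 * Real.log X := by
    have h1 : (X' : ℝ) ≤ (X : ℝ) ^ 2 := by nlinarith
    have h2 := Real.log_le_log (by linarith) h1
    rw [Real.log_pow] at h2
    exact_mod_cast h2
  have hYr : (X' : ℝ) ^ (1 / 2 : ℝ) ≤ X := by
    rw [← Real.sqrt_eq_rpow, Real.sqrt_le_left hX0.le]
    nlinarith
  have hout := hX₀ X' (by omega) X hYr hX1 S' hSR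
  have hout2 : ε * X / Real.log X' ^ K ≤ c / 4 * (X / Real.log X ^ K) := by
    have h4 : Real.log X ^ K ≤ Real.log X' ^ K := pow_le_pow_left₀ hL0.le hll K
    calc ε * X / Real.log X' ^ K ≤ ε * X / Real.log X ^ K :=
          div_le_div_of_nonneg_left (by positivity) (by positivity) h4
      _ = c / 4 * (X / Real.log X ^ K) := by rw [hε]; ring
  have hin := inside S' {m | InProg S' l (Real.log X' ^ Bd) X' (X' + X) m} l X' (X' + X) (Real.log X' ^ Bd)
    (fun m _ h => h)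
  obtain ⟨d, hd1, hdD, hdc⟩ := pig S' {m | InProg S' l (Real.log X' ^ Bd) X' (X' + X) m} l X' (X' + X) (3 * X)
    (Real.log X' ^ Bd) (c / 4 * (X / Real.log X ^ K)) hX'b (by positivity) (fun m hm => hm) (by linarith)
  have hD2 : Real.log X' ^ Bd ≤ 2 ^ Bd * Real.log X ^ Bd := by
    rw [← mul_pow]
    exact pow_le_pow_left₀ (by linarith) hll2 Bd
  have hLBd : 0 < Real.log X ^ Bd := by positivity
  refine ⟨d, hd1, ?_, ?_⟩
  · calc (d : ℝ) ≤ 2 ^ Bd * Real.log X ^ Bd := hdD.trans hD2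
      _ ≤ Real.log X * Real.log X ^ Bd := mul_le_mul_of_nonneg_right (by linarith) hLBd.le
      _ = Real.log X ^ (Bd + 1) := by rw [pow_succ]; ring
      _ ≤ Real.log X ^ (K + Bd + 1) := pow_le_pow_right₀ hL1 (by omega)
  · have hcnt : (((Icc 1 (3 * X)).filter (fun u : ℕ => ∀ j < l, u + j * d ∈ S')).card : ℝ) ≤
        (((Icc 1 (3 * X)).filter (fun n : ℕ => ∀ t < l₀, n + t * d ∈ S)).card : ℝ) := by
      rw [Nat.cast_le]
      apply card_le_card
      intro u hu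
      obtain ⟨hu1, hu2⟩ := mem_filter.1 hu
      exact mem_filter.2 ⟨hu1, fun t ht => ((hS' _).1 (hu2 t (lt_of_lt_of_le ht (le_max_left _ _)))).1⟩
    refine le_trans ?_ hcnt
    set cnt : ℝ := (((Icc 1 (3 * X)).filter (fun u : ℕ => ∀ j < l, u + j * d ∈ S')).card : ℝ) with hcntd
    have hcnt0 : 0 ≤ cnt := Nat.cast_nonneg _
    have h4 : c / 4 * (X / Real.log X ^ K) ≤ l * (2 ^ Bd * Real.log X ^ Bd) * cnt :=
      hdc.trans (mul_le_mul_of_nonneg_right (mul_le_mul_of_nonneg_left hD2 hlr.le) hcnt0)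
    have h5 : (l : ℝ) * 2 ^ Bd ≤ c / 4 * Real.log X := by
      have h6 : 4 * (l : ℝ) * 2 ^ Bd / c ≤ Real.log X := by linarith
      rw [div_le_iff₀ hc] at h6
      linarith
    have h6 : c / 4 * (X / Real.log X ^ K) ≤ c / 4 * (Real.log X * Real.log X ^ Bd * cnt) := by
      calc c / 4 * (X / Real.log X ^ K) ≤ (l * 2 ^ Bd) * (Real.log X ^ Bd * cnt) := by
            refine h4.trans (le_of_eq ?_); ring
        _ ≤ (c / 4 * Real.log X) * (Real.log X ^ Bd * cnt) :=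
            mul_le_mul_of_nonneg_right h5 (by positivity)
        _ = _ := by ring
    have h7 : (X : ℝ) / Real.log X ^ K ≤ Real.log X * Real.log X ^ Bd * cnt :=
      le_of_mul_le_mul_left h6 (by positivity)
    rw [div_le_iff₀ (by positivity)] at h7 ⊢
    calc (X : ℝ) ≤ Real.log X * Real.log X ^ Bd * cnt * Real.log X ^ K := h7
      _ = cnt * Real.log X ^ (K + Bd + 1) := by ring

/-- rough, and exactly the forms of `E` are prime -/
def Ex (κ : ℝ) {J : ℕ} (A B : Fin J → ℕ) (E : Finset (Fin J)) (X : ℝ) (n : ℕ) : Prop :=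
  X < n ∧ (n : ℝ) ≤ 3 * X ∧ RoughL κ X A B n ∧ ∀ i, (A i * n + B i).Prime ↔ i ∈ E

open Classical in
/-- exact sets of prime forms along narrow progressions -/
theorem ap_of {K : ℕ} (hK : 0 < K) (A B : Fin K → ℕ) (hadm : AdmissibleL A B) (κ c : ℝ) (hκ : 0 < κ)
    (hc : 0 < c) (hG : ∀ᶠ X : ℝ in atTop, c * X / Real.log X ^ K ≤ ((goodR κ A B X).card : ℝ)) :
    ∃ E : Finset (Fin K), 2 ≤ E.card ∧ ∀ l : ℕ, ∃ C : ℕ, ∃ᶠ X : ℕ in atTop, ∃ d : ℕ, 1 ≤ d ∧
      (d : ℝ) ≤ Real.log X ^ C ∧ (X : ℝ) / Real.log X ^ C ≤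
        (((Icc 1 (3 * X)).filter (fun n : ℕ => ∀ t < l, Ex κ A B E X (n + t * d))).card : ℝ) := by
  set c' : ℝ := c / 2 ^ K with hc'
  have hc'0 : 0 < c' := by positivity
  have hGN : ∀ᶠ X : ℕ in atTop, c * X / Real.log X ^ K ≤ ((goodR κ A B (X : ℝ)).card : ℝ) :=
    (tendsto_natCast_atTop_atTop (R := ℝ)).eventually hG
  -- for each X some exact set
  have h1 : ∀ᶠ X : ℕ in atTop, ∃ E : Finset (Fin K), 2 ≤ E.card ∧
      c' * X / Real.log X ^ K ≤ (Pool.Agent.TH977.PW.N {n | Ex κ A B E X n} X (3 * X) : ℝ) := by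
    filter_upwards [hGN, eventually_ge_atTop 3] with X hX hX3
    have hX0 : (0 : ℝ) < X := by exact_mod_cast (by omega : 0 < X)
    have hfl : ⌊3 * (X : ℝ)⌋₊ = 3 * X := by
      have : (3 * (X : ℝ)) = ((3 * X : ℕ) : ℝ) := by push_cast; ring
      rw [this, Nat.floor_natCast]
    by_contra hcon
    push Not at hcon
    set G := goodR κ A B (X : ℝ) with hGd
    set En : ℕ → Finset (Fin K) := fun n => univ.filter (fun i => (A i * n + B i).Prime) with hEn
    have hmaps : ∀ n ∈ G, En n ∈ (univ : Finset (Finset (Fin K))).filter (fun E => 2 ≤ E.card) := by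
      intro n hn
      rw [hGd, goodR, mem_filter] at hn
      obtain ⟨-, -, -, i, j, hij, hi, hj⟩ := hn
      rw [mem_filter]
      refine ⟨mem_univ _, ?_⟩
      have h3 : i ∈ En n := mem_filter.2 ⟨mem_univ _, hi⟩
      have h4 : j ∈ En n := mem_filter.2 ⟨mem_univ _, hj⟩
      exact Finset.one_lt_card.2 ⟨_, h3, _, h4, hij⟩
    have hL : 0 < Real.log X := Real.log_pos (by exact_mod_cast (by omega : 1 < X))
    have hq : 0 < c' * X / Real.log X ^ K := by positivity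
    have hfib : ∀ E ∈ (univ : Finset (Finset (Fin K))).filter (fun E => 2 ≤ E.card),
        ((G.filter (fun n => En n = E)).card : ℝ) < c' * X / Real.log X ^ K := by
      intro E hE
      rw [mem_filter] at hE
      refine lt_of_le_of_lt ?_ (hcon E hE.2)
      unfold Pool.Agent.TH977.PW.N
      rw [Nat.cast_le]
      apply card_le_card
      intro n hn
      rw [mem_filter, hGd, goodR, mem_filter, mem_Icc, hfl] at hn
      obtain ⟨⟨⟨h3, h4⟩, h5, h6, -⟩, h8⟩ := hn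
      refine mem_filter.2 ⟨mem_Ioc.2 ⟨by exact_mod_cast h5, h4⟩, h5, by exact_mod_cast h4, h6, fun i => ?_⟩
      rw [← h8, hEn]
      simp
    have h3 := Finset.card_eq_sum_card_fiberwise (s := G)
      (t := (univ : Finset (Finset (Fin K))).filter (fun E => 2 ≤ E.card)) (f := En) hmaps
    have hGpos : 0 < (G.card : ℝ) := lt_of_lt_of_le (by positivity) hX
    have hne : ((univ : Finset (Finset (Fin K))).filter (fun E => 2 ≤ E.card)).Nonempty := by
      have hG1 : G.Nonempty := by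
        rw [← Finset.card_pos]; exact_mod_cast hGpos
      obtain ⟨n, hn⟩ := hG1
      exact ⟨_, hmaps n hn⟩
    have h4 : (G.card : ℝ) < ∑ _E ∈ (univ : Finset (Finset (Fin K))).filter (fun E => 2 ≤ E.card),
        c' * X / Real.log X ^ K := by
      rw [h3]
      push_cast
      exact Finset.sum_lt_sum_of_nonempty hne hfib
    rw [Finset.sum_const, nsmul_eq_mul] at h4
    have h5 : (((univ : Finset (Finset (Fin K))).filter (fun E => 2 ≤ E.card)).card : ℝ) ≤ 2 ^ K := by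
      have h6 : ((univ : Finset (Finset (Fin K))).filter (fun E => 2 ≤ E.card)).card ≤ 2 ^ K := by
        refine (card_filter_le _ _).trans (le_of_eq ?_)
        rw [card_univ, Fintype.card_finset, Fintype.card_fin]
      exact_mod_cast h6
    have h6 : (((univ : Finset (Finset (Fin K))).filter (fun E => 2 ≤ E.card)).card : ℝ) *
        (c' * X / Real.log X ^ K) ≤ 2 ^ K * (c' * X / Real.log X ^ K) :=
      mul_le_mul_of_nonneg_right h5 hq.le
    have h7 : (2 : ℝ) ^ K * (c' * X / Real.log X ^ K) = c * X / Real.log X ^ K := by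
      rw [hc']; field_simp
    linarith
  -- some exact set is frequent
  obtain ⟨E, hE2, hE⟩ : ∃ E : Finset (Fin K), 2 ≤ E.card ∧ ∃ᶠ X : ℕ in atTop,
      c' * X / Real.log X ^ K ≤ (Pool.Agent.TH977.PW.N {n | Ex κ A B E X n} X (3 * X) : ℝ) := by
    by_contra hcon
    push Not at hcon
    have h2 : ∀ᶠ X : ℕ in atTop, ∀ E : Finset (Fin K), ¬ (2 ≤ E.card ∧
        c' * X / Real.log X ^ K ≤ (Pool.Agent.TH977.PW.N {n | Ex κ A B E X n} X (3 * X) : ℝ)) := by
      rw [Filter.eventually_all]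
      intro E
      by_cases hE : 2 ≤ E.card
      · filter_upwards [hcon E hE] with X hX h3
        exact absurd h3.2 (not_le.2 hX)
      · exact Eventually.of_forall fun X h3 => hE h3.1
    obtain ⟨X, hX1, hX2⟩ := (h1.and h2).exists
    obtain ⟨E, hE⟩ := hX1
    exact hX2 E hE
  refine ⟨E, hE2, fun l => ?_⟩
  obtain ⟨C, hC⟩ := narrowing hK A B hadm κ c' hκ hc'0 l
  refine ⟨C, (hE.and_eventually hC).mono ?_⟩
  rintro X ⟨hX1, hX2⟩
  obtain ⟨d, hd1, hd2, hd3⟩ := hX2 {n | Ex κ A B E X n} (fun n hn => hn.2.2.1) hX1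
  exact ⟨d, hd1, hd2, hd3⟩

end Pool.Agent.X34.E
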