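import Mathlib
import Pool.Agent.X34.E.E5
import Pool.Agent.Y826.ZC.Exact

/-! Engine E (helper34): exact patterns of primes in windows, with the right order of magnitude, and along
narrow progressions. -/

set_option autoImplicit false

open Finset Filter

namespace Pool.Agent.X34.E

open Pool.Agent.H95R2.BG.LF
open Pool.Agent.Y826.ZC (exact_forms)

/-- the statement of the engine -/
def Eng : Prop := ∃ k : ℝ, 0 < k ∧ ∀ (A B : Fin 45 → ℕ), AdmissibleL A B →
  ∃ c : ℝ, 0 < c ∧ ∀ᶠ X : ℝ in atTop, c * X / Real.log X ^ 45 ≤ ((goodR k A B X).card : ℝ)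

/-- admissible set of integers -/
def Adm (S : Finset ℤ) : Prop := ∀ p : ℕ, p.Prime → ∃ r : ℤ, ∀ s ∈ S, ¬ (p : ℤ) ∣ r + s

/-- `n ≡ r (mod q)`, the primes of the window `[n - R, n + R]` are the `n + z`, `z ∈ B`, and the `n + s`,
`s ∈ S`, have no prime factors `≤ y` -/
def Pt (q : ℕ) (r : ℤ) (S B : Finset ℤ) (R : ℕ) (y : ℝ) (n : ℕ) : Prop :=
  (n : ℤ) ≡ r [ZMOD q] ∧
    (∀ z : ℤ, |z| ≤ R → ((∃ p : ℕ, p.Prime ∧ (p : ℤ) = n + z) ↔ z ∈ B)) ∧
    ∀ s ∈ S, ∀ p : ℕ, p.Prime → (p : ℝ) ≤ y → ¬ (p : ℤ) ∣ (n : ℤ) + s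

theorem Pt.mono {q : ℕ} {r : ℤ} {S B : Finset ℤ} {R R' : ℕ} {y : ℝ} {n : ℕ} (hR : R' ≤ R)
    (h : Pt q r S B R y n) : Pt q r S B R' y n :=
  ⟨h.1, fun z hz => h.2.1 z (hz.trans (by exact_mod_cast hR)), h.2.2⟩

/-- the forms of a window -/
theorem forms_window (S : Finset ℤ) (hS : S.card = 45) (hadm : Adm S) (q : ℕ) (r : ℤ) (hq : 0 < q)
    (hr : ∀ s ∈ S, IsCoprime (r + s) (q : ℤ)) (R : ℕ) (hR : ∀ s ∈ S, |s| ≤ R) :
    ∃ (Q c : ℕ) (B : Fin 45 → ℕ), 0 < Q ∧ AdmissibleL (fun _ : Fin 45 => Q) B ∧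
      ∀ m : ℕ, 1 ≤ m → ((Q * m + c : ℕ) : ℤ) ≡ r [ZMOD q] ∧
        (∀ i, ((Q * m + B i : ℕ) : ℤ) = ((Q * m + c : ℕ) : ℤ) + S.orderEmbOfFin hS i) ∧
        ∀ z : ℤ, |z| ≤ R → z ∉ S → ¬ ∃ p : ℕ, p.Prime ∧ (p : ℤ) = ((Q * m + c : ℕ) : ℤ) + z := by
  classical
  obtain ⟨Q, c, hQ0, hcR, hcr, hqQ, hpr, hcomp⟩ := exact_forms S q r hq hr R hR
  set f := S.orderEmbOfFin hS with hf
  have hmem : ∀ i, f i ∈ S := fun i => Finset.orderEmbOfFin_mem S hS i
  have hcast : ∀ i, (((c + f i).toNat : ℕ) : ℤ) = c + f i := by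
    intro i
    apply Int.toNat_of_nonneg
    have h1 := (abs_le.1 (hR _ (hmem i))).1
    omega
  refine ⟨Q, c, fun i => (c + f i).toNat, hQ0, ?_, ?_⟩
  · refine ⟨fun _ => hQ0, fun i j hij h => ?_, fun p hp => ?_⟩
    · have h1 : (c + f j).toNat = (c + f i).toNat := Nat.eq_of_mul_eq_mul_left hQ0 h
      have h2 := hcast i
      have h3 := hcast j
      rw [h1, h2] at h3
      exact hij (f.injective (by linarith))
    · by_cases hpQ : p ∣ Q
      · refine ⟨0, fun i h => hpr _ (hmem i) p hp hpQ ?_⟩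
        rw [Nat.mul_zero, zero_add] at h
        rw [← hcast i]
        exact_mod_cast h
      · obtain ⟨r', hr'⟩ := hadm p hp
        have h1 : IsCoprime (Q : ℤ) (p : ℤ) := by
          rw [Nat.isCoprime_iff_coprime, Nat.coprime_comm, hp.coprime_iff_not_dvd]
          exact hpQ
        obtain ⟨u, v, huv⟩ := h1
        have hp0 : (p : ℤ) ≠ 0 := by exact_mod_cast hp.ne_zero
        refine ⟨((u * (r' - c)) % p).toNat, fun i h => hr' _ (hmem i) ?_⟩
        have h2 : (((u * (r' - c)) % p).toNat : ℤ) = (u * (r' - c)) % p :=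
          Int.toNat_of_nonneg (Int.emod_nonneg _ hp0)
        have h3 : (p : ℤ) ∣ (Q : ℤ) * (((u * (r' - c)) % p).toNat : ℤ) + (((c + f i).toNat : ℕ) : ℤ) := by
          exact_mod_cast h
        rw [h2, hcast i, Int.emod_def] at h3
        have h4 : r' + f i = (Q : ℤ) * (u * (r' - c) - p * (u * (r' - c) / p)) + (c + f i) +
            p * (v * (r' - c) + Q * (u * (r' - c) / p)) := by
          linear_combination (-(r' - (c : ℤ))) * huv
        rw [h4]
        exact dvd_add h3 (dvd_mul_right _ _)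
  · intro m hm
    refine ⟨?_, ?_, hcomp m hm⟩
    · obtain ⟨k, hk⟩ := hqQ
      have h4 : ((Q : ℤ) * m) ≡ 0 [ZMOD q] := by
        rw [Int.modEq_zero_iff_dvd, hk]
        push_cast
        exact ⟨k * m, by ring⟩
      push_cast
      simpa using h4.add hcr
    · intro i
      push_cast
      have := hcast i
      rw [this]
      ring

open Classical in
/-- exact patterns along narrow progressions, one window -/
theorem exactN_aux (k : ℝ) (hk : 0 < k) (hE : ∀ (A B : Fin 45 → ℕ), AdmissibleL A B →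
    ∃ c : ℝ, 0 < c ∧ ∀ᶠ X : ℝ in atTop, c * X / Real.log X ^ 45 ≤ ((goodR k A B X).card : ℝ))
    (S : Finset ℤ) (hS : S.card = 45) (hadm : Adm S) (q : ℕ) (r : ℤ) (hq : 0 < q)
    (hr : ∀ s ∈ S, IsCoprime (r + s) (q : ℤ)) (R : ℕ) (hR : ∀ s ∈ S, |s| ≤ R) :
    ∃ P ⊆ S, 2 ≤ P.card ∧ ∀ l : ℕ, ∃ C : ℕ, ∃ᶠ N : ℕ in atTop, ∃ d : ℕ, 1 ≤ d ∧
      (d : ℝ) ≤ Real.log N ^ C ∧ (N : ℝ) / Real.log N ^ C ≤
        (((Icc 1 N).filter (fun n : ℕ => ∀ t < l, Pt q r S P R ((N : ℝ) ^ (k / 2)) (n + t * d))).card : ℝ) := by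
  obtain ⟨Q, c, B, hQ0, hAB, hwin⟩ := forms_window S hS hadm q r hq hr R hR
  set f := S.orderEmbOfFin hS with hf
  obtain ⟨c0, hc0, hG⟩ := hE _ _ hAB
  obtain ⟨E, hE2, hEl⟩ := ap_of (by norm_num) _ _ hAB k c0 hk hc0 hG
  refine ⟨E.map f.toEmbedding, ?_, by rwa [card_map], fun l₀ => ?_⟩
  · intro s hs
    obtain ⟨i, -, rfl⟩ := mem_map.1 hs
    exact Finset.orderEmbOfFin_mem S hS i
  set l := max l₀ 1 with hl
  obtain ⟨C, hC⟩ := hEl l
  refine ⟨C + 1, ?_⟩
  have hlog : ∀ᶠ X : ℕ in atTop, (4 * Q : ℝ) + 1 ≤ Real.log X :=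
    (Real.tendsto_log_atTop.comp tendsto_natCast_atTop_atTop).eventually_ge_atTop _
  have ht : Tendsto (fun X : ℕ => 3 * Q * X + c) atTop atTop := by
    apply tendsto_atTop_mono (f := fun X : ℕ => X) _ tendsto_id
    intro X
    have : 1 * X ≤ 3 * Q * X := Nat.mul_le_mul_right _ (by omega)
    show X ≤ 3 * Q * X + c
    omega
  refine ht.frequently ?_
  refine (hC.and_eventually (hlog.and (eventually_ge_atTop (3 * Q + c + 1)))).mono ?_
  rintro X ⟨⟨d, hd1, hd2, hd3⟩, hXl, hXc⟩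
  have hQr : (1 : ℝ) ≤ Q := by exact_mod_cast hQ0
  have hXr : (1 : ℝ) ≤ X := by exact_mod_cast (by omega : 1 ≤ X)
  have hX0 : (0 : ℝ) < X := by linarith
  set N : ℕ := 3 * Q * X + c with hN
  have hNX : X ≤ N := by
    have : 1 * X ≤ 3 * Q * X := Nat.mul_le_mul_right _ (by omega)
    omega
  have hNXr : (X : ℝ) ≤ N := by exact_mod_cast hNX
  have hNle : N ≤ X * X := by
    calc N ≤ 3 * Q * X + c * X := by
          have : c * 1 ≤ c * X := Nat.mul_le_mul_left _ (by omega)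
          omega
      _ = (3 * Q + c) * X := by ring
      _ ≤ X * X := Nat.mul_le_mul_right _ (by omega)
  have hNle4 : N ≤ 4 * Q * X := by
    have h1 : c * 1 ≤ X := by omega
    have h2 : 1 * X ≤ Q * X := Nat.mul_le_mul_right _ hQ0
    have h3 : 4 * Q * X = 3 * Q * X + Q * X := by ring
    omega
  have hl1 : 1 ≤ Real.log X := by linarith
  have hll : Real.log X ≤ Real.log N := Real.log_le_log hX0 hNXr
  have hrough : (N : ℝ) ^ (k / 2) ≤ (X : ℝ) ^ k := by
    have h1 : (N : ℝ) ≤ (X : ℝ) ^ (2 : ℝ) := by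
      rw [Real.rpow_two, sq]
      exact_mod_cast hNle
    calc (N : ℝ) ^ (k / 2) ≤ ((X : ℝ) ^ (2 : ℝ)) ^ (k / 2) :=
          Real.rpow_le_rpow (Nat.cast_nonneg _) h1 (by positivity)
      _ = (X : ℝ) ^ k := by
          rw [← Real.rpow_mul hX0.le]
          congr 1
          ring
  refine ⟨Q * d, Nat.mul_pos hQ0 hd1, ?_, ?_⟩
  · push_cast
    calc (Q : ℝ) * d ≤ Real.log X * Real.log X ^ C :=
          mul_le_mul (by linarith) hd2 (by positivity) (by linarith)
      _ = Real.log X ^ (C + 1) := by rw [pow_succ]; ring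
      _ ≤ Real.log N ^ (C + 1) := pow_le_pow_left₀ (by linarith) hll _
  · have hcnt : (((Icc 1 (3 * X)).filter (fun n : ℕ => ∀ t < l, Ex k (fun _ : Fin 45 => Q) B E X (n + t * d))).card : ℝ) ≤
        (((Icc 1 N).filter (fun n : ℕ => ∀ t < l₀, Pt q r S (E.map f.toEmbedding) R ((N : ℝ) ^ (k / 2))
          (n + t * (Q * d)))).card : ℝ) := by
      rw [Nat.cast_le]
      rw [← card_image_of_injective (f := fun m : ℕ => Q * m + c) _ (by
        intro m m' hm
        have h1 : Q * m + c = Q * m' + c := hm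
        exact Nat.eq_of_mul_eq_mul_left hQ0 (by omega))]
      apply card_le_card
      intro n hn
      obtain ⟨m, hm, rfl⟩ := mem_image.1 hn
      obtain ⟨hm1, hm2⟩ := mem_filter.1 hm
      rw [mem_Icc] at hm1
      refine mem_filter.2 ⟨mem_Icc.2 ⟨?_, ?_⟩, fun t ht => ?_⟩
      · have : 1 * 1 ≤ Q * m := Nat.mul_le_mul hQ0 hm1.1
        omega
      · have h1 : Q * m ≤ Q * (3 * X) := Nat.mul_le_mul_left _ hm1.2
        have h2 : Q * (3 * X) = 3 * Q * X := by ring
        omega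
      · have e1 : Q * m + c + t * (Q * d) = Q * (m + t * d) + c := by ring
        rw [e1]
        obtain ⟨h1, h2, h3, h4⟩ := hm2 t (lt_of_lt_of_le ht (le_max_left _ _))
        have hm1' : 1 ≤ m + t * d := by omega
        obtain ⟨w1, w2, w3⟩ := hwin (m + t * d) hm1'
        refine ⟨w1, fun z hz => ⟨fun hp => ?_, fun hz' => ?_⟩, fun s hs p hp hpy hd => ?_⟩
        · have hzS : z ∈ S := by
            by_contra hzS
            exact w3 z hz hzS hp
          obtain ⟨i, hi⟩ : ∃ i, f i = z := by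
            have h5 : z ∈ Set.range f := by
              rw [hf, Finset.range_orderEmbOfFin]
              exact hzS
            exact h5
          refine mem_map.2 ⟨i, (h4 i).1 ?_, hi⟩
          obtain ⟨p, hp1, hp2⟩ := hp
          rw [← hi, ← w2 i] at hp2
          have h6 : p = Q * (m + t * d) + B i := by exact_mod_cast hp2
          rw [← h6]; exact hp1
        · obtain ⟨i, hi, rfl⟩ := mem_map.1 hz'
          exact ⟨_, (h4 i).2 hi, w2 i⟩
        · obtain ⟨i, hi⟩ : ∃ i, f i = s := by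
            have h5 : s ∈ Set.range f := by
              rw [hf, Finset.range_orderEmbOfFin]
              exact hs
            exact h5
          rw [← hi, ← w2 i] at hd
          exact h3 i p hp (hpy.trans hrough) (Int.natCast_dvd_natCast.1 hd)
    refine le_trans ?_ hcnt
    have h1 : (N : ℝ) ≤ 4 * Q * X := by exact_mod_cast hNle4
    have h2 : (4 * Q : ℝ) ≤ Real.log N := by linarith
    have h3 : 0 < Real.log N := by linarith
    have h4 : Real.log X ^ C ≤ Real.log N ^ C := pow_le_pow_left₀ (by linarith) hll C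
    have h5 : 0 < Real.log X ^ C := by positivity
    refine le_trans ?_ hd3
    rw [div_le_div_iff₀ (by positivity) h5]
    calc (N : ℝ) * Real.log X ^ C ≤ (4 * Q * X) * Real.log N ^ C :=
          mul_le_mul h1 h4 h5.le (by positivity)
      _ = X * ((4 * Q) * Real.log N ^ C) := by ring
      _ ≤ X * (Real.log N * Real.log N ^ C) := by
          apply mul_le_mul_of_nonneg_left _ hX0.le
          exact mul_le_mul_of_nonneg_right h2 (by positivity)
      _ = X * Real.log N ^ (C + 1) := by rw [pow_succ]; ring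

open Classical in
/-- **exact patterns of primes along narrow progressions** -/
theorem exactN_of (hE : Eng) : ∃ k : ℝ, 0 < k ∧ ∀ (S : Finset ℤ), S.card = 45 → Adm S → ∀ (q : ℕ) (r : ℤ),
    0 < q → (∀ s ∈ S, IsCoprime (r + s) (q : ℤ)) →
    ∃ P ⊆ S, 2 ≤ P.card ∧ ∀ R l : ℕ, ∃ C : ℕ, ∃ᶠ N : ℕ in atTop, ∃ d : ℕ, 1 ≤ d ∧
      (d : ℝ) ≤ Real.log N ^ C ∧ (N : ℝ) / Real.log N ^ C ≤
        (((Icc 1 N).filter (fun n : ℕ => ∀ t < l, Pt q r S P R ((N : ℝ) ^ k) (n + t * d))).card : ℝ) := by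
  obtain ⟨k, hk, hE⟩ := hE
  refine ⟨k / 2, by positivity, fun S hS hadm q r hq hr => ?_⟩
  by_contra hcon
  push Not at hcon
  have h1 : ∀ P : Finset ℤ, ∃ R l : ℕ, P ⊆ S → 2 ≤ P.card → ∀ C : ℕ, ¬ ∃ᶠ N : ℕ in atTop, ∃ d : ℕ, 1 ≤ d ∧
      (d : ℝ) ≤ Real.log N ^ C ∧ (N : ℝ) / Real.log N ^ C ≤
        (((Icc 1 N).filter (fun n : ℕ => ∀ t < l, Pt q r S P R ((N : ℝ) ^ (k / 2)) (n + t * d))).card : ℝ) := by
    intro P
    by_cases h : P ⊆ S ∧ 2 ≤ P.card
    · obtain ⟨R, l, h2⟩ := hcon P h.1 h.2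
      exact ⟨R, l, fun _ _ C => by
        rw [Filter.not_frequently]
        filter_upwards [h2 C] with N hN
        rintro ⟨d, hd1, hd2, hd3⟩
        exact absurd hd3 (not_le.2 (hN d hd1 hd2))⟩
    · exact ⟨0, 0, fun h2 h3 => absurd ⟨h2, h3⟩ h⟩
  choose Rf lf hf using h1
  set R0 : ℕ := S.sup (fun s => s.natAbs) with hR0
  have hR0' : ∀ s ∈ S, |s| ≤ (R0 : ℤ) := by
    intro s hs
    rw [Int.abs_eq_natAbs]
    exact_mod_cast Finset.le_sup (f := fun s : ℤ => s.natAbs) hs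
  obtain ⟨P, hP, hP2, hPl⟩ := exactN_aux k hk hE S hS hadm q r hq hr (R0 + S.powerset.sup Rf)
    (fun s hs => (hR0' s hs).trans (by push_cast; omega))
  obtain ⟨C, hC⟩ := hPl (lf P)
  apply hf P hP hP2 C
  refine hC.mono ?_
  rintro N ⟨d, hd1, hd2, hd3⟩
  refine ⟨d, hd1, hd2, hd3.trans ?_⟩
  rw [Nat.cast_le]
  apply card_le_card
  intro n hn
  obtain ⟨h1, h2⟩ := mem_filter.1 hn
  refine mem_filter.2 ⟨h1, fun t ht => (h2 t ht).mono ?_⟩
  have := Finset.le_sup (f := Rf) (mem_powerset.2 hP)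
  omega

open Classical in
/-- exact patterns, right order of magnitude for all large `x` -/
theorem count_of (hE : Eng) : ∃ k : ℝ, 0 < k ∧ ∀ (S : Finset ℤ), S.card = 45 → Adm S → ∀ (q : ℕ) (r : ℤ),
    0 < q → (∀ s ∈ S, IsCoprime (r + s) (q : ℤ)) → ∀ R : ℕ, ∃ c : ℝ, 0 < c ∧ ∀ᶠ x : ℝ in atTop,
    ∃ P ⊆ S, 2 ≤ P.card ∧ c * x / Real.log x ^ 45 ≤
      (((Icc 1 ⌊x⌋₊).filter (fun n : ℕ => Pt q r S P R (x ^ k) n)).card : ℝ) := by
  obtain ⟨k, hk, hE⟩ := hE
  refine ⟨k / 2, by positivity, fun S hS hadm q r hq hr R₀ => ?_⟩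
  set R1 : ℕ := S.sup (fun s => s.natAbs) with hR1
  have hR1' : ∀ s ∈ S, |s| ≤ (R1 : ℤ) := by
    intro s hs
    rw [Int.abs_eq_natAbs]
    exact_mod_cast Finset.le_sup (f := fun s : ℤ => s.natAbs) hs
  set R := R1 + R₀ with hR
  obtain ⟨Q, c, B, hQ0, hAB, hwin⟩ := forms_window S hS hadm q r hq hr R
    (fun s hs => (hR1' s hs).trans (by push_cast; omega))
  set f := S.orderEmbOfFin hS with hf
  obtain ⟨c0, hc0, hG⟩ := hE _ _ hAB
  have hQr : (1 : ℝ) ≤ Q := by exact_mod_cast hQ0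
  refine ⟨c0 / (2 ^ 45 * (4 * Q)), by positivity, ?_⟩
  have ht : Tendsto (fun x : ℝ => x / (4 * (Q : ℝ))) atTop atTop :=
    tendsto_id.atTop_div_const (by positivity)
  filter_upwards [ht.eventually hG, eventually_ge_atTop (16 * (Q : ℝ) ^ 2 + 4 * Q * 3 + 4 * c + 1)] with x hx hx2
  have hQ2 : 0 ≤ 16 * (Q : ℝ) ^ 2 := by positivity
  have hc00 : (0 : ℝ) ≤ c := Nat.cast_nonneg _
  have hx0 : 0 < x := by linarith
  set X : ℝ := x / (4 * (Q : ℝ)) with hX
  have hxX : x = 4 * Q * X := by rw [hX]; field_simp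
  have hX3 : 3 ≤ X := by
    rw [hX, le_div_iff₀ (by positivity)]
    linarith
  have hX0 : 0 < X := by linarith
  have hXx : X ≤ x := by
    rw [hxX]
    nlinarith
  have hlX : 0 < Real.log X := Real.log_pos (by linarith)
  have hll : Real.log X ≤ Real.log x := Real.log_le_log hX0 hXx
  have hQX : 4 * (Q : ℝ) ≤ X := by
    rw [hX, le_div_iff₀ (by positivity)]
    nlinarith
  have hrough : x ^ (k / 2) ≤ X ^ k := by
    have h1 : x ≤ X ^ (2 : ℝ) := by
      rw [Real.rpow_two, sq, hxX]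
      exact mul_le_mul_of_nonneg_right hQX hX0.le
    calc x ^ (k / 2) ≤ (X ^ (2 : ℝ)) ^ (k / 2) :=
          Real.rpow_le_rpow hx0.le h1 (by positivity)
      _ = X ^ k := by
          rw [← Real.rpow_mul hX0.le]
          congr 1
          ring
  set G := goodR k (fun _ : Fin 45 => Q) B X with hGd
  set En : ℕ → Finset (Fin 45) := fun n => univ.filter (fun i => (Q * n + B i).Prime) with hEn
  by_contra hcon
  push Not at hcon
  have hmaps : ∀ n ∈ G, En n ∈ (univ : Finset (Finset (Fin 45))).filter (fun E => 2 ≤ E.card) := by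
    intro n hn
    rw [hGd, goodR, mem_filter] at hn
    obtain ⟨-, -, -, i, j, hij, hi, hj⟩ := hn
    rw [mem_filter]
    refine ⟨mem_univ _, ?_⟩
    have h3 : i ∈ En n := mem_filter.2 ⟨mem_univ _, hi⟩
    have h4 : j ∈ En n := mem_filter.2 ⟨mem_univ _, hj⟩
    exact Finset.one_lt_card.2 ⟨_, h3, _, h4, hij⟩
  have hfib : ∀ E ∈ (univ : Finset (Finset (Fin 45))).filter (fun E => 2 ≤ E.card),
      ((G.filter (fun n => En n = E)).card : ℝ) < c0 / (2 ^ 45 * (4 * Q)) * x / Real.log x ^ 45 := by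
    intro E hE
    rw [mem_filter] at hE
    refine lt_of_le_of_lt ?_ (hcon (E.map f.toEmbedding) ?_ (by rw [card_map]; exact hE.2))
    swap
    · intro s hs
      obtain ⟨i, -, rfl⟩ := mem_map.1 hs
      exact Finset.orderEmbOfFin_mem S hS i
    rw [Nat.cast_le]
    rw [← card_image_of_injective (f := fun m : ℕ => Q * m + c) _ (by
        intro m m' hm
        have h1 : Q * m + c = Q * m' + c := hm
        exact Nat.eq_of_mul_eq_mul_left hQ0 (by omega))]
    apply card_le_card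
    intro n hn
    obtain ⟨m, hm, rfl⟩ := mem_image.1 hn
    rw [mem_filter, hGd, goodR, mem_filter, mem_Icc] at hm
    obtain ⟨⟨⟨h3, h4⟩, h5, h6, -⟩, h8⟩ := hm
    have h4' : (m : ℝ) ≤ 3 * X := (Nat.le_floor_iff (by linarith)).1 h4
    have h9 : ∀ i, (Q * m + B i).Prime ↔ i ∈ E := by
      intro i
      rw [← h8, hEn]
      simp
    obtain ⟨w1, w2, w3⟩ := hwin m h3
    refine mem_filter.2 ⟨mem_Icc.2 ⟨?_, ?_⟩, w1, fun z hz => ⟨fun hp => ?_, fun hz' => ?_⟩,
      fun s hs p hp hpy hd => ?_⟩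
    · have : 1 * 1 ≤ Q * m := Nat.mul_le_mul hQ0 h3
      omega
    · apply Nat.le_floor
      push_cast
      have h10 : (Q : ℝ) * m ≤ Q * (3 * X) := mul_le_mul_of_nonneg_left h4' (by linarith)
      have h11 : (c : ℝ) ≤ Q * X := by
        have : 4 * (c : ℝ) ≤ x := by nlinarith
        rw [hxX] at this
        linarith
      rw [hxX]
      linarith
    · have hz'' : |z| ≤ (R : ℤ) := hz.trans (by rw [hR]; push_cast; omega)
      have hzS : z ∈ S := by
        by_contra hzS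
        exact w3 z hz'' hzS hp
      obtain ⟨i, hi⟩ : ∃ i, f i = z := by
        have h5 : z ∈ Set.range f := by
          rw [hf, Finset.range_orderEmbOfFin]
          exact hzS
        exact h5
      refine mem_map.2 ⟨i, (h9 i).1 ?_, hi⟩
      obtain ⟨p, hp1, hp2⟩ := hp
      rw [← hi, ← w2 i] at hp2
      have h6 : p = Q * m + B i := by exact_mod_cast hp2
      rw [← h6]; exact hp1
    · obtain ⟨i, hi, rfl⟩ := mem_map.1 hz'
      exact ⟨_, (h9 i).2 hi, w2 i⟩
    · obtain ⟨i, hi⟩ : ∃ i, f i = s := by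
        have h5 : s ∈ Set.range f := by
          rw [hf, Finset.range_orderEmbOfFin]
          exact hs
        exact h5
      rw [← hi, ← w2 i] at hd
      exact h6 i p hp (hpy.trans hrough) (Int.natCast_dvd_natCast.1 hd)
  have h3 := Finset.card_eq_sum_card_fiberwise (s := G)
    (t := (univ : Finset (Finset (Fin 45))).filter (fun E => 2 ≤ E.card)) (f := En) hmaps
  have hGpos : 0 < (G.card : ℝ) := lt_of_lt_of_le (by positivity) hx
  have hne : ((univ : Finset (Finset (Fin 45))).filter (fun E => 2 ≤ E.card)).Nonempty := by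
    have hG1 : G.Nonempty := by
      rw [← Finset.card_pos]; exact_mod_cast hGpos
    obtain ⟨n, hn⟩ := hG1
    exact ⟨_, hmaps n hn⟩
  have h4 : (G.card : ℝ) < ∑ _E ∈ (univ : Finset (Finset (Fin 45))).filter (fun E => 2 ≤ E.card),
      c0 / (2 ^ 45 * (4 * Q)) * x / Real.log x ^ 45 := by
    rw [h3]
    push_cast
    exact Finset.sum_lt_sum_of_nonempty hne hfib
  rw [Finset.sum_const, nsmul_eq_mul] at h4
  have h5 : (((univ : Finset (Finset (Fin 45))).filter (fun E => 2 ≤ E.card)).card : ℝ) ≤ 2 ^ 45 := by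
    have h6 : ((univ : Finset (Finset (Fin 45))).filter (fun E => 2 ≤ E.card)).card ≤ 2 ^ 45 := by
      refine (card_filter_le _ _).trans (le_of_eq ?_)
      rw [card_univ, Fintype.card_finset, Fintype.card_fin]
    exact_mod_cast h6
  have hlx : 0 < Real.log x := by linarith
  have hq0 : 0 ≤ c0 / (2 ^ 45 * (4 * Q)) * x / Real.log x ^ 45 := by positivity
  have h6 := mul_le_mul_of_nonneg_right h5 hq0
  have h7 : (2 : ℝ) ^ 45 * (c0 / (2 ^ 45 * (4 * Q)) * x / Real.log x ^ 45) = c0 * X / Real.log x ^ 45 := by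
    rw [hX]; field_simp
  have h8 : c0 * X / Real.log x ^ 45 ≤ c0 * X / Real.log X ^ 45 := by
    apply div_le_div_of_nonneg_left (by positivity) (by positivity)
    exact pow_le_pow_left₀ hlX.le hll _
  linarith

end Pool.Agent.X34.E
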