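import Mathlib
import Pool.Agent.X34.E.E6

/-! Engine E (helper34): abstract transfer of the engine through an affine substitution `n = W m + c`. -/

set_option autoImplicit false

open Finset Filter

namespace Pool.Agent.X34.E

open Pool.Agent.H95R2.BG.LF

/-- `E` is the exact set of prime values at `m`, and the values have no prime factor `≤ y` -/
def At {K : ℕ} (A B : Fin K → ℕ) (E : Finset (Fin K)) (y : ℝ) (m : ℕ) : Prop :=
  (∀ i, (A i * m + B i).Prime ↔ i ∈ E) ∧
    ∀ i, ∀ p : ℕ, p.Prime → (p : ℝ) ≤ y → ¬ p ∣ A i * m + B i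

/-- narrow progressions -/
theorem transfer_nar {K : ℕ} (hK : 0 < K) (A B : Fin K → ℕ) (hAB : AdmissibleL A B) (k c0 : ℝ) (hk : 0 < k)
    (hc0 : 0 < c0) (hG : ∀ᶠ X : ℝ in atTop, c0 * X / Real.log X ^ K ≤ ((goodR k A B X).card : ℝ))
    (W c : ℕ) (hW : 0 < W) (Y : Finset (Fin K) → ℝ → ℕ → Prop)
    (hY : ∀ E y m, 1 ≤ m → At A B E y m → Y E y (W * m + c)) :
    ∃ E : Finset (Fin K), 2 ≤ E.card ∧ ∀ l : ℕ, ∃ C : ℕ, ∃ᶠ N : ℕ in atTop, ∃ d : ℕ, 1 ≤ d ∧
      (d : ℝ) ≤ Real.log N ^ C ∧ (N : ℝ) / Real.log N ^ C ≤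
        (Set.ncard {n : ℕ | 1 ≤ n ∧ n ≤ N ∧ ∀ t < l, Y E ((N : ℝ) ^ (k / 2)) (n + t * d)} : ℝ) := by
  classical
  obtain ⟨E, hE2, hEl⟩ := ap_of hK _ _ hAB k c0 hk hc0 hG
  refine ⟨E, hE2, fun l₀ => ?_⟩
  set l := max l₀ 1 with hl
  obtain ⟨C, hC⟩ := hEl l
  refine ⟨C + 1, ?_⟩
  have hlog : ∀ᶠ X : ℕ in atTop, (4 * W : ℝ) + 1 ≤ Real.log X :=
    (Real.tendsto_log_atTop.comp tendsto_natCast_atTop_atTop).eventually_ge_atTop _
  have ht : Tendsto (fun X : ℕ => 3 * W * X + c) atTop atTop := by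
    apply tendsto_atTop_mono (f := fun X : ℕ => X) _ tendsto_id
    intro X
    have : 1 * X ≤ 3 * W * X := Nat.mul_le_mul_right _ (by omega)
    show X ≤ 3 * W * X + c
    omega
  refine ht.frequently ?_
  refine (hC.and_eventually (hlog.and (eventually_ge_atTop (3 * W + c + 1)))).mono ?_
  rintro X ⟨⟨d, hd1, hd2, hd3⟩, hXl, hXc⟩
  have hQr : (1 : ℝ) ≤ W := by exact_mod_cast hW
  have hXr : (1 : ℝ) ≤ X := by exact_mod_cast (by omega : 1 ≤ X)
  have hX0 : (0 : ℝ) < X := by linarith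
  set N : ℕ := 3 * W * X + c with hN
  have hNX : X ≤ N := by
    have : 1 * X ≤ 3 * W * X := Nat.mul_le_mul_right _ (by omega)
    omega
  have hNXr : (X : ℝ) ≤ N := by exact_mod_cast hNX
  have hNle : N ≤ X * X := by
    calc N ≤ 3 * W * X + c * X := by
          have : c * 1 ≤ c * X := Nat.mul_le_mul_left _ (by omega)
          omega
      _ = (3 * W + c) * X := by ring
      _ ≤ X * X := Nat.mul_le_mul_right _ (by omega)
  have hNle4 : N ≤ 4 * W * X := by
    have h1 : c * 1 ≤ X := by omega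
    have h2 : 1 * X ≤ W * X := Nat.mul_le_mul_right _ hW
    have h3 : 4 * W * X = 3 * W * X + W * X := by ring
    omega
  have hl1 : 1 ≤ Real.log X := by linarith
  have hll : Real.log X ≤ Real.log N := Real.log_le_log hX0 hNXr
  have hrough : (N : ℝ) ^ (k / 2) ≤ (X : ℝ) ^ k := by
    have h1 : (N : ℝ) ≤ (X : ℝ) ^ (2 : ℝ) := by
      rw [Real.rpow_two, sq]
      exact_mod_cast hNle
    calc (N : ℝ) ^ (k / 2) ≤ ((X : ℝ) ^ (2 : ℝ)) ^ (k / 2) :=
          Real.rpow_le_rpow (Nat.cast_nonneg _) h1 (by positivity)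
      _ = (X : ℝ) ^ k := by
          rw [← Real.rpow_mul hX0.le]
          congr 1
          ring
  refine ⟨W * d, Nat.mul_pos hW hd1, ?_, ?_⟩
  · push_cast
    calc (W : ℝ) * d ≤ Real.log X * Real.log X ^ C :=
          mul_le_mul (by linarith) hd2 (by positivity) (by linarith)
      _ = Real.log X ^ (C + 1) := by rw [pow_succ]; ring
      _ ≤ Real.log N ^ (C + 1) := pow_le_pow_left₀ (by linarith) hll _
  · have hcnt : (((Icc 1 (3 * X)).filter (fun n : ℕ => ∀ t < l, Ex k A B E X (n + t * d))).card : ℝ) ≤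
        (Set.ncard {n : ℕ | 1 ≤ n ∧ n ≤ N ∧ ∀ t < l₀, Y E ((N : ℝ) ^ (k / 2)) (n + t * (W * d))} : ℝ) := by
      rw [Nat.cast_le, ← Set.ncard_coe_finset]
      refine Set.ncard_le_ncard_of_injOn (fun m : ℕ => W * m + c) ?_ ?_ ?_
      · intro m hm
        rw [mem_coe, mem_filter, mem_Icc] at hm
        obtain ⟨hm1, hm2⟩ := hm
        refine ⟨?_, ?_, fun t ht => ?_⟩
        · have : 1 * 1 ≤ W * m := Nat.mul_le_mul hW hm1.1
          show 1 ≤ W * m + c
          omega
        · have h1 : W * m ≤ W * (3 * X) := Nat.mul_le_mul_left _ hm1.2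
          have h2 : W * (3 * X) = 3 * W * X := by ring
          show W * m + c ≤ N
          omega
        · have e1 : W * m + c + t * (W * d) = W * (m + t * d) + c := by ring
          show Y E ((N : ℝ) ^ (k / 2)) (W * m + c + t * (W * d))
          rw [e1]
          obtain ⟨h1, h2, h3, h4⟩ := hm2 t (lt_of_lt_of_le ht (le_max_left _ _))
          apply hY _ _ _ (by omega)
          exact ⟨h4, fun i p hp hpy => h3 i p hp (hpy.trans hrough)⟩
      · intro m _ m' _ h
        have h5 : W * m = W * m' := by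
          have : W * m + c = W * m' + c := h
          omega
        exact Nat.eq_of_mul_eq_mul_left hW h5
      · exact (Set.finite_Iic N).subset fun n hn => hn.2.1
    refine le_trans ?_ hcnt
    have h1 : (N : ℝ) ≤ 4 * W * X := by exact_mod_cast hNle4
    have h2 : (4 * W : ℝ) ≤ Real.log N := by linarith
    have h3 : 0 < Real.log N := by linarith
    have h4 : Real.log X ^ C ≤ Real.log N ^ C := pow_le_pow_left₀ (by linarith) hll C
    have h5 : 0 < Real.log X ^ C := by positivity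
    refine le_trans ?_ hd3
    rw [div_le_div_iff₀ (by positivity) h5]
    calc (N : ℝ) * Real.log X ^ C ≤ (4 * W * X) * Real.log N ^ C :=
          mul_le_mul h1 h4 h5.le (by positivity)
      _ = X * ((4 * W) * Real.log N ^ C) := by ring
      _ ≤ X * (Real.log N * Real.log N ^ C) := by
          apply mul_le_mul_of_nonneg_left _ hX0.le
          exact mul_le_mul_of_nonneg_right h2 (by positivity)
      _ = X * Real.log N ^ (C + 1) := by rw [pow_succ]; ring

/-- right order -/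
theorem transfer_count {K : ℕ} (A B : Fin K → ℕ) (k c0 : ℝ) (hk : 0 < k)
    (hc0 : 0 < c0) (hG : ∀ᶠ X : ℝ in atTop, c0 * X / Real.log X ^ K ≤ ((goodR k A B X).card : ℝ))
    (W c : ℕ) (hW : 0 < W) (Y : Finset (Fin K) → ℝ → ℕ → Prop)
    (hY : ∀ E y m, 1 ≤ m → At A B E y m → Y E y (W * m + c)) :
    ∃ c' : ℝ, 0 < c' ∧ ∀ᶠ x : ℝ in atTop, ∃ E : Finset (Fin K), 2 ≤ E.card ∧
      c' * x / Real.log x ^ K ≤
        (Set.ncard {n : ℕ | 1 ≤ n ∧ (n : ℝ) ≤ x ∧ Y E (x ^ (k / 2)) n} : ℝ) := by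
  classical
  have hQr : (1 : ℝ) ≤ W := by exact_mod_cast hW
  refine ⟨c0 / (2 ^ K * (4 * W)), by positivity, ?_⟩
  have ht : Tendsto (fun x : ℝ => x / (4 * (W : ℝ))) atTop atTop :=
    tendsto_id.atTop_div_const (by positivity)
  filter_upwards [ht.eventually hG, eventually_ge_atTop (16 * (W : ℝ) ^ 2 + 4 * W * 3 + 4 * c + 1)] with x hx hx2
  have hQ2 : 0 ≤ 16 * (W : ℝ) ^ 2 := by positivity
  have hc00 : (0 : ℝ) ≤ c := Nat.cast_nonneg _
  have hx0 : 0 < x := by linarith
  set X : ℝ := x / (4 * (W : ℝ)) with hX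
  have hxX : x = 4 * W * X := by rw [hX]; field_simp
  have hX3 : 3 ≤ X := by
    rw [hX, le_div_iff₀ (by positivity)]
    linarith
  have hX0 : 0 < X := by linarith
  have hXx : X ≤ x := by
    rw [hxX]
    nlinarith
  have hlX : 0 < Real.log X := Real.log_pos (by linarith)
  have hll : Real.log X ≤ Real.log x := Real.log_le_log hX0 hXx
  have hQX : 4 * (W : ℝ) ≤ X := by
    rw [hX, le_div_iff₀ (by positivity)]
    nlinarith
  have hrough : x ^ (k / 2) ≤ X ^ k := by
    have h1 : x ≤ X ^ (2 : ℝ) := by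
      rw [Real.rpow_two, sq, hxX]
      exact mul_le_mul_of_nonneg_right hQX hX0.le
    calc x ^ (k / 2) ≤ (X ^ (2 : ℝ)) ^ (k / 2) :=
          Real.rpow_le_rpow hx0.le h1 (by positivity)
      _ = X ^ k := by
          rw [← Real.rpow_mul hX0.le]
          congr 1
          ring
  set G := goodR k A B X with hGd
  set En : ℕ → Finset (Fin K) := fun n => univ.filter (fun i => (A i * n + B i).Prime) with hEn
  by_contra hcon
  push Not at hcon
  have hmaps : ∀ n ∈ G, En n ∈ (univ : Finset (Finset (Fin K))).filter (fun E => 2 ≤ E.card) := by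
    intro n hn
    rw [hGd, goodR, mem_filter] at hn
    obtain ⟨-, -, -, i, j, hij, hi, hj⟩ := hn
    rw [mem_filter]
    refine ⟨mem_univ _, ?_⟩
    have h3 : i ∈ En n := mem_filter.2 ⟨mem_univ _, hi⟩
    have h4 : j ∈ En n := mem_filter.2 ⟨mem_univ _, hj⟩
    exact Finset.one_lt_card.2 ⟨_, h3, _, h4, hij⟩
  have hfib : ∀ E ∈ (univ : Finset (Finset (Fin K))).filter (fun E => 2 ≤ E.card),
      ((G.filter (fun n => En n = E)).card : ℝ) < c0 / (2 ^ K * (4 * W)) * x / Real.log x ^ K := by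
    intro E hE
    rw [mem_filter] at hE
    refine lt_of_le_of_lt ?_ (hcon E hE.2)
    rw [Nat.cast_le, ← Set.ncard_coe_finset]
    refine Set.ncard_le_ncard_of_injOn (fun m : ℕ => W * m + c) ?_ ?_ ?_
    · intro m hm
      rw [mem_coe, mem_filter, hGd, goodR, mem_filter, mem_Icc] at hm
      obtain ⟨⟨⟨h3, h4⟩, h5, h6, -⟩, h8⟩ := hm
      have h4' : (m : ℝ) ≤ 3 * X := (Nat.le_floor_iff (by linarith)).1 h4
      have h9 : ∀ i, (A i * m + B i).Prime ↔ i ∈ E := by
        intro i
        rw [← h8, hEn]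
        simp
      refine ⟨?_, ?_, hY _ _ _ h3 ⟨h9, fun i p hp hpy => h6 i p hp (hpy.trans hrough)⟩⟩
      · have : 1 * 1 ≤ W * m := Nat.mul_le_mul hW h3
        show 1 ≤ W * m + c
        omega
      · push_cast
        have h10 : (W : ℝ) * m ≤ W * (3 * X) := mul_le_mul_of_nonneg_left h4' (by linarith)
        have h11 : (c : ℝ) ≤ W * X := by
          have : 4 * (c : ℝ) ≤ x := by nlinarith
          rw [hxX] at this
          linarith
        rw [hxX]
        linarith
    · intro m _ m' _ h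
      have h5 : W * m = W * m' := by
        have : W * m + c = W * m' + c := h
        omega
      exact Nat.eq_of_mul_eq_mul_left hW h5
    · exact (Set.finite_Iic ⌊x⌋₊).subset fun n hn => Nat.le_floor hn.2.1
  have h3 := Finset.card_eq_sum_card_fiberwise (s := G)
    (t := (univ : Finset (Finset (Fin K))).filter (fun E => 2 ≤ E.card)) (f := En) hmaps
  have hGpos : 0 < (G.card : ℝ) := lt_of_lt_of_le (by positivity) hx
  have hne : ((univ : Finset (Finset (Fin K))).filter (fun E => 2 ≤ E.card)).Nonempty := by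
    have hG1 : G.Nonempty := by
      rw [← Finset.card_pos]; exact_mod_cast hGpos
    obtain ⟨n, hn⟩ := hG1
    exact ⟨_, hmaps n hn⟩
  have h4 : (G.card : ℝ) < ∑ _E ∈ (univ : Finset (Finset (Fin K))).filter (fun E => 2 ≤ E.card),
      c0 / (2 ^ K * (4 * W)) * x / Real.log x ^ K := by
    rw [h3]
    push_cast
    exact Finset.sum_lt_sum_of_nonempty hne hfib
  rw [Finset.sum_const, nsmul_eq_mul] at h4
  have h5 : (((univ : Finset (Finset (Fin K))).filter (fun E => 2 ≤ E.card)).card : ℝ) ≤ 2 ^ K := by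
    have h6 : ((univ : Finset (Finset (Fin K))).filter (fun E => 2 ≤ E.card)).card ≤ 2 ^ K := by
      refine (card_filter_le _ _).trans (le_of_eq ?_)
      rw [card_univ, Fintype.card_finset, Fintype.card_fin]
    exact_mod_cast h6
  have hlx : 0 < Real.log x := by linarith
  have hq0 : 0 ≤ c0 / (2 ^ K * (4 * W)) * x / Real.log x ^ K := by positivity
  have h6 := mul_le_mul_of_nonneg_right h5 hq0
  have h7 : (2 : ℝ) ^ K * (c0 / (2 ^ K * (4 * W)) * x / Real.log x ^ K) = c0 * X / Real.log x ^ K := by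
    rw [hX]; field_simp
  have h8 : c0 * X / Real.log x ^ K ≤ c0 * X / Real.log X ^ K := by
    apply div_le_div_of_nonneg_left (by positivity) (by positivity)
    exact pow_le_pow_left₀ hlX.le hll _
  linarith

/-- from `∃ E` for every large `x` to one `E` for arbitrarily large `x`; finitely many `E` -/
theorem pigeon_freq {β : Type*} [Finite β] {P : ℝ → β → Prop} (h : ∀ᶠ x : ℝ in atTop, ∃ b, P x b) :
    ∃ b, ∃ᶠ x : ℝ in atTop, P x b := by
  by_contra hcon
  push Not at hcon
  have h1 : ∀ᶠ x : ℝ in atTop, ∀ b, ¬ P x b := by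
    rw [Filter.eventually_all]
    intro b
    exact hcon b
  obtain ⟨x, ⟨b, hb⟩, hx⟩ := (h.and h1).exists
  exact hx b hb

end Pool.Agent.X34.E
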