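import Mathlib
import Pool.Agent.X34.E.E6
import Pool.Agent.Y826.ZC.T45

/-! Engine E (helper34): narrow progressions: formal properties; the tuple of diameter 212. -/

set_option autoImplicit false

open Finset Filter

namespace Pool.Agent.X34.E

open Pool.Agent.Y826.ZC (tup45 tup45_admissible tup45_le)

theorem card_mono {p q : ℕ → Prop} {ip : DecidablePred p} {iq : DecidablePred q} (s : Finset ℕ)
    (h : ∀ n ∈ s, p n → q n) :
    (@Finset.filter ℕ p ip s).card ≤ (@Finset.filter ℕ q iq s).card := by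
  apply Finset.card_le_card
  intro n hn
  simp only [Finset.mem_filter] at hn ⊢
  exact ⟨hn.1, h n hn.1 hn.2⟩

open Classical in
/-- many narrow progressions of any length (compare `Y827.RO.Nar`) -/
def Nar (X : ℕ → Prop) : Prop := ∀ l : ℕ, ∃ C : ℕ, ∃ᶠ N : ℕ in atTop, ∃ d : ℕ, 1 ≤ d ∧
  (d : ℝ) ≤ (Real.log N) ^ C ∧ (N : ℝ) / (Real.log N) ^ C ≤
    (((Icc 1 N).filter (fun n : ℕ => ∀ j < l, X (n + j * d))).card : ℝ)

theorem Nar.mono {X Y : ℕ → Prop} (h : Nar X) (hXY : ∀ n, X n → Y n) : Nar Y := by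
  classical
  intro l
  obtain ⟨C, hC⟩ := h l
  refine ⟨C, hC.mono ?_⟩
  rintro N ⟨d, h1, h2, h3⟩
  refine ⟨d, h1, h2, h3.trans ?_⟩
  rw [Nat.cast_le]
  apply card_le_card
  intro n hn
  rw [mem_filter] at hn ⊢
  exact ⟨hn.1, fun j hj => hXY _ (hn.2 j hj)⟩

theorem log_ev' (a : ℝ) : ∀ᶠ N : ℕ in atTop, a ≤ Real.log N :=
  (Real.tendsto_log_atTop.comp tendsto_natCast_atTop_atTop).eventually_ge_atTop _

/-- only large elements matter -/
theorem Nar.large {X : ℕ → Prop} (h : Nar X) (n₀ : ℕ) : Nar (fun m => X m ∧ n₀ ≤ m) := by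
  classical
  intro l
  obtain ⟨C, hC⟩ := h l
  refine ⟨C + 1, ?_⟩
  have hev : ∀ᶠ N : ℕ in atTop, (N : ℝ) / (Real.log N) ^ (C + 1) + n₀ ≤ (N : ℝ) / (Real.log N) ^ C := by
    have h1 : ∀ᶠ x : ℝ in atTop, (Real.log x) ^ (C + 1) ≤ x := by
      have := (isLittleO_log_rpow_rpow_atTop (s := 1) ((C + 1 : ℕ) : ℝ) one_pos).bound one_pos
      filter_upwards [this, eventually_ge_atTop 3] with x hx hx3
      have hl : 0 ≤ Real.log x := Real.log_nonneg (by linarith)
      rw [Real.rpow_natCast, Real.rpow_one, Real.norm_eq_abs, Real.norm_eq_abs, one_mul,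
        abs_of_nonneg (by positivity), abs_of_nonneg (by linarith)] at hx
      exact hx
    filter_upwards [(tendsto_natCast_atTop_atTop (R := ℝ)).eventually h1, log_ev' (n₀ + 2),
      eventually_ge_atTop 3] with N hN hl hN3
    have hn0 : (0 : ℝ) ≤ n₀ := Nat.cast_nonneg _
    have hl0 : 0 < Real.log N := by linarith
    have hp : 0 < (Real.log N) ^ (C + 1) := by positivity
    have h2 : (1 : ℝ) ≤ (N : ℝ) / (Real.log N) ^ (C + 1) := by
      rw [le_div_iff₀ hp]; linarith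
    have h3 : (N : ℝ) / (Real.log N) ^ C = (N : ℝ) / (Real.log N) ^ (C + 1) * Real.log N := by
      rw [pow_succ]
      field_simp
    rw [h3]
    nlinarith
  refine (hC.and_eventually (hev.and ((log_ev' 1).and (eventually_ge_atTop 1)))).mono ?_
  rintro N ⟨⟨d, h1, h2, h3⟩, h4, h5, h6⟩
  refine ⟨d, h1, h2.trans (pow_le_pow_right₀ h5 (by omega)), ?_⟩
  have h7 : ((Icc 1 N).filter (fun n : ℕ => ∀ j < l, X (n + j * d))).card ≤
      ((Icc 1 N).filter (fun n : ℕ => ∀ j < l, X (n + j * d) ∧ n₀ ≤ n + j * d)).card + n₀ := by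
    have h8 : (Icc 1 N).filter (fun n : ℕ => ∀ j < l, X (n + j * d)) ⊆
        ((Icc 1 N).filter (fun n : ℕ => ∀ j < l, X (n + j * d) ∧ n₀ ≤ n + j * d)) ∪ range n₀ := by
      intro n hn
      obtain ⟨h9, h10⟩ := mem_filter.1 hn
      by_cases h11 : n < n₀
      · exact mem_union_right _ (mem_range.2 h11)
      · refine mem_union_left _ (mem_filter.2 ⟨h9, fun j hj => ⟨h10 j hj, ?_⟩⟩)
        have : 0 ≤ j * d := Nat.zero_le _
        omega
    refine (card_le_card h8).trans ((card_union_le _ _).trans ?_)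
    rw [card_range]
  have h8 : (((Icc 1 N).filter (fun n : ℕ => ∀ j < l, X (n + j * d))).card : ℝ) ≤
      (((Icc 1 N).filter (fun n : ℕ => ∀ j < l, X (n + j * d) ∧ n₀ ≤ n + j * d)).card : ℝ) + n₀ := by
    exact_mod_cast h7
  have h9 : (N : ℝ) / Real.log N ^ (C + 1) ≤
      (((Icc 1 N).filter (fun n : ℕ => ∀ j < l, X (n + j * d) ∧ n₀ ≤ n + j * d)).card : ℝ) := by
    linarith
  convert h9

theorem Nar.affine {X : ℕ → Prop} {q b : ℕ} (hq : 0 < q) (h : Nar (fun m => X (q * m + b))) :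
    Nar X := by
  classical
  intro l
  obtain ⟨C, hC⟩ := h l
  refine ⟨C + 1, ?_⟩
  have ht : Tendsto (fun m : ℕ => q * m + b) atTop atTop := by
    apply tendsto_atTop_mono (f := fun m : ℕ => m) _ tendsto_id
    intro m
    have : 1 * m ≤ q * m := Nat.mul_le_mul_right _ hq
    show m ≤ q * m + b
    omega
  refine ht.frequently ?_
  refine (hC.and_eventually (((log_ev' (2 * q)).and (eventually_ge_atTop 3)).and
    (eventually_ge_atTop (b + 1)))).mono ?_
  rintro N ⟨⟨d, hd1, hd2, hd3⟩, ⟨hNl, hN3⟩, hNb⟩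
  have hqr : (1 : ℝ) ≤ q := by exact_mod_cast hq
  have hL1 : 1 ≤ Real.log N := by linarith
  have hNr : (0 : ℝ) < N := by exact_mod_cast (by omega : 0 < N)
  have hle : N ≤ q * N + b := by
    have : 1 * N ≤ q * N := Nat.mul_le_mul_right _ hq
    omega
  have hll : Real.log N ≤ Real.log ((q * N + b : ℕ) : ℝ) :=
    Real.log_le_log hNr (by exact_mod_cast hle)
  have hL1' : 1 ≤ Real.log ((q * N + b : ℕ) : ℝ) := hL1.trans hll
  refine ⟨q * d, Nat.mul_pos hq hd1, ?_, ?_⟩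
  · push_cast at hll hL1' ⊢
    have h1 : (q : ℝ) ≤ Real.log ((q : ℝ) * N + b) := by linarith
    have h2 : (d : ℝ) ≤ Real.log ((q : ℝ) * N + b) ^ C :=
      hd2.trans (pow_le_pow_left₀ (by linarith) hll C)
    rw [pow_succ, mul_comm]
    exact mul_le_mul h2 h1 (by linarith) (by positivity)
  · have hcnt : (((Icc 1 N).filter (fun n : ℕ => ∀ j < l, X (q * (n + j * d) + b))).card : ℝ) ≤
        (((Icc 1 (q * N + b)).filter (fun n : ℕ => ∀ j < l, X (n + j * (q * d)))).card : ℝ) := by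
      rw [Nat.cast_le]
      rw [← card_image_of_injective (f := fun m : ℕ => q * m + b) _ (by
        intro m m' hm
        have h1 : q * m + b = q * m' + b := hm
        exact Nat.eq_of_mul_eq_mul_left hq (by omega))]
      apply card_le_card
      intro n hn
      obtain ⟨m, hm, rfl⟩ := mem_image.1 hn
      obtain ⟨hm1, hm2⟩ := mem_filter.1 hm
      rw [mem_Icc] at hm1
      refine mem_filter.2 ⟨mem_Icc.2 ⟨?_, ?_⟩, fun j hj => ?_⟩
      · have : 1 * 1 ≤ q * m := Nat.mul_le_mul hq hm1.1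
        omega
      · have : q * m ≤ q * N := Nat.mul_le_mul_left _ hm1.2
        omega
      · have e1 : q * m + b + j * (q * d) = q * (m + j * d) + b := by ring
        rw [e1]
        exact hm2 j hj
    refine le_trans ?_ (hd3.trans hcnt)
    push_cast at hll hL1' ⊢
    have h1 : (2 * q : ℝ) ≤ Real.log ((q : ℝ) * N + b) := hNl.trans hll
    have h2 : ((q : ℝ) * N + b) ≤ 2 * q * N := by
      have : (b : ℝ) ≤ N := by exact_mod_cast (by omega : b ≤ N)
      nlinarith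
    have h3 : 0 < Real.log ((q : ℝ) * N + b) := by linarith
    have h4 : Real.log N ^ C ≤ Real.log ((q : ℝ) * N + b) ^ C :=
      pow_le_pow_left₀ (by linarith) hll C
    rw [div_le_div_iff₀ (by positivity) (by positivity)]
    calc ((q : ℝ) * N + b) * Real.log N ^ C ≤
          (2 * q * N) * Real.log ((q : ℝ) * N + b) ^ C :=
          mul_le_mul h2 h4 (by positivity) (by positivity)
      _ = N * (Real.log ((q : ℝ) * N + b) ^ C * (2 * q)) := by ring
      _ ≤ N * (Real.log ((q : ℝ) * N + b) ^ C * Real.log ((q : ℝ) * N + b)) := by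
          apply mul_le_mul_of_nonneg_left _ hNr.le
          exact mul_le_mul_of_nonneg_left h1 (by positivity)
      _ = N * Real.log ((q : ℝ) * N + b) ^ (C + 1) := by rw [pow_succ]

/-- exact patterns of primes in the admissible set `S` of 45 integers, as `Nar` -/
theorem nar_exact (hE : Eng) (S : Finset ℤ) (hS : 45 ≤ S.card) (hadm : Adm S) (q : ℕ) (r : ℤ) (hq : 0 < q)
    (hr : ∀ s ∈ S, IsCoprime (r + s) (q : ℤ)) :
    ∃ P ⊆ S, 2 ≤ P.card ∧ ∀ R : ℕ, Nar (fun n => (n : ℤ) ≡ r [ZMOD q] ∧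
      ∀ z : ℤ, |z| ≤ R → ((∃ p : ℕ, p.Prime ∧ (p : ℤ) = n + z) ↔ z ∈ P)) := by
  classical
  obtain ⟨T, hTS, hT⟩ := Finset.exists_subset_card_eq hS
  obtain ⟨k, hk, h⟩ := exactN_of hE
  obtain ⟨P, hP, hP2, hPl⟩ := h T hT (fun p hp => (hadm p hp).imp fun r' h s hs => h s (hTS hs)) q r hq
    (fun s hs => hr s (hTS hs))
  refine ⟨P, hP.trans hTS, hP2, fun R l => ?_⟩
  obtain ⟨C, hC⟩ := hPl R l
  refine ⟨C, hC.mono ?_⟩
  rintro N ⟨d, h1, h2, h3⟩
  refine ⟨d, h1, h2, h3.trans ?_⟩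
  rw [Nat.cast_le]
  exact card_mono _ (fun n _ hn j hj => ⟨(hn j hj).1, (hn j hj).2.1⟩)

/-- `n ≡ a (mod q)` and the primes at distance at most `R` from `n` are the numbers `n + h`, `h ∈ P` -/
def Cluster (q a R : ℕ) (P : Finset ℕ) (n : ℕ) : Prop :=
  n ≡ a [MOD q] ∧ ∀ m : ℕ, m ≤ n + R → n ≤ m + R → (m.Prime ↔ ∃ h ∈ P, m = n + h)

/-- clusters in a set `G` of at least 45 numbers, in a residue class -/
theorem nar_cluster (hE : Eng) (q a : ℕ) (hq : 0 < q) (ha : a.Coprime q) (G : Finset ℕ) (hG : 45 ≤ G.card)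
    (hadm : ∀ p : ℕ, p.Prime → ¬ p ∣ q → ∃ r : ℕ, ∀ g ∈ G, ¬ p ∣ r + g) :
    ∃ P ⊆ G, 2 ≤ P.card ∧ ∃ g₀ ∈ P, (∀ g ∈ P, g₀ ≤ g) ∧
      ∀ R : ℕ, Nar (Cluster q a R (P.image (fun g => q * (g - g₀)))) := by
  classical
  set S : Finset ℤ := G.image (fun g : ℕ => (q : ℤ) * (g : ℤ)) with hS
  have hq0 : (q : ℤ) ≠ 0 := by exact_mod_cast hq.ne'
  have hinj : Function.Injective (fun g : ℕ => (q : ℤ) * (g : ℤ)) := by
    intro g g' h
    have h1 : (q : ℤ) * g = q * g' := h
    exact_mod_cast mul_left_cancel₀ hq0 h1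
  have hScard : 45 ≤ S.card := by rw [hS, card_image_of_injective _ hinj]; exact hG
  have hSadm : Adm S := by
    intro p hp
    by_cases hpq : p ∣ q
    · refine ⟨1, fun s hs hd => ?_⟩
      obtain ⟨g, -, rfl⟩ := mem_image.1 hs
      have h1 : (p : ℤ) ∣ (q : ℤ) * g := (Int.natCast_dvd_natCast.2 hpq).mul_right _
      have h2 : (p : ℤ) ∣ 1 := (dvd_add_left h1).1 hd
      have h3 := Int.natCast_dvd_natCast.1 (show ((p : ℕ) : ℤ) ∣ ((1 : ℕ) : ℤ) by exact_mod_cast h2)
      exact hp.one_lt.ne' (Nat.dvd_one.1 h3)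
    · obtain ⟨r, hr⟩ := hadm p hp hpq
      refine ⟨q * r, fun s hs hd => ?_⟩
      obtain ⟨g, hg, rfl⟩ := mem_image.1 hs
      have h1 : (q : ℤ) * r + q * g = ((q * (r + g) : ℕ) : ℤ) := by push_cast; ring
      rw [h1, Int.natCast_dvd_natCast, hp.dvd_mul] at hd
      rcases hd with h2 | h2
      · exact hpq h2
      · exact hr g hg h2
  obtain ⟨P', hP', hP'2, hPR⟩ := nar_exact hE S hScard hSadm q a hq (fun s hs => by
    obtain ⟨g, -, rfl⟩ := mem_image.1 hs
    have h1 : IsCoprime (a : ℤ) (q : ℤ) := Nat.isCoprime_iff_coprime.2 ha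
    exact (IsCoprime.add_mul_left_left h1 (g : ℤ)))
  set P : Finset ℕ := G.filter (fun g : ℕ => (q : ℤ) * (g : ℤ) ∈ P') with hP
  have hPP' : ∀ z : ℤ, z ∈ P' ↔ ∃ g ∈ P, z = q * g := by
    intro z
    constructor
    · intro hz
      obtain ⟨g, hg, hgz⟩ := mem_image.1 (hP' hz)
      exact ⟨g, mem_filter.2 ⟨hg, by rw [hgz]; exact hz⟩, hgz.symm⟩
    · rintro ⟨g, hg, rfl⟩
      exact (mem_filter.1 hg).2
  have hPcard : P'.card = P.card := by
    have : P' = P.image (fun g : ℕ => (q : ℤ) * (g : ℤ)) := by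
      ext z
      rw [hPP', mem_image]
      constructor
      · rintro ⟨g, hg, h⟩; exact ⟨g, hg, h.symm⟩
      · rintro ⟨g, hg, h⟩; exact ⟨g, hg, h.symm⟩
    rw [this, card_image_of_injective _ hinj]
  have hPne : P.Nonempty := by
    rw [← card_pos]; omega
  obtain ⟨g₀, hg₀, hmin⟩ := exists_min_image P id hPne
  refine ⟨P, filter_subset _ _, by omega, g₀, hg₀, hmin, fun R => ?_⟩
  apply Nar.affine (q := 1) (b := q * g₀) one_pos
  refine (hPR (R + q * g₀)).mono ?_
  rintro n ⟨h1, h2⟩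
  have e1 : 1 * n + q * g₀ = n + q * g₀ := by ring
  rw [e1]
  refine ⟨?_, fun m hm1 hm2 => ?_⟩
  · have h3 : n ≡ a [MOD q] := Int.natCast_modEq_iff.1 h1
    have h4 : n + q * g₀ ≡ a + 0 [MOD q] := h3.add ((Nat.modEq_zero_iff_dvd).2 (dvd_mul_right _ _))
    simpa using h4
  · have h3 : |(m : ℤ) - n| ≤ ((R + q * g₀ : ℕ) : ℤ) := by
      rw [abs_le]
      constructor
      · push_cast; omega
      · push_cast; omega
    have h4 := h2 ((m : ℤ) - n) h3
    have h5 : m.Prime ↔ (m : ℤ) - n ∈ P' := by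
      rw [← h4]
      constructor
      · intro h6
        exact ⟨m, h6, by ring⟩
      · rintro ⟨p, hp1, hp2⟩
        have h7 : p = m := by
          have : (p : ℤ) = m := by rw [hp2]; ring
          exact_mod_cast this
        rw [← h7]; exact hp1
    rw [h5, hPP']
    constructor
    · rintro ⟨g, hg, h6⟩
      refine ⟨q * (g - g₀), mem_image.2 ⟨g, hg, rfl⟩, ?_⟩
      have h7 : g₀ ≤ g := hmin g hg
      have h8 : q * g = q * (g - g₀) + q * g₀ := by
        rw [← Nat.mul_add, Nat.sub_add_cancel h7]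
      have h9 : (m : ℤ) = ((n + q * g : ℕ) : ℤ) := by push_cast; linarith
      have h10 : m = n + q * g := by exact_mod_cast h9
      omega
    · rintro ⟨h, hh, h6⟩
      obtain ⟨g, hg, rfl⟩ := mem_image.1 hh
      refine ⟨g, hg, ?_⟩
      have h7 : g₀ ≤ g := hmin g hg
      have h8 : q * g = q * (g - g₀) + q * g₀ := by
        rw [← Nat.mul_add, Nat.sub_add_cancel h7]
      have h9 : m = n + q * g := by omega
      rw [h9]
      push_cast
      ring

/-- half of the tuple of diameter 212 -/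
def G45 : Finset ℕ := {0, 1, 6, 7, 12, 13, 15, 18, 22, 25, 27, 28, 30, 33, 36, 37, 40, 42, 46, 48, 51, 55, 57,
  58, 61, 63, 67, 70, 72, 75, 78, 81, 82, 85, 88, 90, 91, 93, 96, 97, 100, 102, 103, 105, 106}

theorem G45_card : G45.card = 45 := by decide

theorem G45_le : ∀ g ∈ G45, g ≤ 106 := by decide

set_option maxRecDepth 100000 in
theorem G45_tup : ∀ g ∈ G45, ∃ i, tup45 i = 2 * g := by decide

/-- `G45` misses a class modulo every odd prime -/
theorem G45_adm (p : ℕ) (hp : p.Prime) (h2 : p ≠ 2) : ∃ r : ℕ, ∀ g ∈ G45, ¬ p ∣ r + g := by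
  obtain ⟨a, ha⟩ := tup45_admissible.2 p hp
  -- `r ≡ a / 2`
  have hodd : p % 2 = 1 := by
    rcases hp.eq_two_or_odd with h | h
    · exact absurd h h2
    · exact h
  refine ⟨a * ((p + 1) / 2), fun g hg hd => ?_⟩
  obtain ⟨i, hi⟩ := G45_tup g hg
  apply ha i
  rw [hi]
  have h1 : 2 * ((p + 1) / 2) = p + 1 := by omega
  have h3 : 2 * (a * ((p + 1) / 2) + g) = a * p + (a + 2 * g) := by
    calc 2 * (a * ((p + 1) / 2) + g) = a * (2 * ((p + 1) / 2)) + 2 * g := by ring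
      _ = a * p + (a + 2 * g) := by rw [h1]; ring
  have h4 : p ∣ a * p + (a + 2 * g) := by rw [← h3]; exact hd.mul_left 2
  exact (Nat.dvd_add_right (dvd_mul_left p a)).1 h4

end Pool.Agent.X34.E
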