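import Mathlib
import Pool.Agent.X34.E.E7

/-! Engine E (helper34): primes of a residue class followed by a gap at most `106 lcm (2, q)`, in narrow
progressions. -/

set_option autoImplicit false

open Finset Filter

namespace Pool.Agent.X34.E

theorem lift_class (q a : ℕ) (hq : 0 < q) (ha : a.Coprime q) :
    ∃ a' : ℕ, a' ≡ a [MOD q] ∧ a'.Coprime (Nat.lcm 2 q) := by
  have key : ∀ b : ℕ, b.Coprime q → b % 2 = 1 → b.Coprime (Nat.lcm 2 q) := by
    intro b hb h2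
    have h3 : b.Coprime 2 := by
      rw [Nat.coprime_comm, Nat.coprime_two_left]
      exact Nat.odd_iff.2 h2
    have h4 : b.Coprime (2 * q) := Nat.Coprime.mul_right h3 hb
    exact h4.coprime_dvd_right (Nat.lcm_dvd_mul 2 q)
  by_cases h2 : a % 2 = 1
  · exact ⟨a, Nat.ModEq.refl _, key a ha h2⟩
  · have hqo : q % 2 = 1 := by
      by_contra hqe
      have h3 : 2 ∣ a := by omega
      have h4 : 2 ∣ q := by omega
      have h5 := Nat.dvd_gcd h3 h4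
      rw [ha] at h5
      omega
    refine ⟨a + q, ?_, key (a + q) ?_ (by omega)⟩
    · simp [Nat.ModEq]
    · simpa using ha

/-- clusters inside `lcm (2, q) * [0, 106]` -/
theorem cluster106 (hE : Eng) (q a : ℕ) (hq : 0 < q) (ha : a.Coprime q) :
    ∃ (P : Finset ℕ) (k : ℕ), 0 ∈ P ∧ 1 ≤ k ∧ k ≤ 106 ∧ k * Nat.lcm 2 q ∈ P ∧
      (∀ h ∈ P, h = 0 ∨ k * Nat.lcm 2 q ≤ h) ∧
      (∀ h ∈ P, h ≤ 106 * Nat.lcm 2 q ∧ Nat.lcm 2 q ∣ h) ∧
      ∀ R : ℕ, Nar (Cluster q a R P) := by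
  classical
  obtain ⟨a', ha1, ha2⟩ := lift_class q a hq ha
  have hM0 : 0 < Nat.lcm 2 q := Nat.lcm_pos (by norm_num) hq
  obtain ⟨P0, hP0, hP2, g₀, hg₀, hmin, hR⟩ := nar_cluster hE (Nat.lcm 2 q) a' hM0 ha2 G45
    (by rw [G45_card]) (fun p hp hpM => G45_adm p hp (fun h => hpM (h ▸ Nat.dvd_lcm_left 2 q)))
  have hne : (P0.erase g₀).Nonempty := by
    rw [← card_pos, card_erase_of_mem hg₀]
    omega
  obtain ⟨g₁, hg₁, hmin1⟩ := exists_min_image (P0.erase g₀) id hne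
  obtain ⟨hg1a, hg1b⟩ := mem_erase.1 hg₁
  have hlt : g₀ < g₁ := lt_of_le_of_ne (hmin g₁ hg1b) (Ne.symm hg1a)
  have hg106 := G45_le g₁ (hP0 hg1b)
  refine ⟨P0.image (fun g => Nat.lcm 2 q * (g - g₀)), g₁ - g₀, ?_, by omega, by omega, ?_, ?_, ?_, ?_⟩
  · exact mem_image.2 ⟨g₀, hg₀, by simp⟩
  · exact mem_image.2 ⟨g₁, hg1b, by ring⟩
  · intro h hh
    obtain ⟨g, hg, rfl⟩ := mem_image.1 hh
    by_cases hgg : g = g₀
    · left; simp [hgg]
    · right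
      have h1 : g₁ ≤ g := hmin1 g (mem_erase.2 ⟨hgg, hg⟩)
      rw [mul_comm]
      exact Nat.mul_le_mul_left _ (by omega)
  · intro h hh
    obtain ⟨g, hg, rfl⟩ := mem_image.1 hh
    have h1 := G45_le g (hP0 hg)
    refine ⟨?_, dvd_mul_right _ _⟩
    rw [mul_comm]
    exact Nat.mul_le_mul_right _ (by omega)
  · intro R
    refine (hR R).mono ?_
    rintro n ⟨h1, h2⟩
    exact ⟨(h1.of_dvd (Nat.dvd_lcm_right 2 q)).trans ha1, h2⟩

end Pool.Agent.X34.E
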