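import Mathlib
import Pool.Agent.X34.E.E8
import Pool.Agent.X34.E.E12

/-! Engine E (helper34): windows `(y, 3 y]`, primes followed by a gap at most `106 lcm (2, q)`. -/

set_option autoImplicit false

open Finset Filter

namespace Pool.Agent.X34.E

open Pool.Agent.H95R2.BG.LF
open Pool.Agent.Y826.ZC (exact_forms)

/-- right order in the windows `(y, 3 y]` -/
theorem transfer_window {K : ℕ} (A B : Fin K → ℕ) (k c0 : ℝ) (hk : 0 < k)
    (hc0 : 0 < c0) (hG : ∀ᶠ X : ℝ in atTop, c0 * X / Real.log X ^ K ≤ ((goodR k A B X).card : ℝ))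
    (W c : ℕ) (hW : 0 < W) (Y : Finset (Fin K) → ℝ → ℕ → Prop)
    (hY : ∀ E y m, 1 ≤ m → At A B E y m → Y E y (W * m + c)) :
    ∃ c' : ℝ, 0 < c' ∧ ∀ᶠ x : ℝ in atTop, ∃ E : Finset (Fin K), 2 ≤ E.card ∧
      c' * x / Real.log x ^ K ≤
        (Set.ncard {n : ℕ | x < n ∧ (n : ℝ) + c ≤ 3 * x ∧ Y E (x ^ (k / 2)) n} : ℝ) := by
  classical
  have hQr : (1 : ℝ) ≤ W := by exact_mod_cast hW
  refine ⟨c0 / (2 ^ K * (2 * W)), by positivity, ?_⟩
  have ht : Tendsto (fun x : ℝ => (x - c) / (W : ℝ)) atTop atTop :=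
    (tendsto_atTop_add_const_right _ (-(c : ℝ)) tendsto_id).atTop_div_const (by positivity)
  filter_upwards [ht.eventually hG, eventually_ge_atTop (4 * (W : ℝ) ^ 2 + 6 * W + 2 * c + 1)] with x hx hx2
  have hQ2 : 0 ≤ 4 * (W : ℝ) ^ 2 := by positivity
  have hc00 : (0 : ℝ) ≤ c := Nat.cast_nonneg _
  have hx0 : 0 < x := by linarith
  set X : ℝ := (x - c) / (W : ℝ) with hX
  have hxX : x = W * X + c := by rw [hX]; field_simp; ring
  have hX2 : x / (2 * W) ≤ X := by
    rw [hX, div_le_div_iff₀ (by positivity) (by positivity)]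
    nlinarith
  have hX3 : 3 ≤ X := by
    refine le_trans ?_ hX2
    rw [le_div_iff₀ (by positivity)]
    linarith
  have hX0 : 0 < X := by linarith
  have hXx : X ≤ x := by
    rw [hxX]
    nlinarith
  have hlX : 0 < Real.log X := Real.log_pos (by linarith)
  have hll : Real.log X ≤ Real.log x := Real.log_le_log hX0 hXx
  have hrough : x ^ (k / 2) ≤ X ^ k := by
    have h1 : x ≤ X ^ (2 : ℝ) := by
      rw [Real.rpow_two, sq]
      have h2 : x ≤ x / (2 * W) * (x / (2 * W)) := by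
        rw [div_mul_div_comm, le_div_iff₀ (by positivity)]
        have : 4 * (W : ℝ) ^ 2 ≤ x := by linarith
        nlinarith
      have h3 : 0 ≤ x / (2 * W) := by positivity
      exact h2.trans (mul_le_mul hX2 hX2 h3 hX0.le)
    calc x ^ (k / 2) ≤ (X ^ (2 : ℝ)) ^ (k / 2) :=
          Real.rpow_le_rpow hx0.le h1 (by positivity)
      _ = X ^ k := by
          rw [← Real.rpow_mul hX0.le]
          congr 1
          ring
  set G := goodR k A B X with hGd
  set En : ℕ → Finset (Fin K) := fun n => univ.filter (fun i => (A i * n + B i).Prime) with hEn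
  by_contra hcon
  push Not at hcon
  have hmaps : ∀ n ∈ G, En n ∈ (univ : Finset (Finset (Fin K))).filter (fun E => 2 ≤ E.card) := by
    intro n hn
    rw [hGd, goodR, mem_filter] at hn
    obtain ⟨-, -, -, i, j, hij, hi, hj⟩ := hn
    rw [mem_filter]
    refine ⟨mem_univ _, ?_⟩
    have h3 : i ∈ En n := mem_filter.2 ⟨mem_univ _, hi⟩
    have h4 : j ∈ En n := mem_filter.2 ⟨mem_univ _, hj⟩
    exact Finset.one_lt_card.2 ⟨_, h3, _, h4, hij⟩
  have hfib : ∀ E ∈ (univ : Finset (Finset (Fin K))).filter (fun E => 2 ≤ E.card),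
      ((G.filter (fun n => En n = E)).card : ℝ) < c0 / (2 ^ K * (2 * W)) * x / Real.log x ^ K := by
    intro E hE
    rw [mem_filter] at hE
    refine lt_of_le_of_lt ?_ (hcon E hE.2)
    rw [Nat.cast_le, ← Set.ncard_coe_finset]
    refine Set.ncard_le_ncard_of_injOn (fun m : ℕ => W * m + c) ?_ ?_ ?_
    · intro m hm
      rw [mem_coe, mem_filter, hGd, goodR, mem_filter, mem_Icc] at hm
      obtain ⟨⟨⟨h3, h4⟩, h5, h6, -⟩, h8⟩ := hm
      have h4' : (m : ℝ) ≤ 3 * X := (Nat.le_floor_iff (by linarith)).1 h4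
      have h9 : ∀ i, (A i * m + B i).Prime ↔ i ∈ E := by
        intro i
        rw [← h8, hEn]
        simp
      refine ⟨?_, ?_, hY _ _ _ h3 ⟨h9, fun i p hp hpy => h6 i p hp (hpy.trans hrough)⟩⟩
      · push_cast
        rw [hxX]
        have h10 : (W : ℝ) * X < W * m := mul_lt_mul_of_pos_left h5 (by linarith)
        linarith
      · push_cast
        have h10 : (W : ℝ) * m ≤ W * (3 * X) := mul_le_mul_of_nonneg_left h4' (by linarith)
        rw [hxX]
        linarith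
    · intro m _ m' _ h
      have h5 : W * m = W * m' := by
        have : W * m + c = W * m' + c := h
        omega
      exact Nat.eq_of_mul_eq_mul_left hW h5
    · refine (Set.finite_Iic ⌊3 * x⌋₊).subset fun n hn => Nat.le_floor ?_
      have := hn.2.1
      linarith
  have h3 := Finset.card_eq_sum_card_fiberwise (s := G)
    (t := (univ : Finset (Finset (Fin K))).filter (fun E => 2 ≤ E.card)) (f := En) hmaps
  have hGpos : 0 < (G.card : ℝ) := lt_of_lt_of_le (by positivity) hx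
  have hne : ((univ : Finset (Finset (Fin K))).filter (fun E => 2 ≤ E.card)).Nonempty := by
    have hG1 : G.Nonempty := by
      rw [← Finset.card_pos]; exact_mod_cast hGpos
    obtain ⟨n, hn⟩ := hG1
    exact ⟨_, hmaps n hn⟩
  have h4 : (G.card : ℝ) < ∑ _E ∈ (univ : Finset (Finset (Fin K))).filter (fun E => 2 ≤ E.card),
      c0 / (2 ^ K * (2 * W)) * x / Real.log x ^ K := by
    rw [h3]
    push_cast
    exact Finset.sum_lt_sum_of_nonempty hne hfib
  rw [Finset.sum_const, nsmul_eq_mul] at h4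
  have h5 : (((univ : Finset (Finset (Fin K))).filter (fun E => 2 ≤ E.card)).card : ℝ) ≤ 2 ^ K := by
    have h6 : ((univ : Finset (Finset (Fin K))).filter (fun E => 2 ≤ E.card)).card ≤ 2 ^ K := by
      refine (card_filter_le _ _).trans (le_of_eq ?_)
      rw [card_univ, Fintype.card_finset, Fintype.card_fin]
    exact_mod_cast h6
  have hlx : 0 < Real.log x := by linarith
  have hq0 : 0 ≤ c0 / (2 ^ K * (2 * W)) * x / Real.log x ^ K := by positivity
  have h6 := mul_le_mul_of_nonneg_right h5 hq0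
  have h7 : (2 : ℝ) ^ K * (c0 / (2 ^ K * (2 * W)) * x / Real.log x ^ K) =
      c0 * (x / (2 * W)) / Real.log x ^ K := by
    field_simp
  have h8 : c0 * (x / (2 * W)) / Real.log x ^ K ≤ c0 * X / Real.log X ^ K := by
    apply div_le_div₀ (by positivity) (mul_le_mul_of_nonneg_left hX2 hc0.le) (by positivity)
    exact pow_le_pow_left₀ hlX.le hll _
  linarith

/-- `forms_window` with `R < c` -/
theorem forms_window' (S : Finset ℤ) (hS : S.card = 45) (hadm : Adm S) (q : ℕ) (r : ℤ) (hq : 0 < q)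
    (hr : ∀ s ∈ S, IsCoprime (r + s) (q : ℤ)) (R : ℕ) (hR : ∀ s ∈ S, |s| ≤ R) :
    ∃ (Q c : ℕ) (B : Fin 45 → ℕ), 0 < Q ∧ R + 1 ≤ c ∧ AdmissibleL (fun _ : Fin 45 => Q) B ∧
      ∀ E y m, 1 ≤ m → At (fun _ : Fin 45 => Q) B E y m →
        Pt q r S (E.map (S.orderEmbOfFin hS).toEmbedding) R y (Q * m + c) := by
  classical
  obtain ⟨Q, c, hQ0, hcR, hcr, hqQ, hpr, hcomp⟩ := exact_forms S q r hq hr R hR
  set f := S.orderEmbOfFin hS with hf
  have hmem : ∀ i, f i ∈ S := fun i => Finset.orderEmbOfFin_mem S hS i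
  have hcast : ∀ i, (((c + f i).toNat : ℕ) : ℤ) = c + f i := by
    intro i
    apply Int.toNat_of_nonneg
    have h1 := (abs_le.1 (hR _ (hmem i))).1
    omega
  refine ⟨Q, c, fun i => (c + f i).toNat, hQ0, hcR, ?_, ?_⟩
  · refine ⟨fun _ => hQ0, fun i j hij h => ?_, fun p hp => ?_⟩
    · have h1 : (c + f j).toNat = (c + f i).toNat := Nat.eq_of_mul_eq_mul_left hQ0 h
      have h2 := hcast i
      have h3 := hcast j
      rw [h1, h2] at h3
      exact hij (f.injective (by linarith))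
    · by_cases hpQ : p ∣ Q
      · refine ⟨0, fun i h => hpr _ (hmem i) p hp hpQ ?_⟩
        rw [Nat.mul_zero, zero_add] at h
        rw [← hcast i]
        exact_mod_cast h
      · obtain ⟨r', hr'⟩ := hadm p hp
        have h1 : IsCoprime (Q : ℤ) (p : ℤ) := by
          rw [Nat.isCoprime_iff_coprime, Nat.coprime_comm, hp.coprime_iff_not_dvd]
          exact hpQ
        obtain ⟨u, v, huv⟩ := h1
        have hp0 : (p : ℤ) ≠ 0 := by exact_mod_cast hp.ne_zero
        refine ⟨((u * (r' - c)) % p).toNat, fun i h => hr' _ (hmem i) ?_⟩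
        have h2 : (((u * (r' - c)) % p).toNat : ℤ) = (u * (r' - c)) % p :=
          Int.toNat_of_nonneg (Int.emod_nonneg _ hp0)
        have h3 : (p : ℤ) ∣ (Q : ℤ) * (((u * (r' - c)) % p).toNat : ℤ) + (((c + f i).toNat : ℕ) : ℤ) := by
          exact_mod_cast h
        rw [h2, hcast i, Int.emod_def] at h3
        have h4 : r' + f i = (Q : ℤ) * (u * (r' - c) - p * (u * (r' - c) / p)) + (c + f i) +
            p * (v * (r' - c) + Q * (u * (r' - c) / p)) := by
          linear_combination (-(r' - (c : ℤ))) * huv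
        rw [h4]
        exact dvd_add h3 (dvd_mul_right _ _)
  · rintro E y m hm ⟨h1, h2⟩
    have w2 : ∀ i, ((Q * m + (c + f i).toNat : ℕ) : ℤ) = ((Q * m + c : ℕ) : ℤ) + f i := by
      intro i
      push_cast
      have := hcast i
      rw [this]
      ring
    have hsurj : ∀ z ∈ S, ∃ i, f i = z := by
      intro z hz
      have h5 : z ∈ Set.range f := by
        rw [hf, Finset.range_orderEmbOfFin]
        exact hz
      exact h5
    refine ⟨?_, fun z hz => ⟨fun hp => ?_, fun hz' => ?_⟩, fun s hs p hp hpy hd => ?_⟩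
    · obtain ⟨k, hk⟩ := hqQ
      have h4 : ((Q : ℤ) * m) ≡ 0 [ZMOD q] := by
        rw [Int.modEq_zero_iff_dvd, hk]
        push_cast
        exact ⟨k * m, by ring⟩
      push_cast
      simpa using h4.add hcr
    · have hzS : z ∈ S := by
        by_contra hzS
        exact hcomp m hm z hz hzS hp
      obtain ⟨i, hi⟩ := hsurj z hzS
      refine Finset.mem_map.2 ⟨i, (h1 i).1 ?_, hi⟩
      obtain ⟨p, hp1, hp2⟩ := hp
      rw [← hi, ← w2 i] at hp2
      have h6 : p = Q * m + (c + f i).toNat := by exact_mod_cast hp2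
      rw [← h6]; exact hp1
    · obtain ⟨i, hi, rfl⟩ := Finset.mem_map.1 hz'
      exact ⟨_, (h1 i).2 hi, w2 i⟩
    · obtain ⟨i, hi⟩ := hsurj s hs
      rw [← hi, ← w2 i] at hd
      exact h2 i p hp hpy (Int.natCast_dvd_natCast.1 hd)

/-- exact patterns in the windows `(y, 3 y]`, right order -/
theorem window_count (hE : Eng) : ∃ k : ℝ, 0 < k ∧ ∀ (S : Finset ℤ), S.card = 45 → Adm S → ∀ (q : ℕ) (r : ℤ),
    0 < q → (∀ s ∈ S, IsCoprime (r + s) (q : ℤ)) → ∀ R : ℕ, (∀ s ∈ S, |s| ≤ R) →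
    ∃ c : ℝ, 0 < c ∧ ∀ᶠ x : ℝ in atTop,
    ∃ P ⊆ S, 2 ≤ P.card ∧ c * x / Real.log x ^ 45 ≤
      (Set.ncard {n : ℕ | x < n ∧ (n : ℝ) + R ≤ 3 * x ∧ Pt q r S P R (x ^ k) n} : ℝ) := by
  classical
  obtain ⟨k, hk, hE⟩ := hE
  refine ⟨k / 2, by positivity, fun S hS hadm q r hq hr R hR => ?_⟩
  obtain ⟨Q, c, B, hQ0, hcR, hAB, hwin⟩ := forms_window' S hS hadm q r hq hr R hR
  obtain ⟨c0, hc0, hG⟩ := hE _ _ hAB
  obtain ⟨c', hc', h⟩ := transfer_window _ _ k c0 hk hc0 hG Q c hQ0 _ hwin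
  refine ⟨c', hc', ?_⟩
  filter_upwards [h] with x hx
  obtain ⟨E, hE2, hx⟩ := hx
  refine ⟨E.map (S.orderEmbOfFin hS).toEmbedding, ?_, by rwa [card_map], hx.trans ?_⟩
  · intro s hs
    obtain ⟨i, -, rfl⟩ := Finset.mem_map.1 hs
    exact Finset.orderEmbOfFin_mem S hS i
  · rw [Nat.cast_le]
    apply Set.ncard_le_ncard
    · rintro n ⟨h1, h2, h3⟩
      refine ⟨h1, ?_, h3⟩
      have : ((R : ℝ) + 1) ≤ c := by exact_mod_cast hcR
      linarith
    · refine (Set.finite_Iic ⌊3 * x⌋₊).subset fun n hn => Nat.le_floor ?_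
      have := hn.2.1
      have hR0 : (0 : ℝ) ≤ R := Nat.cast_nonneg _
      linarith

/-- primes `p ≡ a (mod q)` followed by the prime `p + h` -/
def Follow (q a h p : ℕ) : Prop := p ≡ a [MOD q] ∧ p.Prime ∧ (p + h).Prime ∧ ∀ m, p < m → m < p + h → ¬ m.Prime

/-- primes of a residue class followed by a gap at most `106 lcm (2, q)`, in the windows `(x, 3 x]` -/
theorem gaps_window (hE : Eng) (q a : ℕ) (hq : 0 < q) (ha : a.Coprime q) :
    ∃ c : ℝ, 0 < c ∧ ∀ᶠ x : ℝ in atTop, ∃ k : ℕ, 1 ≤ k ∧ k ≤ 106 ∧ c * x / Real.log x ^ 45 ≤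
      (Set.ncard {p : ℕ | x < p ∧ ((p + k * Nat.lcm 2 q : ℕ) : ℝ) < 3 * x ∧
        Follow q a (k * Nat.lcm 2 q) p} : ℝ) := by
  classical
  obtain ⟨a', ha1, ha2⟩ := lift_class q a hq ha
  have hM0 : 0 < Nat.lcm 2 q := Nat.lcm_pos (by norm_num) hq
  have hM2 : 2 ∣ Nat.lcm 2 q := Nat.dvd_lcm_left 2 q
  have hMq : q ∣ Nat.lcm 2 q := Nat.dvd_lcm_right 2 q
  generalize Nat.lcm 2 q = M at *
  have hMz : (M : ℤ) ≠ 0 := by exact_mod_cast hM0.ne'
  obtain ⟨S, hSdef⟩ : ∃ S : Finset ℤ, S = G45.image (fun g : ℕ => (M : ℤ) * (g : ℤ)) := ⟨_, rfl⟩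
  have hform' : ∀ z ∈ S, ∃ g : ℕ, g ∈ G45 ∧ z = (M : ℤ) * g := by
    intro z hz
    rw [hSdef] at hz
    obtain ⟨g, hg, h⟩ := mem_image.1 hz
    exact ⟨g, hg, h.symm⟩
  have hinj : Function.Injective (fun g : ℕ => (M : ℤ) * (g : ℤ)) := by
    intro g g' h
    have h1 : (M : ℤ) * g = M * g' := h
    exact_mod_cast mul_left_cancel₀ hMz h1
  have hScard : S.card = 45 := by rw [hSdef, card_image_of_injective _ hinj, G45_card]
  have hSadm : Adm S := by
    intro p hp
    by_cases hpq : p ∣ M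
    · refine ⟨1, fun s hs hd => ?_⟩
      obtain ⟨g, -, rfl⟩ := hform' s hs
      have h1 : (p : ℤ) ∣ (M : ℤ) * g := (Int.natCast_dvd_natCast.2 hpq).mul_right _
      have h2 : (p : ℤ) ∣ 1 := (dvd_add_left h1).1 hd
      have h3 := Int.natCast_dvd_natCast.1 (show ((p : ℕ) : ℤ) ∣ ((1 : ℕ) : ℤ) by exact_mod_cast h2)
      exact hp.one_lt.ne' (Nat.dvd_one.1 h3)
    · obtain ⟨r, hr⟩ := G45_adm p hp (fun h => hpq (h ▸ hM2))
      refine ⟨M * r, fun s hs hd => ?_⟩
      obtain ⟨g, hg, rfl⟩ := hform' s hs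
      have h1 : (M : ℤ) * r + M * g = ((M * (r + g) : ℕ) : ℤ) := by push_cast; ring
      rw [h1, Int.natCast_dvd_natCast, hp.dvd_mul] at hd
      rcases hd with h2 | h2
      · exact hpq h2
      · exact hr g hg h2
  obtain ⟨R, hRd⟩ : ∃ R : ℕ, R = 106 * M := ⟨_, rfl⟩
  have hSR : ∀ s ∈ S, |s| ≤ (R : ℤ) := by
    intro s hs
    obtain ⟨g, hg, rfl⟩ := hform' s hs
    have h1 := G45_le g hg
    have h2 : M * g ≤ M * 106 := Nat.mul_le_mul_left _ h1
    have h3 : |(M : ℤ) * g| = ((M * g : ℕ) : ℤ) := by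
      push_cast
      exact abs_of_nonneg (by positivity)
    rw [h3, hRd]
    have : M * g ≤ 106 * M := by rw [mul_comm 106]; exact h2
    exact_mod_cast this
  obtain ⟨κ, hκ, hcount⟩ := window_count hE
  have hcopr : ∀ s ∈ S, IsCoprime ((a' : ℤ) + s) (M : ℤ) := by
    intro s hs
    obtain ⟨g, -, rfl⟩ := hform' s hs
    have h1 : IsCoprime (a' : ℤ) (M : ℤ) := Nat.isCoprime_iff_coprime.2 ha2
    exact (IsCoprime.add_mul_left_left h1 (g : ℤ))
  have hSR2 : ∀ s ∈ S, |s| ≤ ((2 * R : ℕ) : ℤ) := fun s hs => (hSR s hs).trans (by push_cast; omega)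
  obtain ⟨c, hc, h⟩ := hcount S hScard hSadm M a' hM0 hcopr (2 * R) hSR2
  refine ⟨c, hc, ?_⟩
  filter_upwards [h] with x hx
  obtain ⟨P, hP, hP2, hx⟩ := hx
  have hform : ∀ z ∈ P, ∃ g : ℕ, g ∈ G45 ∧ z = (M : ℤ) * g := by
    intro z hz
    exact hform' z (hP hz)
  have hPne : P.Nonempty := by rw [← card_pos]; omega
  obtain ⟨z₀, hz₀, hmin⟩ := exists_min_image P id hPne
  have hne : (P.erase z₀).Nonempty := by
    rw [← card_pos, card_erase_of_mem hz₀]; omega
  obtain ⟨z₁, hz₁, hmin1⟩ := exists_min_image (P.erase z₀) id hne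
  obtain ⟨hz1a, hz1b⟩ := mem_erase.1 hz₁
  have hlt : z₀ < z₁ := lt_of_le_of_ne (hmin z₁ hz1b) (Ne.symm hz1a)
  obtain ⟨g₀, hg₀, hzg0⟩ := hform z₀ hz₀
  obtain ⟨g₁, hg₁, hzg1⟩ := hform z₁ hz1b
  have hg01 : g₀ < g₁ := by
    rw [hzg0, hzg1] at hlt
    have := lt_of_mul_lt_mul_left hlt (by positivity)
    exact_mod_cast this
  have hg106 := G45_le g₁ hg₁
  refine ⟨g₁ - g₀, by omega, by omega, hx.trans ?_⟩
  rw [Nat.cast_le]
  have e1 : M * g₁ = M * g₀ + (g₁ - g₀) * M := by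
    rw [mul_comm (g₁ - g₀), ← Nat.mul_add]
    congr 1
    omega
  have hMR : M * g₁ ≤ R := by
    rw [hRd, mul_comm 106]
    exact Nat.mul_le_mul_left _ hg106
  refine Set.ncard_le_ncard_of_injOn (fun n : ℕ => n + M * g₀) ?_ ?_ ?_
  · rintro n ⟨h1, h2, h3, h4, -⟩
    have hM0R : M * g₀ ≤ R := by omega
    have key : ∀ m : ℕ, m ≤ n + 2 * R → n ≤ m + 2 * R → (m.Prime ↔ (m : ℤ) - n ∈ P) := by
      intro m hm1 hm2
      rw [← h4 ((m : ℤ) - n) (by rw [abs_le]; constructor <;> push_cast <;> omega)]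
      constructor
      · intro h6
        exact ⟨m, h6, by ring⟩
      · rintro ⟨p, hp1, hp2⟩
        have h7 : p = m := by
          have : (p : ℤ) = m := by rw [hp2]; ring
          exact_mod_cast this
        rw [← h7]; exact hp1
    show x < ((n + M * g₀ : ℕ) : ℝ) ∧ (((n + M * g₀) + (g₁ - g₀) * M : ℕ) : ℝ) < 3 * x ∧
      Follow q a ((g₁ - g₀) * M) (n + M * g₀)
    refine ⟨?_, ?_, ?_, ?_, ?_, ?_⟩
    · push_cast
      have : (0 : ℝ) ≤ (M : ℝ) * g₀ := by positivity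
      linarith
    · have h5 : (((n + M * g₀) + (g₁ - g₀) * M : ℕ) : ℝ) ≤ ((n + R : ℕ) : ℝ) := by
        exact_mod_cast (by omega)
      have h6 : (0 : ℝ) < R := by
        have : 0 < R := by rw [hRd]; omega
        exact_mod_cast this
      push_cast at h5 h2 ⊢
      linarith
    · have h5 : n ≡ a' [MOD M] := Int.natCast_modEq_iff.1 h3
      have h6 : n + M * g₀ ≡ a' + 0 [MOD M] := h5.add ((Nat.modEq_zero_iff_dvd).2 (dvd_mul_right _ _))
      rw [add_zero] at h6
      exact (h6.of_dvd hMq).trans ha1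
    · rw [key (n + M * g₀) (by omega) (by omega)]
      have : ((n + M * g₀ : ℕ) : ℤ) - n = z₀ := by rw [hzg0]; push_cast; ring
      rw [this]
      exact hz₀
    · have e2 : n + M * g₀ + (g₁ - g₀) * M = n + M * g₁ := by omega
      rw [e2, key (n + M * g₁) (by omega) (by omega)]
      have : ((n + M * g₁ : ℕ) : ℤ) - n = z₁ := by rw [hzg1]; push_cast; ring
      rw [this]
      exact hz1b
    · intro m hm1 hm2 hmp
      have e2 : n + M * g₀ + (g₁ - g₀) * M = n + M * g₁ := by omega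
      rw [e2] at hm2
      have h5 := (key m (by omega) (by omega)).1 hmp
      have h6 : (m : ℤ) - n ≠ z₀ := by
        intro h6
        rw [hzg0] at h6
        have : (m : ℤ) = ((n + M * g₀ : ℕ) : ℤ) := by push_cast; linarith
        have : m = n + M * g₀ := by exact_mod_cast this
        omega
      have h7 : z₁ ≤ (m : ℤ) - n := hmin1 _ (mem_erase.2 ⟨h6, h5⟩)
      rw [hzg1] at h7
      have : ((n + M * g₁ : ℕ) : ℤ) ≤ m := by push_cast; linarith
      have : n + M * g₁ ≤ m := by exact_mod_cast this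
      omega
  · intro n _ n' _ h
    have : n + M * g₀ = n' + M * g₀ := h
    omega
  · refine (Set.finite_Iic ⌊3 * x⌋₊).subset fun p hp => Nat.le_floor ?_
    have h5 := hp.2.1
    push_cast at h5
    have : (0 : ℝ) ≤ ((g₁ - g₀ : ℕ) : ℝ) * M := by positivity
    linarith

end Pool.Agent.X34.E
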