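import Mathlib
import Pool.Agent.X34.E.E14

/-! Engine E (helper34): consecutive primes by index. -/

set_option autoImplicit false

open Finset Filter

namespace Pool.Agent.X34.E

/-- the next prime, by index -/
theorem nth_next {p h : ℕ} (hh : 0 < h) (hp : p.Prime) (hph : (p + h).Prime)
    (hno : ∀ m, p < m → m < p + h → ¬ m.Prime) :
    Nat.nth Nat.Prime (Nat.count Nat.Prime p) = p ∧ Nat.nth Nat.Prime (Nat.count Nat.Prime p + 1) = p + h := by
  have h1 : Nat.nth Nat.Prime (Nat.count Nat.Prime p) = p := Nat.nth_count hp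
  have h2 : Nat.nth Nat.Prime (Nat.count Nat.Prime (p + h)) = p + h := Nat.nth_count hph
  refine ⟨h1, ?_⟩
  have h3 : Nat.count Nat.Prime p < Nat.count Nat.Prime (p + h) := by
    apply (Nat.nth_lt_nth Nat.infinite_setOfPred_prime).1
    rw [h1, h2]
    omega
  have h4 : Nat.count Nat.Prime (p + h) = Nat.count Nat.Prime p + 1 := by
    by_contra hne
    have h5 : Nat.count Nat.Prime p + 1 < Nat.count Nat.Prime (p + h) := by omega
    have h6 : Nat.nth Nat.Prime (Nat.count Nat.Prime p + 1) < p + h := by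
      rw [← h2]
      exact (Nat.nth_lt_nth Nat.infinite_setOfPred_prime).2 h5
    have h7 : p < Nat.nth Nat.Prime (Nat.count Nat.Prime p + 1) := by
      conv_lhs => rw [← h1]
      exact (Nat.nth_lt_nth Nat.infinite_setOfPred_prime).2 (Nat.lt_succ_self _)
    exact hno _ h7 h6 (Nat.prime_nth_prime _)
  rw [← h4, h2]

/-- gaps at most `106 lcm (2, q)` in a residue class: right order, by index -/
theorem gaps_index (hE : Eng) (q a : ℕ) (hq : 0 < q) (ha : a.Coprime q) :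
    ∃ c : ℝ, 0 < c ∧
      (∀ᶠ x : ℝ in atTop, ∃ k : ℕ, 1 ≤ k ∧ k ≤ 106 ∧ c * x / Real.log x ^ 45 ≤
        (Set.ncard {n : ℕ | (Nat.nth Nat.Prime n : ℝ) ≤ x ∧ Nat.nth Nat.Prime n ≡ a [MOD q] ∧
          Nat.nth Nat.Prime (n + 1) = Nat.nth Nat.Prime n + k * Nat.lcm 2 q} : ℝ)) ∧
      ∃ k : ℕ, 1 ≤ k ∧ k ≤ 106 ∧ ∃ᶠ x : ℝ in atTop, c * x / Real.log x ^ 45 ≤
        (Set.ncard {n : ℕ | (Nat.nth Nat.Prime n : ℝ) ≤ x ∧ Nat.nth Nat.Prime n ≡ a [MOD q] ∧
          Nat.nth Nat.Prime (n + 1) = Nat.nth Nat.Prime n + k * Nat.lcm 2 q} : ℝ) := by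
  obtain ⟨c, hc, h⟩ := gaps_window hE q a hq ha
  have hM0 : 0 < Nat.lcm 2 q := Nat.lcm_pos (by norm_num) hq
  generalize Nat.lcm 2 q = M at *
  have key : ∀ᶠ x : ℝ in atTop, ∃ k : ℕ, 1 ≤ k ∧ k ≤ 106 ∧ c / 3 * x / Real.log x ^ 45 ≤
        (Set.ncard {n : ℕ | (Nat.nth Nat.Prime n : ℝ) ≤ x ∧ Nat.nth Nat.Prime n ≡ a [MOD q] ∧
          Nat.nth Nat.Prime (n + 1) = Nat.nth Nat.Prime n + k * M} : ℝ) := by
    have ht : Tendsto (fun x : ℝ => x / 3) atTop atTop := tendsto_id.atTop_div_const (by norm_num)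
    filter_upwards [ht.eventually h, eventually_ge_atTop 6] with x hx hx6
    obtain ⟨k, hk1, hk2, hx⟩ := hx
    refine ⟨k, hk1, hk2, ?_⟩
    have hkM : 0 < k * M := Nat.mul_pos hk1 hM0
    have hl : 0 < Real.log (x / 3) := Real.log_pos (by linarith)
    have hll : Real.log (x / 3) ≤ Real.log x := Real.log_le_log (by linarith) (by linarith)
    have h1 : c / 3 * x / Real.log x ^ 45 ≤ c * (x / 3) / Real.log (x / 3) ^ 45 := by
      have e : c / 3 * x = c * (x / 3) := by ring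
      rw [e]
      apply div_le_div_of_nonneg_left (by positivity) (by positivity)
      exact pow_le_pow_left₀ hl.le hll 45
    refine h1.trans (hx.trans ?_)
    rw [Nat.cast_le]
    refine Set.ncard_le_ncard_of_injOn (fun p => Nat.count Nat.Prime p) ?_ ?_ ?_
    · rintro p ⟨-, h3, h4, h5, h6, h7⟩
      obtain ⟨h8, h9⟩ := nth_next hkM h5 h6 h7
      show (Nat.nth Nat.Prime (Nat.count Nat.Prime p) : ℝ) ≤ x ∧ _ ∧ _
      rw [h8, h9]
      refine ⟨?_, h4, rfl⟩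
      push_cast at h3
      have : (0 : ℝ) ≤ (k : ℝ) * M := by positivity
      linarith
    · rintro p ⟨-, -, -, h5, -⟩ p' ⟨-, -, -, h5', -⟩ hpp
      have h6 : Nat.count Nat.Prime p = Nat.count Nat.Prime p' := hpp
      rw [← Nat.nth_count h5, ← Nat.nth_count h5', h6]
    · apply (Set.finite_Iic ⌊x⌋₊).subset
      intro n hn
      have h1 : n ≤ Nat.nth Nat.Prime n := (Nat.nth_strictMono Nat.infinite_setOfPred_prime).le_apply
      exact h1.trans (Nat.le_floor hn.1)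
  refine ⟨c / 3, by positivity, key, ?_⟩
  have key' : ∀ᶠ x : ℝ in atTop, ∃ k : Fin 107, 1 ≤ (k : ℕ) ∧ c / 3 * x / Real.log x ^ 45 ≤
        (Set.ncard {n : ℕ | (Nat.nth Nat.Prime n : ℝ) ≤ x ∧ Nat.nth Nat.Prime n ≡ a [MOD q] ∧
          Nat.nth Nat.Prime (n + 1) = Nat.nth Nat.Prime n + (k : ℕ) * M} : ℝ) := by
    filter_upwards [key] with x hx
    obtain ⟨k, h1, h2, h3⟩ := hx
    exact ⟨⟨k, by omega⟩, h1, h3⟩
  obtain ⟨⟨k, hk⟩, hT⟩ := pigeon_freq key'
  obtain ⟨x, hx⟩ := hT.exists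
  exact ⟨k, hx.1, by omega, hT.mono fun x hx => hx.2⟩

end Pool.Agent.X34.E
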