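import Mathlib
import Pool.Agent.X34.E.E15

/-! Engine E (helper34): gaps which are multiples of a given even number, multipliers from a set. -/

set_option autoImplicit false

open Finset Filter

namespace Pool.Agent.X34.E

/-- primes of the residue class `a` modulo `M` followed by a gap `(g' - g) M`, `g < g'` in `G`, in the windows
`(x, 3 x]` -/
theorem gaps_windowG (hE : Eng) (M a : ℕ) (hM0 : 0 < M) (ha2 : a.Coprime M) (G : Finset ℕ) (hG : G.card = 45)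
    (hadm : ∀ p : ℕ, p.Prime → ¬ p ∣ M → ∃ r : ℕ, ∀ g ∈ G, ¬ p ∣ r + g) :
    ∃ c : ℝ, 0 < c ∧ ∀ᶠ x : ℝ in atTop, ∃ g ∈ G, ∃ g' ∈ G, g < g' ∧ c * x / Real.log x ^ 45 ≤
      (Set.ncard {p : ℕ | x < p ∧ ((p + (g' - g) * M : ℕ) : ℝ) < 3 * x ∧
        Follow M a ((g' - g) * M) p} : ℝ) := by
  classical
  obtain ⟨L, hL1, hL⟩ : ∃ L : ℕ, 1 ≤ L ∧ ∀ g ∈ G, g ≤ L :=
    ⟨G.sup id + 1, by omega, fun g hg => by
      have := Finset.le_sup (f := id) hg
      have h1 : g ≤ G.sup id := this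
      omega⟩
  have hMz : (M : ℤ) ≠ 0 := by exact_mod_cast hM0.ne'
  obtain ⟨S, hSdef⟩ : ∃ S : Finset ℤ, S = G.image (fun g : ℕ => (M : ℤ) * (g : ℤ)) := ⟨_, rfl⟩
  have hform' : ∀ z ∈ S, ∃ g : ℕ, g ∈ G ∧ z = (M : ℤ) * g := by
    intro z hz
    rw [hSdef] at hz
    obtain ⟨g, hg, h⟩ := mem_image.1 hz
    exact ⟨g, hg, h.symm⟩
  have hinj : Function.Injective (fun g : ℕ => (M : ℤ) * (g : ℤ)) := by
    intro g g' h
    have h1 : (M : ℤ) * g = M * g' := h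
    exact_mod_cast mul_left_cancel₀ hMz h1
  have hScard : S.card = 45 := by rw [hSdef, card_image_of_injective _ hinj, hG]
  have hSadm : Adm S := by
    intro p hp
    by_cases hpq : p ∣ M
    · refine ⟨1, fun s hs hd => ?_⟩
      obtain ⟨g, -, rfl⟩ := hform' s hs
      have h1 : (p : ℤ) ∣ (M : ℤ) * g := (Int.natCast_dvd_natCast.2 hpq).mul_right _
      have h2 : (p : ℤ) ∣ 1 := (dvd_add_left h1).1 hd
      have h3 := Int.natCast_dvd_natCast.1 (show ((p : ℕ) : ℤ) ∣ ((1 : ℕ) : ℤ) by exact_mod_cast h2)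
      exact hp.one_lt.ne' (Nat.dvd_one.1 h3)
    · obtain ⟨r, hr⟩ := hadm p hp hpq
      refine ⟨M * r, fun s hs hd => ?_⟩
      obtain ⟨g, hg, rfl⟩ := hform' s hs
      have h1 : (M : ℤ) * r + M * g = ((M * (r + g) : ℕ) : ℤ) := by push_cast; ring
      rw [h1, Int.natCast_dvd_natCast, hp.dvd_mul] at hd
      rcases hd with h2 | h2
      · exact hpq h2
      · exact hr g hg h2
  obtain ⟨R, hRd⟩ : ∃ R : ℕ, R = L * M := ⟨_, rfl⟩
  have hSR : ∀ s ∈ S, |s| ≤ (R : ℤ) := by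
    intro s hs
    obtain ⟨g, hg, rfl⟩ := hform' s hs
    have h1 := hL g hg
    have h2 : M * g ≤ M * L := Nat.mul_le_mul_left _ h1
    have h3 : |(M : ℤ) * g| = ((M * g : ℕ) : ℤ) := by
      push_cast
      exact abs_of_nonneg (by positivity)
    rw [h3, hRd]
    have : M * g ≤ L * M := by rw [mul_comm L]; exact h2
    exact_mod_cast this
  obtain ⟨κ, hκ, hcount⟩ := window_count hE
  have hcopr : ∀ s ∈ S, IsCoprime ((a : ℤ) + s) (M : ℤ) := by
    intro s hs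
    obtain ⟨g, -, rfl⟩ := hform' s hs
    have h1 : IsCoprime (a : ℤ) (M : ℤ) := Nat.isCoprime_iff_coprime.2 ha2
    exact (IsCoprime.add_mul_left_left h1 (g : ℤ))
  have hSR2 : ∀ s ∈ S, |s| ≤ ((2 * R : ℕ) : ℤ) := fun s hs => (hSR s hs).trans (by push_cast; omega)
  obtain ⟨c, hc, h⟩ := hcount S hScard hSadm M a hM0 hcopr (2 * R) hSR2
  refine ⟨c, hc, ?_⟩
  filter_upwards [h] with x hx
  obtain ⟨P, hP, hP2, hx⟩ := hx
  have hform : ∀ z ∈ P, ∃ g : ℕ, g ∈ G ∧ z = (M : ℤ) * g := by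
    intro z hz
    exact hform' z (hP hz)
  have hPne : P.Nonempty := by rw [← card_pos]; omega
  obtain ⟨z₀, hz₀, hmin⟩ := exists_min_image P id hPne
  have hne : (P.erase z₀).Nonempty := by
    rw [← card_pos, card_erase_of_mem hz₀]; omega
  obtain ⟨z₁, hz₁, hmin1⟩ := exists_min_image (P.erase z₀) id hne
  obtain ⟨hz1a, hz1b⟩ := mem_erase.1 hz₁
  have hlt : z₀ < z₁ := lt_of_le_of_ne (hmin z₁ hz1b) (Ne.symm hz1a)
  obtain ⟨g₀, hg₀, hzg0⟩ := hform z₀ hz₀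
  obtain ⟨g₁, hg₁, hzg1⟩ := hform z₁ hz1b
  have hg01 : g₀ < g₁ := by
    rw [hzg0, hzg1] at hlt
    have := lt_of_mul_lt_mul_left hlt (by positivity)
    exact_mod_cast this
  have hg106 := hL g₁ hg₁
  refine ⟨g₀, hg₀, g₁, hg₁, hg01, hx.trans ?_⟩
  rw [Nat.cast_le]
  have e1 : M * g₁ = M * g₀ + (g₁ - g₀) * M := by
    rw [mul_comm (g₁ - g₀), ← Nat.mul_add]
    congr 1
    omega
  have hMR : M * g₁ ≤ R := by
    rw [hRd, mul_comm L]
    exact Nat.mul_le_mul_left _ hg106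
  refine Set.ncard_le_ncard_of_injOn (fun n : ℕ => n + M * g₀) ?_ ?_ ?_
  · rintro n ⟨h1, h2, h3, h4, -⟩
    have hM0R : M * g₀ ≤ R := by omega
    have key : ∀ m : ℕ, m ≤ n + 2 * R → n ≤ m + 2 * R → (m.Prime ↔ (m : ℤ) - n ∈ P) := by
      intro m hm1 hm2
      rw [← h4 ((m : ℤ) - n) (by rw [abs_le]; constructor <;> push_cast <;> omega)]
      constructor
      · intro h6
        exact ⟨m, h6, by ring⟩
      · rintro ⟨p, hp1, hp2⟩
        have h7 : p = m := by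
          have : (p : ℤ) = m := by rw [hp2]; ring
          exact_mod_cast this
        rw [← h7]; exact hp1
    show x < ((n + M * g₀ : ℕ) : ℝ) ∧ (((n + M * g₀) + (g₁ - g₀) * M : ℕ) : ℝ) < 3 * x ∧
      Follow M a ((g₁ - g₀) * M) (n + M * g₀)
    refine ⟨?_, ?_, ?_, ?_, ?_, ?_⟩
    · push_cast
      have : (0 : ℝ) ≤ (M : ℝ) * g₀ := by positivity
      linarith
    · have h5 : (((n + M * g₀) + (g₁ - g₀) * M : ℕ) : ℝ) ≤ ((n + R : ℕ) : ℝ) := by
        exact_mod_cast (by omega)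
      have h6 : (0 : ℝ) < R := by
        have : 0 < R := by rw [hRd]; omega
        exact_mod_cast this
      push_cast at h5 h2 ⊢
      linarith
    · have h5 : n ≡ a [MOD M] := Int.natCast_modEq_iff.1 h3
      have h6 : n + M * g₀ ≡ a + 0 [MOD M] := h5.add ((Nat.modEq_zero_iff_dvd).2 (dvd_mul_right _ _))
      rw [add_zero] at h6
      exact h6
    · rw [key (n + M * g₀) (by omega) (by omega)]
      have : ((n + M * g₀ : ℕ) : ℤ) - n = z₀ := by rw [hzg0]; push_cast; ring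
      rw [this]
      exact hz₀
    · have e2 : n + M * g₀ + (g₁ - g₀) * M = n + M * g₁ := by omega
      rw [e2, key (n + M * g₁) (by omega) (by omega)]
      have : ((n + M * g₁ : ℕ) : ℤ) - n = z₁ := by rw [hzg1]; push_cast; ring
      rw [this]
      exact hz1b
    · intro m hm1 hm2 hmp
      have e2 : n + M * g₀ + (g₁ - g₀) * M = n + M * g₁ := by omega
      rw [e2] at hm2
      have h5 := (key m (by omega) (by omega)).1 hmp
      have h6 : (m : ℤ) - n ≠ z₀ := by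
        intro h6
        rw [hzg0] at h6
        have : (m : ℤ) = ((n + M * g₀ : ℕ) : ℤ) := by push_cast; linarith
        have : m = n + M * g₀ := by exact_mod_cast this
        omega
      have h7 : z₁ ≤ (m : ℤ) - n := hmin1 _ (mem_erase.2 ⟨h6, h5⟩)
      rw [hzg1] at h7
      have : ((n + M * g₁ : ℕ) : ℤ) ≤ m := by push_cast; linarith
      have : n + M * g₁ ≤ m := by exact_mod_cast this
      omega
  · intro n _ n' _ h
    have : n + M * g₀ = n' + M * g₀ := h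
    omega
  · refine (Set.finite_Iic ⌊3 * x⌋₊).subset fun p hp => Nat.le_floor ?_
    have h5 := hp.2.1
    push_cast at h5
    have : (0 : ℝ) ≤ ((g₁ - g₀ : ℕ) : ℝ) * M := by positivity
    linarith


/-- by index -/
theorem gaps_indexG (hE : Eng) (M a : ℕ) (hM0 : 0 < M) (ha : a.Coprime M) (G : Finset ℕ) (hG : G.card = 45)
    (hadm : ∀ p : ℕ, p.Prime → ¬ p ∣ M → ∃ r : ℕ, ∀ g ∈ G, ¬ p ∣ r + g) :
    ∃ c : ℝ, 0 < c ∧
      (∀ᶠ x : ℝ in atTop, ∃ g ∈ G, ∃ g' ∈ G, g < g' ∧ c * x / Real.log x ^ 45 ≤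
        (Set.ncard {n : ℕ | (Nat.nth Nat.Prime n : ℝ) ≤ x ∧ Nat.nth Nat.Prime n ≡ a [MOD M] ∧
          Nat.nth Nat.Prime (n + 1) = Nat.nth Nat.Prime n + (g' - g) * M} : ℝ)) ∧
      ∃ g ∈ G, ∃ g' ∈ G, g < g' ∧ ∃ᶠ x : ℝ in atTop, c * x / Real.log x ^ 45 ≤
        (Set.ncard {n : ℕ | (Nat.nth Nat.Prime n : ℝ) ≤ x ∧ Nat.nth Nat.Prime n ≡ a [MOD M] ∧
          Nat.nth Nat.Prime (n + 1) = Nat.nth Nat.Prime n + (g' - g) * M} : ℝ) := by
  obtain ⟨c, hc, h⟩ := gaps_windowG hE M a hM0 ha G hG hadm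
  have key : ∀ᶠ x : ℝ in atTop, ∃ g ∈ G, ∃ g' ∈ G, g < g' ∧ c / 3 * x / Real.log x ^ 45 ≤
        (Set.ncard {n : ℕ | (Nat.nth Nat.Prime n : ℝ) ≤ x ∧ Nat.nth Nat.Prime n ≡ a [MOD M] ∧
          Nat.nth Nat.Prime (n + 1) = Nat.nth Nat.Prime n + (g' - g) * M} : ℝ) := by
    have ht : Tendsto (fun x : ℝ => x / 3) atTop atTop := tendsto_id.atTop_div_const (by norm_num)
    filter_upwards [ht.eventually h, eventually_ge_atTop 6] with x hx hx6
    obtain ⟨g, hg, g', hg', hlt, hx⟩ := hx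
    refine ⟨g, hg, g', hg', hlt, ?_⟩
    have hkM : 0 < (g' - g) * M := Nat.mul_pos (by omega) hM0
    have hl : 0 < Real.log (x / 3) := Real.log_pos (by linarith)
    have hll : Real.log (x / 3) ≤ Real.log x := Real.log_le_log (by linarith) (by linarith)
    have h1 : c / 3 * x / Real.log x ^ 45 ≤ c * (x / 3) / Real.log (x / 3) ^ 45 := by
      have e : c / 3 * x = c * (x / 3) := by ring
      rw [e]
      apply div_le_div_of_nonneg_left (by positivity) (by positivity)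
      exact pow_le_pow_left₀ hl.le hll 45
    refine h1.trans (hx.trans ?_)
    rw [Nat.cast_le]
    generalize (g' - g) * M = H at *
    refine Set.ncard_le_ncard_of_injOn (fun p => Nat.count Nat.Prime p) ?_ ?_ ?_
    · rintro p ⟨-, h3, h4, h5, h6, h7⟩
      obtain ⟨h8, h9⟩ := nth_next hkM h5 h6 h7
      show (Nat.nth Nat.Prime (Nat.count Nat.Prime p) : ℝ) ≤ x ∧ _ ∧ _
      rw [h8, h9]
      refine ⟨?_, h4, rfl⟩
      push_cast at h3
      have : (0 : ℝ) ≤ (H : ℝ) := by positivity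
      linarith
    · rintro p ⟨-, -, -, h5, -⟩ p' ⟨-, -, -, h5', -⟩ hpp
      have h6 : Nat.count Nat.Prime p = Nat.count Nat.Prime p' := hpp
      rw [← Nat.nth_count h5, ← Nat.nth_count h5', h6]
    · apply (Set.finite_Iic ⌊x⌋₊).subset
      intro n hn
      have h1 : n ≤ Nat.nth Nat.Prime n := (Nat.nth_strictMono Nat.infinite_setOfPred_prime).le_apply
      exact h1.trans (Nat.le_floor hn.1)
  refine ⟨c / 3, by positivity, key, ?_⟩
  have key' : ∀ᶠ x : ℝ in atTop, ∃ b : G × G, (b.1 : ℕ) < (b.2 : ℕ) ∧ c / 3 * x / Real.log x ^ 45 ≤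
        (Set.ncard {n : ℕ | (Nat.nth Nat.Prime n : ℝ) ≤ x ∧ Nat.nth Nat.Prime n ≡ a [MOD M] ∧
          Nat.nth Nat.Prime (n + 1) = Nat.nth Nat.Prime n + ((b.2 : ℕ) - (b.1 : ℕ)) * M} : ℝ) := by
    filter_upwards [key] with x hx
    obtain ⟨g, hg, g', hg', h2, h3⟩ := hx
    exact ⟨(⟨g, hg⟩, ⟨g', hg'⟩), h2, h3⟩
  obtain ⟨⟨⟨g, hg⟩, ⟨g', hg'⟩⟩, hT⟩ := pigeon_freq key'
  obtain ⟨x, hx⟩ := hT.exists
  exact ⟨g, hg, g', hg', hx.1, hT.mono fun x hx => hx.2⟩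

end Pool.Agent.X34.E
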