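import Mathlib
import Pool.Agent.X34.E.E16

/-! Engine E (helper34): gaps which are multiples of a given number, with rough shifts. -/

set_option autoImplicit false

open Finset Filter

namespace Pool.Agent.X34.E

/-- primes of the residue class `a` modulo `M` followed by a gap `(g' - g) M`, `g < g'` in `G`, such that
all shifts by multiples `g'' M` are free of small prime factors -/
theorem gaps_rough (hE : Eng) : ∃ κ : ℝ, 0 < κ ∧ ∀ (M a : ℕ), 0 < M → a.Coprime M → ∀ (G : Finset ℕ),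
    G.card = 45 → (∀ p : ℕ, p.Prime → ¬ p ∣ M → ∃ r : ℕ, ∀ g ∈ G, ¬ p ∣ r + g) →
    ∃ c : ℝ, 0 < c ∧ ∀ᶠ x : ℝ in atTop, ∃ g ∈ G, ∃ g' ∈ G, g < g' ∧ c * x / Real.log x ^ 45 ≤
      (Set.ncard {n : ℕ | x < n ∧ ((n + M * g + (g' - g) * M : ℕ) : ℝ) < 3 * x ∧
        Follow M a ((g' - g) * M) (n + M * g) ∧
        ∀ g'' ∈ G, ∀ p : ℕ, p.Prime → (p : ℝ) ≤ x ^ κ → ¬ p ∣ n + M * g''} : ℝ) := by
  classical
  obtain ⟨κ, hκ, hcount⟩ := window_count hE
  refine ⟨κ, hκ, fun M a hM0 ha2 G hG hadm => ?_⟩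
  obtain ⟨L, hL1, hL⟩ : ∃ L : ℕ, 1 ≤ L ∧ ∀ g ∈ G, g ≤ L :=
    ⟨G.sup id + 1, by omega, fun g hg => by
      have := Finset.le_sup (f := id) hg
      have h1 : g ≤ G.sup id := this
      omega⟩
  have hMz : (M : ℤ) ≠ 0 := by exact_mod_cast hM0.ne'
  obtain ⟨S, hSdef⟩ : ∃ S : Finset ℤ, S = G.image (fun g : ℕ => (M : ℤ) * (g : ℤ)) := ⟨_, rfl⟩
  have hform' : ∀ z ∈ S, ∃ g : ℕ, g ∈ G ∧ z = (M : ℤ) * g := by
    intro z hz
    rw [hSdef] at hz
    obtain ⟨g, hg, h⟩ := mem_image.1 hz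
    exact ⟨g, hg, h.symm⟩
  have hinj : Function.Injective (fun g : ℕ => (M : ℤ) * (g : ℤ)) := by
    intro g g' h
    have h1 : (M : ℤ) * g = M * g' := h
    exact_mod_cast mul_left_cancel₀ hMz h1
  have hScard : S.card = 45 := by rw [hSdef, card_image_of_injective _ hinj, hG]
  have hSadm : Adm S := by
    intro p hp
    by_cases hpq : p ∣ M
    · refine ⟨1, fun s hs hd => ?_⟩
      obtain ⟨g, -, rfl⟩ := hform' s hs
      have h1 : (p : ℤ) ∣ (M : ℤ) * g := (Int.natCast_dvd_natCast.2 hpq).mul_right _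
      have h2 : (p : ℤ) ∣ 1 := (dvd_add_left h1).1 hd
      have h3 := Int.natCast_dvd_natCast.1 (show ((p : ℕ) : ℤ) ∣ ((1 : ℕ) : ℤ) by exact_mod_cast h2)
      exact hp.one_lt.ne' (Nat.dvd_one.1 h3)
    · obtain ⟨r, hr⟩ := hadm p hp hpq
      refine ⟨M * r, fun s hs hd => ?_⟩
      obtain ⟨g, hg, rfl⟩ := hform' s hs
      have h1 : (M : ℤ) * r + M * g = ((M * (r + g) : ℕ) : ℤ) := by push_cast; ring
      rw [h1, Int.natCast_dvd_natCast, hp.dvd_mul] at hd
      rcases hd with h2 | h2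
      · exact hpq h2
      · exact hr g hg h2
  obtain ⟨R, hRd⟩ : ∃ R : ℕ, R = L * M := ⟨_, rfl⟩
  have hSR : ∀ s ∈ S, |s| ≤ (R : ℤ) := by
    intro s hs
    obtain ⟨g, hg, rfl⟩ := hform' s hs
    have h1 := hL g hg
    have h2 : M * g ≤ M * L := Nat.mul_le_mul_left _ h1
    have h3 : |(M : ℤ) * g| = ((M * g : ℕ) : ℤ) := by
      push_cast
      exact abs_of_nonneg (by positivity)
    rw [h3, hRd]
    have : M * g ≤ L * M := by rw [mul_comm L]; exact h2
    exact_mod_cast this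
  have hcopr : ∀ s ∈ S, IsCoprime ((a : ℤ) + s) (M : ℤ) := by
    intro s hs
    obtain ⟨g, -, rfl⟩ := hform' s hs
    have h1 : IsCoprime (a : ℤ) (M : ℤ) := Nat.isCoprime_iff_coprime.2 ha2
    exact (IsCoprime.add_mul_left_left h1 (g : ℤ))
  have hSR2 : ∀ s ∈ S, |s| ≤ ((2 * R : ℕ) : ℤ) := fun s hs => (hSR s hs).trans (by push_cast; omega)
  obtain ⟨c, hc, h⟩ := hcount S hScard hSadm M a hM0 hcopr (2 * R) hSR2
  refine ⟨c, hc, ?_⟩
  filter_upwards [h] with x hx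
  obtain ⟨P, hP, hP2, hx⟩ := hx
  have hform : ∀ z ∈ P, ∃ g : ℕ, g ∈ G ∧ z = (M : ℤ) * g := by
    intro z hz
    exact hform' z (hP hz)
  have hPne : P.Nonempty := by rw [← card_pos]; omega
  obtain ⟨z₀, hz₀, hmin⟩ := exists_min_image P id hPne
  have hne : (P.erase z₀).Nonempty := by
    rw [← card_pos, card_erase_of_mem hz₀]; omega
  obtain ⟨z₁, hz₁, hmin1⟩ := exists_min_image (P.erase z₀) id hne
  obtain ⟨hz1a, hz1b⟩ := mem_erase.1 hz₁
  have hlt : z₀ < z₁ := lt_of_le_of_ne (hmin z₁ hz1b) (Ne.symm hz1a)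
  obtain ⟨g₀, hg₀, hzg0⟩ := hform z₀ hz₀
  obtain ⟨g₁, hg₁, hzg1⟩ := hform z₁ hz1b
  have hg01 : g₀ < g₁ := by
    rw [hzg0, hzg1] at hlt
    have := lt_of_mul_lt_mul_left hlt (by positivity)
    exact_mod_cast this
  have hg106 := hL g₁ hg₁
  refine ⟨g₀, hg₀, g₁, hg₁, hg01, hx.trans ?_⟩
  rw [Nat.cast_le]
  have e1 : M * g₁ = M * g₀ + (g₁ - g₀) * M := by
    rw [mul_comm (g₁ - g₀), ← Nat.mul_add]
    congr 1
    omega
  have hMR : M * g₁ ≤ R := by
    rw [hRd, mul_comm L]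
    exact Nat.mul_le_mul_left _ hg106
  refine Set.ncard_le_ncard (fun n hn => ?_) ?_
  · obtain ⟨h1, h2, h3, h4, h40⟩ := hn
    have hM0R : M * g₀ ≤ R := by omega
    have key : ∀ m : ℕ, m ≤ n + 2 * R → n ≤ m + 2 * R → (m.Prime ↔ (m : ℤ) - n ∈ P) := by
      intro m hm1 hm2
      rw [← h4 ((m : ℤ) - n) (by rw [abs_le]; constructor <;> push_cast <;> omega)]
      constructor
      · intro h6
        exact ⟨m, h6, by ring⟩
      · rintro ⟨p, hp1, hp2⟩
        have h7 : p = m := by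
          have : (p : ℤ) = m := by rw [hp2]; ring
          exact_mod_cast this
        rw [← h7]; exact hp1
    refine ⟨h1, ?_, ⟨?_, ?_, ?_, ?_⟩, ?_⟩
    · have h5 : (((n + M * g₀) + (g₁ - g₀) * M : ℕ) : ℝ) ≤ ((n + R : ℕ) : ℝ) := by
        exact_mod_cast (by omega)
      have h6 : (0 : ℝ) < R := by
        have : 0 < R := by rw [hRd]; omega
        exact_mod_cast this
      push_cast at h5 h2 ⊢
      linarith
    · have h5 : n ≡ a [MOD M] := Int.natCast_modEq_iff.1 h3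
      have h6 : n + M * g₀ ≡ a + 0 [MOD M] := h5.add ((Nat.modEq_zero_iff_dvd).2 (dvd_mul_right _ _))
      rw [add_zero] at h6
      exact h6
    · rw [key (n + M * g₀) (by omega) (by omega)]
      have : ((n + M * g₀ : ℕ) : ℤ) - n = z₀ := by rw [hzg0]; push_cast; ring
      rw [this]
      exact hz₀
    · have e2 : n + M * g₀ + (g₁ - g₀) * M = n + M * g₁ := by omega
      rw [e2, key (n + M * g₁) (by omega) (by omega)]
      have : ((n + M * g₁ : ℕ) : ℤ) - n = z₁ := by rw [hzg1]; push_cast; ring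
      rw [this]
      exact hz1b
    · intro m hm1 hm2 hmp
      have e2 : n + M * g₀ + (g₁ - g₀) * M = n + M * g₁ := by omega
      rw [e2] at hm2
      have h5 := (key m (by omega) (by omega)).1 hmp
      have h6 : (m : ℤ) - n ≠ z₀ := by
        intro h6
        rw [hzg0] at h6
        have : (m : ℤ) = ((n + M * g₀ : ℕ) : ℤ) := by push_cast; linarith
        have : m = n + M * g₀ := by exact_mod_cast this
        omega
      have h7 : z₁ ≤ (m : ℤ) - n := hmin1 _ (mem_erase.2 ⟨h6, h5⟩)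
      rw [hzg1] at h7
      have : ((n + M * g₁ : ℕ) : ℤ) ≤ m := by push_cast; linarith
      have : n + M * g₁ ≤ m := by exact_mod_cast this
      omega
    · intro g'' hg'' p hp hpx hd
      refine h40 ((M : ℤ) * g'') ?_ p hp hpx ?_
      · rw [hSdef]
        exact mem_image.2 ⟨g'', hg'', rfl⟩
      · have e3 : (n : ℤ) + (M : ℤ) * g'' = ((n + M * g'' : ℕ) : ℤ) := by push_cast; ring
        rw [e3]
        exact Int.natCast_dvd_natCast.2 hd
  · refine (Set.finite_Iic ⌊3 * x⌋₊).subset fun p hp => Nat.le_floor ?_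
    have h5 := hp.2.1
    push_cast at h5
    have : (0 : ℝ) ≤ ((g₁ - g₀ : ℕ) : ℝ) * M := by positivity
    have : (0 : ℝ) ≤ (M : ℝ) * g₀ := by positivity
    linarith



end Pool.Agent.X34.E
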