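import Mathlib
import Pool.Agent.X34.E.E7

/-! Engine E (helper34): exact patterns of primes in admissible sets of 45 integers, right order. -/

set_option autoImplicit false

open Finset Filter

namespace Pool.Agent.X34.E

/-- the exact patterns, for all large `x`, and one pattern for arbitrarily large `x` -/
theorem exact_right (hE : Eng) : ∃ k : ℝ, 0 < k ∧ ∀ (S : Finset ℤ), S.card = 45 → Adm S → ∀ (q : ℕ) (r : ℤ),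
    0 < q → (∀ s ∈ S, IsCoprime (r + s) (q : ℤ)) →
    (∀ R : ℕ, ∃ c : ℝ, 0 < c ∧ ∀ᶠ x : ℝ in atTop, ∃ P ⊆ S, 2 ≤ P.card ∧
      c * x / Real.log x ^ 45 ≤ (Set.ncard {n : ℕ | 1 ≤ n ∧ (n : ℝ) ≤ x ∧ Pt q r S P R (x ^ k) n} : ℝ)) ∧
    ∃ P ⊆ S, 2 ≤ P.card ∧ ∀ R : ℕ, ∃ c : ℝ, 0 < c ∧ ∃ᶠ x : ℝ in atTop,
      c * x / Real.log x ^ 45 ≤ (Set.ncard {n : ℕ | 1 ≤ n ∧ (n : ℝ) ≤ x ∧ Pt q r S P R (x ^ k) n} : ℝ) := by
  classical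
  obtain ⟨k, hk, h⟩ := count_of hE
  have hfin : ∀ (x : ℝ) (X : ℕ → Prop), {n : ℕ | 1 ≤ n ∧ (n : ℝ) ≤ x ∧ X n}.Finite := by
    intro x X
    exact (Set.finite_Iic ⌊x⌋₊).subset fun n hn => Nat.le_floor hn.2.1
  have first : ∀ (S : Finset ℤ), S.card = 45 → Adm S → ∀ (q : ℕ) (r : ℤ),
      0 < q → (∀ s ∈ S, IsCoprime (r + s) (q : ℤ)) →
      (∀ R : ℕ, ∃ c : ℝ, 0 < c ∧ ∀ᶠ x : ℝ in atTop, ∃ P ⊆ S, 2 ≤ P.card ∧
        c * x / Real.log x ^ 45 ≤ (Set.ncard {n : ℕ | 1 ≤ n ∧ (n : ℝ) ≤ x ∧ Pt q r S P R (x ^ k) n} : ℝ)) := by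
    intro S hS hadm q r hq hr R
    obtain ⟨c, hc, hx⟩ := h S hS hadm q r hq hr R
    refine ⟨c, hc, ?_⟩
    filter_upwards [hx, eventually_ge_atTop 0] with x hx hx0
    obtain ⟨P, hP, hP2, hcard⟩ := hx
    refine ⟨P, hP, hP2, hcard.trans ?_⟩
    rw [← Set.ncard_coe_finset, Nat.cast_le]
    apply Set.ncard_le_ncard _ (hfin x _)
    intro n hn
    rw [mem_coe, mem_filter, mem_Icc] at hn
    exact ⟨hn.1.1, (Nat.le_floor_iff hx0).1 hn.1.2, hn.2⟩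
  refine ⟨k, hk, fun S hS hadm q r hq hr => ⟨first S hS hadm q r hq hr, ?_⟩⟩
  by_contra hcon
  push Not at hcon
  have h1 : ∀ P : Finset ℤ, ∃ R : ℕ, P ⊆ S → 2 ≤ P.card → ∀ c : ℝ, 0 < c → ∀ᶠ x : ℝ in atTop,
      (Set.ncard {n : ℕ | 1 ≤ n ∧ (n : ℝ) ≤ x ∧ Pt q r S P R (x ^ k) n} : ℝ) < c * x / Real.log x ^ 45 := by
    intro P
    by_cases h : P ⊆ S ∧ 2 ≤ P.card
    · obtain ⟨R, h2⟩ := hcon P h.1 h.2
      exact ⟨R, fun _ _ => h2⟩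
    · exact ⟨0, fun h2 h3 => absurd ⟨h2, h3⟩ h⟩
  choose Rf hf using h1
  obtain ⟨c, hc, hx⟩ := first S hS hadm q r hq hr (S.powerset.sup Rf)
  have h2 : ∀ᶠ x : ℝ in atTop, ∀ P ∈ S.powerset, 2 ≤ P.card →
      (Set.ncard {n : ℕ | 1 ≤ n ∧ (n : ℝ) ≤ x ∧ Pt q r S P (Rf P) (x ^ k) n} : ℝ) <
        c * x / Real.log x ^ 45 := by
    rw [Filter.eventually_all_finset]
    intro P hP
    by_cases h : 2 ≤ P.card
    · filter_upwards [hf P (mem_powerset.1 hP) h c hc] with x hx _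
      exact hx
    · exact Eventually.of_forall fun x h' => absurd h' h
  obtain ⟨x, ⟨P, hP, hP2, h3⟩, h4⟩ := (hx.and h2).exists
  have h5 := h4 P (mem_powerset.2 hP) hP2
  have h6 : (Set.ncard {n : ℕ | 1 ≤ n ∧ (n : ℝ) ≤ x ∧ Pt q r S P (S.powerset.sup Rf) (x ^ k) n} : ℝ) ≤
      (Set.ncard {n : ℕ | 1 ≤ n ∧ (n : ℝ) ≤ x ∧ Pt q r S P (Rf P) (x ^ k) n} : ℝ) := by
    rw [Nat.cast_le]
    apply Set.ncard_le_ncard _ (hfin x _)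
    rintro n ⟨h7, h8, h9⟩
    exact ⟨h7, h8, h9.mono (Finset.le_sup (f := Rf) (mem_powerset.2 hP))⟩
  linarith

end Pool.Agent.X34.E
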