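import Mathlib
import Pool.Agent.X34.E.E12
import Pool.Agent.TH977.PW.Inst

/-! Engine E (helper34): upper bounds for the number of the rough integers in short intervals. -/

set_option autoImplicit false

open Finset Filter

namespace Pool.Agent.X34.E

open Pool.Agent.H95R2.BG.LF
open Pool.Agent.W123.RP Pool.Agent.H373R2.T7 Pool.Agent.W123.RU Pool.Agent.W123.RU.Poly
open Pool.Agent.TH464.PW
open Pool.Agent.W182.PW

/-- the system of the linear forms -/
theorem sys_of {K : ℕ} (A B : Fin K → ℕ) (hadm : AdmissibleL A B) :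
    Sys (fun i : Fin K => lin (A i) ((B i : ℕ) : ℤ)) := by
  apply Pool.Agent.TH977.PW.sys_lin A (fun i => (B i : ℤ)) hadm.1
  · intro i
    rw [Nat.isCoprime_iff_coprime]
    by_contra hcop
    obtain ⟨p, hp, hpA, hpB⟩ := Nat.Prime.not_coprime_iff_dvd.1 hcop
    obtain ⟨a, ha⟩ := hadm.2.2 p hp
    exact ha i (dvd_add (hpA.mul_right _) hpB)
  · intro i j h1 h2
    by_contra hij
    apply hadm.2.1 i j hij
    have h2' : B i = B j := by exact_mod_cast h2
    rw [h1, h2']
  · intro p hp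
    obtain ⟨a, ha⟩ := hadm.2.2 p hp
    refine ⟨a, fun i hi => ha i ?_⟩
    exact_mod_cast hi

open Classical in
/-- the upper bound of the right order of magnitude for the rough integers in a short interval -/
theorem rough_upper {K : ℕ} (hK : 0 < K) (A B : Fin K → ℕ) (hadm : AdmissibleL A B) (κ θ : ℝ) (hκ : 0 < κ)
    (hθ : 0 < θ) (hθ1 : θ ≤ 1) : ∃ C : ℝ, 0 < C ∧ ∀ᶠ X : ℕ in atTop, ∀ u H : ℕ, (X : ℝ) ^ θ ≤ H → H ≤ X →
      u ≤ 3 * X → ((((Ioc u (u + H)).filter (fun n => RoughL κ X A B n)).card : ℕ) : ℝ) ≤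
        C * (H / Real.log X ^ K) := by
  have hne : Nonempty (Fin K) := ⟨⟨0, hK⟩⟩
  obtain ⟨K1, hK1, h⟩ := Pool.Agent.TH977.PW.upper_input (fun i : Fin K => lin (A i) ((B i : ℕ) : ℤ))
    (sys_of A B hadm) (θ / 2) (by positivity) (by linarith)
  set r : ℕ := max K1 ⌈2 / κ⌉₊ with hr
  have hrκ : 2 / κ ≤ r := (Nat.le_ceil _).trans (by exact_mod_cast le_max_right _ _)
  have hr0 : (0 : ℝ) < r := lt_of_lt_of_le (by positivity) hrκ
  obtain ⟨C1, C2, hC1, -, h1⟩ := h r (le_max_left _ _)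
  obtain ⟨X0, hX0⟩ := eventually_atTop.1 (h1 1 one_pos)
  rw [Fintype.card_fin] at hX0
  refine ⟨C1 / θ ^ K, by positivity, ?_⟩
  have hpow : ∀ᶠ X : ℕ in atTop, (X0 : ℝ) + 4 ≤ (X : ℝ) ^ θ :=
    ((tendsto_rpow_atTop hθ).comp tendsto_natCast_atTop_atTop).eventually_ge_atTop _
  filter_upwards [hpow, eventually_ge_atTop 4] with X hXp hX4 u H hH1 hH2 hu
  have hX4r : (4 : ℝ) ≤ X := by exact_mod_cast hX4
  have hXpos : (0 : ℝ) < X := by linarith
  have hlX : 0 < Real.log X := Real.log_pos (by linarith)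
  set X' : ℕ := u + H with hX'
  have hHr : (H : ℝ) ≤ X := by exact_mod_cast hH2
  have hH0 : (0 : ℝ) < H := lt_of_lt_of_le (by positivity) hH1
  have hX'1 : (H : ℝ) ≤ X' := by exact_mod_cast (by omega : H ≤ X')
  have hX'0 : X0 ≤ X' := by
    have : (X0 : ℝ) ≤ X' := by linarith
    exact_mod_cast this
  have hX'4 : (X' : ℝ) ≤ (X : ℝ) ^ (2 : ℝ) := by
    have h2 : X' ≤ 4 * X := by omega
    have h3 : (X' : ℝ) ≤ 4 * X := by exact_mod_cast h2
    rw [Real.rpow_two, sq]
    nlinarith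
  have hX'pos : (0 : ℝ) < X' := by linarith
  obtain ⟨-, -, h3, -⟩ := hX0 X' hX'0 H (by
    calc (X' : ℝ) ^ (θ / 2) ≤ ((X : ℝ) ^ (2 : ℝ)) ^ (θ / 2) :=
          Real.rpow_le_rpow hX'pos.le hX'4 (by positivity)
      _ = (X : ℝ) ^ θ := by
          rw [← Real.rpow_mul hXpos.le]
          congr 1
          ring
      _ ≤ H := hH1) (by omega)
  have hsub : ((Ioc u (u + H)).filter (fun n => RoughL κ X A B n)).card ≤
      co (Rgh (fun i : Fin K => lin (A i) ((B i : ℕ) : ℤ)) r X' H) 0 (4 * H) := by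
    unfold co
    have hinj : Set.InjOn (fun n => n - u)
        (((Ioc u (u + H)).filter (fun n => RoughL κ X A B n) : Finset ℕ) : Set ℕ) := by
      intro a ha b hb hab
      rw [mem_coe, mem_filter, mem_Ioc] at ha hb
      simp only at hab
      omega
    rw [← card_image_of_injOn hinj]
    apply card_le_card
    intro m hm
    obtain ⟨n, hn, rfl⟩ := mem_image.1 hm
    rw [mem_filter, mem_Ioc] at hn
    obtain ⟨⟨h4, h5⟩, h6⟩ := hn
    rw [mem_filter, mem_Ioc]
    refine ⟨⟨by omega, by omega⟩, ?_⟩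
    intro p hp hq
    obtain ⟨i, hi⟩ := hq
    have hpp := (mem_pz.1 hp).2
    have h7 := (mem_pz.1 hp).1
    have e1 : n - u + (X' - H) = n := by omega
    rw [e1, lin_eval] at hi
    have e2 : ((A i : ℕ) : ℤ) * (n : ℤ) + (B i : ℕ) = ((A i * n + B i : ℕ) : ℤ) := by push_cast; ring
    rw [e2] at hi
    refine h6 i p hpp ?_ (Int.natCast_dvd_natCast.1 hi)
    have h8 : (p : ℝ) ≤ (X' : ℝ) ^ (1 / (r : ℝ)) := by
      exact (Nat.le_floor_iff (by positivity)).1 h7
    refine h8.trans ?_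
    calc (X' : ℝ) ^ (1 / (r : ℝ)) ≤ ((X : ℝ) ^ (2 : ℝ)) ^ (1 / (r : ℝ)) :=
          Real.rpow_le_rpow hX'pos.le hX'4 (by positivity)
      _ = (X : ℝ) ^ (2 / (r : ℝ)) := by
          rw [← Real.rpow_mul hXpos.le]
          congr 1
          ring
      _ ≤ (X : ℝ) ^ κ := by
          apply Real.rpow_le_rpow_of_exponent_le (by linarith)
          rw [div_le_iff₀ hr0]
          rw [div_le_iff₀ hκ] at hrκ
          linarith
  have hlog : θ * Real.log X ≤ Real.log X' := by
    rw [← Real.log_rpow hXpos]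
    exact Real.log_le_log (by positivity) (hH1.trans hX'1)
  calc ((((Ioc u (u + H)).filter (fun n => RoughL κ X A B n)).card : ℕ) : ℝ) ≤
        (co (Rgh (fun i : Fin K => lin (A i) ((B i : ℕ) : ℤ)) r X' H) 0 (4 * H) : ℝ) := by
          exact_mod_cast hsub
    _ ≤ C1 * H / Real.log X' ^ K := h3
    _ ≤ C1 * H / (θ * Real.log X) ^ K := by
          apply div_le_div_of_nonneg_left (by positivity) (by positivity)
          exact pow_le_pow_left₀ (by positivity) hlog K
    _ = C1 / θ ^ K * (H / Real.log X ^ K) := by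
          rw [mul_pow]
          field_simp

end Pool.Agent.X34.E
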