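import Mathlib
import Pool.Agent.X34.E.E18
import Pool.Agent.X34.E.E19

/-! Engine E (helper34): gaps between consecutive powers, a positive proportion of the powers. -/

set_option autoImplicit false

open Finset Filter

namespace Pool.Agent.X34.E

open Pool.Agent.H95R2.BG.LF

/-- the forms `n + M g`, `g` in `G` -/
theorem adm_G (M : ℕ) (hM0 : 0 < M) (G : Finset ℕ) (hG : G.card = 45)
    (hadm : ∀ p : ℕ, p.Prime → ¬ p ∣ M → ∃ r : ℕ, ∀ g ∈ G, ¬ p ∣ r + g) :
    AdmissibleL (fun _ : Fin 45 => 1) (fun i => M * G.orderEmbOfFin hG i) := by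
  refine ⟨fun _ => le_rfl, fun i j hij h => hij ?_, fun p hp => ?_⟩
  · rw [one_mul, one_mul] at h
    exact ((G.orderEmbOfFin hG).injective (Nat.eq_of_mul_eq_mul_left hM0 h)).symm
  · by_cases hpM : p ∣ M
    · refine ⟨1, fun i hd => ?_⟩
      have h1 : p ∣ M * G.orderEmbOfFin hG i := hpM.mul_right _
      have h2 : p ∣ 1 * 1 := (Nat.dvd_add_left h1).1 hd
      exact hp.one_lt.ne' (Nat.dvd_one.1 (by rwa [one_mul] at h2))
    · obtain ⟨r, hr⟩ := hadm p hp hpM
      refine ⟨M * r, fun i hd => ?_⟩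
      have h1 : 1 * (M * r) + M * G.orderEmbOfFin hG i = M * (r + G.orderEmbOfFin hG i) := by ring
      rw [h1, hp.dvd_mul] at hd
      rcases hd with h2 | h2
      · exact hpM h2
      · exact hr _ (G.orderEmbOfFin_mem hG i) h2

theorem rough_G (M : ℕ) (G : Finset ℕ) (hG : G.card = 45) (κ X : ℝ) (n : ℕ)
    (h : ∀ g'' ∈ G, ∀ p : ℕ, p.Prime → (p : ℝ) ≤ X ^ κ → ¬ p ∣ n + M * g'') :
    RoughL κ X (fun _ : Fin 45 => 1) (fun i => M * G.orderEmbOfFin hG i) n := by
  intro i p hp hpX hd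
  rw [one_mul] at hd
  exact h _ (G.orderEmbOfFin_mem hG i) p hp hpX hd

theorem pow_step (s m : ℕ) : (m + 1) ^ s ≤ m ^ s + s * (m + 1) ^ (s - 1) := by
  induction s with
  | zero => simp
  | succ s ih =>
    rcases Nat.eq_zero_or_pos s with h0 | h0
    · subst h0; simp
    · have e : s + 1 - 1 = (s - 1) + 1 := by omega
      have e2 : (m + 1) ^ (s + 1 - 1) = (m + 1) ^ (s - 1) * (m + 1) := by rw [e, pow_succ]
      have e3 : (m + 1) ^ (s + 1 - 1) = (m + 1) ^ s := rfl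
      have e4 : m ^ s ≤ (m + 1) ^ s := Nat.pow_le_pow_left (by omega) _
      calc (m + 1) ^ (s + 1) = (m + 1) ^ s * (m + 1) := pow_succ _ _
        _ ≤ (m ^ s + s * (m + 1) ^ (s - 1)) * (m + 1) := Nat.mul_le_mul_right _ ih
        _ = m ^ (s + 1) + m ^ s + s * ((m + 1) ^ (s - 1) * (m + 1)) := by rw [pow_succ]; ring
        _ = m ^ (s + 1) + m ^ s + s * (m + 1) ^ s := by rw [← e2, e3]
        _ ≤ m ^ (s + 1) + (m + 1) ^ s + s * (m + 1) ^ s := by omega
        _ = m ^ (s + 1) + (s + 1) * (m + 1) ^ (s + 1 - 1) := by rw [e3]; ring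

theorem root (s : ℕ) (hs : 1 ≤ s) (p : ℕ) : ∃ m : ℕ, m ^ s ≤ p ∧ p < (m + 1) ^ s := by
  classical
  have hex : ∃ m : ℕ, p < (m + 1) ^ s := by
    refine ⟨p, ?_⟩
    calc p < p + 1 := by omega
      _ = (p + 1) ^ 1 := (pow_one _).symm
      _ ≤ (p + 1) ^ s := Nat.pow_le_pow_right (by omega) hs
  refine ⟨Nat.find hex, ?_, Nat.find_spec hex⟩
  by_contra hcon
  push Not at hcon
  rcases Nat.eq_zero_or_pos (Nat.find hex) with h0 | h0
  · rw [h0, zero_pow (by omega)] at hcon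
    omega
  · have h1 := Nat.find_min hex (m := Nat.find hex - 1) (by omega)
    apply h1
    have : Nat.find hex - 1 + 1 = Nat.find hex := by omega
    rw [this]
    exact hcon

/-- many large terms -/
theorem many_large (I : Finset ℕ) (f : ℕ → ℕ) (T D t : ℝ) (hT : T ≤ ∑ i ∈ I, (f i : ℝ))
    (hD : ∀ i ∈ I, (f i : ℝ) ≤ D) (ht : (I.card : ℝ) * t ≤ T / 2) (ht0 : 0 ≤ t) :
    T / 2 ≤ D * ((I.filter (fun i => t ≤ (f i : ℝ))).card : ℝ) := by
  classical
  rw [← sum_filter_add_sum_filter_not I (fun i => t ≤ (f i : ℝ))] at hT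
  have h1 : ∑ i ∈ I.filter (fun i => t ≤ (f i : ℝ)), (f i : ℝ) ≤
      D * ((I.filter (fun i => t ≤ (f i : ℝ))).card : ℝ) := by
    calc ∑ i ∈ I.filter (fun i => t ≤ (f i : ℝ)), (f i : ℝ) ≤
        ∑ _i ∈ I.filter (fun i => t ≤ (f i : ℝ)), D :=
          sum_le_sum fun i hi => hD i (mem_filter.1 hi).1
      _ = _ := by rw [sum_const, nsmul_eq_mul, mul_comm]
  have h2 : ∑ i ∈ I.filter (fun i => ¬ t ≤ (f i : ℝ)), (f i : ℝ) ≤ T / 2 := by
    calc ∑ i ∈ I.filter (fun i => ¬ t ≤ (f i : ℝ)), (f i : ℝ) ≤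
        ∑ _i ∈ I.filter (fun i => ¬ t ≤ (f i : ℝ)), t :=
          sum_le_sum fun i hi => (not_le.1 (mem_filter.1 hi).2).le
      _ ≤ ∑ _i ∈ I, t := sum_le_sum_of_subset_of_nonneg (filter_subset _ _) fun _ _ _ => ht0
      _ = (I.card : ℝ) * t := by rw [sum_const, nsmul_eq_mul]
      _ ≤ T / 2 := ht
  linarith

open Classical in
/-- a positive proportion of the intervals between consecutive powers contains the right order of primes followed
by one and the same gap -/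
theorem powers_pos (hE : Eng) (s : ℕ) (hs : 2 ≤ s) (M a : ℕ) (hM0 : 0 < M) (ha : a.Coprime M) (G : Finset ℕ)
    (hG : G.card = 45) (hadm : ∀ p : ℕ, p.Prime → ¬ p ∣ M → ∃ r : ℕ, ∀ g ∈ G, ¬ p ∣ r + g) :
    ∃ c : ℝ, 0 < c ∧ ∀ᶠ N : ℕ in atTop, ∃ g ∈ G, ∃ g' ∈ G, g < g' ∧ c * N ≤
      (Set.ncard {m : ℕ | N ≤ m ∧ m < 2 * N ∧ c * (m : ℝ) ^ (s - 1) / Real.log m ^ 45 ≤
        (Set.ncard {p : ℕ | m ^ s < p ∧ p + (g' - g) * M < (m + 1) ^ s ∧
          Follow M a ((g' - g) * M) p} : ℝ)} : ℝ) := by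
  obtain ⟨κ, hκ, hgr⟩ := gaps_rough hE
  obtain ⟨c₀, hc₀, hlow⟩ := hgr M a hM0 ha G hG hadm
  obtain ⟨C, hC, hup⟩ := rough_upper (K := 45) (by norm_num) _ _ (adm_G M hM0 G hG hadm) κ (1 / 2) hκ
    (by norm_num) (by norm_num)
  obtain ⟨L, hL⟩ : ∃ L : ℕ, ∀ g ∈ G, g ≤ L :=
    ⟨G.sup id, fun g hg => Finset.le_sup (f := id) hg⟩
  have hs0 : (0 : ℝ) < s := by exact_mod_cast (by omega : 0 < s)
  have hpowt : Tendsto (fun N : ℕ => N ^ s) atTop atTop := tendsto_pow_atTop (by omega)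
  have hpowr : Tendsto (fun N : ℕ => ((N ^ s : ℕ) : ℝ)) atTop atTop :=
    tendsto_natCast_atTop_atTop.comp hpowt
  have hlogN : Tendsto (fun N : ℕ => Real.log (N : ℝ)) atTop atTop :=
    Real.tendsto_log_atTop.comp tendsto_natCast_atTop_atTop
  have hsmall : ∀ᶠ N : ℕ in atTop, 2 * (L * M) * (s : ℝ) ^ 45 / c₀ * Real.log N ^ 45 ≤ N := by
    have h1 := Pool.Agent.TH464.PW.logpow_rpow 45 (2 * (L * M) * (s : ℝ) ^ 45 / c₀ + 1) 1 (by positivity)
      one_pos
    filter_upwards [h1, eventually_ge_atTop 1] with N h2 hN1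
    rw [Real.rpow_one] at h2
    have h3 : 0 ≤ Real.log (N : ℝ) ^ 45 := pow_nonneg (Real.log_nonneg (by exact_mod_cast hN1)) _
    nlinarith
  refine ⟨min (c₀ / (4 * 2 ^ (s - 1) * s ^ 45)) (c₀ / (4 * (C * (s * 2 ^ (s - 1))))), by positivity, ?_⟩
  filter_upwards [hpowr.eventually hlow, hpowt.eventually hup, hlogN.eventually_ge_atTop 1, hsmall,
    eventually_ge_atTop (s * 2 ^ (s - 1) + L * M + 3)] with N h1 h2 h3 h4 h5
  obtain ⟨g, hg, g', hg', hgg, h1⟩ := h1
  refine ⟨g, hg, g', hg', hgg, ?_⟩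
  obtain ⟨h, hh⟩ : ∃ h : ℕ, h = (g' - g) * M := ⟨_, rfl⟩
  rw [← hh] at h1 ⊢
  have hhL : h ≤ L * M := by
    rw [hh]
    exact Nat.mul_le_mul_right _ ((Nat.sub_le _ _).trans (hL g' hg'))
  have hMg : M * g ≤ L * M := by
    rw [mul_comm]
    exact Nat.mul_le_mul_right _ (hL g hg)
  have hN3 : 3 ≤ N := by omega
  have hN0 : (0 : ℝ) < N := by exact_mod_cast (by omega : 0 < N)
  set X : ℕ := N ^ s with hX
  have hsplit : N ^ s = N ^ (s - 1) * N := by
    rw [← pow_succ]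
    congr 1
    omega
  have hNs1 : 1 ≤ N ^ (s - 1) := Nat.one_le_pow _ _ (by omega)
  have hNX : N * N ≤ X := by
    calc N * N = N ^ 2 := by ring
      _ ≤ N ^ s := Nat.pow_le_pow_right (by omega) hs
  have hXN : N ≤ X := by
    have : N * 1 ≤ N * N := Nat.mul_le_mul_left _ (by omega)
    omega
  set H : ℕ := s * 2 ^ (s - 1) * N ^ (s - 1) with hH
  have hHX : H ≤ X := by
    rw [hX, hsplit, hH, mul_comm (N ^ (s - 1)) N]
    exact Nat.mul_le_mul_right _ (by omega)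
  have hlogX : Real.log (X : ℝ) = s * Real.log N := by
    rw [hX]; push_cast; rw [Real.log_pow]
  have hlX0 : 0 < Real.log (X : ℝ) := by
    rw [hlogX]; positivity
  have hHlow : ((X : ℕ) : ℝ) ^ (1 / 2 : ℝ) ≤ H := by
    have e1 : X ≤ N ^ (s - 1) * N ^ (s - 1) := by
      rw [hX, hsplit]
      apply Nat.mul_le_mul_left
      calc N = N ^ 1 := (pow_one _).symm
        _ ≤ N ^ (s - 1) := Nat.pow_le_pow_right (by omega) (by omega)
    have e2 : (X : ℝ) ≤ ((N ^ (s - 1) : ℕ) : ℝ) * ((N ^ (s - 1) : ℕ) : ℝ) := by exact_mod_cast e1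
    rw [← Real.sqrt_eq_rpow]
    calc √(X : ℝ) ≤ √(((N ^ (s - 1) : ℕ) : ℝ) * ((N ^ (s - 1) : ℕ) : ℝ)) := Real.sqrt_le_sqrt e2
      _ = ((N ^ (s - 1) : ℕ) : ℝ) := Real.sqrt_mul_self (Nat.cast_nonneg _)
      _ ≤ H := by
        rw [hH]
        have : 1 * N ^ (s - 1) ≤ s * 2 ^ (s - 1) * N ^ (s - 1) := by
          apply Nat.mul_le_mul_right
          have e3 : 1 ≤ 2 ^ (s - 1) := Nat.one_le_pow _ _ (by norm_num)
          nlinarith
        rw [one_mul] at this
        exact_mod_cast this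
  -- the counts
  set F : ℕ → Finset ℕ := fun m => (range (3 * X)).filter (fun p => m ^ s < p ∧ p + h < (m + 1) ^ s ∧
    Follow M a h p ∧ M * g ≤ p ∧ ∀ g'' ∈ G, ∀ q : ℕ, q.Prime → (q : ℝ) ≤ (X : ℝ) ^ κ → ¬ q ∣ p - M * g + M * g'')
    with hF
  have hcov : {n : ℕ | (X : ℝ) < n ∧ ((n + M * g + h : ℕ) : ℝ) < 3 * X ∧ Follow M a h (n + M * g) ∧
      ∀ g'' ∈ G, ∀ p : ℕ, p.Prime → (p : ℝ) ≤ (X : ℝ) ^ κ → ¬ p ∣ n + M * g''} ⊆
      (((Ico N (2 * N)).biUnion (fun m => (F m).image (fun p => p - M * g))) ∪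
        ((Ico N (2 * N)).biUnion (fun m => (range h).image (fun j => (m + 1) ^ s - M * g - 1 - j))) :
          Finset ℕ) := by
    rintro n ⟨hn1, hn2, hn3, hn4⟩
    have hn1' : X < n := by exact_mod_cast hn1
    have hn2' : n + M * g + h < 3 * X := by exact_mod_cast hn2
    obtain ⟨m, hm1, hm2⟩ := root s (by omega) (n + M * g)
    have hmN : N ≤ m := by
      by_contra hcon
      have : (m + 1) ^ s ≤ N ^ s := Nat.pow_le_pow_left (by omega) _
      omega
    have hm2N : m < 2 * N := by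
      by_contra hcon
      have e1 : (2 * N) ^ s ≤ m ^ s := Nat.pow_le_pow_left (by omega) _
      have e2 : 4 * N ^ s ≤ (2 * N) ^ s := by
        rw [mul_pow]
        apply Nat.mul_le_mul_right
        calc 4 = 2 ^ 2 := by norm_num
          _ ≤ 2 ^ s := Nat.pow_le_pow_right (by norm_num) hs
      omega
    rw [coe_union, Set.mem_union, mem_coe, mem_coe, mem_biUnion, mem_biUnion]
    by_cases hcr : n + M * g + h < (m + 1) ^ s
    · left
      refine ⟨m, mem_Ico.2 ⟨hmN, hm2N⟩, mem_image.2 ⟨n + M * g, ?_, by omega⟩⟩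
      rw [hF, mem_filter, mem_range]
      refine ⟨by omega, lt_of_le_of_ne hm1 ?_, hcr, hn3, by omega, ?_⟩
      · intro he
        have := hn3.2.1
        rw [← he] at this
        exact Nat.Prime.not_prime_pow hs this
      · intro g'' hg'' q hq hqX
        have e1 : n + M * g - M * g = n := by omega
        rw [e1]
        exact hn4 g'' hg'' q hq hqX
    · right
      refine ⟨m, mem_Ico.2 ⟨hmN, hm2N⟩, mem_image.2 ⟨(m + 1) ^ s - M * g - 1 - n, ?_, ?_⟩⟩
      · rw [mem_range]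
        omega
      · omega
  have hfin1 : (Set.ncard {n : ℕ | (X : ℝ) < n ∧ ((n + M * g + h : ℕ) : ℝ) < 3 * X ∧ Follow M a h (n + M * g) ∧
      ∀ g'' ∈ G, ∀ p : ℕ, p.Prime → (p : ℝ) ≤ (X : ℝ) ^ κ → ¬ p ∣ n + M * g''} : ℝ) ≤
      ∑ m ∈ Ico N (2 * N), ((F m).card : ℝ) + N * h := by
    have e1 := Set.ncard_le_ncard hcov (Finset.finite_toSet _)
    rw [Set.ncard_coe_finset] at e1
    have e2 : (((Ico N (2 * N)).biUnion (fun m => (F m).image (fun p => p - M * g))) ∪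
        ((Ico N (2 * N)).biUnion (fun m => (range h).image (fun j => (m + 1) ^ s - M * g - 1 - j)))).card ≤
        ∑ m ∈ Ico N (2 * N), (F m).card + N * h := by
      refine (card_union_le _ _).trans (Nat.add_le_add ?_ ?_)
      · exact card_biUnion_le.trans (sum_le_sum fun m _ => card_image_le)
      · refine card_biUnion_le.trans ?_
        calc ∑ m ∈ Ico N (2 * N), ((range h).image (fun j => (m + 1) ^ s - M * g - 1 - j)).card ≤
            ∑ _m ∈ Ico N (2 * N), h := sum_le_sum fun m _ => card_image_le.trans (card_range h).le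
          _ = N * h := by
            rw [sum_const, Nat.card_Ico, smul_eq_mul]
            congr 1
            omega
    exact_mod_cast e1.trans e2
  have hupm : ∀ m ∈ Ico N (2 * N), ((F m).card : ℝ) ≤ C * (H / Real.log X ^ 45) := by
    intro m hm
    rw [mem_Ico] at hm
    by_cases hm3 : m ^ s ≤ 3 * X
    · have hinj : Set.InjOn (fun p => p - M * g) (F m : Set ℕ) := by
        intro p hp p' hp' he
        rw [mem_coe, hF, mem_filter] at hp hp'
        obtain ⟨-, -, -, -, h6, -⟩ := hp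
        obtain ⟨-, -, -, -, h7, -⟩ := hp'
        simp only at he
        omega
      have e1 : (F m).card ≤ ((Ioc (m ^ s - M * g) (m ^ s - M * g + H)).filter (fun n => RoughL κ X
          (fun _ : Fin 45 => 1) (fun i => M * G.orderEmbOfFin hG i) n)).card := by
        rw [← card_image_of_injOn hinj]
        apply card_le_card
        intro n hn
        obtain ⟨p, hp, rfl⟩ := mem_image.1 hn
        rw [hF, mem_filter, mem_range] at hp
        obtain ⟨h6, h7, h8, h9, h10, h11⟩ := hp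
        have e2 := pow_step s m
        have e3 : s * (m + 1) ^ (s - 1) ≤ H := by
          rw [hH, mul_assoc, ← mul_pow]
          exact Nat.mul_le_mul_left _ (Nat.pow_le_pow_left (by omega) _)
        have e4 : M * g ≤ m ^ s := by
          calc M * g ≤ L * M := hMg
            _ ≤ N := by omega
            _ ≤ X := hXN
            _ ≤ m ^ s := Nat.pow_le_pow_left hm.1 _
        rw [mem_filter, mem_Ioc]
        exact ⟨⟨by omega, by omega⟩, rough_G M G hG κ X _ h11⟩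
      refine le_trans ?_ (h2 (m ^ s - M * g) H hHlow hHX (by omega))
      exact_mod_cast e1
    · have e1 : F m = ∅ := by
        rw [hF, filter_eq_empty_iff]
        intro p hp h6
        rw [mem_range] at hp
        have := h6.1
        omega
      rw [e1, card_empty]
      push_cast
      positivity
  -- the total
  have hXr : (X : ℝ) = (N : ℝ) ^ (s - 1) * N := by
    rw [hX, hsplit]; push_cast; ring
  have hTlow : c₀ / 2 * (X / Real.log X ^ 45) ≤ ∑ m ∈ Ico N (2 * N), ((F m).card : ℝ) := by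
    have e1 : c₀ * X / Real.log X ^ 45 ≤ ∑ m ∈ Ico N (2 * N), ((F m).card : ℝ) + N * h := by
      refine le_trans ?_ hfin1
      convert h1 using 2
    have e2 : (N : ℝ) * h ≤ c₀ / 2 * (X / Real.log X ^ 45) := by
      have e3 : (h : ℝ) ≤ L * M := by exact_mod_cast hhL
      have e4 : (1 : ℝ) ≤ (N : ℝ) ^ (s - 1) := by exact_mod_cast hNs1
      have e5 : (N : ℝ) * N ≤ X := by exact_mod_cast hNX
      rw [hlogX, mul_pow]
      have e6 : 0 < (s : ℝ) ^ 45 * Real.log N ^ 45 := by positivity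
      rw [← mul_div_assoc, le_div_iff₀ e6]
      have e7 : 2 * (L * M) * (s : ℝ) ^ 45 * Real.log N ^ 45 ≤ c₀ * N := by
        have := mul_le_mul_of_nonneg_left h4 hc₀.le
        calc 2 * (L * M) * (s : ℝ) ^ 45 * Real.log N ^ 45 =
            c₀ * (2 * (L * M) * (s : ℝ) ^ 45 / c₀ * Real.log N ^ 45) := by field_simp
          _ ≤ c₀ * N := this
      calc (N : ℝ) * h * ((s : ℝ) ^ 45 * Real.log N ^ 45) ≤
          N * (L * M) * ((s : ℝ) ^ 45 * Real.log N ^ 45) := by gcongr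
        _ = N / 2 * (2 * (L * M) * (s : ℝ) ^ 45 * Real.log N ^ 45) := by ring
        _ ≤ N / 2 * (c₀ * N) := mul_le_mul_of_nonneg_left e7 (by positivity)
        _ = c₀ / 2 * (N * N) := by ring
        _ ≤ c₀ / 2 * X := mul_le_mul_of_nonneg_left e5 (by positivity)
    have e3 : c₀ * X / Real.log X ^ 45 = c₀ / 2 * (X / Real.log X ^ 45) + c₀ / 2 * (X / Real.log X ^ 45) := by
      ring
    linarith
  have hml := many_large (Ico N (2 * N)) (fun m => (F m).card) (c₀ / 2 * (X / Real.log X ^ 45))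
    (C * (H / Real.log X ^ 45)) (c₀ / 4 * ((N : ℝ) ^ (s - 1) / Real.log X ^ 45)) hTlow hupm (by
      rw [Nat.card_Ico]
      have e1 : ((2 * N - N : ℕ) : ℝ) = N := by
        congr 1
        omega
      rw [e1, hXr]
      apply le_of_eq
      ring) (by positivity)
  have hgood : min (c₀ / (4 * 2 ^ (s - 1) * s ^ 45)) (c₀ / (4 * (C * (s * 2 ^ (s - 1))))) * N ≤
      (((Ico N (2 * N)).filter (fun m => c₀ / 4 * ((N : ℝ) ^ (s - 1) / Real.log X ^ 45) ≤
        ((F m).card : ℝ))).card : ℝ) := by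
    refine (mul_le_mul_of_nonneg_right (min_le_right _ _) hN0.le).trans ?_
    set Z : ℝ := (((Ico N (2 * N)).filter (fun m => c₀ / 4 * ((N : ℝ) ^ (s - 1) / Real.log X ^ 45) ≤
        ((F m).card : ℝ))).card : ℝ) with hZ
    have e1 : c₀ / 2 * (X / Real.log X ^ 45) / 2 ≤ C * (H / Real.log X ^ 45) * Z := hml
    have e2 : (H : ℝ) = s * 2 ^ (s - 1) * (N : ℝ) ^ (s - 1) := by rw [hH]; push_cast; ring
    obtain ⟨Lam, hLam⟩ : ∃ Lam : ℝ, Lam = Real.log X ^ 45 := ⟨_, rfl⟩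
    have hLam0 : 0 < Lam := by rw [hLam]; positivity
    rw [← hLam] at e1
    rw [e2, hXr] at e1
    have e3 : 0 < (N : ℝ) ^ (s - 1) / Lam := by positivity
    have e4 : c₀ / 4 * N * ((N : ℝ) ^ (s - 1) / Lam) ≤
        C * (s * 2 ^ (s - 1)) * Z * ((N : ℝ) ^ (s - 1) / Lam) := by
      calc c₀ / 4 * N * ((N : ℝ) ^ (s - 1) / Lam) =
          c₀ / 2 * ((N : ℝ) ^ (s - 1) * N / Lam) / 2 := by ring
        _ ≤ C * (s * 2 ^ (s - 1) * (N : ℝ) ^ (s - 1) / Lam) * Z := e1
        _ = _ := by ring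
    have e5 := le_of_mul_le_mul_right e4 e3
    rw [div_mul_eq_mul_div, div_le_iff₀ (by positivity)]
    calc c₀ * N = 4 * (c₀ / 4 * N) := by ring
      _ ≤ 4 * (C * (s * 2 ^ (s - 1)) * Z) := by linarith
      _ = _ := by ring
  refine hgood.trans ?_
  rw [← Set.ncard_coe_finset, Nat.cast_le]
  refine Set.ncard_le_ncard (fun m hm => ?_) ((Set.finite_Iio (2 * N)).subset fun m hm => hm.2.1)
  rw [mem_coe, mem_filter, mem_Ico] at hm
  obtain ⟨⟨hm1, hm2⟩, hm3⟩ := hm
  refine ⟨hm1, hm2, ?_⟩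
  have hm0 : (0 : ℝ) < m := lt_of_lt_of_le hN0 (by exact_mod_cast hm1)
  have hlogm : Real.log N ≤ Real.log m := Real.log_le_log hN0 (by exact_mod_cast hm1)
  calc min (c₀ / (4 * 2 ^ (s - 1) * s ^ 45)) (c₀ / (4 * (C * (s * 2 ^ (s - 1))))) * (m : ℝ) ^ (s - 1) /
        Real.log m ^ 45 ≤ c₀ / (4 * 2 ^ (s - 1) * s ^ 45) * (2 * (N : ℝ)) ^ (s - 1) / Real.log N ^ 45 := by
          have e1 : (m : ℝ) ≤ 2 * N := by exact_mod_cast hm2.le
          have e2 : 0 < Real.log N := by linarith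
          apply div_le_div₀ (by positivity) _ (by positivity) (pow_le_pow_left₀ e2.le hlogm 45)
          exact mul_le_mul (min_le_left _ _) (pow_le_pow_left₀ hm0.le e1 _) (by positivity) (by positivity)
    _ = c₀ / 4 * ((N : ℝ) ^ (s - 1) / Real.log X ^ 45) := by
          rw [hlogX, mul_pow, mul_pow]
          have e2 : 0 < Real.log N := by linarith
          field_simp
    _ ≤ ((F m).card : ℝ) := hm3
    _ ≤ _ := by
          rw [← Set.ncard_coe_finset, Nat.cast_le]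
          refine Set.ncard_le_ncard (fun p hp => ?_) ((Set.finite_Iio ((m + 1) ^ s)).subset fun p hp => ?_)
          · rw [mem_coe, hF, mem_filter] at hp
            obtain ⟨-, h6, h7, h8, -⟩ := hp
            exact ⟨h6, h7, h8⟩
          · have := hp.2.1
            show p < (m + 1) ^ s
            omega

end Pool.Agent.X34.E
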