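import Mathlib
import Pool.Agent.X34.E.E11
import Pool.Agent.X34.E.E20

/-! Engine E (helper34): both bounds of the right order of magnitude, and short intervals. -/

set_option autoImplicit false

open Finset Filter

namespace Pool.Agent.X34.E

open Pool.Agent.H95R2.BG.LF

/-- all `n + s`, `s` in `S`, are free of prime factors `≤ y` -/
def RoughS (S : Finset ℤ) (y : ℝ) (n : ℕ) : Prop :=
  ∀ s ∈ S, ∀ p : ℕ, p.Prime → (p : ℝ) ≤ y → ¬ (p : ℤ) ∣ (n : ℤ) + s

open Classical in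
/-- the upper bound in short intervals, integer shifts -/
theorem upperZ (S : Finset ℤ) (hS : 0 < S.card) (hadm : Adm S) (κ θ : ℝ) (hκ : 0 < κ) (hθ : 0 < θ)
    (hθ1 : θ ≤ 1) : ∃ C : ℝ, 0 < C ∧ ∀ᶠ X : ℕ in atTop, ∀ u H : ℕ, (X : ℝ) ^ θ ≤ H → H ≤ X →
      u ≤ 3 * X → ((((Ioc u (u + H)).filter (fun n => RoughS S ((X : ℝ) ^ κ) n)).card : ℕ) : ℝ) ≤
        C * (H / Real.log X ^ S.card) := by
  obtain ⟨K, hK⟩ : ∃ K : ℕ, S.card = K := ⟨_, rfl⟩
  obtain ⟨T, hT⟩ : ∃ T : ℕ, ∀ s ∈ S, |s| ≤ T := by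
    refine ⟨∑ s ∈ S, s.natAbs, fun s hs => ?_⟩
    rw [Int.abs_eq_natAbs]
    have := single_le_sum (f := fun s : ℤ => s.natAbs) (fun _ _ => Nat.zero_le _) hs
    exact_mod_cast this
  set B : Fin K → ℕ := fun i => (S.orderEmbOfFin hK i + T).toNat with hB
  have hBv : ∀ i, ((B i : ℕ) : ℤ) = S.orderEmbOfFin hK i + T := by
    intro i
    rw [hB]
    have h1 := hT _ (S.orderEmbOfFin_mem hK i)
    rw [abs_le] at h1
    exact Int.toNat_of_nonneg (by linarith)
  have hAB : AdmissibleL (fun _ : Fin K => 1) B := by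
    refine ⟨fun _ => le_rfl, fun i j hij h => hij ?_, fun p hp => ?_⟩
    · rw [one_mul, one_mul] at h
      have h1 : ((B j : ℕ) : ℤ) = B i := by exact_mod_cast h
      rw [hBv, hBv] at h1
      exact ((S.orderEmbOfFin hK).injective (by linarith)).symm
    · obtain ⟨r, hr⟩ := hadm p hp
      obtain ⟨n, hn⟩ : ∃ n : ℕ, (n : ℤ) ≡ r - T [ZMOD p] := by
        refine ⟨((r - T) % (p : ℤ)).toNat, ?_⟩
        have hp0 : (p : ℤ) ≠ 0 := by exact_mod_cast hp.ne_zero
        rw [Int.toNat_of_nonneg (Int.emod_nonneg _ hp0)]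
        exact Int.mod_modEq _ _
      refine ⟨n, fun i hd => ?_⟩
      have h1 : (p : ℤ) ∣ ((1 * n + B i : ℕ) : ℤ) := Int.natCast_dvd_natCast.2 hd
      have h2 : (((1 * n + B i : ℕ) : ℤ)) = n + (S.orderEmbOfFin hK i + T) := by
        rw [← hBv]; push_cast; ring
      rw [h2] at h1
      apply hr _ (S.orderEmbOfFin_mem hK i)
      have h3 := hn.dvd
      have h4 : r + S.orderEmbOfFin hK i = (r - T - n) + (n + (S.orderEmbOfFin hK i + T)) := by ring
      rw [h4]
      exact dvd_add h3 h1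
  obtain ⟨C, hC, h⟩ := rough_upper (K := K) (by omega) _ _ hAB κ θ hκ hθ hθ1
  refine ⟨C + 1, by positivity, ?_⟩
  rw [hK]
  have hsm := Pool.Agent.TH464.PW.logpow_rpow K (T + 1) θ (by positivity) hθ
  filter_upwards [h, hsm, eventually_ge_atTop 3] with X h1 h2 h3 u H hH1 hH2 hu
  have hX3 : (3 : ℝ) ≤ X := by exact_mod_cast h3
  have hl : 0 < Real.log (X : ℝ) := Real.log_pos (by linarith)
  have e1 : ((Ioc u (u + H)).filter (fun n => RoughS S ((X : ℝ) ^ κ) n)).card ≤
      (T + 1) + ((Ioc (u - T) (u - T + H)).filter (fun n => RoughL κ X (fun _ : Fin K => 1) B n)).card := by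
    have e2 : (Ioc u (u + H)).filter (fun n => RoughS S ((X : ℝ) ^ κ) n) ⊆ range (T + 1) ∪
        ((Ioc (u - T) (u - T + H)).filter (fun n => RoughL κ X (fun _ : Fin K => 1) B n)).image
          (fun n => n + T) := by
      intro n hn
      rw [mem_filter, mem_Ioc] at hn
      obtain ⟨⟨h4, h5⟩, h6⟩ := hn
      rw [mem_union]
      by_cases h7 : n ≤ T
      · exact Or.inl (mem_range.2 (by omega))
      · refine Or.inr (mem_image.2 ⟨n - T, ?_, by omega⟩)
        rw [mem_filter, mem_Ioc]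
        refine ⟨⟨by omega, by omega⟩, ?_⟩
        intro i p hp hpX hd
        apply h6 _ (S.orderEmbOfFin_mem hK i) p hp hpX
        have h8 : (p : ℤ) ∣ ((1 * (n - T) + B i : ℕ) : ℤ) := Int.natCast_dvd_natCast.2 hd
        have h9 : ((1 * (n - T) + B i : ℕ) : ℤ) = n + S.orderEmbOfFin hK i := by
          have h10 := hBv i
          push_cast [Nat.cast_sub (by omega : T ≤ n)]
          rw [h10]
          ring
        rwa [h9] at h8
    refine (card_le_card e2).trans ((card_union_le _ _).trans ?_)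
    rw [card_range]
    exact Nat.add_le_add_left card_image_le _
  have e3 := h1 (u - T) H hH1 hH2 (by omega)
  have e4 : ((T : ℝ) + 1) ≤ H / Real.log X ^ K := by
    rw [le_div_iff₀ (by positivity)]
    exact h2.trans hH1
  calc ((((Ioc u (u + H)).filter (fun n => RoughS S ((X : ℝ) ^ κ) n)).card : ℕ) : ℝ) ≤
      ((T + 1 + ((Ioc (u - T) (u - T + H)).filter (fun n => RoughL κ X (fun _ : Fin K => 1) B n)).card : ℕ) : ℝ) := by
        exact_mod_cast e1
    _ ≤ H / Real.log X ^ K + C * (H / Real.log X ^ K) := by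
        push_cast
        linarith
    _ = _ := by ring

open Classical in
/-- both bounds of the right order, and short intervals, for exact patterns of primes -/
theorem exact_two_sided (hE : Eng) : ∃ k : ℝ, 0 < k ∧ ∀ (S : Finset ℤ), S.card = 45 → Adm S →
    ∀ (q : ℕ) (r : ℤ), 0 < q → (∀ s ∈ S, IsCoprime (r + s) (q : ℤ)) → ∀ (R : ℕ) (θ : ℝ), 0 < θ → θ ≤ 1 →
    ∃ c C : ℝ, 0 < c ∧ 0 < C ∧ ∀ᶠ x : ℕ in atTop,
      (∀ u H : ℕ, (x : ℝ) ^ θ ≤ H → H ≤ x → u ≤ x →
        (Set.ncard {n : ℕ | u < n ∧ n ≤ u + H ∧ RoughS S ((x : ℝ) ^ k) n} : ℝ) ≤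
          C * (H / Real.log x ^ 45)) ∧
      ∃ P ⊆ S, 2 ≤ P.card ∧
        c * (x / Real.log x ^ 45) ≤ (Set.ncard {n : ℕ | 1 ≤ n ∧ n ≤ x ∧ Pt q r S P R ((x : ℝ) ^ k) n} : ℝ) ∧
        ∀ H : ℕ, (x : ℝ) ^ θ ≤ H → H ≤ x → c * (x / H) ≤
          (Set.ncard {m : ℕ | m ≤ x / H ∧ c * (H / Real.log x ^ 45) ≤
            (Set.ncard {n : ℕ | m * H < n ∧ n ≤ (m + 1) * H ∧ Pt q r S P R ((x : ℝ) ^ k) n} : ℝ)} : ℝ) := by
  obtain ⟨k, hk, hlow⟩ := exact_right hE
  refine ⟨k, hk, fun S hS hadm q r hq hr R θ hθ hθ1 => ?_⟩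
  obtain ⟨c₀, hc₀, h⟩ := (hlow S hS hadm q r hq hr).1 R
  obtain ⟨C, hC, hup⟩ := upperZ S (by omega) hadm k θ hk hθ hθ1
  rw [hS] at hup
  have hN : ∀ᶠ x : ℕ in atTop, ∃ P ⊆ S, 2 ≤ P.card ∧
      c₀ * (x : ℝ) / Real.log x ^ 45 ≤
        (Set.ncard {n : ℕ | 1 ≤ n ∧ (n : ℝ) ≤ x ∧ Pt q r S P R ((x : ℝ) ^ k) n} : ℝ) :=
    tendsto_natCast_atTop_atTop.eventually h
  refine ⟨min c₀ (min (c₀ / 4) (c₀ / (2 * C))), C, by positivity, hC, ?_⟩
  filter_upwards [hN, hup, eventually_ge_atTop 3] with x h1 h2 h3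
  have hx3 : (3 : ℝ) ≤ x := by exact_mod_cast h3
  have hx0 : (0 : ℝ) < x := by linarith
  have hl : 0 < Real.log (x : ℝ) := Real.log_pos (by linarith)
  have hupper : ∀ u H : ℕ, (x : ℝ) ^ θ ≤ H → H ≤ x → u ≤ 3 * x →
      (Set.ncard {n : ℕ | u < n ∧ n ≤ u + H ∧ RoughS S ((x : ℝ) ^ k) n} : ℝ) ≤
        C * (H / Real.log x ^ 45) := by
    intro u H hH1 hH2 hu
    refine le_trans ?_ (h2 u H hH1 hH2 hu)
    rw [← Set.ncard_coe_finset, Nat.cast_le]
    refine Set.ncard_le_ncard (fun n hn => ?_) (Finset.finite_toSet _)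
    rw [mem_coe, mem_filter, mem_Ioc]
    exact ⟨⟨hn.1, hn.2.1⟩, hn.2.2⟩
  refine ⟨fun u H hH1 hH2 hu => hupper u H hH1 hH2 (by omega), ?_⟩
  obtain ⟨P, hP, hP2, h4⟩ := h1
  have h4' : c₀ * (x / Real.log x ^ 45) ≤
      (Set.ncard {n : ℕ | 1 ≤ n ∧ n ≤ x ∧ Pt q r S P R ((x : ℝ) ^ k) n} : ℝ) := by
    rw [← mul_div_assoc]
    refine h4.trans (le_of_eq ?_)
    congr 2
    ext n
    simp only [Set.mem_ofPred_eq, Nat.cast_le]
  refine ⟨P, hP, hP2, ?_, ?_⟩
  · refine le_trans ?_ h4'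
    exact mul_le_mul_of_nonneg_right (min_le_left _ _) (by positivity)
  · intro H hH1 hH2
    have hH0r : (0 : ℝ) < H := lt_of_lt_of_le (by positivity) hH1
    have hH0 : 0 < H := by exact_mod_cast hH0r
    set f : ℕ → ℕ := fun m => ((Ioc (m * H) ((m + 1) * H)).filter
      (fun n => Pt q r S P R ((x : ℝ) ^ k) n)).card with hf
    have hT : c₀ * (x / Real.log x ^ 45) ≤ ∑ m ∈ range (x / H + 1), (f m : ℝ) := by
      refine h4'.trans ?_
      have e1 : {n : ℕ | 1 ≤ n ∧ n ≤ x ∧ Pt q r S P R ((x : ℝ) ^ k) n} ⊆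
          (((range (x / H + 1)).biUnion (fun m => (Ioc (m * H) ((m + 1) * H)).filter
            (fun n => Pt q r S P R ((x : ℝ) ^ k) n)) : Finset ℕ) : Set ℕ) := by
        rintro n ⟨hn1, hn2, hn3⟩
        rw [mem_coe, mem_biUnion]
        refine ⟨(n - 1) / H, mem_range.2 ?_, mem_filter.2 ⟨mem_Ioc.2 ⟨?_, ?_⟩, hn3⟩⟩
        · have : (n - 1) / H ≤ x / H := Nat.div_le_div_right (by omega)
          omega
        · have := Nat.div_mul_le_self (n - 1) H
          omega
        · have := Nat.lt_div_mul_add (a := n - 1) hH0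
          have e : ((n - 1) / H + 1) * H = (n - 1) / H * H + H := by ring
          omega
      have e2 := Set.ncard_le_ncard e1 (Finset.finite_toSet _)
      rw [Set.ncard_coe_finset] at e2
      have e3 := e2.trans card_biUnion_le
      exact_mod_cast e3
    have hD : ∀ m ∈ range (x / H + 1), (f m : ℝ) ≤ C * (H / Real.log x ^ 45) := by
      intro m hm
      rw [mem_range] at hm
      have e1 : m * H ≤ x := by
        calc m * H ≤ x / H * H := Nat.mul_le_mul_right _ (by omega)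
          _ ≤ x := Nat.div_mul_le_self _ _
      refine le_trans ?_ (hupper (m * H) H hH1 hH2 (by omega))
      have hfm : f m = ((Ioc (m * H) ((m + 1) * H)).filter
        (fun n => Pt q r S P R ((x : ℝ) ^ k) n)).card := rfl
      rw [hfm, ← Set.ncard_coe_finset, Nat.cast_le]
      refine Set.ncard_le_ncard (fun n hn => ?_) ((Set.finite_Iic (m * H + H)).subset fun n hn => hn.2.1)
      rw [mem_coe, mem_filter, mem_Ioc] at hn
      have e : (m + 1) * H = m * H + H := by ring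
      exact ⟨hn.1.1, by omega, hn.2.2.2⟩
    have hml := many_large (range (x / H + 1)) f (c₀ * (x / Real.log x ^ 45)) (C * (H / Real.log x ^ 45))
      (c₀ / 4 * (H / Real.log x ^ 45)) hT hD (by
        rw [card_range]
        have e1 : ((x / H + 1 : ℕ) : ℝ) ≤ 2 * (x / H) := by
          push_cast
          have e2 : ((x / H : ℕ) : ℝ) ≤ x / H := Nat.cast_div_le
          have e3 : (1 : ℝ) ≤ x / H := by
            rw [le_div_iff₀ hH0r, one_mul]
            exact_mod_cast hH2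
          linarith
        calc ((x / H + 1 : ℕ) : ℝ) * (c₀ / 4 * (H / Real.log x ^ 45)) ≤
            2 * (x / H) * (c₀ / 4 * (H / Real.log x ^ 45)) :=
              mul_le_mul_of_nonneg_right e1 (by positivity)
          _ = c₀ * (x / Real.log x ^ 45) / 2 := by
              field_simp
              ring) (by positivity)
    set Z : ℝ := (((range (x / H + 1)).filter (fun m => c₀ / 4 * (H / Real.log x ^ 45) ≤
      (f m : ℝ))).card : ℝ) with hZ
    have e5 : c₀ / (2 * C) * (x / H) ≤ Z := by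
      have e6 : 0 < (H : ℝ) / Real.log x ^ 45 := by positivity
      have e7 : c₀ * (x / Real.log x ^ 45) / 2 = c₀ / (2 * C) * (x / H) * (C * (H / Real.log x ^ 45)) := by
        field_simp
      rw [e7, mul_comm (C * (H / Real.log x ^ 45)) Z] at hml
      exact le_of_mul_le_mul_right hml (by positivity)
    refine (mul_le_mul_of_nonneg_right ((min_le_right _ _).trans (min_le_right _ _))
      (by positivity)).trans (e5.trans ?_)
    rw [hZ, ← Set.ncard_coe_finset, Nat.cast_le]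
    refine Set.ncard_le_ncard (fun m hm => ?_) ((Set.finite_Iic (x / H)).subset fun m hm => hm.1)
    rw [mem_coe, mem_filter, mem_range] at hm
    refine ⟨by omega, ?_⟩
    refine (mul_le_mul_of_nonneg_right ((min_le_right _ _).trans (min_le_left _ _))
      (by positivity)).trans (hm.2.trans ?_)
    have hfm : f m = ((Ioc (m * H) ((m + 1) * H)).filter
      (fun n => Pt q r S P R ((x : ℝ) ^ k) n)).card := rfl
    rw [hfm, ← Set.ncard_coe_finset, Nat.cast_le]
    refine Set.ncard_le_ncard (fun n hn => ?_)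
      ((Set.finite_Iic ((m + 1) * H)).subset fun n hn => hn.2.1)
    rw [mem_coe, mem_filter, mem_Ioc] at hn
    exact ⟨hn.1.1, hn.1.2, hn.2⟩

end Pool.Agent.X34.E
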