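import Mathlib
import Pool.Agent.X34.E.E23
import Pool.Agent.W123.RU.PolyV
import Pool.Agent.W123.RU.Sieve
import Pool.Agent.TH977.PW.Inst

/-! Engine E (helper34): all windows around a positive proportion of the integers. -/

set_option autoImplicit false
set_option maxHeartbeats 4000000

open Finset Filter

namespace Pool.Agent.X34.E

open Pool.Agent.H95R2.BG.LF
open Pool.Agent.W123.RP Pool.Agent.H373R2.T7 Pool.Agent.W123.RU Pool.Agent.W123.RU.Poly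
open Pool.Agent.TH464.PW
open Pool.Agent.W182.PW

/-- the system of the translates -/
theorem sysS (S : Finset ℤ) (hadm : Adm S) : Sys (fun s : ↥S => lin 1 (s : ℤ)) := by
  apply Pool.Agent.TH977.PW.sys_lin (fun _ : ↥S => 1) (fun s : ↥S => (s : ℤ)) (fun _ => one_pos)
  · intro i
    rw [Nat.cast_one]
    exact isCoprime_one_left
  · intro i j _ h
    exact Subtype.ext h
  · intro p hp
    obtain ⟨r, hr⟩ := hadm p hp
    have hp0 : (p : ℤ) ≠ 0 := by exact_mod_cast hp.ne_zero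
    refine ⟨(r % (p : ℤ)).toNat, fun s hd => hr s s.2 ?_⟩
    rw [Nat.cast_one, one_mul, Int.toNat_of_nonneg (Int.emod_nonneg _ hp0)] at hd
    have h1 := (Int.mod_modEq r p).dvd
    have h2 : r + (s : ℤ) = (r - r % p) + (r % p + s) := by ring
    rw [h2]
    exact dvd_add h1 hd

theorem Q_S (S : Finset ℤ) (p m : ℕ) : Q (fun s : ↥S => lin 1 (s : ℤ)) p m ↔ ∃ s ∈ S, (p : ℤ) ∣ (m : ℤ) + s := by
  unfold Q
  constructor
  · rintro ⟨s, hs⟩
    rw [lin_eval, Nat.cast_one, one_mul] at hs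
    exact ⟨s, s.2, hs⟩
  · rintro ⟨s, hs, hd⟩
    refine ⟨⟨s, hs⟩, ?_⟩
    rw [lin_eval, Nat.cast_one, one_mul]
    exact hd

open Classical in
theorem nb (hE : Eng) : ∃ k : ℝ, 0 < k ∧ ∀ (S : Finset ℤ), S.card = 45 → Adm S → ∀ (q : ℕ) (r : ℤ), 0 < q →
    (∀ s ∈ S, IsCoprime (r + s) (q : ℤ)) → ∀ R : ℕ, (∀ s ∈ S, |s| ≤ R) →
    ∃ c₁ c₂ K κ : ℝ, 0 < c₁ ∧ 0 < c₂ ∧ 0 < K ∧ 0 < κ ∧ ∀ᶠ X : ℕ in atTop, ∃ P ⊆ S, 2 ≤ P.card ∧
      κ * X ≤ (((Ioc X (4 * X)).filter (fun n => ∀ a b : ℕ, a ≤ n → n ≤ b →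
        K * Real.log X ^ 45 ≤ (b : ℝ) - a → (b : ℝ) - a ≤ n →
          c₁ * ((b : ℝ) - a) / Real.log X ^ 45 ≤ co (Pt q r S P R ((X : ℝ) ^ k)) a b ∧
            (co (RoughS S ((X : ℝ) ^ k)) a b : ℝ) ≤ c₂ * ((b : ℝ) - a) / Real.log X ^ 45)).card : ℝ) := by
  obtain ⟨k, hk, hW⟩ := window_count hE
  refine ⟨k, hk, fun S hS hadm q r hq hr R hR => ?_⟩
  obtain ⟨c, hc, hwin⟩ := hW S hS hadm q r hq hr R hR
  have hsys := sysS S hadm
  have hkc : Fintype.card ↥S = 45 := by rw [Fintype.card_coe, hS]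
  obtain ⟨cc, hcc, hPer⟩ := exists_c (fun s : ↥S => lin 1 (s : ℤ)) hsys
  obtain ⟨D', e, hlarge⟩ := exists_large (fun s : ↥S => lin 1 (s : ℤ)) hsys
  obtain ⟨v, Cv, hv, hCv, hV⟩ := V_bounds (fun s : ↥S => lin 1 (s : ℤ)) hsys
  rw [hkc] at hV
  obtain ⟨K1, hK1, hmain⟩ := Pool.Agent.W123.RU.sieve_regular cc (2 * cc) (cc ^ 2) D' e hcc
  obtain ⟨r0, hr0⟩ : ∃ r0 : ℕ, r0 = max K1 ⌈2 / k⌉₊ := ⟨_, rfl⟩
  have hr1 : K1 ≤ r0 := by rw [hr0]; exact le_max_left _ _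
  have hrk : 2 / k ≤ r0 := (Nat.le_ceil _).trans (by exact_mod_cast (hr0 ▸ le_max_right _ _))
  have hr2 : 2 ≤ r0 := hK1.trans hr1
  have hrpos : (0 : ℝ) < r0 := by
    have : (2 : ℝ) ≤ r0 := by exact_mod_cast hr2
    linarith
  set C3 : ℝ := Cv * (2 * r0) ^ 45 with hC3
  have hC30 : 0 < C3 := by positivity
  obtain ⟨c₁, c₂, K, κ, L0, hc₁, hc₂, hK, hκ, hreg⟩ := hmain r0 hr1 (c / 4) C3 (by positivity) hC30
  have hXr : Tendsto (fun X : ℕ => (X : ℝ)) atTop atTop := tendsto_natCast_atTop_atTop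
  have hpow : Tendsto (fun X : ℕ => (X : ℝ) ^ (1 / (2 * r0 : ℝ))) atTop atTop :=
    (tendsto_rpow_atTop (by positivity)).comp hXr
  have hlogX : Tendsto (fun X : ℕ => Real.log (X : ℝ)) atTop atTop :=
    Real.tendsto_log_atTop.comp hXr
  -- the statement at one scale
  have key : ∀ᶠ X : ℕ in atTop, ∀ (y : ℝ) (P : Finset ℤ), (X : ℝ) ^ (1 / (r0 : ℝ)) ≤ y →
      c / 4 * X / Real.log X ^ 45 ≤ (co (Pt q r S P R y) X (2 * X) : ℝ) →
      κ * X ≤ (((Ioc X (2 * X)).filter (fun n => ∀ a b : ℕ, a ≤ n → n ≤ b →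
        K * Real.log X ^ 45 ≤ (b : ℝ) - a → (b : ℝ) - a ≤ n →
          c₁ * ((b : ℝ) - a) / Real.log X ^ 45 ≤ co (Pt q r S P R y) a b ∧
            (co (RoughS S y) a b : ℝ) ≤ c₂ * ((b : ℝ) - a) / Real.log X ^ 45)).card : ℝ) := by
    filter_upwards [hreg, eventually_ge_atTop 16, hpow.eventually_ge_atTop 3,
      hlogX.eventually_ge_atTop (2 + |L0|), logpow_le (8 * 45) 1 (by norm_num)]
      with X hreg hX16 hX2 hXlog hlp
    intro y P hy hcnt
    have hX16r : (16 : ℝ) ≤ X := by exact_mod_cast hX16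
    have hXpos : (0 : ℝ) < X := by linarith
    have hL0a : 0 ≤ |L0| := abs_nonneg _
    have hlX1 : 1 ≤ Real.log X := by linarith
    have hlX : 0 < Real.log X := by linarith
    set L : ℝ := Real.log X ^ 45 with hL
    have hlL : Real.log X ≤ L := by
      calc Real.log X = Real.log X ^ 1 := (pow_one _).symm
        _ ≤ Real.log X ^ 45 := pow_le_pow_right₀ hlX1 (by norm_num)
    have hLpos : 0 < L := by linarith
    have hL8 : L ^ 8 ≤ X := by
      rw [hL, ← pow_mul, mul_comm 45 8]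
      linarith
    obtain ⟨hy1, hy2, hy3, hy4⟩ := level_low r0 hr2 X (by omega) (by linarith)
    have hy5 : 3 ≤ ⌊(X : ℝ) ^ (1 / (r0 : ℝ))⌋₊ := by
      have : (3 : ℝ) ≤ ⌊(X : ℝ) ^ (1 / (r0 : ℝ))⌋₊ := hX2.trans hy1
      exact_mod_cast this
    have hVy : Vq (Q (fun s : ↥S => lin 1 (s : ℤ))) ⌊(X : ℝ) ^ (1 / (r0 : ℝ))⌋₊ ≤ C3 / L := by
      refine (hV _ hy5).2.trans ?_
      have h1 : (Real.log X / (2 * r0)) ^ 45 ≤ Real.log ⌊(X : ℝ) ^ (1 / (r0 : ℝ))⌋₊ ^ 45 :=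
        pow_le_pow_left₀ (by positivity) hy2 45
      calc Cv / Real.log ⌊(X : ℝ) ^ (1 / (r0 : ℝ))⌋₊ ^ 45 ≤ Cv / (Real.log X / (2 * r0)) ^ 45 := by gcongr
        _ = C3 / L := by rw [hC3, hL, div_pow]; field_simp
    obtain ⟨E0, hE0, hlarge'⟩ := hlarge ⌊L⌋₊
    refine hreg (Q (fun s : ↥S => lin 1 (s : ℤ))) (CoG (Q (fun s : ↥S => lin 1 (s : ℤ)))) L E0
      (sdata _ hsys cc hPer) (by
        have := le_abs_self L0
        linarith) hL8 hVy hE0 (fun h hh hhE => hlarge' _ h hh hhE) (Pt q r S P R y) (RoughS S y)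
      (fun n hn => hn.2.2) ?_ hcnt
    intro m hm _ _ p hp hq
    rw [mem_pz] at hp
    rw [Q_S] at hq
    obtain ⟨s, hs, hd⟩ := hq
    refine hm s hs p hp.2 ?_ hd
    exact ((Nat.le_floor_iff (by positivity)).1 hp.1).trans hy
  have key2 : ∀ᶠ X : ℕ in atTop, ∀ (y : ℝ) (P : Finset ℤ), ((2 * X : ℕ) : ℝ) ^ (1 / (r0 : ℝ)) ≤ y →
      c / 4 * ((2 * X : ℕ) : ℝ) / Real.log ((2 * X : ℕ) : ℝ) ^ 45 ≤ (co (Pt q r S P R y) (2 * X) (2 * (2 * X)) : ℝ) →
      κ * ((2 * X : ℕ) : ℝ) ≤ (((Ioc (2 * X) (2 * (2 * X))).filter (fun n => ∀ a b : ℕ, a ≤ n → n ≤ b →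
        K * Real.log ((2 * X : ℕ) : ℝ) ^ 45 ≤ (b : ℝ) - a → (b : ℝ) - a ≤ n →
          c₁ * ((b : ℝ) - a) / Real.log ((2 * X : ℕ) : ℝ) ^ 45 ≤ co (Pt q r S P R y) a b ∧
            (co (RoughS S y) a b : ℝ) ≤ c₂ * ((b : ℝ) - a) / Real.log ((2 * X : ℕ) : ℝ) ^ 45)).card : ℝ) :=
    (tendsto_id.const_mul_atTop' (by norm_num : 0 < 2)).eventually key
  refine ⟨c₁ / 2 ^ 45, c₂, K * 2 ^ 45, κ, by positivity, hc₂, by positivity, hκ, ?_⟩
  filter_upwards [key, key2, hXr.eventually hwin, eventually_ge_atTop 16,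
    hlogX.eventually_ge_atTop 1] with X hkey hkey2 hwin hX16 hlX1
  obtain ⟨P, hPS, hP2, hcount⟩ := hwin
  refine ⟨P, hPS, hP2, ?_⟩
  have hX16r : (16 : ℝ) ≤ X := by exact_mod_cast hX16
  have hXpos : (0 : ℝ) < X := by linarith
  have hlX : 0 < Real.log X := by linarith
  set L : ℝ := Real.log X ^ 45 with hL
  have hLpos : 0 < L := by positivity
  set y : ℝ := (X : ℝ) ^ k with hy
  have h2Xc : ((2 * X : ℕ) : ℝ) = 2 * X := by push_cast; ring
  have hyX : (X : ℝ) ^ (1 / (r0 : ℝ)) ≤ y ∧ ((2 * X : ℕ) : ℝ) ^ (1 / (r0 : ℝ)) ≤ y := by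
    have h1 : ((2 * X : ℕ) : ℝ) ^ (1 / (r0 : ℝ)) ≤ y := by
      calc ((2 * X : ℕ) : ℝ) ^ (1 / (r0 : ℝ)) ≤ ((X : ℝ) ^ (2 : ℝ)) ^ (1 / (r0 : ℝ)) := by
            apply Real.rpow_le_rpow (by positivity) _ (by positivity)
            rw [h2Xc, Real.rpow_two]
            nlinarith
        _ = (X : ℝ) ^ (2 / (r0 : ℝ)) := by
            rw [← Real.rpow_mul hXpos.le]
            congr 1
            ring
        _ ≤ y := by
            apply Real.rpow_le_rpow_of_exponent_le (by linarith)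
            rw [div_le_iff₀ hrpos]
            rw [div_le_iff₀ hk] at hrk
            linarith
    refine ⟨le_trans ?_ h1, h1⟩
    apply Real.rpow_le_rpow hXpos.le _ (by positivity)
    rw [h2Xc]
    linarith
  have hlog2 : Real.log X ≤ Real.log ((2 * X : ℕ) : ℝ) ∧ Real.log ((2 * X : ℕ) : ℝ) ≤ 2 * Real.log X := by
    constructor
    · apply Real.log_le_log hXpos
      rw [h2Xc]
      linarith
    · rw [← Real.log_rpow hXpos]
      apply Real.log_le_log (by rw [h2Xc]; positivity)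
      rw [h2Xc, Real.rpow_two]
      nlinarith
  set L2 : ℝ := Real.log ((2 * X : ℕ) : ℝ) ^ 45 with hL2
  have hLL2 : L ≤ L2 := pow_le_pow_left₀ hlX.le hlog2.1 45
  have hL2L : L2 ≤ 2 ^ 45 * L := by
    rw [hL2, hL, ← mul_pow]
    exact pow_le_pow_left₀ (by linarith [hlog2.1]) hlog2.2 45
  have hL2pos : 0 < L2 := by linarith
  -- splitting of the count
  have hsplit : c * X / L ≤ (co (Pt q r S P R y) X (2 * X) : ℝ) + (co (Pt q r S P R y) (2 * X) (2 * (2 * X)) : ℝ) := by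
    refine hcount.trans ?_
    have h1 : {n : ℕ | (X : ℝ) < n ∧ (n : ℝ) + R ≤ 3 * X ∧ Pt q r S P R (X ^ k) n} ⊆
        ((((Ioc X (2 * X)).filter (fun n => Pt q r S P R y n)) ∪
          ((Ioc (2 * X) (2 * (2 * X))).filter (fun n => Pt q r S P R y n)) : Finset ℕ) : Set ℕ) := by
      rintro n ⟨h1, h2, h3⟩
      rw [coe_union, Set.mem_union, mem_coe, mem_coe, mem_filter, mem_filter, mem_Ioc, mem_Ioc]
      have h4 : X < n := by exact_mod_cast h1
      have h5 : (n : ℝ) ≤ 3 * X := by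
        have : (0 : ℝ) ≤ R := Nat.cast_nonneg R
        linarith
      have h6 : n ≤ 3 * X := by exact_mod_cast h5
      by_cases h7 : n ≤ 2 * X
      · exact Or.inl ⟨⟨h4, h7⟩, h3⟩
      · exact Or.inr ⟨⟨by omega, by omega⟩, h3⟩
    have h2 := Set.ncard_le_ncard h1 (Finset.finite_toSet _)
    rw [Set.ncard_coe_finset] at h2
    have h3 := h2.trans (card_union_le _ _)
    unfold co
    exact_mod_cast h3
  rcases le_or_gt (c / 2 * X / L) (co (Pt q r S P R y) X (2 * X) : ℝ) with h1 | h1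
  · have h2 := hkey y P hyX.1 (by
      refine le_trans ?_ h1
      apply div_le_div_of_nonneg_right _ hLpos.le
      nlinarith)
    refine h2.trans ?_
    rw [Nat.cast_le]
    apply card_le_card
    intro n hn
    rw [mem_filter, mem_Ioc] at hn ⊢
    obtain ⟨⟨h3, h4⟩, h5⟩ := hn
    refine ⟨⟨h3, by omega⟩, fun a b ha hb hab1 hab2 => ?_⟩
    have hab0 : (0 : ℝ) ≤ (b : ℝ) - a := by
      have : (a : ℝ) ≤ b := by exact_mod_cast ha.trans hb
      linarith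
    obtain ⟨h6, h7⟩ := h5 a b ha hb (by
      refine le_trans ?_ hab1
      have : K * L ≤ K * 2 ^ 45 * L := by
        have h8 : K ≤ K * 2 ^ 45 := by nlinarith
        exact mul_le_mul_of_nonneg_right h8 hLpos.le
      exact this) hab2
    refine ⟨le_trans ?_ h6, h7⟩
    apply div_le_div_of_nonneg_right _ hLpos.le
    apply mul_le_mul_of_nonneg_right _ hab0
    rw [div_le_iff₀ (by positivity)]
    nlinarith
  · have h2 := hkey2 y P hyX.2 (by
      have h3 : c / 2 * X / L ≤ (co (Pt q r S P R y) (2 * X) (2 * (2 * X)) : ℝ) := by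
        have h4 : c * X / L = c / 2 * X / L + c / 2 * X / L := by ring
        linarith
      refine le_trans ?_ h3
      rw [h2Xc]
      calc c / 4 * (2 * (X : ℝ)) / L2 ≤ c / 4 * (2 * (X : ℝ)) / L := by gcongr
        _ = _ := by ring)
    have h3 : κ * X ≤ κ * ((2 * X : ℕ) : ℝ) := by
      rw [h2Xc]
      nlinarith
    refine (h3.trans h2).trans ?_
    rw [Nat.cast_le]
    apply card_le_card
    intro n hn
    rw [mem_filter, mem_Ioc] at hn ⊢
    obtain ⟨⟨h3, h4⟩, h5⟩ := hn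
    refine ⟨⟨by omega, by omega⟩, fun a b ha hb hab1 hab2 => ?_⟩
    have hab0 : (0 : ℝ) ≤ (b : ℝ) - a := by
      have : (a : ℝ) ≤ b := by exact_mod_cast ha.trans hb
      linarith
    obtain ⟨h6, h7⟩ := h5 a b ha hb (by
      refine le_trans ?_ hab1
      calc K * L2 ≤ K * (2 ^ 45 * L) := mul_le_mul_of_nonneg_left hL2L (by linarith)
        _ = K * 2 ^ 45 * L := by ring) hab2
    constructor
    · refine le_trans ?_ h6
      calc c₁ / 2 ^ 45 * ((b : ℝ) - a) / L = c₁ * ((b : ℝ) - a) / (2 ^ 45 * L) := by field_simp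
        _ ≤ c₁ * ((b : ℝ) - a) / L2 := by gcongr
    · refine h7.trans ?_
      gcongr

end Pool.Agent.X34.E
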