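import Mathlib
import Pool.Agent.X34.E.E24

/-! Engine E (helper34): gaps between consecutive primes in all windows around a positive proportion of the
integers. -/

set_option autoImplicit false
set_option maxHeartbeats 4000000

open Finset Filter

namespace Pool.Agent.X34.E

open Pool.Agent.W123.RP

/-- the patterns of the multiples of `M` -/
theorem setS (M a : ℕ) (hM0 : 0 < M) (ha2 : a.Coprime M) (G : Finset ℕ) (hG : G.card = 45)
    (hadm : ∀ p : ℕ, p.Prime → ¬ p ∣ M → ∃ r : ℕ, ∀ g ∈ G, ¬ p ∣ r + g) :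
    ∃ (S : Finset ℤ) (R : ℕ), S.card = 45 ∧ Adm S ∧ (∀ s ∈ S, IsCoprime ((a : ℤ) + s) (M : ℤ)) ∧
      (∀ s ∈ S, |s| ≤ (R : ℤ)) ∧ (∀ g ∈ G, M * g ≤ R) ∧ (∀ s ∈ S, ∃ g : ℕ, g ∈ G ∧ s = (M : ℤ) * g) ∧
      ∀ P ⊆ S, 2 ≤ P.card → ∃ g ∈ G, ∃ g' ∈ G, g < g' ∧ ∀ (n : ℕ) (y : ℝ), Pt M a S P R y n →
        Follow M a ((g' - g) * M) (n + M * g) ∧
        ∀ g'' ∈ G, ∀ p : ℕ, p.Prime → (p : ℝ) ≤ y → ¬ p ∣ n + M * g'' := by
  obtain ⟨L, hL1, hL⟩ : ∃ L : ℕ, 1 ≤ L ∧ ∀ g ∈ G, g ≤ L :=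
    ⟨G.sup id + 1, by omega, fun g hg => by
      have := Finset.le_sup (f := id) hg
      have h1 : g ≤ G.sup id := this
      omega⟩
  have hMz : (M : ℤ) ≠ 0 := by exact_mod_cast hM0.ne'
  obtain ⟨S, hSdef⟩ : ∃ S : Finset ℤ, S = G.image (fun g : ℕ => (M : ℤ) * (g : ℤ)) := ⟨_, rfl⟩
  have hform' : ∀ z ∈ S, ∃ g : ℕ, g ∈ G ∧ z = (M : ℤ) * g := by
    intro z hz
    rw [hSdef] at hz
    obtain ⟨g, hg, h⟩ := mem_image.1 hz
    exact ⟨g, hg, h.symm⟩
  have hinj : Function.Injective (fun g : ℕ => (M : ℤ) * (g : ℤ)) := by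
    intro g g' h
    have h1 : (M : ℤ) * g = M * g' := h
    exact_mod_cast mul_left_cancel₀ hMz h1
  have hScard : S.card = 45 := by rw [hSdef, card_image_of_injective _ hinj, hG]
  have hSadm : Adm S := by
    intro p hp
    by_cases hpq : p ∣ M
    · refine ⟨1, fun s hs hd => ?_⟩
      obtain ⟨g, -, rfl⟩ := hform' s hs
      have h1 : (p : ℤ) ∣ (M : ℤ) * g := (Int.natCast_dvd_natCast.2 hpq).mul_right _
      have h2 : (p : ℤ) ∣ 1 := (dvd_add_left h1).1 hd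
      have h3 := Int.natCast_dvd_natCast.1 (show ((p : ℕ) : ℤ) ∣ ((1 : ℕ) : ℤ) by exact_mod_cast h2)
      exact hp.one_lt.ne' (Nat.dvd_one.1 h3)
    · obtain ⟨r, hr⟩ := hadm p hp hpq
      refine ⟨M * r, fun s hs hd => ?_⟩
      obtain ⟨g, hg, rfl⟩ := hform' s hs
      have h1 : (M : ℤ) * r + M * g = ((M * (r + g) : ℕ) : ℤ) := by push_cast; ring
      rw [h1, Int.natCast_dvd_natCast, hp.dvd_mul] at hd
      rcases hd with h2 | h2
      · exact hpq h2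
      · exact hr g hg h2
  obtain ⟨R, hRd⟩ : ∃ R : ℕ, R = L * M := ⟨_, rfl⟩
  have hRL : ∀ g ∈ G, M * g ≤ R := by
    intro g hg
    rw [hRd, mul_comm L]
    exact Nat.mul_le_mul_left _ (hL g hg)
  have hSR : ∀ s ∈ S, |s| ≤ (R : ℤ) := by
    intro s hs
    obtain ⟨g, hg, rfl⟩ := hform' s hs
    have h3 : |(M : ℤ) * g| = ((M * g : ℕ) : ℤ) := by
      push_cast
      exact abs_of_nonneg (by positivity)
    rw [h3]
    exact_mod_cast hRL g hg
  have hcopr : ∀ s ∈ S, IsCoprime ((a : ℤ) + s) (M : ℤ) := by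
    intro s hs
    obtain ⟨g, -, rfl⟩ := hform' s hs
    have h1 : IsCoprime (a : ℤ) (M : ℤ) := Nat.isCoprime_iff_coprime.2 ha2
    exact (IsCoprime.add_mul_left_left h1 (g : ℤ))
  refine ⟨S, 2 * R, hScard, hSadm, hcopr, fun s hs => (hSR s hs).trans (by push_cast; omega),
    fun g hg => (hRL g hg).trans (by omega), hform', ?_⟩
  intro P hP hP2
  have hform : ∀ z ∈ P, ∃ g : ℕ, g ∈ G ∧ z = (M : ℤ) * g := by
    intro z hz
    exact hform' z (hP hz)
  have hPne : P.Nonempty := by rw [← card_pos]; omega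
  obtain ⟨z₀, hz₀, hmin⟩ := exists_min_image P id hPne
  have hne : (P.erase z₀).Nonempty := by
    rw [← card_pos, card_erase_of_mem hz₀]; omega
  obtain ⟨z₁, hz₁, hmin1⟩ := exists_min_image (P.erase z₀) id hne
  obtain ⟨hz1a, hz1b⟩ := mem_erase.1 hz₁
  have hlt : z₀ < z₁ := lt_of_le_of_ne (hmin z₁ hz1b) (Ne.symm hz1a)
  obtain ⟨g₀, hg₀, hzg0⟩ := hform z₀ hz₀
  obtain ⟨g₁, hg₁, hzg1⟩ := hform z₁ hz1b
  have hg01 : g₀ < g₁ := by
    rw [hzg0, hzg1] at hlt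
    have := lt_of_mul_lt_mul_left hlt (by positivity)
    exact_mod_cast this
  refine ⟨g₀, hg₀, g₁, hg₁, hg01, fun n y hn => ?_⟩
  have e1 : M * g₁ = M * g₀ + (g₁ - g₀) * M := by
    rw [mul_comm (g₁ - g₀), ← Nat.mul_add]
    congr 1
    omega
  have hMR : M * g₁ ≤ R := hRL g₁ hg₁
  have hR0 : 0 < R := by rw [hRd]; positivity
  obtain ⟨h3, h4, h40⟩ := hn
  have hM0R : M * g₀ ≤ R := by omega
  have key : ∀ m : ℕ, m ≤ n + 2 * R → n ≤ m + 2 * R → (m.Prime ↔ (m : ℤ) - n ∈ P) := by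
    intro m hm1 hm2
    rw [← h4 ((m : ℤ) - n) (by rw [abs_le]; constructor <;> push_cast <;> omega)]
    constructor
    · intro h6
      exact ⟨m, h6, by ring⟩
    · rintro ⟨p, hp1, hp2⟩
      have h7 : p = m := by
        have : (p : ℤ) = m := by rw [hp2]; ring
        exact_mod_cast this
      rw [← h7]; exact hp1
  refine ⟨⟨?_, ?_, ?_, ?_⟩, ?_⟩
  · have h5 : n ≡ a [MOD M] := Int.natCast_modEq_iff.1 h3
    have h6 : n + M * g₀ ≡ a + 0 [MOD M] := h5.add ((Nat.modEq_zero_iff_dvd).2 (dvd_mul_right _ _))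
    rw [add_zero] at h6
    exact h6
  · rw [key (n + M * g₀) (by omega) (by omega)]
    have : ((n + M * g₀ : ℕ) : ℤ) - n = z₀ := by rw [hzg0]; push_cast; ring
    rw [this]
    exact hz₀
  · have e2 : n + M * g₀ + (g₁ - g₀) * M = n + M * g₁ := by omega
    rw [e2, key (n + M * g₁) (by omega) (by omega)]
    have : ((n + M * g₁ : ℕ) : ℤ) - n = z₁ := by rw [hzg1]; push_cast; ring
    rw [this]
    exact hz1b
  · intro m hm1 hm2 hmp
    have e2 : n + M * g₀ + (g₁ - g₀) * M = n + M * g₁ := by omega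
    rw [e2] at hm2
    have h5 := (key m (by omega) (by omega)).1 hmp
    have h6 : (m : ℤ) - n ≠ z₀ := by
      intro h6
      rw [hzg0] at h6
      have : (m : ℤ) = ((n + M * g₀ : ℕ) : ℤ) := by push_cast; linarith
      have : m = n + M * g₀ := by exact_mod_cast this
      omega
    have h7 : z₁ ≤ (m : ℤ) - n := hmin1 _ (mem_erase.2 ⟨h6, h5⟩)
    rw [hzg1] at h7
    have : ((n + M * g₁ : ℕ) : ℤ) ≤ m := by push_cast; linarith
    have : n + M * g₁ ≤ m := by exact_mod_cast this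
    omega
  · intro g'' hg'' p hp hpx hd
    refine h40 ((M : ℤ) * g'') ?_ p hp hpx ?_
    · rw [hSdef]
      exact mem_image.2 ⟨g'', hg'', rfl⟩
    · have e3 : (n : ℤ) + (M : ℤ) * g'' = ((n + M * g'' : ℕ) : ℤ) := by push_cast; ring
      rw [e3]
      exact Int.natCast_dvd_natCast.2 hd

/-- `p` is a prime `≡ a (mod M)`, `p + d M` is the next prime, `d = g' - g`, and the numbers `p + (g'' - g) M`, `g''` in
`G`, have no prime factor `≤ y` -/
def FollowR (M a : ℕ) (G : Finset ℕ) (g g' : ℕ) (y : ℝ) (p : ℕ) : Prop :=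
  Follow M a ((g' - g) * M) p ∧ ∀ g'' ∈ G, ∀ l : ℕ, l.Prime → (l : ℝ) ≤ y → ¬ (l : ℤ) ∣ (p : ℤ) + ((g'' : ℤ) - g) * M

open Classical in
theorem co_up (A B : ℕ → Prop) (t u v : ℕ) (h : ∀ m, A m → B (m + t)) : co A u v ≤ co B u v + t := by
  unfold co
  have h1 : (Ioc u v).filter (fun m => A m) ⊆
      ((Ioc u v).filter (fun m => B m)).image (fun m => m - t) ∪ Ioc (v - t) v := by
    intro m hm
    rw [mem_filter, mem_Ioc] at hm
    rw [mem_union, mem_image, mem_Ioc]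
    by_cases h1 : m ≤ v - t
    · refine Or.inl ⟨m + t, ?_, by omega⟩
      rw [mem_filter, mem_Ioc]
      exact ⟨⟨by omega, by omega⟩, h m hm.2⟩
    · exact Or.inr ⟨by omega, by omega⟩
  refine (card_le_card h1).trans ((card_union_le _ _).trans ?_)
  rw [Nat.card_Ioc]
  exact Nat.add_le_add card_image_le (by omega)

open Classical in
theorem co_down (A B : ℕ → Prop) (t u v : ℕ) (h : ∀ p, t ≤ p → B p → A (p - t)) : co B u v ≤ co A u v + t := by
  unfold co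
  have h1 : (Ioc u v).filter (fun m => B m) ⊆
      ((Ioc u v).filter (fun m => A m)).image (fun m => m + t) ∪ Ioc u (u + t) := by
    intro m hm
    rw [mem_filter, mem_Ioc] at hm
    rw [mem_union, mem_image, mem_Ioc]
    by_cases h1 : m ≤ u + t
    · exact Or.inr ⟨by omega, h1⟩
    · refine Or.inl ⟨m - t, ?_, by omega⟩
      rw [mem_filter, mem_Ioc]
      exact ⟨by omega, h m (by omega) hm.2⟩
  refine (card_le_card h1).trans ((card_union_le _ _).trans ?_)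
  rw [Nat.card_Ioc]
  exact Nat.add_le_add card_image_le (by omega)

open Classical in
theorem nb_gaps (hE : Eng) : ∃ k : ℝ, 0 < k ∧ ∀ (M a : ℕ), 0 < M → a.Coprime M → ∀ (G : Finset ℕ), G.card = 45 →
    (∀ p : ℕ, p.Prime → ¬ p ∣ M → ∃ r : ℕ, ∀ g ∈ G, ¬ p ∣ r + g) →
    ∃ c C K κ : ℝ, 0 < c ∧ 0 < C ∧ 0 < K ∧ 0 < κ ∧ ∀ᶠ X : ℕ in atTop, ∃ g ∈ G, ∃ g' ∈ G, g < g' ∧
      κ * X ≤ (((Ioc X (4 * X)).filter (fun n => ∀ u v : ℕ, u ≤ n → n ≤ v →
        K * Real.log X ^ 45 ≤ (v : ℝ) - u → (v : ℝ) - u ≤ n →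
          c * ((v : ℝ) - u) / Real.log X ^ 45 ≤ co (FollowR M a G g g' ((X : ℝ) ^ k)) u v ∧
          (co (FollowR M a G g g' ((X : ℝ) ^ k)) u v : ℝ) ≤ C * ((v : ℝ) - u) / Real.log X ^ 45)).card : ℝ) := by
  obtain ⟨k, hk, h⟩ := nb hE
  refine ⟨k, hk, fun M a hM0 ha G hG hadm => ?_⟩
  obtain ⟨S, R, hS, hSadm, hcopr, hSR, hGR, hSG, hP⟩ := setS M a hM0 ha G hG hadm
  obtain ⟨c₁, c₂, K, κ, hc₁, hc₂, hK, hκ, hX⟩ := h S hS hSadm M a hM0 hcopr R hSR
  set K' : ℝ := K + 2 * (R + 1) / c₁ + 2 * R + 1 with hK'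
  have hK'K : K ≤ K' := by
    rw [hK']
    have : 0 ≤ 2 * ((R : ℝ) + 1) / c₁ := by positivity
    have : (0 : ℝ) ≤ R := Nat.cast_nonneg R
    linarith
  have hK'R : 2 * ((R : ℝ) + 1) ≤ c₁ * K' := by
    rw [hK']
    have h1 : c₁ * (2 * ((R : ℝ) + 1) / c₁) = 2 * (R + 1) := by field_simp
    have h2 : 0 ≤ c₁ * K := by positivity
    have h3 : 0 ≤ c₁ * (2 * R + 1) := by positivity
    nlinarith
  refine ⟨c₁ / 2, c₂ + 1, K', κ, by positivity, by positivity, by linarith, hκ, ?_⟩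
  filter_upwards [hX, (Real.tendsto_log_atTop.comp tendsto_natCast_atTop_atTop).eventually_ge_atTop 1]
    with X hX hl
  obtain ⟨P, hPS, hP2, hcount⟩ := hX
  obtain ⟨g, hg, g', hg', hgg, hF⟩ := hP P hPS hP2
  refine ⟨g, hg, g', hg', hgg, hcount.trans ?_⟩
  set y : ℝ := (X : ℝ) ^ k with hy
  have hl1 : 1 ≤ Real.log (X : ℝ) := hl
  set L : ℝ := Real.log X ^ 45 with hL
  have hL1 : 1 ≤ L := one_le_pow₀ hl1
  have hL0 : 0 < L := by linarith
  have hMg := hGR g hg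
  rw [Nat.cast_le]
  apply card_le_card
  intro n hn
  rw [mem_filter] at hn ⊢
  refine ⟨hn.1, fun u v hu hv h1 h2 => ?_⟩
  have hlen : K' ≤ ((v : ℝ) - u) / L := by
    rw [le_div_iff₀ hL0]
    exact h1
  obtain ⟨h3, h4⟩ := hn.2 u v hu hv (le_trans (mul_le_mul_of_nonneg_right hK'K hL0.le) h1) h2
  have h5 := co_up (Pt M a S P R y) (FollowR M a G g g' y) (M * g) u v (by
    intro m hm
    obtain ⟨h6, h7⟩ := hF m y hm
    refine ⟨h6, fun g'' hg'' l hl hly hd => h7 g'' hg'' l hl hly ?_⟩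
    have h8 : (((m + M * g : ℕ) : ℤ)) + ((g'' : ℤ) - g) * M = ((m + M * g'' : ℕ) : ℤ) := by push_cast; ring
    rw [h8] at hd
    exact Int.natCast_dvd_natCast.1 hd)
  have h6 := co_down (RoughS S y) (FollowR M a G g g' y) (M * g) u v (by
    intro p hp hF2 s hs l hl hly hd
    obtain ⟨g'', hg'', rfl⟩ := hSG s hs
    refine hF2.2 g'' hg'' l hl hly ?_
    have h8 : (((p - M * g : ℕ) : ℤ)) + (M : ℤ) * g'' = (p : ℤ) + ((g'' : ℤ) - g) * M := by
      push_cast [Nat.cast_sub hp]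
      ring
    rwa [h8] at hd)
  have h5' : ((co (Pt M a S P R y) u v : ℕ) : ℝ) ≤ co (FollowR M a G g g' y) u v + R := by
    have : co (Pt M a S P R y) u v ≤ co (FollowR M a G g g' y) u v + R := by omega
    exact_mod_cast this
  have h6' : ((co (FollowR M a G g g' y) u v : ℕ) : ℝ) ≤ co (RoughS S y) u v + R := by
    have : co (FollowR M a G g g' y) u v ≤ co (RoughS S y) u v + R := by omega
    exact_mod_cast this
  have hR0 : (0 : ℝ) ≤ R := Nat.cast_nonneg R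
  have e1 : c₁ * ((v : ℝ) - u) / L = c₁ * (((v : ℝ) - u) / L) := by ring
  have e2 : c₁ / 2 * ((v : ℝ) - u) / L = c₁ / 2 * (((v : ℝ) - u) / L) := by ring
  have e3 : c₂ * ((v : ℝ) - u) / L = c₂ * (((v : ℝ) - u) / L) := by ring
  have e4 : (c₂ + 1) * ((v : ℝ) - u) / L = c₂ * (((v : ℝ) - u) / L) + ((v : ℝ) - u) / L := by ring
  rw [e2, e4]
  rw [e1] at h3
  rw [e3] at h4
  have h7 : c₁ * K' ≤ c₁ * (((v : ℝ) - u) / L) := mul_le_mul_of_nonneg_left hlen hc₁.le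
  constructor
  · linarith
  · have h8 : (R : ℝ) ≤ K' := by
      rw [hK']
      have : 0 ≤ 2 * ((R : ℝ) + 1) / c₁ := by positivity
      linarith
    linarith

end Pool.Agent.X34.E
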