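import Pool.Agent.TH685.TI.Cs

/-! Engine E (helper34): moments of the factor of a pair of translates of a set of shifts. -/

set_option autoImplicit false
set_option maxHeartbeats 4000000

open Finset Filter

namespace Pool.Agent.X34.E

open Pool.Agent.TH685.TI (gw one_le_gw one_le_pp prod_union_le prod_sub_le moment_gw_le)

/-- the factor of the pair `n`, `n + h`, large primes -/
noncomputable def FT (T : Finset ℤ) (w h : ℕ) : ℝ := ∏ t ∈ T, gw w ((h : ℤ) + t).natAbs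

theorem one_le_FT (T : Finset ℤ) (w h : ℕ) : 1 ≤ FT T w h := by
  classical
  unfold FT
  induction T using Finset.induction_on with
  | empty => simp
  | insert a s ha ih =>
    rw [prod_insert ha]
    have h1 := one_le_gw w ((h : ℤ) + a).natAbs
    nlinarith

theorem prod_biUnion_le (T : Finset ℤ) (s : ℤ → Finset ℕ) :
    ∏ p ∈ T.biUnion s, (1 + 1 / (p : ℝ)) ≤ ∏ t ∈ T, ∏ p ∈ s t, (1 + 1 / (p : ℝ)) := by
  classical
  induction T using Finset.induction_on with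
  | empty => simp
  | insert a T ha ih =>
    rw [biUnion_insert, prod_insert ha]
    refine (prod_union_le _ _).trans ?_
    apply mul_le_mul_of_nonneg_left ih
    linarith [one_le_pp (s a)]

theorem prod_le_FT (T : Finset ℤ) (w h : ℕ) (hT : ∀ t ∈ T, (h : ℤ) + t ≠ 0) (P : Finset ℕ)
    (hP : ∀ p ∈ P, p.Prime ∧ w < p ∧ ∃ t ∈ T, (p : ℤ) ∣ (h : ℤ) + t) :
    ∏ p ∈ P, (1 + 1 / (p : ℝ)) ≤ FT T w h := by
  classical
  refine (prod_sub_le _ _ ?_).trans (prod_biUnion_le T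
    (fun t => (((h : ℤ) + t).natAbs.primeFactors.filter (fun p => w < p))))
  intro p hp
  obtain ⟨h1, h2, t, ht, h3⟩ := hP p hp
  rw [mem_biUnion]
  refine ⟨t, ht, ?_⟩
  rw [mem_filter, Nat.mem_primeFactors]
  exact ⟨⟨h1, Int.natCast_dvd.1 h3, Int.natAbs_ne_zero.2 (hT t ht)⟩, h2⟩

theorem prod_le_sum_pow {ι : Type} (T : Finset ι) (hT : T.Nonempty) (x : ι → ℝ) (hx : ∀ t ∈ T, 1 ≤ x t) :
    ∏ t ∈ T, x t ≤ ∑ t ∈ T, x t ^ T.card := by
  classical
  obtain ⟨m, hm, hmax⟩ := T.exists_max_image x hT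
  have h1 : ∏ t ∈ T, x t ≤ ∏ _t ∈ T, x m :=
    prod_le_prod (fun t ht => by linarith [hx t ht]) (fun t ht => hmax t ht)
  rw [prod_const] at h1
  refine h1.trans ?_
  exact single_le_sum (f := fun t => x t ^ T.card)
    (fun t ht => pow_nonneg (by linarith [hx t ht]) _) hm

theorem moment_FT (T : Finset ℤ) (hT : T.Nonempty) (D : ℕ) (hD : ∀ t ∈ T, |t| ≤ D) (w k Y : ℕ)
    (hk : 1 ≤ k) (hkw : k * T.card ≤ w) :
    ∑ h ∈ Icc (D + 1) Y, FT T w h ^ k ≤ T.card * ((Y + D : ℕ) * Real.exp 2) := by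
  classical
  have hc : 1 ≤ T.card := card_pos.2 hT
  have hpt : ∀ h ∈ Icc (D + 1) Y, FT T w h ^ k ≤ ∑ t ∈ T, gw w ((h : ℤ) + t).natAbs ^ (k * T.card) := by
    intro h _
    unfold FT
    rw [← prod_pow]
    refine (prod_le_sum_pow T hT (fun t => gw w ((h : ℤ) + t).natAbs ^ k)
      (fun t _ => one_le_pow₀ (one_le_gw _ _))).trans (le_of_eq ?_)
    apply sum_congr rfl
    intro t _
    rw [← pow_mul]
  refine (sum_le_sum hpt).trans ?_
  rw [sum_comm]
  have h1 : ∀ t ∈ T, ∑ h ∈ Icc (D + 1) Y, gw w ((h : ℤ) + t).natAbs ^ (k * T.card) ≤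
      (Y + D : ℕ) * Real.exp 2 := by
    intro t ht
    have htD := abs_le.1 (hD t ht)
    have hinj : Set.InjOn (fun h : ℕ => ((h : ℤ) + t).natAbs) (Icc (D + 1) Y : Finset ℕ) := by
      intro a ha b hb hab
      rw [mem_coe, mem_Icc] at ha hb
      have h2 : ((a : ℤ) + t).natAbs = ((b : ℤ) + t).natAbs := hab
      omega
    rw [← Finset.sum_image (f := fun n => gw w n ^ (k * T.card)) hinj]
    refine le_trans ?_ (moment_gw_le w (k * T.card) (Y + D) (Nat.mul_pos hk hc) hkw)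
    apply Finset.sum_le_sum_of_subset_of_nonneg
    · intro n hn
      obtain ⟨h, hh, rfl⟩ := mem_image.mp hn
      rw [mem_Icc] at hh ⊢
      omega
    · intro n _ _
      exact pow_nonneg (by linarith [one_le_gw w n]) _
  refine (sum_le_card_nsmul _ _ _ h1).trans ?_
  rw [nsmul_eq_mul]

/-- the average of the factor over the differences of a fairly dense set -/
theorem avg_FT (T : Finset ℤ) (hT : T.Nonempty) (D : ℕ) (hD : ∀ t ∈ T, |t| ≤ D) (e w q Y : ℕ) (S : Finset ℕ)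
    (E : ℝ) (he : 1 ≤ e) (hq : 1 ≤ q) (hqw : e * q * T.card ≤ w) (hS : S ⊆ Icc 1 Y) (hE : 0 ≤ E)
    (hDY : D ≤ Y) (hsep : ∀ a ∈ S, ∀ b ∈ S, a ≠ b → D + 1 ≤ Nat.dist a b)
    (hSE : T.card * (32 * (Y : ℝ)) ≤ E ^ q * S.card) :
    ∑ z ∈ S.offDiag, FT T w (Nat.dist z.1 z.2) ^ e ≤ E * (S.card : ℝ) ^ 2 := by
  classical
  obtain ⟨X, hX⟩ : ∃ X : ℝ, X = ∑ z ∈ S.offDiag, FT T w (Nat.dist z.1 z.2) ^ e := ⟨_, rfl⟩
  rw [← hX]
  have hF0 : ∀ h k : ℕ, 0 ≤ FT T w h ^ k := fun h k => pow_nonneg (by linarith [one_le_FT T w h]) _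
  have hX0 : 0 ≤ X := by
    rw [hX]
    exact Finset.sum_nonneg fun z _ => hF0 _ _
  obtain ⟨m, rfl⟩ : ∃ m, q = m + 1 := ⟨q - 1, by omega⟩
  have h1 : X ^ (m + 1) ≤ (#S.offDiag : ℝ) ^ m * ∑ z ∈ S.offDiag, (FT T w (Nat.dist z.1 z.2) ^ e) ^ (m + 1) := by
    rw [hX]
    exact pow_sum_le_card_mul_sum_pow (fun z _ => hF0 _ _) m
  have h2 : (#S.offDiag : ℝ) ≤ (#S : ℝ) ^ 2 := by
    have : #S.offDiag ≤ #S * #S := by
      rw [offDiag_card]
      exact Nat.sub_le _ _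
    calc (#S.offDiag : ℝ) ≤ ((#S * #S : ℕ) : ℝ) := by exact_mod_cast this
      _ = (#S : ℝ) ^ 2 := by push_cast; ring
  have h5 := Pool.Agent.H197R2.PG.sum_dist_le S Y hS (fun n : ℕ => if D + 1 ≤ n then FT T w n ^ (e * (m + 1)) else 0)
    (fun n => by split_ifs; exacts [hF0 _ _, le_rfl])
  have h5a : ∑ z ∈ S.offDiag, (FT T w (Nat.dist z.1 z.2) ^ e) ^ (m + 1) =
      ∑ z ∈ S.offDiag, (if D + 1 ≤ Nat.dist z.1 z.2 then FT T w (Nat.dist z.1 z.2) ^ (e * (m + 1)) else 0) := by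
    apply sum_congr rfl
    intro z hz
    rw [mem_offDiag] at hz
    rw [if_pos (hsep _ hz.1 _ hz.2.1 hz.2.2), pow_mul]
  have h5b : ∑ h ∈ Icc 1 Y, (if D + 1 ≤ h then FT T w h ^ (e * (m + 1)) else 0) =
      ∑ h ∈ Icc (D + 1) Y, FT T w h ^ (e * (m + 1)) := by
    rw [← sum_filter]
    apply sum_congr _ (fun _ _ => rfl)
    ext h
    rw [mem_filter, mem_Icc, mem_Icc]
    omega
  rw [← h5a, h5b] at h5
  have h6 := moment_FT T hT D hD w (e * (m + 1)) Y (Nat.mul_pos he (by omega)) hqw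
  have hexp : Real.exp 2 ≤ 8 := by
    have h7 := Real.exp_one_lt_d9
    have h8 : Real.exp 2 = Real.exp 1 ^ 2 := by
      rw [← Real.exp_nat_mul]; norm_num
    have h9 := Real.exp_pos 1
    rw [h8]
    nlinarith
  have h7 : (T.card : ℝ) * ((Y + D : ℕ) * Real.exp 2) ≤ T.card * (16 * (Y : ℝ)) := by
    apply mul_le_mul_of_nonneg_left _ (Nat.cast_nonneg _)
    have h8 : ((Y + D : ℕ) : ℝ) ≤ 2 * Y := by
      have : ((Y + D : ℕ) : ℝ) ≤ ((2 * Y : ℕ) : ℝ) := by exact_mod_cast (by omega : Y + D ≤ 2 * Y)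
      push_cast at this ⊢
      linarith
    have hY0 : (0 : ℝ) ≤ Y := Nat.cast_nonneg _
    calc ((Y + D : ℕ) : ℝ) * Real.exp 2 ≤ (2 * Y) * 8 := by
          apply mul_le_mul h8 hexp (Real.exp_pos 2).le (by positivity)
      _ = 16 * Y := by ring
  have h8 : X ^ (m + 1) ≤ (E * (S.card : ℝ) ^ 2) ^ (m + 1) := by
    calc X ^ (m + 1) ≤ (#S.offDiag : ℝ) ^ m * ∑ z ∈ S.offDiag, (FT T w (Nat.dist z.1 z.2) ^ e) ^ (m + 1) := h1
      _ ≤ ((#S : ℝ) ^ 2) ^ m * (2 * #S * (T.card * (16 * (Y : ℝ)))) := by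
          apply mul_le_mul
          · gcongr
          · refine h5.trans ?_
            apply mul_le_mul_of_nonneg_left (h6.trans h7) (by positivity)
          · apply Finset.sum_nonneg
            intro z _
            exact pow_nonneg (hF0 _ _) _
          · positivity
      _ = ((#S : ℝ) ^ 2) ^ m * (#S * (T.card * (32 * (Y : ℝ)))) := by ring
      _ ≤ ((#S : ℝ) ^ 2) ^ m * (#S * (E ^ (m + 1) * #S)) := by gcongr
      _ = (E * (S.card : ℝ) ^ 2) ^ (m + 1) := by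
          rw [mul_pow]
          ring
  exact le_of_pow_le_pow_left₀ (by omega) (by positivity) h8

/-- a well spaced part of a set -/
theorem spaced (S : Finset ℕ) (D : ℕ) : ∃ S' ⊆ S, S.card ≤ (D + 1) * S'.card ∧
    ∀ a ∈ S', ∀ b ∈ S', a ≠ b → D + 1 ≤ Nat.dist a b := by
  classical
  obtain ⟨r, hr, h1⟩ : ∃ r ∈ range (D + 1), S.card ≤ (D + 1) * (S.filter (fun a => a % (D + 1) = r)).card := by
    by_contra hcon
    push Not at hcon
    have h2 : S.card = ∑ r ∈ range (D + 1), (S.filter (fun a => a % (D + 1) = r)).card :=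
      card_eq_sum_card_fiberwise (fun a _ => by
        rw [mem_coe, mem_range]
        exact Nat.mod_lt _ (by omega))
    have h3 : ∑ r ∈ range (D + 1), (D + 1) * (S.filter (fun a => a % (D + 1) = r)).card <
        ∑ _r ∈ range (D + 1), S.card := sum_lt_sum_of_nonempty ⟨0, mem_range.2 (by omega)⟩ hcon
    rw [← mul_sum, ← h2, sum_const, card_range, smul_eq_mul] at h3
    omega
  refine ⟨S.filter (fun a => a % (D + 1) = r), filter_subset _ _, h1, ?_⟩
  intro a ha b hb hab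
  rw [mem_filter] at ha hb
  have key : ∀ x y : ℕ, x % (D + 1) = r → y % (D + 1) = r → x < y → D + 1 ≤ Nat.dist x y := by
    intro x y hx hy hxy
    rw [Nat.dist_eq_sub_of_le hxy.le]
    have h2 : (D + 1) ∣ y - x := (Nat.modEq_iff_dvd' hxy.le).1 (by unfold Nat.ModEq; omega)
    exact Nat.le_of_dvd (by omega) h2
  rcases lt_or_gt_of_ne hab with h | h
  · exact key a b ha.2 hb.2 h
  · rw [Nat.dist_comm]
    exact key b a hb.2 ha.2 h

end Pool.Agent.X34.E
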