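import Mathlib
import Pool.Agent.X34.E.E24
import Pool.Agent.X34.E.E31

/-! Engine E (helper34): the number of the pairs of rough integers with a given difference. -/

set_option autoImplicit false
set_option maxHeartbeats 4000000

open Finset Filter

namespace Pool.Agent.X34.E

open Pool.Agent.H95R2.BG.LF
open Pool.Agent.W123.RP Pool.Agent.H373R2.T7 Pool.Agent.W123.RU Pool.Agent.W123.RU.Poly
open Pool.Agent.TH464.PW
open Pool.Agent.W182.PW

/-- differences of a set of shifts -/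
def dif (U : Finset ℤ) : Finset ℤ := (U ×ˢ U).image (fun z => z.2 - z.1)

theorem mem_dif {U : Finset ℤ} {s s' : ℤ} (hs : s ∈ U) (hs' : s' ∈ U) : s' - s ∈ dif U :=
  mem_image.2 ⟨(s, s'), mem_product.2 ⟨hs, hs'⟩, rfl⟩

theorem dif_nonempty {U : Finset ℤ} (hU : U.Nonempty) : (dif U).Nonempty := by
  obtain ⟨s, hs⟩ := hU
  exact ⟨s - s, mem_dif hs hs⟩

open Classical in
theorem prod_co (U : Finset ℤ) (D : ℕ) (hD : ∀ t ∈ dif U, |t| ≤ D) (cc p0 : ℕ) : ∃ C : ℝ, 1 ≤ C ∧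
    ∀ w h y : ℕ, 3 ≤ w → D + 1 ≤ h →
    ∏ p ∈ (pz y).filter (fun p : ℕ => p0 < p ∧ CoG (Q (fun s : ↥U => lin 1 (s : ℤ))) p h),
      (1 + ((2 * cc : ℕ) : ℝ) / p) ≤ C * (Real.log w ^ (2 * cc) * FT (dif U) w h ^ (2 * cc)) := by
  obtain ⟨C, hC, hsmall⟩ := Pool.Agent.TH685.TI.small_le
  refine ⟨C ^ (2 * cc), one_le_pow₀ hC, fun w h y hw hh => ?_⟩
  set P := (pz y).filter (fun p : ℕ => p0 < p ∧ CoG (Q (fun s : ↥U => lin 1 (s : ℤ))) p h) with hP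
  have hPp : ∀ p ∈ P, p.Prime := fun p hp => (mem_pz.1 (mem_filter.1 hp).1).2
  have h1 : ∏ p ∈ P, (1 + ((2 * cc : ℕ) : ℝ) / p) ≤ (∏ p ∈ P, (1 + 1 / (p : ℝ))) ^ (2 * cc) := by
    rw [← prod_pow]
    apply Finset.prod_le_prod
    · intro p _
      positivity
    · intro p _
      have h2 : (0 : ℝ) ≤ 1 / (p : ℝ) := by positivity
      have h3 := one_add_mul_le_pow (by linarith : (-2 : ℝ) ≤ 1 / (p : ℝ)) (2 * cc)
      calc (1 + ((2 * cc : ℕ) : ℝ) / p) = 1 + ((2 * cc : ℕ) : ℝ) * (1 / (p : ℝ)) := by ring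
        _ ≤ _ := h3
  refine h1.trans ?_
  have h4 : ∏ p ∈ P, (1 + 1 / (p : ℝ)) ≤ (C * Real.log w) * FT (dif U) w h := by
    rw [← prod_filter_mul_prod_filter_not P (fun p => p ≤ w)]
    apply mul_le_mul
    · refine (Pool.Agent.TH685.TI.prod_sub_le _ ((Icc 1 w).filter Nat.Prime) ?_).trans (hsmall w hw)
      intro p hp
      rw [mem_filter] at hp
      rw [mem_filter, mem_Icc]
      exact ⟨⟨(hPp p hp.1).one_le, hp.2⟩, hPp p hp.1⟩
    · apply prod_le_FT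
      · intro t ht h5
        have h6 := abs_le.1 (hD t ht)
        omega
      · intro p hp
        rw [mem_filter, not_le] at hp
        refine ⟨hPp p hp.1, hp.2, ?_⟩
        have h5 := (mem_filter.1 hp.1).2.2
        obtain ⟨m, hm1, hm2⟩ := h5
        rw [Q_S] at hm1 hm2
        obtain ⟨s, hs, hd⟩ := hm1
        obtain ⟨s', hs', hd'⟩ := hm2
        refine ⟨s' - s, mem_dif hs hs', ?_⟩
        have h6 := dvd_sub hd' hd
        have e : ((m + h : ℕ) : ℤ) + s' - ((m : ℤ) + s) = (h : ℤ) + (s' - s) := by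
          push_cast
          ring
        rwa [e] at h6
    · exact prod_nonneg fun p _ => by positivity
    · have : 0 ≤ Real.log w := Real.log_natCast_nonneg w
      positivity
  calc (∏ p ∈ P, (1 + 1 / (p : ℝ))) ^ (2 * cc) ≤ ((C * Real.log w) * FT (dif U) w h) ^ (2 * cc) :=
        pow_le_pow_left₀ (prod_nonneg fun p _ => by positivity) h4 _
    _ = _ := by rw [mul_pow, mul_pow]; ring

open Classical in
theorem pair_bound (U : Finset ℤ) (hadm : Adm U) (κ : ℝ) (hκ : 0 < κ) (D : ℕ)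
    (hD : ∀ t ∈ dif U, |t| ≤ D) : ∃ e : ℕ, 1 ≤ e ∧ ∃ C : ℝ, 1 ≤ C ∧ ∀ᶠ X : ℕ in atTop,
    ∀ w h : ℕ, 3 ≤ w → D + 1 ≤ h →
    (((Ioc X (4 * X)).filter (fun n => RoughS U ((X : ℝ) ^ κ) n ∧ RoughS U ((X : ℝ) ^ κ) (n + h))).card : ℝ) ≤
      C * (X / Real.log X ^ (2 * U.card)) * (Real.log w ^ e * FT (dif U) w h ^ e) := by
  have hsys := sysS U hadm
  obtain ⟨cc, hcc, hPer⟩ := exists_c (fun s : ↥U => lin 1 (s : ℤ)) hsys
  obtain ⟨v, Cv, hv, hCv, hV⟩ := V_bounds (fun s : ↥U => lin 1 (s : ℤ)) hsys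
  rw [Fintype.card_coe] at hV
  obtain ⟨K1, x0, hK1, hfund⟩ := sys_fund (2 * cc) (by omega) 1 one_pos
  obtain ⟨C1, hC1, hco⟩ := prod_co U D hD cc (2 * cc)
  set g := U.card with hg
  set C0 : ℝ := ∏ p ∈ pz (2 * cc), (p : ℝ) ^ 2 with hC0
  have hC01 : 0 < C0 := by
    apply Finset.prod_pos
    intro p hp
    have : (0 : ℝ) < p := by exact_mod_cast (mem_pz.1 hp).2.pos
    positivity
  obtain ⟨r0, hr0⟩ : ∃ r0 : ℕ, r0 = max (max K1 2) ⌈1 / κ⌉₊ := ⟨_, rfl⟩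
  have hr1 : K1 ≤ r0 := by rw [hr0]; exact (le_max_left _ _).trans (le_max_left _ _)
  have hr2 : 2 ≤ r0 := by rw [hr0]; exact (le_max_right _ _).trans (le_max_left _ _)
  have hrk : 1 / κ ≤ r0 := (Nat.le_ceil _).trans (by exact_mod_cast (hr0 ▸ le_max_right _ _))
  have hrpos : (0 : ℝ) < r0 := by
    have : (2 : ℝ) ≤ r0 := by exact_mod_cast hr2
    linarith
  set C3 : ℝ := Cv * (2 * r0) ^ g with hC3
  have hC30 : 0 < C3 := by positivity
  have hXr : Tendsto (fun X : ℕ => (X : ℝ)) atTop atTop := tendsto_natCast_atTop_atTop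
  have hpow : Tendsto (fun X : ℕ => (X : ℝ) ^ (1 / (2 * r0 : ℝ))) atTop atTop :=
    (tendsto_rpow_atTop (by positivity)).comp hXr
  refine ⟨2 * cc, by omega, 8 * C0 * C3 ^ 2 * C1 + 2, by
    have : 0 ≤ 8 * C0 * C3 ^ 2 * C1 := by positivity
    linarith, ?_⟩
  filter_upwards [eventually_ge_atTop 3, hpow.eventually_ge_atTop ((x0 : ℝ) + 3),
    (Real.tendsto_log_atTop.comp hXr).eventually_ge_atTop 1, logpow_le (4 * g) 1 (by norm_num)]
    with X hX3 hX2 hlX1 hlp w h hw hh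
  have hlX1' : 1 ≤ Real.log X := hlX1
  have hlX : 0 < Real.log X := by linarith
  have hX3r : (3 : ℝ) ≤ X := by exact_mod_cast hX3
  have hXpos : (0 : ℝ) < X := by linarith
  have hx0 : (0 : ℝ) ≤ x0 := Nat.cast_nonneg _
  obtain ⟨hy1, hy2, hy3, hy4⟩ := level_low r0 hr2 X (by omega) (by linarith)
  obtain ⟨y, hy⟩ : ∃ y : ℕ, y = ⌊(X : ℝ) ^ (1 / (r0 : ℝ))⌋₊ := ⟨_, rfl⟩
  rw [← hy] at hy1 hy2 hy3 hy4
  have hyx0 : x0 ≤ y := by
    have : (x0 : ℝ) ≤ y := by linarith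
    exact_mod_cast this
  have hy3' : 3 ≤ y := by
    have : (3 : ℝ) ≤ y := by linarith
    exact_mod_cast this
  have hyle : (y : ℝ) ≤ (X : ℝ) ^ (1 / (r0 : ℝ)) := by
    rw [hy]
    exact Nat.floor_le (by positivity)
  have hyr : (y : ℝ) ^ r0 ≤ X := by
    calc (y : ℝ) ^ r0 ≤ ((X : ℝ) ^ (1 / (r0 : ℝ))) ^ r0 := pow_le_pow_left₀ (Nat.cast_nonneg _) hyle r0
      _ = X := by
        rw [← Real.rpow_natCast, ← Real.rpow_mul (by positivity), one_div,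
          inv_mul_cancel₀ hrpos.ne', Real.rpow_one]
  have hyK : y ^ K1 ≤ 4 * X := by
    have h1 : y ^ K1 ≤ y ^ r0 := Nat.pow_le_pow_right (by omega) hr1
    have h2 : y ^ r0 ≤ X := by exact_mod_cast hyr
    omega
  have hyκ : (y : ℝ) ≤ (X : ℝ) ^ κ := by
    refine hyle.trans (Real.rpow_le_rpow_of_exponent_le (by linarith) ?_)
    rw [div_le_iff₀ hκ] at hrk
    rw [div_le_iff₀ hrpos]
    linarith
  have hcard : ((Ioc X (4 * X)).filter (fun n => RoughS U ((X : ℝ) ^ κ) n ∧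
      RoughS U ((X : ℝ) ^ κ) (n + h))).card ≤
      ((Icc 1 (4 * X)).filter (fun m => ∀ p ∈ pz y, ¬ Qh (Q (fun s : ↥U => lin 1 (s : ℤ))) h p m)).card := by
    apply card_le_card
    intro n hn
    rw [mem_filter, mem_Ioc] at hn
    rw [mem_filter, mem_Icc]
    refine ⟨⟨by omega, hn.1.2⟩, fun p hp hq => ?_⟩
    rw [mem_pz] at hp
    have hpX : (p : ℝ) ≤ (X : ℝ) ^ κ := le_trans (by exact_mod_cast hp.1) hyκ
    unfold Qh at hq
    rcases hq with hq | hq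
    · rw [Q_S] at hq
      obtain ⟨s, hs, hd⟩ := hq
      exact hn.2.1 s hs p hp.2 hpX hd
    · rw [Q_S] at hq
      obtain ⟨s, hs, hd⟩ := hq
      exact hn.2.2 s hs p hp.2 hpX hd
  have hcard' : (((Ioc X (4 * X)).filter (fun n => RoughS U ((X : ℝ) ^ κ) n ∧
      RoughS U ((X : ℝ) ^ κ) (n + h))).card : ℝ) ≤
      (((Icc 1 (4 * X)).filter (fun m => ∀ p ∈ pz y, ¬ Qh (Q (fun s : ↥U => lin 1 (s : ℤ))) h p m)).card : ℝ) := by
    exact_mod_cast hcard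
  have hf := (abs_le.1 (hfund (4 * X) y hyx0 hyK (Qh (Q (fun s : ↥U => lin 1 (s : ℤ))) h)
    (perB_Qh _ cc hPer h) (4 * X))).2
  have hp := Pool.Agent.W123.RU.prod_pair_le _ _ cc (2 * cc) (cc ^ 2) (sdata _ hsys cc hPer) h y
  have hco' := hco w h y hw hh
  obtain ⟨G, hG⟩ : ∃ G : ℝ, G = Real.log w ^ (2 * cc) * FT (dif U) w h ^ (2 * cc) := ⟨_, rfl⟩
  have hG1 : 1 ≤ G := by
    rw [hG]
    have h1 : 1 ≤ Real.log w := by
      rw [Real.le_log_iff_exp_le (by positivity)]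
      have := Real.exp_one_lt_d9
      have : (3 : ℝ) ≤ w := by exact_mod_cast hw
      linarith
    exact one_le_mul_of_one_le_of_one_le (one_le_pow₀ h1) (one_le_pow₀ (one_le_FT _ _ _))
  rw [← hG] at hco' ⊢
  have hVy : Vq (Q (fun s : ↥U => lin 1 (s : ℤ))) y ≤ C3 / Real.log X ^ g := by
    refine (hV _ hy3').2.trans ?_
    have h1 : (Real.log X / (2 * r0)) ^ g ≤ Real.log y ^ g := pow_le_pow_left₀ (by positivity) hy2 g
    calc Cv / Real.log y ^ g ≤ Cv / (Real.log X / (2 * r0)) ^ g := by gcongr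
      _ = C3 / Real.log X ^ g := by rw [hC3, div_pow]; field_simp
  have hV0 : 0 ≤ Vq (Q (fun s : ↥U => lin 1 (s : ℤ))) y :=
    Finset.prod_nonneg fun p hp => one_sub_nonneg _ p (mem_pz.1 hp).2
  have hV2 : Vq (Q (fun s : ↥U => lin 1 (s : ℤ))) y ^ 2 ≤ C3 ^ 2 / Real.log X ^ (2 * g) := by
    calc Vq (Q (fun s : ↥U => lin 1 (s : ℤ))) y ^ 2 ≤ (C3 / Real.log X ^ g) ^ 2 := pow_le_pow_left₀ hV0 hVy 2
      _ = C3 ^ 2 / Real.log X ^ (2 * g) := by rw [div_pow, ← pow_mul, mul_comm g 2]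
  have hprod : ∏ p ∈ pz y, (1 - (nuB (Qh (Q (fun s : ↥U => lin 1 (s : ℤ))) h) p : ℝ) / p) ≤
      C0 * (C3 ^ 2 / Real.log X ^ (2 * g)) * (C1 * G) := by
    refine hp.trans ?_
    apply mul_le_mul
    · exact mul_le_mul_of_nonneg_left hV2 hC01.le
    · exact hco'
    · exact prod_nonneg fun p _ => by positivity
    · positivity
  have hsq : √((4 * X : ℕ) : ℝ) ≤ 2 * (X / Real.log X ^ (2 * g)) := by
    have h4 : ((4 * X : ℕ) : ℝ) = 4 * X := by push_cast; ring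
    rw [h4, Real.sqrt_le_left (by positivity), mul_pow, div_pow, ← pow_mul]
    have e1 : 2 * g * 2 = 4 * g := by ring
    rw [e1]
    have h5 : (X : ℝ) ≤ X ^ 2 / Real.log X ^ (4 * g) := by
      rw [le_div_iff₀ (by positivity)]
      have h6 : Real.log X ^ (4 * g) ≤ X := by linarith
      calc (X : ℝ) * Real.log X ^ (4 * g) ≤ X * X := mul_le_mul_of_nonneg_left h6 hXpos.le
        _ = X ^ 2 := by ring
    linarith
  obtain ⟨Z, hZ⟩ : ∃ Z : ℝ, Z = X / Real.log X ^ (2 * g) := ⟨_, rfl⟩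
  have hZ0 : 0 ≤ Z := by rw [hZ]; positivity
  obtain ⟨W, hW⟩ : ∃ W : ℝ, W = ∏ p ∈ pz y, (1 - (nuB (Qh (Q (fun s : ↥U => lin 1 (s : ℤ))) h) p : ℝ) / p) :=
    ⟨_, rfl⟩
  rw [← hW] at hf hprod
  rw [← hZ] at hsq ⊢
  have h8 : 8 * (X : ℝ) * W ≤ 8 * C0 * C3 ^ 2 * C1 * Z * G := by
    calc 8 * (X : ℝ) * W ≤ 8 * X * (C0 * (C3 ^ 2 / Real.log X ^ (2 * g)) * (C1 * G)) :=
          mul_le_mul_of_nonneg_left hprod (by positivity)
      _ = _ := by rw [hZ]; ring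
  have h9 : 2 * Z ≤ 2 * Z * G := le_mul_of_one_le_right (by positivity) hG1
  have h10 : (((Icc 1 (4 * X)).filter (fun m => ∀ p ∈ pz y,
      ¬ Qh (Q (fun s : ↥U => lin 1 (s : ℤ))) h p m)).card : ℝ) ≤ 8 * X * W + √((4 * X : ℕ) : ℝ) := by
    have e : ((4 * X : ℕ) : ℝ) = 4 * X := by push_cast; ring
    rw [e] at hf ⊢
    linarith
  calc _ ≤ _ := hcard'
    _ ≤ 8 * X * W + √((4 * X : ℕ) : ℝ) := h10
    _ ≤ 8 * C0 * C3 ^ 2 * C1 * Z * G + 2 * Z * G := by linarith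
    _ = (8 * C0 * C3 ^ 2 * C1 + 2) * Z * G := by ring

end Pool.Agent.X34.E
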