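import Mathlib
import Pool.Agent.X34.E.E32

/-! Engine E (helper34): sums of an element of a dense set of rough integers and an element of a
fairly dense set. -/

set_option autoImplicit false
set_option maxHeartbeats 4000000

open Finset Filter

namespace Pool.Agent.X34.E

open Pool.Agent.H95R2.BG.LF
open Pool.Agent.W123.RP Pool.Agent.H373R2.T7 Pool.Agent.W123.RU Pool.Agent.W123.RU.Poly
open Pool.Agent.TH464.PW
open Pool.Agent.W182.PW

theorem evL (B g : ℕ) : ∀ᶠ L : ℝ in atTop, Real.log L ^ (B + 1) ≤ L ∧ L ^ (g + 1) ≤ Real.exp L := by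
  have h1 := (Real.isLittleO_pow_log_id_atTop (n := B + 1)).bound (by norm_num : (0 : ℝ) < 1)
  have h2 := (Real.tendsto_exp_div_pow_atTop (g + 1)).eventually_ge_atTop 1
  filter_upwards [h1, h2, eventually_ge_atTop 1] with L h h2 hL
  have hl : 0 ≤ Real.log L := Real.log_nonneg hL
  rw [Real.norm_of_nonneg (by positivity)] at h
  simp only [id] at h
  rw [Real.norm_of_nonneg (by linarith), one_mul] at h
  refine ⟨h, ?_⟩
  rw [le_div_iff₀ (by positivity)] at h2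
  linarith

open Classical in
/-- **Sums of an element of a dense set of rough integers and an element of a fairly dense set.** -/
theorem romE (U : Finset ℤ) (hadm : Adm U) (hU : U.Nonempty) (κ : ℝ) (hκ : 0 < κ) :
    ∃ e : ℕ, ∀ (B : ℕ) (M : Set ℕ),
    (∃ y0 : ℕ, ∀ y : ℕ, y0 ≤ y → ∃ S : Finset ℕ, S ⊆ Icc 1 y ∧ (∀ a ∈ S, a ∈ M) ∧
      (y : ℝ) ≤ #S * Real.log y ^ B) →
    ∀ c₀ : ℝ, 0 < c₀ → ∃ c : ℝ, 0 < c ∧ ∀ᶠ X : ℕ in atTop, ∀ A : Finset ℕ, A ⊆ Ioc X (4 * X) →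
      (∀ a ∈ A, RoughS U ((X : ℝ) ^ κ) a) → c₀ * X / Real.log X ^ U.card ≤ #A →
      ∃ I : Finset ℕ, I ⊆ Ioc X (5 * X) ∧
      (∀ n ∈ I, ∃ a m : ℕ, a + m = n ∧ a ∈ A ∧ m ∈ M ∧ 1 ≤ m ∧
        (m : ℝ) ≤ Real.log X ^ U.card * Real.log (Real.log X) ^ (B + 1)) ∧
      c * X / Real.log (Real.log (Real.log (Real.log X))) ^ e ≤ #I := by
  obtain ⟨D, hD⟩ : ∃ D : ℕ, ∀ t ∈ dif U, |t| ≤ D := by
    refine ⟨(dif U).sup Int.natAbs, fun t ht => ?_⟩
    have h1 : t.natAbs ≤ (dif U).sup Int.natAbs := Finset.le_sup (f := Int.natAbs) ht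
    rw [Int.abs_eq_natAbs]
    exact_mod_cast h1
  obtain ⟨e, he, C, hC, hpair⟩ := pair_bound U hadm κ hκ D hD
  have hg1 : 1 ≤ U.card := card_pos.2 hU
  obtain ⟨g, hg⟩ : ∃ g : ℕ, g = U.card := ⟨_, rfl⟩
  rw [← hg] at hpair hg1 ⊢
  have hd1 : 1 ≤ (dif U).card := card_pos.2 (dif_nonempty hU)
  obtain ⟨d, hd⟩ : ∃ d : ℕ, d = (dif U).card := ⟨_, rfl⟩
  have hd1' : 1 ≤ d := by omega
  refine ⟨e, fun B M hM c₀ hc₀ => ?_⟩
  obtain ⟨y0, hM⟩ := hM
  obtain ⟨C3, hC3⟩ : ∃ C3 : ℝ, C3 = 32 * d * (D + 1) := ⟨_, rfl⟩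
  have hC30 : 0 ≤ C3 := by rw [hC3]; positivity
  obtain ⟨E, hE⟩ : ∃ E : ℝ, E = Real.exp (B + C3) := ⟨_, rfl⟩
  have hE0 : 0 < E := by rw [hE]; exact Real.exp_pos _
  obtain ⟨F, hF⟩ : ∃ F : ℝ, F = 1 / c₀ + 2 ^ e * C * E / c₀ ^ 2 := ⟨_, rfl⟩
  have hF0 : 0 < F := by rw [hF]; positivity
  refine ⟨1 / F, by positivity, ?_⟩
  have hlogt : Tendsto (fun x : ℕ => Real.log (x : ℝ)) atTop atTop :=
    Real.tendsto_log_atTop.comp tendsto_natCast_atTop_atTop
  have hl1 := Real.tendsto_log_atTop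
  have hloglog : Tendsto (fun L : ℝ => Real.log (Real.log L)) atTop atTop := hl1.comp hl1
  have hlogloglog : Tendsto (fun L : ℝ => Real.log (Real.log (Real.log L))) atTop atTop :=
    hl1.comp hloglog
  obtain ⟨W, hW⟩ : ∃ W : ℝ, W = e * d * (g + 3) + 3 := ⟨_, rfl⟩
  obtain ⟨V, hV⟩ : ∃ V : ℝ, V = 2 * ((D + 1) * (g + 1) ^ B) := ⟨_, rfl⟩
  have ev : ∀ᶠ L : ℝ in atTop, (Real.log L ^ (B + 1) ≤ L ∧ L ^ (g + 1) ≤ Real.exp L) ∧
      V ≤ Real.log L ∧ W ≤ Real.log (Real.log L) ∧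
      1 ≤ Real.log (Real.log (Real.log L)) ∧ 2 * ((y0 : ℝ) + D + 3) ≤ L := by
    filter_upwards [evL B g, hl1.eventually_ge_atTop V, hloglog.eventually_ge_atTop W,
      hlogloglog.eventually_ge_atTop 1, eventually_ge_atTop (2 * ((y0 : ℝ) + D + 3))] with L h1 h2 h3 h4 h5
    exact ⟨h1, h2, h3, h4, h5⟩
  filter_upwards [hlogt.eventually ev, hpair, eventually_ge_atTop 10] with X hX hpairX hX10 A hA hAr hAc
  obtain ⟨⟨f1, f1'⟩, f2, f3, f4, f5⟩ := hX
  have hXr : (10 : ℝ) ≤ X := by exact_mod_cast hX10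
  have hXpos : (0 : ℝ) < X := by linarith
  have hexp : Real.exp (Real.log X) = X := Real.exp_log hXpos
  rw [hexp] at f1'
  obtain ⟨L, hL⟩ : ∃ L : ℝ, L = Real.log (X : ℝ) := ⟨_, rfl⟩
  rw [← hL] at f1 f1' f2 f3 f4 f5 hAc hpairX ⊢
  have hy00 : (0 : ℝ) ≤ y0 := Nat.cast_nonneg _
  have hD00 : (0 : ℝ) ≤ D := Nat.cast_nonneg _
  have hL3 : (3 : ℝ) ≤ L := by linarith
  have hgB : (1 : ℝ) ≤ (g + 1) ^ B := one_le_pow₀ (by linarith [(Nat.cast_nonneg g : (0 : ℝ) ≤ g)])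
  have hVb : (2 : ℝ) ≤ V := by
    rw [hV]
    have : (1 : ℝ) ≤ (D + 1) * (g + 1) ^ B := one_le_mul_of_one_le_of_one_le (by linarith) hgB
    linarith
  have hl2 : 2 ≤ Real.log L := by linarith
  have hW3 : 3 ≤ W := by
    rw [hW]
    have : (0 : ℝ) ≤ e * d * (g + 3) := by positivity
    linarith
  have hLp : (1 : ℝ) ≤ L ^ g := one_le_pow₀ (by linarith)
  have hLg : L ≤ L ^ g := le_self_pow₀ (by linarith) (by omega)
  obtain ⟨T, hT⟩ : ∃ T : ℕ, T = ⌊L ^ g * Real.log L ^ (B + 1)⌋₊ := ⟨_, rfl⟩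
  have hlp : (1 : ℝ) ≤ Real.log L ^ (B + 1) := one_le_pow₀ (by linarith)
  have hTle : (T : ℝ) ≤ L ^ g * Real.log L ^ (B + 1) := by
    rw [hT]; exact Nat.floor_le (by positivity)
  have hbig0 : L ^ g ≤ L ^ g * Real.log L ^ (B + 1) := le_mul_of_one_le_right (by positivity) hlp
  have hTge : L ^ g * Real.log L ^ (B + 1) / 2 ≤ T := by
    have := Nat.lt_floor_add_one (L ^ g * Real.log L ^ (B + 1))
    rw [← hT] at this
    linarith
  have hTL3 : (T : ℝ) ≤ L ^ (g + 1) := by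
    calc (T : ℝ) ≤ L ^ g * Real.log L ^ (B + 1) := hTle
      _ ≤ L ^ g * L := by gcongr
      _ = L ^ (g + 1) := by ring
  have hTL : L / 2 ≤ T := by linarith
  have hlog2 : (2 : ℝ) ≤ Real.log L ^ (B + 1) :=
    hl2.trans (le_self_pow₀ (by linarith) (by omega))
  have hTL' : L ≤ T := by
    have h1 : L * 2 ≤ L ^ g * Real.log L ^ (B + 1) := mul_le_mul hLg hlog2 (by norm_num) (by positivity)
    linarith
  have hTX : T ≤ X := by
    have : (T : ℝ) ≤ X := hTL3.trans f1'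
    exact_mod_cast this
  have hTy0 : y0 ≤ T := by
    have : (y0 : ℝ) ≤ T := by linarith
    exact_mod_cast this
  have hTD : D ≤ T := by
    have : (D : ℝ) ≤ T := by linarith
    exact_mod_cast this
  have hT0 : (0 : ℝ) < T := by linarith
  obtain ⟨S0, hST0, hSM0, hSc0⟩ := hM T hTy0
  obtain ⟨S, hSS, hScd, hsep⟩ := spaced S0 D
  have hST : S ⊆ Icc 1 T := hSS.trans hST0
  have hSM : ∀ a ∈ S, a ∈ M := fun a ha => hSM0 a (hSS ha)
  have hScr : (#S0 : ℝ) ≤ (D + 1) * #S := by exact_mod_cast hScd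
  -- logarithms of `T`
  have hlogT : Real.log T ≤ (g + 1) * Real.log L := by
    have : Real.log T ≤ Real.log (L ^ (g + 1)) := Real.log_le_log hT0 hTL3
    rw [Real.log_pow] at this
    exact_mod_cast this
  have hlogT1 : Real.log L ≤ Real.log T := Real.log_le_log (by linarith) hTL'
  have hlogT0 : 0 < Real.log T := by linarith
  have hSc : (T : ℝ) ≤ (D + 1) * #S * Real.log T ^ B := by
    refine hSc0.trans ?_
    gcongr
  have hSL : L ^ g ≤ #S := by
    have h1 : Real.log T ^ B ≤ (g + 1) ^ B * Real.log L ^ B := by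
      rw [← mul_pow]
      exact pow_le_pow_left₀ hlogT0.le hlogT B
    have h2 : L ^ g * Real.log L ^ (B + 1) / 2 ≤ (D + 1) * #S * ((g + 1) ^ B * Real.log L ^ B) :=
      hTge.trans (hSc.trans (mul_le_mul_of_nonneg_left h1 (by positivity)))
    have hlB : 0 < Real.log L ^ B := by positivity
    have h3 : L ^ g * (Real.log L / 2) ≤ #S * ((D + 1) * (g + 1) ^ B) := by
      have h4 : L ^ g * (Real.log L / 2) * Real.log L ^ B ≤ #S * ((D + 1) * (g + 1) ^ B) * Real.log L ^ B := by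
        calc L ^ g * (Real.log L / 2) * Real.log L ^ B = L ^ g * Real.log L ^ (B + 1) / 2 := by ring
          _ ≤ _ := h2
          _ = _ := by ring
      exact le_of_mul_le_mul_right h4 hlB
    have h5 : L ^ g * ((D + 1) * (g + 1) ^ B) ≤ L ^ g * (Real.log L / 2) :=
      mul_le_mul_of_nonneg_left (by rw [hV] at f2; linarith) (by positivity)
    exact le_of_mul_le_mul_right (h5.trans h3) (by positivity)
  have hS0 : (0 : ℝ) < #S := lt_of_lt_of_le (by positivity) hSL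
  -- the exponent
  have hllT : Real.log (Real.log T) ≤ g + Real.log (Real.log L) := by
    have h1 : Real.log (Real.log T) ≤ Real.log ((g + 1) * Real.log L) := Real.log_le_log hlogT0 hlogT
    rw [Real.log_mul (by positivity) (by linarith)] at h1
    have h2 : Real.log ((g : ℝ) + 1) ≤ g := by
      have := Real.log_le_sub_one_of_pos (by positivity : (0 : ℝ) < (g : ℝ) + 1)
      linarith
    linarith
  obtain ⟨x, hx⟩ : ∃ x : ℝ, x = Real.log (Real.log L) := ⟨_, rfl⟩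
  have hx3 : 3 ≤ x := by rw [hx]; linarith
  have hllT0 : 0 ≤ Real.log (Real.log T) := by
    have : Real.log (Real.log L) ≤ Real.log (Real.log T) := Real.log_le_log (by linarith) hlogT1
    linarith
  obtain ⟨q, hq⟩ : ∃ q : ℕ, q = ⌈Real.log (Real.log T)⌉₊ + 1 := ⟨_, rfl⟩
  have hq1 : 1 ≤ q := by omega
  have hqge : Real.log (Real.log T) ≤ q := by
    have := Nat.le_ceil (Real.log (Real.log T))
    rw [hq]
    push_cast
    linarith
  have hqle : (q : ℝ) ≤ x + g + 2 := by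
    have := Nat.ceil_lt_add_one hllT0
    rw [hq, hx]
    push_cast
    linarith
  have hq1r : (1 : ℝ) ≤ q := by exact_mod_cast hq1
  obtain ⟨w, hw⟩ : ∃ w : ℕ, w = e * q * d + 3 := ⟨_, rfl⟩
  have hw3 : 3 ≤ w := by omega
  have hlogw : Real.log w ≤ 2 * Real.log x := by
    have h1 : (w : ℝ) ≤ x ^ 2 := by
      rw [hw]
      push_cast
      have h2 : x + g + 2 ≤ x * (g + 3) := by
        have : 0 ≤ (x - 1) * ((g : ℝ) + 2) := mul_nonneg (by linarith) (by positivity)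
        nlinarith
      calc (e : ℝ) * q * d + 3 = e * d * q + 3 := by ring
        _ ≤ e * d * (x * (g + 3)) + 3 := by
          have := mul_le_mul_of_nonneg_left (hqle.trans h2) (by positivity : (0 : ℝ) ≤ e * d)
          linarith
        _ ≤ e * d * (x * (g + 3)) + 3 * x := by linarith
        _ = W * x := by rw [hW]; ring
        _ ≤ x * x := mul_le_mul_of_nonneg_right (by rw [hx]; exact f3) (by linarith)
        _ = x ^ 2 := by ring
    have hw0 : (0 : ℝ) < w := by exact_mod_cast (by omega : 0 < w)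
    have h2 : Real.log w ≤ Real.log (x ^ 2) := Real.log_le_log hw0 h1
    rw [Real.log_pow] at h2
    exact_mod_cast h2
  have hlogw0 : 0 ≤ Real.log w := Real.log_nonneg (by exact_mod_cast (by omega : 1 ≤ w))
  have hEq : (dif U).card * (32 * (T : ℝ)) ≤ E ^ q * #S := by
    have h1 : Real.log T ^ B ≤ Real.exp (B * q) := by
      calc Real.log T ^ B = Real.exp (B * Real.log (Real.log T)) := by
            rw [Real.exp_nat_mul, Real.exp_log hlogT0]
        _ ≤ Real.exp (B * q) := by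
            apply Real.exp_le_exp.mpr
            gcongr
    have h2 : C3 ≤ Real.exp (C3 * q) := by
      have h3 : C3 ≤ C3 * q := le_mul_of_one_le_right hC30 hq1r
      have h4 := Real.add_one_le_exp (C3 * q)
      linarith
    have h3 : E ^ q = Real.exp (C3 * q) * Real.exp (B * q) := by
      rw [hE, ← Real.exp_nat_mul, ← Real.exp_add]
      congr 1
      ring
    rw [← hd]
    calc (d : ℝ) * (32 * (T : ℝ)) ≤ d * (32 * ((D + 1) * #S * Real.log T ^ B)) := by gcongr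
      _ = C3 * Real.log T ^ B * #S := by rw [hC3]; ring
      _ ≤ Real.exp (C3 * q) * Real.exp (B * q) * #S := by gcongr
      _ = E ^ q * #S := by rw [h3]
  have havg := avg_FT (dif U) (dif_nonempty hU) D hD e w q T S E he hq1 (by rw [← hd]; omega) hST hE0.le hTD
    hsep hEq
  -- the count
  have hcs := Pool.Agent.TH685.TI.cs A S
  obtain ⟨I, hI⟩ : ∃ I : Finset ℕ, I = (S ×ˢ A).image (fun z => z.1 + z.2) := ⟨_, rfl⟩
  rw [← hI] at hcs
  obtain ⟨l, hl⟩ : ∃ l : ℝ, l = Real.log x := ⟨_, rfl⟩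
  rw [← hx] at f4
  rw [← hl] at f4 hlogw
  have hlw2 : Real.log w ^ e ≤ 2 ^ e * l ^ e := by
    have := pow_le_pow_left₀ hlogw0 hlogw e
    rwa [mul_pow] at this
  have hsum : ∑ z ∈ S.offDiag, (#(A.filter (fun k => k + Nat.dist z.1 z.2 ∈ A)) : ℝ) ≤
      C * (X / L ^ (2 * g)) * (2 ^ e * l ^ e * (E * (#S : ℝ) ^ 2)) := by
    have h1 : ∀ z ∈ S.offDiag, (#(A.filter (fun k => k + Nat.dist z.1 z.2 ∈ A)) : ℝ) ≤
        C * (X / L ^ (2 * g)) * (Real.log w ^ e * FT (dif U) w (Nat.dist z.1 z.2) ^ e) := by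
      intro z hz
      rw [mem_offDiag] at hz
      have hdz : D + 1 ≤ Nat.dist z.1 z.2 := hsep _ hz.1 _ hz.2.1 hz.2.2
      refine le_trans ?_ (hpairX w (Nat.dist z.1 z.2) hw3 hdz)
      have : #(A.filter (fun k => k + Nat.dist z.1 z.2 ∈ A)) ≤ ((Ioc X (4 * X)).filter
          (fun n => RoughS U ((X : ℝ) ^ κ) n ∧ RoughS U ((X : ℝ) ^ κ) (n + Nat.dist z.1 z.2))).card := by
        apply card_le_card
        intro k hk
        rw [mem_filter] at hk
        rw [mem_filter]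
        exact ⟨hA hk.1, hAr _ hk.1, hAr _ hk.2⟩
      exact_mod_cast this
    refine (Finset.sum_le_sum h1).trans ?_
    rw [← Finset.mul_sum, ← Finset.mul_sum]
    apply mul_le_mul_of_nonneg_left _ (by positivity)
    apply mul_le_mul hlw2 havg
    · exact Finset.sum_nonneg fun z _ => pow_nonneg (by linarith [one_le_FT (dif U) w (Nat.dist z.1 z.2)]) _
    · have : 0 ≤ l := by linarith
      positivity
  obtain ⟨t, ht⟩ : ∃ t : ℝ, t = (#S : ℝ) * #A := ⟨_, rfl⟩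
  rw [← ht] at hcs
  have ht1 : (#S : ℝ) * (c₀ * X / L ^ g) ≤ t := by
    rw [ht]
    exact mul_le_mul_of_nonneg_left hAc hS0.le
  have ht2 : c₀ * X ≤ t := by
    refine le_trans ?_ ht1
    calc c₀ * X = L ^ g * (c₀ * X / L ^ g) := by field_simp
      _ ≤ _ := by
        apply mul_le_mul_of_nonneg_right hSL
        positivity
  have htpos : 0 < t := lt_of_lt_of_le (by positivity) ht2
  have ht3 : t ≤ t ^ 2 / X * (1 / c₀) := by
    rw [div_mul_div_comm, mul_one, le_div_iff₀ (by positivity)]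
    calc t * (X * c₀) = t * (c₀ * X) := by ring
      _ ≤ t * t := mul_le_mul_of_nonneg_left ht2 htpos.le
      _ = t ^ 2 := by ring
  have hle0 : (1 : ℝ) ≤ l ^ e := one_le_pow₀ f4
  have ht4 : C * (X / L ^ (2 * g)) * (2 ^ e * l ^ e * (E * (#S : ℝ) ^ 2)) ≤
      t ^ 2 / X * (l ^ e * (2 ^ e * C * E / c₀ ^ 2)) := by
    have h1 : ((#S : ℝ) * (c₀ * X / L ^ g)) ^ 2 ≤ t ^ 2 := pow_le_pow_left₀ (by positivity) ht1 2
    have hLpos : 0 < L := by linarith
    have h2 : C * (X / L ^ (2 * g)) * (2 ^ e * l ^ e * (E * (#S : ℝ) ^ 2)) =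
        ((#S : ℝ) * (c₀ * X / L ^ g)) ^ 2 / X * (l ^ e * (2 ^ e * C * E / c₀ ^ 2)) := by
      rw [mul_pow, div_pow, ← pow_mul, mul_comm g 2]
      field_simp
    rw [h2]
    gcongr
  have hfin : (X : ℝ) ≤ #I * (F * l ^ e) := by
    have h1 : t ^ 2 ≤ #I * (t ^ 2 / X * (F * l ^ e)) := by
      refine hcs.trans ?_
      apply mul_le_mul_of_nonneg_left _ (Nat.cast_nonneg _)
      have h2 : t ^ 2 / X * (1 / c₀) ≤ t ^ 2 / X * (l ^ e * (1 / c₀)) := by
        have h3 : 1 / c₀ ≤ l ^ e * (1 / c₀) := le_mul_of_one_le_left (by positivity) hle0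
        exact mul_le_mul_of_nonneg_left h3 (by positivity)
      calc t + ∑ z ∈ S.offDiag, (#(A.filter (fun k => k + Nat.dist z.1 z.2 ∈ A)) : ℝ)
          ≤ t ^ 2 / X * (l ^ e * (1 / c₀)) + t ^ 2 / X * (l ^ e * (2 ^ e * C * E / c₀ ^ 2)) := by linarith
        _ = t ^ 2 / X * (F * l ^ e) := by rw [hF]; ring
    have h3 : t ^ 2 * X ≤ t ^ 2 * (#I * (F * l ^ e)) := by
      calc t ^ 2 * X ≤ (#I * (t ^ 2 / X * (F * l ^ e))) * X := by gcongr
        _ = t ^ 2 * (#I * (F * l ^ e)) := by field_simp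
    exact le_of_mul_le_mul_left h3 (by positivity)
  refine ⟨I, ?_, ?_, ?_⟩
  · intro n hn
    rw [hI, mem_image] at hn
    obtain ⟨z, hz, rfl⟩ := hn
    rw [mem_product] at hz
    have h1 := mem_Icc.1 (hST hz.1)
    have h2 := mem_Ioc.1 (hA hz.2)
    rw [mem_Ioc]
    omega
  · intro n hn
    rw [hI, mem_image] at hn
    obtain ⟨z, hz, rfl⟩ := hn
    rw [mem_product] at hz
    have h1 := mem_Icc.1 (hST hz.1)
    refine ⟨z.2, z.1, by omega, hz.2, hSM _ hz.1, h1.1, ?_⟩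
    have h2 : (z.1 : ℝ) ≤ T := by exact_mod_cast h1.2
    exact h2.trans hTle
  · rw [← hx, ← hl, div_le_iff₀ (by positivity), one_div, inv_mul_le_iff₀ hF0]
    calc (X : ℝ) ≤ #I * (F * l ^ e) := hfin
      _ = F * (#I * l ^ e) := by ring

end Pool.Agent.X34.E
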