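import Mathlib
import Pool.Agent.X34.E.E33
import Pool.Agent.X34.E.E25
import Pool.Agent.X34.E.E19

/-! Engine E (helper34): sums of a prime followed by a bounded gap and an element of a fairly dense set. -/

set_option autoImplicit false
set_option maxHeartbeats 4000000

open Finset Filter

namespace Pool.Agent.X34.E

open Classical in
/-- **Sums of a prime followed by a bounded gap and an element of a fairly dense set.** -/
theorem gaps_sum (hE : Eng) (M a : ℕ) (hM0 : 0 < M) (ha2 : a.Coprime M) (G : Finset ℕ) (hG : G.card = 45)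
    (hadm : ∀ p : ℕ, p.Prime → ¬ p ∣ M → ∃ r : ℕ, ∀ g ∈ G, ¬ p ∣ r + g) :
    ∃ e : ℕ, ∀ (B : ℕ) (K : Set ℕ),
    (∃ y0 : ℕ, ∀ y : ℕ, y0 ≤ y → ∃ S : Finset ℕ, S ⊆ Icc 1 y ∧ (∀ s ∈ S, s ∈ K) ∧
      (y : ℝ) ≤ #S * Real.log y ^ B) →
    ∃ c : ℝ, 0 < c ∧ ∀ᶠ X : ℕ in atTop, ∃ g ∈ G, ∃ g' ∈ G, g < g' ∧
      ∃ I : Finset ℕ, I ⊆ Ioc X (5 * X) ∧
      (∀ N ∈ I, ∃ n m : ℕ, n + m = N ∧ X < n ∧ n ≤ 4 * X ∧ n ≡ a [MOD M] ∧
        Follow M a ((g' - g) * M) (n + M * g) ∧
        m ∈ K ∧ 1 ≤ m ∧ (m : ℝ) ≤ Real.log X ^ 45 * Real.log (Real.log X) ^ (B + 1)) ∧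
      c * X / Real.log (Real.log (Real.log (Real.log X))) ^ e ≤ #I := by
  obtain ⟨κ, hκ, hcount⟩ := gaps_rough hE
  obtain ⟨S, R, hS, hSadm, -, -, -, hSform, -⟩ := setS M a hM0 ha2 G hG hadm
  have hSne : S.Nonempty := by rw [← card_pos]; omega
  obtain ⟨e, hrom⟩ := romE S hSadm hSne κ hκ
  rw [hS] at hrom
  refine ⟨e, fun B K hK => ?_⟩
  obtain ⟨c₀, hc₀, hcount⟩ := hcount M a hM0 ha2 G hG hadm
  obtain ⟨c, hc, hrom⟩ := hrom B K hK c₀ hc₀
  refine ⟨c, hc, ?_⟩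
  have hX := tendsto_natCast_atTop_atTop.eventually hcount
  filter_upwards [hX, hrom] with X hX hromX
  obtain ⟨g, hg, g', hg', hgg, hX⟩ := hX
  refine ⟨g, hg, g', hg', hgg, ?_⟩
  obtain ⟨A, hA⟩ : ∃ A : Finset ℕ, A = (Ioc X (4 * X)).filter (fun n => Follow M a ((g' - g) * M) (n + M * g) ∧
    ∀ g'' ∈ G, ∀ p : ℕ, p.Prime → (p : ℝ) ≤ (X : ℝ) ^ κ → ¬ p ∣ n + M * g'') := ⟨_, rfl⟩
  obtain ⟨I, hI1, hI2, hI3⟩ := hromX A (by rw [hA]; exact filter_subset _ _) (by
    intro n hn s hs p hp hpX hd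
    rw [hA, mem_filter] at hn
    obtain ⟨g'', hg'', rfl⟩ := hSform s hs
    refine hn.2.2 g'' hg'' p hp hpX ?_
    have e3 : (n : ℤ) + (M : ℤ) * g'' = ((n + M * g'' : ℕ) : ℤ) := by push_cast; ring
    rw [e3] at hd
    exact Int.natCast_dvd_natCast.1 hd) (by
    refine hX.trans ?_
    rw [← Set.ncard_coe_finset, Nat.cast_le]
    apply Set.ncard_le_ncard _ (Finset.finite_toSet _)
    rintro n ⟨h1, h2, h3, h4⟩
    rw [hA, mem_coe, mem_filter, mem_Ioc]
    refine ⟨⟨by exact_mod_cast h1, ?_⟩, h3, h4⟩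
    have h5 : ((n : ℕ) : ℝ) ≤ ((n + M * g + (g' - g) * M : ℕ) : ℝ) := by exact_mod_cast (by omega)
    have h6 : (n : ℝ) < ((4 * X : ℕ) : ℝ) := by
      push_cast
      have : (0 : ℝ) ≤ X := Nat.cast_nonneg _
      linarith
    have h7 : n < 4 * X := by exact_mod_cast h6
    exact h7.le)
  refine ⟨I, hI1, fun N hN => ?_, hI3⟩
  obtain ⟨n, m, h1, h2, h3, h4, h5⟩ := hI2 N hN
  rw [hA, mem_filter, mem_Ioc] at h2
  refine ⟨n, m, h1, h2.1.1, h2.1.2, ?_, h2.2.1, h3, h4, h5⟩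
  have h6 : n + M * g ≡ a + 0 [MOD M] := by simpa using h2.2.1.1
  exact Nat.ModEq.add_right_cancel ((Nat.modEq_zero_iff_dvd).2 (dvd_mul_right M g)) h6

/-- 45 integers in `[0, 73]` which miss a class modulo every prime `p ≥ 5` -/
def G73 : Finset ℕ := {0, 1, 2, 3, 5, 6, 7, 8, 10, 13, 15, 16, 17, 21, 22, 23, 26, 27, 28, 30, 33, 35, 36, 38,
  40, 41, 43, 45, 47, 48, 51, 52, 55, 56, 57, 58, 61, 62, 65, 66, 68, 70, 71, 72, 73}

theorem G73_card : G73.card = 45 := by decide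

theorem G73_le : ∀ g ∈ G73, g ≤ 73 := by decide

theorem G73_adm (p : ℕ) (hp : p.Prime) (h2 : ¬ p ∣ 6) : ∃ r : ℕ, ∀ g ∈ G73, ¬ p ∣ r + g := by
  have h5 : 5 ≤ p := by
    have := hp.two_le
    by_contra hcon
    have h3 : p ≤ 4 := by omega
    interval_cases p
    · exact h2 (by norm_num)
    · exact h2 (by norm_num)
    · exact absurd hp (by norm_num)
  by_cases hbig : 46 ≤ p
  · by_contra hcon
    push Not at hcon
    have h6 : (range p).card ≤ G73.card := by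
      apply card_le_card_of_surjOn (fun g => (p - g % p) % p)
      intro r hr
      rw [mem_coe, mem_range] at hr
      obtain ⟨g, hg, hd⟩ := hcon r
      refine ⟨g, hg, ?_⟩
      show (p - g % p) % p = r
      have h7 : (r + g % p) % p = 0 := by
        rw [Nat.add_mod, Nat.mod_mod, ← Nat.add_mod]
        exact Nat.mod_eq_zero_of_dvd hd
      have h8 : g % p < p := Nat.mod_lt _ (by omega)
      have h9 : p ∣ r + g % p := Nat.dvd_of_mod_eq_zero h7
      obtain ⟨t, ht⟩ := h9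
      have h10 : t < 2 := by
        by_contra h11
        have : p * 2 ≤ p * t := Nat.mul_le_mul_left _ (by omega)
        omega
      interval_cases t
      · have : r = 0 ∧ g % p = 0 := by omega
        rw [this.1, this.2]
        simp
      · have : r = p - g % p := by omega
        rw [← this]
        exact Nat.mod_eq_of_lt hr
    rw [card_range, G73_card] at h6
    omega
  · interval_cases p
    all_goals first
      | (norm_num at hp; done)
      | exact ⟨0, by decide⟩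
      | exact ⟨1, by decide⟩
      | exact ⟨2, by decide⟩
      | exact ⟨3, by decide⟩
      | exact ⟨4, by decide⟩
      | exact ⟨5, by decide⟩
      | exact ⟨6, by decide⟩
      | exact ⟨7, by decide⟩
      | exact ⟨8, by decide⟩
      | exact ⟨9, by decide⟩

end Pool.Agent.X34.E
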