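import Mathlib

/-! (helper34): primes `x² + 3 y²` and the values of `x² + y²`. -/

set_option autoImplicit false
set_option maxHeartbeats 4000000

open Finset Filter

namespace Pool.Agent.X34.E

/-- Thue's lemma for a prime modulus (as in `Pool.Agent.X12.Thue`) -/
theorem thue34 {p : ℕ} (hp : p.Prime) (r : ℤ) :
    ∃ u v : ℤ, 0 < v ∧ u ^ 2 < p ∧ v ^ 2 < p ∧ (p : ℤ) ∣ u - r * v := by
  have hn : 0 < Nat.sqrt p := Nat.sqrt_pos.2 hp.pos
  obtain ⟨j, k, hk0, hkn, hjk⟩ := Real.exists_int_int_abs_mul_sub_le ((r : ℝ) / p) hn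
  have hp0 : (0 : ℝ) < p := by exact_mod_cast hp.pos
  have h1 : (p : ℝ) < ((Nat.sqrt p : ℝ) + 1) ^ 2 := by
    have := Nat.lt_succ_sqrt' p
    rw [Nat.succ_eq_add_one] at this
    exact_mod_cast this
  have hne : ∀ t : ℤ, t ^ 2 ≠ p := by
    intro t ht
    have h2 : IsSquare ((p : ℤ)) := ⟨t, by rw [← ht]; ring⟩
    exact (Nat.prime_iff_prime_int.1 hp).irreducible.not_isSquare h2
  refine ⟨k * r - j * p, k, hk0, ?_, ?_, ⟨-j, by ring⟩⟩
  · have hpos : (0 : ℝ) < (Nat.sqrt p : ℝ) + 1 := by positivity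
    have h3 : |(k : ℝ) * r - j * p| ≤ p / ((Nat.sqrt p : ℝ) + 1) := by
      have h4 : (k : ℝ) * r - j * p = p * (k * (r / p) - j) := by
        field_simp
      rw [h4, abs_mul, abs_of_pos hp0]
      calc (p : ℝ) * |(k : ℝ) * (r / p) - j| ≤ p * (1 / ((Nat.sqrt p : ℝ) + 1)) :=
            mul_le_mul_of_nonneg_left hjk hp0.le
        _ = p / ((Nat.sqrt p : ℝ) + 1) := by ring
    have h5 : |(k : ℝ) * r - j * p| ^ 2 < p := by
      calc |(k : ℝ) * r - j * p| ^ 2 ≤ (p / ((Nat.sqrt p : ℝ) + 1)) ^ 2 :=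
            pow_le_pow_left₀ (abs_nonneg _) h3 2
        _ = p * (p / ((Nat.sqrt p : ℝ) + 1) ^ 2) := by rw [div_pow]; ring
        _ < p * 1 := by
            apply mul_lt_mul_of_pos_left _ hp0
            rw [div_lt_one (by positivity)]
            exact h1
        _ = p := mul_one _
    rw [sq_abs] at h5
    exact_mod_cast h5
  · have h6 : k ^ 2 ≤ p := by
      calc k ^ 2 ≤ (Nat.sqrt p : ℤ) ^ 2 := pow_le_pow_left₀ hk0.le hkn 2
        _ ≤ p := by exact_mod_cast Nat.sqrt_le' p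
    exact lt_of_le_of_ne h6 (hne k)

/-- `-3` is a square modulo the primes `1 (mod 3)` -/
theorem root3 (p : ℕ) (hp : p.Prime) (hp3 : p % 3 = 1) : ∃ r : ℤ, (p : ℤ) ∣ r ^ 2 + 3 := by
  have : Fact p.Prime := ⟨hp⟩
  have : Fact (Nat.Prime 3) := ⟨Nat.prime_three⟩
  have hcard : 3 ∣ Fintype.card (ZMod p)ˣ := by
    rw [ZMod.card_units]
    exact (Nat.modEq_iff_dvd' hp.one_lt.le).1 (by unfold Nat.ModEq; omega)
  obtain ⟨u, hu⟩ := exists_prime_orderOf_dvd_card 3 hcard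
  have h1 : (u : ZMod p) ^ 3 = 1 := by
    have := pow_orderOf_eq_one u
    rw [hu] at this
    have h2 := congrArg (fun v : (ZMod p)ˣ => (v : ZMod p)) this
    simpa using h2
  have h2 : (u : ZMod p) ≠ 1 := by
    intro h
    have h3 : u = 1 := Units.ext h
    rw [h3, orderOf_one] at hu
    omega
  have h3 : (u : ZMod p) ^ 2 + u + 1 = 0 := by
    have h4 : ((u : ZMod p) - 1) * ((u : ZMod p) ^ 2 + u + 1) = 0 := by
      have : ((u : ZMod p) - 1) * ((u : ZMod p) ^ 2 + u + 1) = (u : ZMod p) ^ 3 - 1 := by ring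
      rw [this, h1, sub_self]
    rcases mul_eq_zero.1 h4 with h5 | h5
    · exact absurd (sub_eq_zero.1 h5) h2
    · exact h5
  refine ⟨((2 * (u : ZMod p) + 1).val : ℤ), ?_⟩
  rw [← ZMod.intCast_zmod_eq_zero_iff_dvd]
  push_cast
  rw [ZMod.natCast_zmod_val]
  linear_combination 4 * h3

/-- a prime `1 (mod 3)` is of the form `x² + 3 y²` -/
theorem rep3 (p : ℕ) (hp : p.Prime) (hp3 : p % 3 = 1) :
    ∃ x y : ℕ, p = x ^ 2 + 3 * y ^ 2 := by
  have key : ∃ c d : ℤ, (p : ℤ) = c ^ 2 + 3 * d ^ 2 := by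
    obtain ⟨r, hr⟩ := root3 p hp hp3
    obtain ⟨u, v, hv, hu2, hv2, huv⟩ := thue34 hp r
    have hp3' : (p : ℤ) % 3 = 1 := by omega
    have h1 : (p : ℤ) ∣ u ^ 2 + 3 * v ^ 2 := by
      have e : u ^ 2 + 3 * v ^ 2 = (u - r * v) * (u + r * v) + (r ^ 2 + 3) * v ^ 2 := by ring
      rw [e]
      exact dvd_add (Dvd.dvd.mul_right huv _) (Dvd.dvd.mul_right hr _)
    obtain ⟨k, hk⟩ := h1
    have hk0 : 0 < k := by
      by_contra hcon
      push Not at hcon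
      have : (p : ℤ) * k ≤ 0 := mul_nonpos_of_nonneg_of_nonpos (by positivity) hcon
      have h2 : 0 < u ^ 2 + 3 * v ^ 2 := by positivity
      omega
    have hk4 : k < 4 := by
      by_contra hcon
      push Not at hcon
      have : (p : ℤ) * 4 ≤ p * k := mul_le_mul_of_nonneg_left hcon (by positivity)
      omega
    obtain rfl | rfl | rfl : k = 1 ∨ k = 2 ∨ k = 3 := by omega
    · exact ⟨u, v, by rw [hk]; ring⟩
    · exfalso
      have h3 : (u ^ 2) % 3 = 2 := by omega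
      rcases (by omega : u % 3 = 0 ∨ u % 3 = 1 ∨ u % 3 = 2) with h | h | h <;>
        simp [sq, Int.mul_emod, h] at h3
    · have h3 : (u ^ 2) % 3 = 0 := by omega
      have h4 : u % 3 = 0 := by
        rcases (by omega : u % 3 = 0 ∨ u % 3 = 1 ∨ u % 3 = 2) with h | h | h
        · exact h
        · simp [sq, Int.mul_emod, h] at h3
        · simp [sq, Int.mul_emod, h] at h3
      obtain ⟨w, rfl⟩ := Int.dvd_of_emod_eq_zero h4
      exact ⟨v, w, by nlinarith⟩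
  obtain ⟨c, d, h⟩ := key
  refine ⟨c.natAbs, d.natAbs, ?_⟩
  have h1 : ((c.natAbs ^ 2 + 3 * d.natAbs ^ 2 : ℕ) : ℤ) = c ^ 2 + 3 * d ^ 2 := by
    push_cast
    rw [sq_abs, sq_abs]
  rw [← h] at h1
  exact_mod_cast h1.symm

/-- the mean value of the divisor function -/
theorem sum_divisors_le (M : ℕ) :
    (∑ a ∈ Icc 1 M, (a.divisors.card : ℝ)) ≤ M * (1 + Real.log M) := by
  have h1 : ∑ a ∈ Icc 1 M, a.divisors.card ≤ ∑ d ∈ Icc 1 M, M / d := by
    have h2 : ∀ a ∈ Icc 1 M, a.divisors.card = ∑ d ∈ Icc 1 M, if d ∣ a then 1 else 0 := by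
      intro a ha
      rw [mem_Icc] at ha
      rw [← Finset.card_filter]
      congr 1
      ext d
      rw [Nat.mem_divisors, mem_filter, mem_Icc]
      constructor
      · rintro ⟨h3, h4⟩
        have := Nat.le_of_dvd (by omega) h3
        have := Nat.pos_of_dvd_of_pos h3 (by omega)
        exact ⟨⟨by omega, by omega⟩, h3⟩
      · rintro ⟨h3, h4⟩
        exact ⟨h4, by omega⟩
    rw [sum_congr rfl h2, sum_comm]
    apply sum_le_sum
    intro d hd
    rw [← Finset.card_filter]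
    have h3 : (Icc 1 M).filter (fun a => d ∣ a) = (Ioc 0 M).filter (fun a => d ∣ a) := by
      ext a
      rw [mem_filter, mem_filter, mem_Icc, mem_Ioc]
      constructor
      · rintro ⟨h4, h5⟩; exact ⟨⟨by omega, h4.2⟩, h5⟩
      · rintro ⟨h4, h5⟩; exact ⟨⟨by omega, h4.2⟩, h5⟩
    rw [h3, Nat.Ioc_filter_dvd_card_eq_div]
  have h2 : (∑ a ∈ Icc 1 M, (a.divisors.card : ℝ)) ≤ ∑ d ∈ Icc 1 M, ((M / d : ℕ) : ℝ) := by
    exact_mod_cast h1
  refine h2.trans ?_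
  have h3 : ∑ d ∈ Icc 1 M, ((M / d : ℕ) : ℝ) ≤ ∑ d ∈ Icc 1 M, (M : ℝ) * ((d : ℝ)⁻¹) := by
    apply sum_le_sum
    intro d _
    exact Nat.cast_div_le.trans (le_of_eq (div_eq_mul_inv _ _))
  refine h3.trans ?_
  rw [← mul_sum]
  apply mul_le_mul_of_nonneg_left _ (Nat.cast_nonneg M)
  have h4 := harmonic_le_one_add_log M
  have h5 : (harmonic M : ℝ) = ∑ d ∈ Icc 1 M, ((d : ℝ)⁻¹) := by
    rw [harmonic_eq_sum_Icc]
    push_cast
    rfl
  rw [← h5]
  exact h4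

/-- the number of the pairs of points with the same value of `x² + y²` -/
theorem quad_count (s : ℕ) (hs : 1 ≤ s) (Q : Finset (ℕ × ℕ)) (hQ : ∀ z ∈ Q, z.1 ≤ s ∧ z.2 ≤ s) :
    ((((Q ×ˢ Q).filter (fun w : (ℕ × ℕ) × (ℕ × ℕ) =>
      w.1.1 ^ 2 + w.1.2 ^ 2 = w.2.1 ^ 2 + w.2.2 ^ 2)).card : ℕ) : ℝ) ≤
      Q.card + 2 * (2 * s * (1 + Real.log (2 * s))) ^ 2 := by
  classical
  obtain ⟨T, hT⟩ : ∃ T : Finset ((ℕ × ℕ) × (ℕ × ℕ)), T = (Q ×ˢ Q).filter (fun w : (ℕ × ℕ) × (ℕ × ℕ) =>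
      w.1.1 ^ 2 + w.1.2 ^ 2 = w.2.1 ^ 2 + w.2.2 ^ 2) := ⟨_, rfl⟩
  rw [← hT]
  have hmem : ∀ w ∈ T, (w.1.1 ≤ s ∧ w.1.2 ≤ s) ∧ (w.2.1 ≤ s ∧ w.2.2 ≤ s) ∧
      w.1.1 ^ 2 + w.1.2 ^ 2 = w.2.1 ^ 2 + w.2.2 ^ 2 := by
    intro w hw
    rw [hT, mem_filter, mem_product] at hw
    exact ⟨hQ _ hw.1.1, hQ _ hw.1.2, hw.2⟩
  -- the target set
  obtain ⟨R, hR⟩ : ∃ R : Finset (Σ _ : ℕ × ℕ, ℕ), R = ((Icc 1 (2 * s)) ×ˢ (Icc 1 (2 * s))).sigma
      (fun z : ℕ × ℕ => (z.1 * z.2).divisors) := ⟨_, rfl⟩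
  have hRcard : (R.card : ℝ) ≤ (2 * s * (1 + Real.log (2 * s))) ^ 2 := by
    rw [hR, card_sigma]
    have h1 : ∑ z ∈ (Icc 1 (2 * s)) ×ˢ (Icc 1 (2 * s)), (z.1 * z.2).divisors.card ≤
        ∑ z ∈ (Icc 1 (2 * s)) ×ˢ (Icc 1 (2 * s)), z.1.divisors.card * z.2.divisors.card := by
      apply sum_le_sum
      intro z _
      rw [Nat.divisors_mul]
      exact card_mul_le
    rw [sum_product] at h1
    rw [sum_product]
    have h2 : ∑ x ∈ Icc 1 (2 * s), ∑ y ∈ Icc 1 (2 * s), x.divisors.card * y.divisors.card =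
        (∑ x ∈ Icc 1 (2 * s), x.divisors.card) ^ 2 := by
      rw [sq, sum_mul_sum]
    rw [sum_product, h2] at h1
    have h3 := sum_divisors_le (2 * s)
    push_cast at h3
    have h4 : ((∑ x ∈ Icc 1 (2 * s), ∑ y ∈ Icc 1 (2 * s), (x * y).divisors.card : ℕ) : ℝ) ≤
        (((∑ x ∈ Icc 1 (2 * s), x.divisors.card) ^ 2 : ℕ) : ℝ) := by exact_mod_cast h1
    refine h4.trans ?_
    push_cast
    exact pow_le_pow_left₀ (sum_nonneg fun _ _ => Nat.cast_nonneg _) h3 2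
  have hT1 : (T.filter (fun w => w.2.1 < w.1.1)).card ≤ R.card := by
    apply card_le_card_of_injOn (fun w => ⟨(w.1.1 - w.2.1, w.1.1 + w.2.1), w.2.2 - w.1.2⟩)
    · intro w hw
      rw [mem_coe, mem_filter] at hw
      obtain ⟨⟨h1, h2⟩, ⟨h3, h4⟩, h5⟩ := hmem w hw.1
      have hlt := hw.2
      show (⟨(w.1.1 - w.2.1, w.1.1 + w.2.1), w.2.2 - w.1.2⟩ : Σ _ : ℕ × ℕ, ℕ) ∈ _
      rw [mem_coe, hR, mem_sigma, mem_product, mem_Icc, mem_Icc, Nat.mem_divisors]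
      refine ⟨⟨⟨by show 1 ≤ w.1.1 - w.2.1; omega, by show w.1.1 - w.2.1 ≤ 2 * s; omega⟩,
        ⟨by show 1 ≤ w.1.1 + w.2.1; omega, by show w.1.1 + w.2.1 ≤ 2 * s; omega⟩⟩, ?_, ?_⟩
      · show w.2.2 - w.1.2 ∣ (w.1.1 - w.2.1) * (w.1.1 + w.2.1)
        have hle : w.1.2 ≤ w.2.2 := by
          by_contra hcon
          push Not at hcon
          have := Nat.pow_lt_pow_left hcon (two_ne_zero)
          have := Nat.pow_lt_pow_left hlt (two_ne_zero)
          omega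
        refine ⟨w.2.2 + w.1.2, ?_⟩
        zify [hlt.le, hle]
        have h6 : ((w.1.1 : ℤ)) ^ 2 + (w.1.2 : ℤ) ^ 2 = (w.2.1 : ℤ) ^ 2 + (w.2.2 : ℤ) ^ 2 := by exact_mod_cast h5
        linear_combination h6
      · show (w.1.1 - w.2.1) * (w.1.1 + w.2.1) ≠ 0
        exact Nat.mul_ne_zero (by omega) (by omega)
    · intro w hw w' hw' hww
      rw [mem_coe, mem_filter] at hw hw'
      obtain ⟨⟨h1, h2⟩, ⟨h3, h4⟩, h5⟩ := hmem w hw.1
      obtain ⟨⟨h1', h2'⟩, ⟨h3', h4'⟩, h5'⟩ := hmem w' hw'.1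
      have hlt := hw.2
      have hlt' := hw'.2
      have hle : w.1.2 < w.2.2 := by
        by_contra hcon
        push Not at hcon
        have := Nat.pow_le_pow_left hcon 2
        have := Nat.pow_lt_pow_left hlt (two_ne_zero)
        omega
      have hle' : w'.1.2 < w'.2.2 := by
        by_contra hcon
        push Not at hcon
        have := Nat.pow_le_pow_left hcon 2
        have := Nat.pow_lt_pow_left hlt' (two_ne_zero)
        omega
      simp only [Sigma.mk.injEq, Prod.mk.injEq, heq_eq_eq] at hww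
      obtain ⟨⟨e1, e2⟩, e3⟩ := hww
      have e4 : w.1.1 = w'.1.1 := by omega
      have e5 : w.2.1 = w'.2.1 := by omega
      have e6 : (w.2.2 : ℤ) - w.1.2 = w'.2.2 - w'.1.2 := by omega
      have h6 : ((w.1.1 : ℤ)) ^ 2 + (w.1.2 : ℤ) ^ 2 = (w.2.1 : ℤ) ^ 2 + (w.2.2 : ℤ) ^ 2 := by exact_mod_cast h5
      have h6' : ((w'.1.1 : ℤ)) ^ 2 + (w'.1.2 : ℤ) ^ 2 = (w'.2.1 : ℤ) ^ 2 + (w'.2.2 : ℤ) ^ 2 := by
        exact_mod_cast h5'
      have e7 : ((w.2.2 : ℤ) - w.1.2) * (w.2.2 + w.1.2) = ((w.2.2 : ℤ) - w.1.2) * (w'.2.2 + w'.1.2) := by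
        have e8 : ((w.2.2 : ℤ) - w.1.2) * (w.2.2 + w.1.2) = (w.1.1 : ℤ) ^ 2 - (w.2.1 : ℤ) ^ 2 := by
          linear_combination -h6
        have e9 : ((w'.2.2 : ℤ) - w'.1.2) * (w'.2.2 + w'.1.2) = (w'.1.1 : ℤ) ^ 2 - (w'.2.1 : ℤ) ^ 2 := by
          linear_combination -h6'
        rw [e8, e6, e9, e4, e5]
      have e8 : (w.2.2 : ℤ) + w.1.2 = w'.2.2 + w'.1.2 := by
        have hne : ((w.2.2 : ℤ) - w.1.2) ≠ 0 := by omega
        exact mul_left_cancel₀ hne e7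
      apply Prod.ext
      · exact Prod.ext e4 (by omega)
      · exact Prod.ext e5 (by omega)
  have hT2 : (T.filter (fun w => w.1.1 < w.2.1)).card ≤ (T.filter (fun w => w.2.1 < w.1.1)).card := by
    apply card_le_card_of_injOn (fun w => (w.2, w.1))
    · intro w hw
      rw [mem_coe, mem_filter, hT, mem_filter, mem_product] at hw
      show (w.2, w.1) ∈ _
      rw [mem_coe, mem_filter, hT, mem_filter, mem_product]
      exact ⟨⟨⟨hw.1.1.2, hw.1.1.1⟩, hw.1.2.symm⟩, hw.2⟩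
    · intro w _ w' _ h
      have h1 : w.2 = w'.2 ∧ w.1 = w'.1 := by simpa using h
      exact Prod.ext h1.2 h1.1
  have hT3 : (T.filter (fun w => w.1.1 = w.2.1)).card ≤ Q.card := by
    apply card_le_card_of_injOn (fun w => w.1)
    · intro w hw
      rw [mem_coe, mem_filter, hT, mem_filter, mem_product] at hw
      exact hw.1.1.1
    · intro w hw w' hw' h
      rw [mem_coe, mem_filter] at hw hw'
      obtain ⟨-, -, h5⟩ := hmem w hw.1
      obtain ⟨-, -, h5'⟩ := hmem w' hw'.1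
      have h1 : w.1 = w'.1 := h
      have h2 := hw.2
      have h3 := hw'.2
      have h4 : w.1.2 = w.2.2 := by
        rw [h2] at h5
        simpa using h5
      have h4' : w'.1.2 = w'.2.2 := by
        rw [h3] at h5'
        simpa using h5'
      apply Prod.ext h1
      apply Prod.ext
      · rw [← h2, ← h3, h1]
      · rw [← h4, ← h4', h1]
  have hsplit : T.card ≤ (T.filter (fun w => w.1.1 = w.2.1)).card + (T.filter (fun w => w.2.1 < w.1.1)).card +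
      (T.filter (fun w => w.1.1 < w.2.1)).card := by
    have hsub : T ⊆ (T.filter (fun w => w.1.1 = w.2.1) ∪ T.filter (fun w => w.2.1 < w.1.1)) ∪
        T.filter (fun w => w.1.1 < w.2.1) := by
      intro w hw
      rw [mem_union, mem_union, mem_filter, mem_filter, mem_filter]
      rcases lt_trichotomy w.1.1 w.2.1 with h | h | h
      · exact Or.inr ⟨hw, h⟩
      · exact Or.inl (Or.inl ⟨hw, h⟩)
      · exact Or.inl (Or.inr ⟨hw, h⟩)
    refine (card_le_card hsub).trans ((card_union_le _ _).trans ?_)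
    exact Nat.add_le_add_right (card_union_le _ _) _
  have hfin : T.card ≤ Q.card + 2 * R.card := by omega
  have hfinr : (T.card : ℝ) ≤ Q.card + 2 * R.card := by exact_mod_cast hfin
  linarith

/-- many values of `x² + y²` from many primes `x² + 3 y²` -/
theorem values_count (N : ℕ) (hN : 3 ≤ N) (P : Finset ℕ) (hP : ∀ p ∈ P, p.Prime ∧ p % 3 = 1 ∧ p ≤ N) :
    ∃ V : Finset ℕ, (∀ n ∈ V, ∃ x y : ℕ, n = x ^ 2 + y ^ 2 ∧ x ^ 2 + 3 * y ^ 2 ∈ P) ∧
      (P.card : ℝ) ^ 2 ≤ V.card * (73 * (N * Real.log N ^ 2)) := by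
  classical
  have hex : ∀ p : ℕ, ∃ z : ℕ × ℕ, p ∈ P → p = z.1 ^ 2 + 3 * z.2 ^ 2 := by
    intro p
    by_cases h : p ∈ P
    · obtain ⟨x, y, hxy⟩ := rep3 p (hP p h).1 (hP p h).2.1
      exact ⟨(x, y), fun _ => hxy⟩
    · exact ⟨(0, 0), fun h' => absurd h' h⟩
  choose q hq using hex
  obtain ⟨Q, hQ⟩ : ∃ Q : Finset (ℕ × ℕ), Q = P.image q := ⟨_, rfl⟩
  have hQcard : Q.card = P.card := by
    rw [hQ]
    apply card_image_of_injOn
    intro a ha b hb hab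
    rw [hq a ha, hq b hb, hab]
  obtain ⟨s, hs⟩ : ∃ s : ℕ, s = Nat.sqrt N := ⟨_, rfl⟩
  have hs1 : 1 ≤ s := by rw [hs]; exact Nat.sqrt_pos.2 (by omega)
  have hsN : s * s ≤ N := by rw [hs]; exact Nat.sqrt_le N
  have hQs : ∀ z ∈ Q, z.1 ≤ s ∧ z.2 ≤ s := by
    intro z hz
    rw [hQ] at hz
    obtain ⟨p, hp, rfl⟩ := mem_image.1 hz
    have h1 := hq p hp
    have h2 := (hP p hp).2.2
    constructor
    · rw [hs, Nat.le_sqrt, ← sq]; omega
    · rw [hs, Nat.le_sqrt, ← sq]; omega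
  obtain ⟨V, hV⟩ : ∃ V : Finset ℕ, V = Q.image (fun z => z.1 ^ 2 + z.2 ^ 2) := ⟨_, rfl⟩
  refine ⟨V, ?_, ?_⟩
  · intro n hn
    rw [hV] at hn
    obtain ⟨z, hz, rfl⟩ := mem_image.1 hn
    rw [hQ] at hz
    obtain ⟨p, hp, rfl⟩ := mem_image.1 hz
    exact ⟨(q p).1, (q p).2, rfl, by rw [← hq p hp]; exact hp⟩
  · obtain ⟨T, hT⟩ : ∃ T : Finset ((ℕ × ℕ) × (ℕ × ℕ)), T = (Q ×ˢ Q).filter
        (fun w : (ℕ × ℕ) × (ℕ × ℕ) => w.1.1 ^ 2 + w.1.2 ^ 2 = w.2.1 ^ 2 + w.2.2 ^ 2) := ⟨_, rfl⟩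
    have h1 : Q.card = ∑ v ∈ V, (Q.filter (fun z => z.1 ^ 2 + z.2 ^ 2 = v)).card := by
      rw [hV]
      exact card_eq_sum_card_image _ _
    have h2 : T.card = ∑ v ∈ V, (Q.filter (fun z => z.1 ^ 2 + z.2 ^ 2 = v)).card ^ 2 := by
      have h3 : T.card = ∑ v ∈ V, (T.filter (fun w => w.1.1 ^ 2 + w.1.2 ^ 2 = v)).card :=
        card_eq_sum_card_fiberwise (fun w hw => by
          rw [mem_coe, hT, mem_filter, mem_product] at hw
          rw [mem_coe, hV]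
          exact mem_image.2 ⟨w.1, hw.1.1, rfl⟩)
      rw [h3]
      apply sum_congr rfl
      intro v _
      rw [sq, ← card_product]
      congr 1
      ext w
      rw [hT, mem_filter, mem_filter, mem_product, mem_product, mem_filter, mem_filter]
      constructor
      · rintro ⟨⟨⟨h4, h5⟩, h6⟩, h7⟩
        exact ⟨⟨h4, h7⟩, h5, by rw [← h6]; exact h7⟩
      · rintro ⟨⟨h4, h5⟩, h6, h7⟩
        exact ⟨⟨⟨h4, h6⟩, by rw [h5, h7]⟩, h5⟩
    have h3 : (Q.card : ℝ) ^ 2 ≤ V.card * T.card := by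
      rw [h1, h2]
      push_cast
      exact sq_sum_le_card_mul_sum_sq
    have h4 := quad_count s hs1 Q hQs
    rw [← hT] at h4
    rw [hQcard] at h3 h4
    refine h3.trans (mul_le_mul_of_nonneg_left ?_ (Nat.cast_nonneg _))
    refine h4.trans ?_
    have hN3 : (3 : ℝ) ≤ N := by exact_mod_cast hN
    have hlog1 : 1 ≤ Real.log N := by
      rw [Real.le_log_iff_exp_le (by linarith)]
      have := Real.exp_one_lt_d9
      linarith
    have hPN : (P.card : ℝ) ≤ N := by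
      have : P.card ≤ (Icc 1 N).card := card_le_card (fun p hp => by
        rw [mem_Icc]
        exact ⟨(hP p hp).1.one_le, (hP p hp).2.2⟩)
      rw [Nat.card_Icc, Nat.add_sub_cancel] at this
      exact_mod_cast this
    have hsr : (s : ℝ) * s ≤ N := by exact_mod_cast hsN
    have hs1r : (1 : ℝ) ≤ s := by exact_mod_cast hs1
    have hs2 : (2 : ℝ) * s ≤ N * N := by nlinarith
    have hl2 : Real.log (2 * s) ≤ 2 * Real.log N := by
      calc Real.log (2 * s) ≤ Real.log (N * N) := Real.log_le_log (by linarith) hs2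
        _ = 2 * Real.log N := by rw [Real.log_mul (by positivity) (by positivity)]; ring
    have hl0 : 0 ≤ Real.log (2 * s) := Real.log_nonneg (by linarith)
    have h5 : (1 + Real.log (2 * s)) ^ 2 ≤ 9 * Real.log N ^ 2 := by
      calc (1 + Real.log (2 * s)) ^ 2 ≤ (3 * Real.log N) ^ 2 := pow_le_pow_left₀ (by linarith) (by linarith) 2
        _ = 9 * Real.log N ^ 2 := by ring
    have h6 : (2 * s * (1 + Real.log (2 * s))) ^ 2 ≤ 36 * (N * Real.log N ^ 2) := by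
      calc (2 * s * (1 + Real.log (2 * s))) ^ 2 = 4 * (s * s) * (1 + Real.log (2 * s)) ^ 2 := by ring
        _ ≤ 4 * N * (9 * Real.log N ^ 2) := by gcongr
        _ = 36 * (N * Real.log N ^ 2) := by ring
    have h7 : (N : ℝ) ≤ N * Real.log N ^ 2 := le_mul_of_one_le_right (by linarith) (one_le_pow₀ hlog1)
    linarith

end Pool.Agent.X34.E
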