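import Mathlib
import Pool.Agent.X34.E.E38
import Pool.Agent.X34.E.E34

/-! Engine E (helper34): values `x² + y²` with `x² + 3 y²` the larger one of two primes at a bounded distance. -/

set_option autoImplicit false
set_option maxHeartbeats 4000000

open Finset Filter

namespace Pool.Agent.X34.E

/-- `p` is a prime, and the prime before `p` is `p - h` -/
def Prev (h p : ℕ) : Prop := h < p ∧ p.Prime ∧ (p - h).Prime ∧ ∀ m : ℕ, p - h < m → m < p → ¬ m.Prime

/-- from many primes to many values -/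
theorem values_ev (A : ℕ → Prop) (k : ℕ) (c : ℝ) (hc : 0 < c)
    (hA : ∀ n, A n → n.Prime ∧ n % 3 = 1)
    (h : ∀ᶠ N : ℕ in atTop, c * N / Real.log N ^ k ≤ (Set.ncard {p : ℕ | p ≤ N ∧ A p} : ℝ)) :
    ∀ᶠ N : ℕ in atTop, c ^ 2 / 73 * N / Real.log N ^ (2 * k + 2) ≤
      (Set.ncard {n : ℕ | n ≤ N ∧ n % 2 = 1 ∧ ∃ x y : ℕ, n = x ^ 2 + y ^ 2 ∧ A (x ^ 2 + 3 * y ^ 2)} : ℝ) := by
  classical
  filter_upwards [h, eventually_ge_atTop 3] with N hN hN3
  obtain ⟨P, hP⟩ : ∃ P : Finset ℕ, P = (Icc 1 N).filter A := ⟨_, rfl⟩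
  have hPc : c * N / Real.log N ^ k ≤ P.card := by
    refine hN.trans ?_
    rw [hP, ← Set.ncard_coe_finset, Nat.cast_le]
    apply Set.ncard_le_ncard _ (Finset.finite_toSet _)
    rintro p ⟨h1, h2⟩
    rw [mem_coe, mem_filter, mem_Icc]
    exact ⟨⟨(hA p h2).1.one_le, h1⟩, h2⟩
  obtain ⟨V, hV1, hV2⟩ := values_count N hN3 P (by
    intro p hp
    rw [hP, mem_filter, mem_Icc] at hp
    exact ⟨(hA p hp.2).1, (hA p hp.2).2, hp.1.2⟩)
  have hN3r : (3 : ℝ) ≤ N := by exact_mod_cast hN3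
  have hl : 0 < Real.log N := Real.log_pos (by linarith)
  have h1 : (c * N / Real.log N ^ k) ^ 2 ≤ V.card * (73 * (N * Real.log N ^ 2)) :=
    (pow_le_pow_left₀ (by positivity) hPc 2).trans hV2
  have h2 : c ^ 2 / 73 * N / Real.log N ^ (2 * k + 2) ≤ V.card := by
    have e1 : (c * N / Real.log N ^ k) ^ 2 =
        (c ^ 2 / 73 * N / Real.log N ^ (2 * k + 2)) * (73 * (N * Real.log N ^ 2)) := by
      rw [div_pow, ← pow_mul, mul_comm k 2, pow_add]
      field_simp
    rw [e1] at h1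
    exact le_of_mul_le_mul_right h1 (by positivity)
  refine h2.trans ?_
  rw [← Set.ncard_coe_finset, Nat.cast_le]
  apply Set.ncard_le_ncard
  · intro n hn
    obtain ⟨x, y, h3, h4⟩ := hV1 n hn
    rw [hP, mem_filter, mem_Icc] at h4
    obtain ⟨h5, h6⟩ := hA _ h4.2
    refine ⟨by have := h4.1.2; omega, ?_, x, y, h3, h4.2⟩
    have h7 : (x ^ 2 + 3 * y ^ 2) % 2 = 1 := by
      rcases h5.eq_two_or_odd with h8 | h8
      · omega
      · exact h8
    omega
  · exact (Set.finite_Iic N).subset fun m hm => hm.1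

/-- the larger primes of the pairs at a distance at most 438 -/
theorem prev_count (hE : Eng) : ∃ c : ℝ, 0 < c ∧ ∀ᶠ N : ℕ in atTop, c * N / Real.log N ^ 45 ≤
    (Set.ncard {p : ℕ | p ≤ N ∧ (p % 3 = 1 ∧ ∃ h : ℕ, 1 ≤ h ∧ h ≤ 438 ∧ Prev h p)} : ℝ) := by
  classical
  obtain ⟨c, hc, h⟩ := gaps_windowG hE 6 1 (by norm_num) (by norm_num) G73 G73_card G73_adm
  refine ⟨c / 3, by positivity, ?_⟩
  have ht : Tendsto (fun N : ℕ => (N : ℝ) / 3) atTop atTop :=
    tendsto_natCast_atTop_atTop.atTop_div_const (by norm_num)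
  filter_upwards [ht.eventually h, eventually_ge_atTop 6] with N hx hN6
  obtain ⟨g, hg, g', hg', hgg, hx⟩ := hx
  have hN6r : (6 : ℝ) ≤ N := by exact_mod_cast hN6
  have hl : 0 < Real.log ((N : ℝ) / 3) := Real.log_pos (by linarith)
  have hll : Real.log ((N : ℝ) / 3) ≤ Real.log N := Real.log_le_log (by linarith) (by linarith)
  have h1 : c / 3 * N / Real.log N ^ 45 ≤ c * (N / 3) / Real.log ((N : ℝ) / 3) ^ 45 := by
    have e : c / 3 * (N : ℝ) = c * (N / 3) := by ring
    rw [e]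
    apply div_le_div_of_nonneg_left (by positivity) (by positivity)
    exact pow_le_pow_left₀ hl.le hll 45
  refine h1.trans (hx.trans ?_)
  rw [Nat.cast_le]
  have hgle' := G73_le g' hg'
  refine Set.ncard_le_ncard_of_injOn (fun p => p + (g' - g) * 6) ?_ ?_ ?_
  · rintro p ⟨h3, h4, h5, h6, h7, h8⟩
    have h9 : p + (g' - g) * 6 < N := by
      have : ((p + (g' - g) * 6 : ℕ) : ℝ) < N := by linarith
      exact_mod_cast this
    refine ⟨by show p + (g' - g) * 6 ≤ N; omega, ?_, (g' - g) * 6, by omega, by omega, ?_, h7, ?_, ?_⟩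
    · have h10 : p % 6 = 1 := h5
      show (p + (g' - g) * 6) % 3 = 1
      omega
    · show (g' - g) * 6 < p + (g' - g) * 6
      have := h6.pos
      omega
    · show (p + (g' - g) * 6 - (g' - g) * 6).Prime
      rwa [Nat.add_sub_cancel]
    · intro m hm1 hm2
      have hm1' : p + (g' - g) * 6 - (g' - g) * 6 < m := hm1
      rw [Nat.add_sub_cancel] at hm1'
      exact h8 m hm1' hm2
  · intro a _ b _ hab
    have : a + (g' - g) * 6 = b + (g' - g) * 6 := hab
    omega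
  · exact (Set.finite_Iic N).subset fun m hm => hm.1

end Pool.Agent.X34.E
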