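import Mathlib
import Pool.Agent.X34.E.E39
import Pool.Agent.X32.Uni.Lin

/-! (helper34): Chen's theorem in the class `1 (mod 3)`: `p` prime, `p - 2` a product of at most two primes. -/

set_option autoImplicit false
set_option maxHeartbeats 4000000

open Finset Filter

namespace Pool.Agent.X34.E

/-- `p` is a prime and `p - 2` is a product of at most two primes `q`, with `p < q ^ 10` -/
def ChenP (p : ℕ) : Prop := p.Prime ∧ 3 < p ∧ (p - 2).primeFactorsList.length ≤ 2 ∧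
  ∀ q : ℕ, q.Prime → q ∣ p - 2 → p < q ^ 10

theorem chen_count : ∃ c : ℝ, 0 < c ∧ ∀ᶠ N : ℕ in atTop, c * N / Real.log N ^ 2 ≤
    (Set.ncard {p : ℕ | p ≤ N ∧ (ChenP p ∧ p % 3 = 1)} : ℝ) := by
  classical
  obtain ⟨t, ht, κ, hκ, H⟩ := Pool.Agent.X32.Uni.linU 2 6 (by norm_num)
  obtain ⟨⟨X₀, h1⟩, -⟩ := H (1 / 2) (by norm_num) 6
  refine ⟨κ ^ 2 / 12, by positivity, ?_⟩
  have t6 : Tendsto (fun N : ℕ => N / 7) atTop atTop := Nat.tendsto_div_const_atTop (by norm_num)
  have hlog : Tendsto (fun N : ℕ => Real.log (N : ℝ)) atTop atTop :=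
    Real.tendsto_log_atTop.comp tendsto_natCast_atTop_atTop
  filter_upwards [t6.eventually_ge_atTop X₀, eventually_ge_atTop (10 ^ 6 * 8 ^ 10),
    t6.eventually_ge_atTop 2] with N hN0 hN1 hN2
  obtain ⟨X, hX⟩ : ∃ X : ℕ, X = N / 7 := ⟨_, rfl⟩
  rw [← hX] at hN0 hN2
  obtain ⟨a, ha⟩ : ∃ a : Fin 2 → ℤ, a = ![6, 6] := ⟨_, rfl⟩
  obtain ⟨b, hb⟩ : ∃ b : Fin 2 → ℤ, b = ![1, -1] := ⟨_, rfl⟩
  have ha0 : a 0 = 6 := by rw [ha]; rfl
  have ha1 : a 1 = 6 := by rw [ha]; rfl
  have hb0 : b 0 = 1 := by rw [hb]; rfl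
  have hb1 : b 1 = -1 := by rw [hb]; rfl
  have hX1 : 1 ≤ X := by omega
  have hS : Pool.Agent.X32.Uni.SysL 2 6 6 X a b 0 1 := by
    refine ⟨?_, ?_, ?_, ?_, ?_, ?_, ?_, ?_⟩
    · intro l
      fin_cases l
      · show a 0 ≠ 0
        rw [ha0]; norm_num
      · show a 1 ≠ 0
        rw [ha1]; norm_num
    · rw [ha0]; norm_num
    · rw [ha1]; norm_num
    · intro l
      fin_cases l
      · show |a 0| ≤ _
        rw [ha0]; norm_num
      · show |a 1| ≤ _
        rw [ha1]; norm_num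
    · intro l
      have hXz : (1 : ℤ) ≤ X := by exact_mod_cast hX1
      fin_cases l
      · show |b 0| ≤ _
        rw [hb0, abs_one]
        push_cast
        linarith
      · show |b 1| ≤ _
        rw [hb1, abs_neg, abs_one]
        push_cast
        linarith
    · intro p hp
      by_cases h5 : p = 5
      · refine ⟨3, fun i => ?_⟩
        rw [h5]
        fin_cases i
        · show ¬ ((5 : ℕ) : ℤ) ∣ a 0 * 3 + b 0
          rw [ha0, hb0]; norm_num
        · show ¬ ((5 : ℕ) : ℤ) ∣ a 1 * 3 + b 1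
          rw [ha1, hb1]; norm_num
      by_cases h7 : p = 7
      · refine ⟨2, fun i => ?_⟩
        rw [h7]
        fin_cases i
        · show ¬ ((7 : ℕ) : ℤ) ∣ a 0 * 2 + b 0
          rw [ha0, hb0]; norm_num
        · show ¬ ((7 : ℕ) : ℤ) ∣ a 1 * 2 + b 1
          rw [ha1, hb1]; norm_num
      · refine ⟨1, fun i => ?_⟩
        fin_cases i
        · show ¬ (p : ℤ) ∣ a 0 * 1 + b 0
          rw [ha0, hb0]
          intro hd
          have h8 : p ∣ 7 := by exact_mod_cast hd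
          exact h7 ((Nat.prime_dvd_prime_iff_eq hp (by norm_num)).1 h8)
        · show ¬ (p : ℤ) ∣ a 1 * 1 + b 1
          rw [ha1, hb1]
          intro hd
          have h8' : (p : ℤ) ∣ ((5 : ℕ) : ℤ) := by
            have e : (6 * 1 + -1 : ℤ) = ((5 : ℕ) : ℤ) := by norm_num
            rw [← e]; exact hd
          have h8 : p ∣ 5 := Int.natCast_dvd_natCast.1 h8'
          exact h5 ((Nat.prime_dvd_prime_iff_eq hp (by norm_num)).1 h8)
    · rw [ha0, ha1, hb0, hb1]
      norm_num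
    · rw [ha0, ha1, hb0, hb1]
      norm_num
  obtain ⟨h2, h3⟩ := h1 X hN0 a b 0 1 hS
  have h4 := h3 0 X le_rfl (by push_cast; linarith [(Nat.cast_nonneg X : (0 : ℝ) ≤ X)])
  have hXr : (1 : ℝ) ≤ X := by exact_mod_cast hX1
  have hX2r : (2 : ℝ) ≤ X := by exact_mod_cast hN2
  have hlX : 0 < Real.log X := Real.log_pos (by linarith)
  have hXN : (X : ℝ) ≤ N := by exact_mod_cast (by omega : X ≤ N)
  have hNX : (N : ℝ) ≤ 12 * X := by exact_mod_cast (by omega : N ≤ 12 * X)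
  have hll : Real.log X ≤ Real.log N := Real.log_le_log (by linarith) hXN
  have h5 : κ ^ 2 / 12 * N / Real.log N ^ 2 ≤ κ * ((X : ℝ) - (0 : ℕ)) * Pool.Agent.X32.Uni.VL a b X := by
    calc κ ^ 2 / 12 * N / Real.log N ^ 2 ≤ κ ^ 2 * X / Real.log X ^ 2 := by
          apply div_le_div₀ (by positivity) _ (by positivity) (pow_le_pow_left₀ hlX.le hll 2)
          have : 0 ≤ κ ^ 2 := by positivity
          nlinarith
      _ = κ * X * (κ / Real.log X ^ 2) := by ring
      _ ≤ κ * X * Pool.Agent.X32.Uni.VL a b X := mul_le_mul_of_nonneg_left h2 (by positivity)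
      _ = _ := by push_cast; ring
  refine h5.trans (h4.trans ?_)
  rw [← Set.ncard_coe_finset, Nat.cast_le]
  refine Set.ncard_le_ncard_of_injOn (fun m => 6 * m + 1) ?_ ?_ ?_
  · intro m hm
    unfold Pool.Agent.X32.Uni.GoodL at hm
    rw [mem_coe, mem_filter, mem_Ioc] at hm
    obtain ⟨⟨hm0, hmX⟩, hp, hal, -⟩ := hm
    rw [ha0, hb0] at hp
    rw [ha1, hb1] at hal
    have e1 : (6 * (m : ℤ) + 1).natAbs = 6 * m + 1 := by omega
    have e2 : (6 * (m : ℤ) + -1).natAbs = 6 * m - 1 := by omega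
    rw [e1] at hp
    obtain ⟨-, hal2, hal3⟩ := hal
    rw [e2] at hal2
    have e3 : 6 * m + 1 - 2 = 6 * m - 1 := by omega
    refine ⟨by show 6 * m + 1 ≤ N; omega, ⟨hp, by show 3 < 6 * m + 1; omega, ?_, ?_⟩, ?_⟩
    · show (6 * m + 1 - 2).primeFactorsList.length ≤ 2
      rw [e3]; exact hal2
    · intro q hq hd
      show 6 * m + 1 < q ^ 10
      have hd' : q ∣ 6 * m - 1 := by rw [← e3]; exact hd
      have h6 : (X : ℝ) ^ (1 / 9 : ℝ) < q := by
        apply hal3 q hq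
        have : ((6 * m - 1 : ℕ) : ℤ) = 6 * (m : ℤ) + -1 := by omega
        rw [← this]
        exact Int.natCast_dvd_natCast.2 hd'
      have h7 : (X : ℝ) < (q : ℝ) ^ 9 := by
        have h8 : ((X : ℝ) ^ (1 / 9 : ℝ)) ^ 9 < (q : ℝ) ^ 9 := pow_lt_pow_left₀ h6 (by positivity) (by norm_num)
        rwa [← Real.rpow_natCast, ← Real.rpow_mul (by positivity), show (1 / 9 : ℝ) * (9 : ℕ) = 1 by norm_num,
          Real.rpow_one] at h8
      have h8 : X < q ^ 9 := by exact_mod_cast h7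
      have h9 : 7 ≤ q := by
        by_contra hcon
        push Not at hcon
        have h10 : q ^ 9 ≤ 6 ^ 9 := Nat.pow_le_pow_left (by omega) 9
        have : (10 : ℕ) ^ 6 * 8 ^ 10 = 1073741824000000 := by norm_num
        have : (6 : ℕ) ^ 9 = 10077696 := by norm_num
        omega
      calc 6 * m + 1 < 7 * q ^ 9 := by omega
        _ ≤ q * q ^ 9 := Nat.mul_le_mul_right _ h9
        _ = q ^ 10 := by ring
    · show (6 * m + 1) % 3 = 1
      omega
  · intro m _ m' _ h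
    have : 6 * m + 1 = 6 * m' + 1 := h
    omega
  · exact (Set.finite_Iic N).subset fun m hm => hm.1

end Pool.Agent.X34.E
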