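import Mathlib
import Pool.Agent.X34.E.E34

/-! Engine E (helper34): sums of two indices, `6 k - 1` followed by a small gap. -/

set_option autoImplicit false
set_option maxHeartbeats 4000000

open Finset Filter

namespace Pool.Agent.X34.E

open Classical in
/-- the number of the elements of `K` in `[1, t]` -/
noncomputable def cntK (K : Set ℕ) (t : ℕ) : ℕ := ((Icc 1 t).filter (· ∈ K)).card

/-- the multiples of 6 -/
theorem mult6 (B : ℕ) (K : Set ℕ) (hK : ∀ᶠ t : ℕ in atTop, (t : ℝ) / Real.log t ^ B ≤ cntK K t) :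
    ∃ y0 : ℕ, ∀ y : ℕ, y0 ≤ y → ∃ S : Finset ℕ, S ⊆ Icc 1 y ∧ (∀ s ∈ S, s ∈ {m : ℕ | ∃ k ∈ K, m = 6 * k}) ∧
      (y : ℝ) ≤ #S * Real.log y ^ (B + 1) := by
  classical
  have h6 : Tendsto (fun y : ℕ => y / 6) atTop atTop := Nat.tendsto_div_const_atTop (by norm_num)
  have hlog : Tendsto (fun y : ℕ => Real.log (y : ℝ)) atTop atTop :=
    Real.tendsto_log_atTop.comp tendsto_natCast_atTop_atTop
  obtain ⟨y0, hy0⟩ := eventually_atTop.1 ((h6.eventually hK).and ((h6.eventually_ge_atTop 2).and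
    (hlog.eventually_ge_atTop 12)))
  refine ⟨y0, fun y hy => ?_⟩
  obtain ⟨h1, h2, h3⟩ := hy0 y hy
  obtain ⟨z, hz⟩ : ∃ z : ℕ, z = y / 6 := ⟨_, rfl⟩
  rw [← hz] at h1 h2
  refine ⟨((Icc 1 z).filter (· ∈ K)).image (fun k => 6 * k), ?_, ?_, ?_⟩
  · intro s hs
    obtain ⟨k, hk, rfl⟩ := mem_image.1 hs
    rw [mem_filter, mem_Icc] at hk
    rw [mem_Icc]
    omega
  · intro s hs
    obtain ⟨k, hk, rfl⟩ := mem_image.1 hs
    exact ⟨k, (mem_filter.1 hk).2, rfl⟩
  · rw [card_image_of_injective _ (fun a b h => by simpa using h)]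
    change (y : ℝ) ≤ (cntK K z : ℝ) * Real.log y ^ (B + 1)
    have hz2 : (2 : ℝ) ≤ z := by exact_mod_cast h2
    have hyz : (y : ℝ) ≤ 12 * z := by exact_mod_cast (by omega : y ≤ 12 * z)
    have hzy : (z : ℝ) ≤ y := by exact_mod_cast (by omega : z ≤ y)
    have hlz : 0 < Real.log z := Real.log_pos (by linarith)
    have hll : Real.log z ≤ Real.log y := Real.log_le_log (by linarith) hzy
    rw [div_le_iff₀ (by positivity)] at h1
    have h4 : Real.log z ^ B ≤ Real.log y ^ B := pow_le_pow_left₀ hlz.le hll B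
    have hC : (0 : ℝ) ≤ cntK K z := Nat.cast_nonneg _
    have hP : (0 : ℝ) ≤ Real.log y ^ B := by positivity
    calc (y : ℝ) ≤ 12 * z := hyz
      _ ≤ 12 * (cntK K z * Real.log z ^ B) := by linarith
      _ ≤ 12 * (cntK K z * Real.log y ^ B) := by
        have := mul_le_mul_of_nonneg_left h4 hC
        linarith
      _ = (cntK K z * Real.log y ^ B) * 12 := by ring
      _ ≤ (cntK K z * Real.log y ^ B) * Real.log y :=
        mul_le_mul_of_nonneg_left h3 (mul_nonneg hC hP)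
      _ = (cntK K z : ℝ) * Real.log y ^ (B + 1) := by ring

/-- `6 k - 1` and `6 (k + j) - 1` are consecutive primes, `1 ≤ j ≤ 73` -/
def Cons6 (k : ℕ) : Prop := ∃ j : ℕ, 1 ≤ j ∧ j ≤ 73 ∧ (6 * k - 1).Prime ∧ (6 * (k + j) - 1).Prime ∧
  ∀ q : ℕ, 6 * k - 1 < q → q < 6 * (k + j) - 1 → ¬ q.Prime

open Classical in
theorem sums_index (hE : Eng) : ∃ e : ℕ, ∀ (B : ℕ) (K : Set ℕ),
    (∀ᶠ t : ℕ in atTop, (t : ℝ) / Real.log t ^ B ≤ cntK K t) →
    ∃ c : ℝ, 0 < c ∧ ∀ᶠ x : ℕ in atTop,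
      c * x / Real.log (Real.log (Real.log (Real.log x))) ^ e ≤
        (((Icc 1 x).filter (fun n => ∃ k m : ℕ, 1 ≤ k ∧ 1 ≤ m ∧ k + m = n ∧ m ∈ K ∧
          (m : ℝ) ≤ Real.log x ^ 45 * Real.log (Real.log x) ^ (B + 2) ∧ Cons6 k)).card : ℝ) := by
  obtain ⟨e, h⟩ := gaps_sum hE 6 5 (by norm_num) (by norm_num) G73 G73_card G73_adm
  refine ⟨e, fun B K hK => ?_⟩
  obtain ⟨c, hc, h⟩ := h (B + 1) {m : ℕ | ∃ k ∈ K, m = 6 * k} (mult6 B K hK)
  have tN : Tendsto (fun N : ℕ => (N : ℝ)) atTop atTop := tendsto_natCast_atTop_atTop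
  have tL : Tendsto (fun N : ℕ => Real.log (N : ℝ)) atTop atTop := Real.tendsto_log_atTop.comp tN
  have tLL : Tendsto (fun N : ℕ => Real.log (Real.log (N : ℝ))) atTop atTop :=
    Real.tendsto_log_atTop.comp tL
  have tLLL : Tendsto (fun N : ℕ => Real.log (Real.log (Real.log (N : ℝ)))) atTop atTop :=
    Real.tendsto_log_atTop.comp tLL
  have t4 : Tendsto (fun N : ℕ => Real.log (Real.log (Real.log (Real.log (N : ℝ))))) atTop atTop :=
    Real.tendsto_log_atTop.comp tLLL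
  refine ⟨c / 2, by positivity, ?_⟩
  filter_upwards [h, tL.eventually_ge_atTop 1, tLL.eventually_ge_atTop 1, tLLL.eventually_ge_atTop 1,
    t4.eventually_ge_atTop 1, eventually_ge_atTop 1000,
    Filter.Tendsto.eventually_ge_atTop (Real.tendsto_log_atTop.comp tN) 1] with X hX h1 h2 h3 h4 hX1 _
  obtain ⟨g, hg, g', hg', hgg, I, hI1, hI2, hI3⟩ := hX
  have hX0 : (0 : ℝ) < X := by exact_mod_cast (by omega : 0 < X)
  have hle : c / 2 * X / Real.log (Real.log (Real.log (Real.log X))) ^ e ≤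
      c * X / Real.log (Real.log (Real.log (Real.log X))) ^ e := by
    apply div_le_div_of_nonneg_right _ (by positivity)
    nlinarith
  refine hle.trans (hI3.trans ?_)
  have hgle := G73_le g hg
  have hgle' := G73_le g' hg'
  rw [Nat.cast_le]
  apply card_le_card_of_injOn (fun N => (N + 1) / 6 + g)
  · intro N hN
    have hN' : N ∈ I := hN
    obtain ⟨n, m, h5, h6, h7, h8, h9, ⟨k, hk, rfl⟩, h11, h12⟩ := hI2 N hN'
    have h13 := mem_Ioc.1 (hI1 hN')
    have h14 : n % 6 = 5 := h8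
    obtain ⟨-, h15, h16, h17⟩ := h9
    show (N + 1) / 6 + g ∈ _
    rw [mem_coe, mem_filter, mem_Icc]
    refine ⟨⟨by omega, by omega⟩, (n + 1) / 6 + g, k, by omega, by omega, by omega, hk, ?_, g' - g, by omega,
      by omega, ?_, ?_, ?_⟩
    · push_cast at h12
      have : (0 : ℝ) ≤ k := Nat.cast_nonneg _
      linarith
    · have e1 : 6 * ((n + 1) / 6 + g) - 1 = n + 6 * g := by omega
      rw [e1]
      exact h15
    · have e1 : 6 * ((n + 1) / 6 + g + (g' - g)) - 1 = n + 6 * g + (g' - g) * 6 := by omega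
      rw [e1]
      exact h16
    · have e1 : 6 * ((n + 1) / 6 + g) - 1 = n + 6 * g := by omega
      have e2 : 6 * ((n + 1) / 6 + g + (g' - g)) - 1 = n + 6 * g + (g' - g) * 6 := by omega
      rw [e1, e2]
      exact h17
  · intro N hN N' hN' hNN
    obtain ⟨n, m, h5, h6, h7, h8, -, ⟨k, hk, rfl⟩, -, -⟩ := hI2 N hN
    obtain ⟨n', m', h5', h6', h7', h8', -, ⟨k', hk', rfl⟩, -, -⟩ := hI2 N' hN'
    have h14 : n % 6 = 5 := h8
    have h14' : n' % 6 = 5 := h8'
    have h15 : (N + 1) / 6 + g = (N' + 1) / 6 + g := hNN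
    omega

/-- the indices of the small gaps -/
theorem index_density (hE : Eng) : ∀ᶠ t : ℕ in atTop, (t : ℝ) / Real.log t ^ 46 ≤
    cntK {m : ℕ | 1 ≤ m ∧ Nat.nth Nat.Prime m ≤ Nat.nth Nat.Prime (m - 1) + 212} t := by
  classical
  obtain ⟨c, hc, h, -⟩ := gaps_index hE 1 1 one_pos (by norm_num)
  have tN : Tendsto (fun N : ℕ => (N : ℝ)) atTop atTop := tendsto_natCast_atTop_atTop
  have tL : Tendsto (fun N : ℕ => Real.log (N : ℝ)) atTop atTop := Real.tendsto_log_atTop.comp tN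
  filter_upwards [tN.eventually h, tL.eventually_ge_atTop (1 / c), tL.eventually_ge_atTop 1,
    eventually_ge_atTop 3] with t ht h1 h2 h3
  obtain ⟨k, hk1, hk2, ht⟩ := ht
  have h4 : (t : ℝ) / Real.log t ^ 46 ≤ c * t / Real.log t ^ 45 := by
    rw [div_le_div_iff₀ (by positivity) (by positivity)]
    rw [div_le_iff₀ hc] at h1
    have : 0 ≤ (t : ℝ) * Real.log t ^ 45 := by positivity
    nlinarith
  refine h4.trans (ht.trans ?_)
  obtain ⟨K, hK⟩ : ∃ K : Set ℕ, K = {m : ℕ | 1 ≤ m ∧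
    Nat.nth Nat.Prime m ≤ Nat.nth Nat.Prime (m - 1) + 212} := ⟨_, rfl⟩
  rw [← hK]
  unfold cntK
  rw [Nat.cast_le, ← Set.ncard_coe_finset]
  refine Set.ncard_le_ncard_of_injOn (fun n => n + 1) ?_ ?_ (Finset.finite_toSet _)
  · rintro n ⟨h5, -, h6⟩
    rw [mem_coe, mem_filter, mem_Icc, hK]
    have h7 : n + 2 ≤ Nat.nth Nat.Prime n := Nat.add_two_le_nth_prime n
    have h8 : Nat.nth Nat.Prime n ≤ t := by exact_mod_cast h5
    refine ⟨⟨by omega, by omega⟩, by omega, ?_⟩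
    rw [Nat.add_sub_cancel, h6]
    have e : Nat.lcm 2 1 = 2 := rfl
    rw [e]
    omega
  · intro a _ b _ hab
    have : a + 1 = b + 1 := hab
    omega

end Pool.Agent.X34.E
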