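import Mathlib
import Pool.Agent.X34.E.E35

/-! Engine E (helper34): sums of a prime followed by a bounded gap and an element of a fairly dense set. -/

set_option autoImplicit false
set_option maxHeartbeats 4000000

open Finset Filter

namespace Pool.Agent.X34.E

/-- a fairly dense set -/
def Dense (B : ℕ) (K : Set ℕ) : Prop := ∀ᶠ t : ℕ in atTop, (t : ℝ) / Real.log t ^ B ≤ cntK K t

theorem Dense.set {B : ℕ} {K : Set ℕ} (hK : Dense B K) :
    ∃ y0 : ℕ, ∀ y : ℕ, y0 ≤ y → ∃ S : Finset ℕ, S ⊆ Icc 1 y ∧ (∀ s ∈ S, s ∈ K) ∧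
      (y : ℝ) ≤ #S * Real.log y ^ B := by
  classical
  obtain ⟨y0, hy0⟩ := eventually_atTop.1 hK
  refine ⟨max y0 2, fun y hy => ⟨(Icc 1 y).filter (· ∈ K), filter_subset _ _,
    fun a ha => (mem_filter.1 ha).2, ?_⟩⟩
  have h1 := hy0 y ((le_max_left _ _).trans hy)
  have h2 : 2 ≤ y := (le_max_right _ _).trans hy
  have h3 : 0 < Real.log (y : ℝ) := Real.log_pos (by exact_mod_cast (by omega : 1 < y))
  rw [div_le_iff₀ (by positivity)] at h1
  exact h1

/-- the multiples of `s` -/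
theorem Dense.mul {B : ℕ} {K : Set ℕ} (hK : Dense B K) (s : ℕ) (hs : 1 ≤ s) :
    Dense (B + 1) {m : ℕ | ∃ k ∈ K, m = s * k} := by
  classical
  have h6 : Tendsto (fun y : ℕ => y / s) atTop atTop := Nat.tendsto_div_const_atTop (by omega)
  have hlog : Tendsto (fun y : ℕ => Real.log (y : ℝ)) atTop atTop :=
    Real.tendsto_log_atTop.comp tendsto_natCast_atTop_atTop
  have h7 : ∀ᶠ y : ℕ in atTop, ((y / s : ℕ) : ℝ) / Real.log ((y / s : ℕ) : ℝ) ^ B ≤ cntK K (y / s) :=
    h6.eventually hK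
  unfold Dense
  filter_upwards [h7, h6.eventually_ge_atTop 2, hlog.eventually_ge_atTop (2 * s : ℝ)] with y h1 h2 h3
  obtain ⟨z, hz⟩ : ∃ z : ℕ, z = y / s := ⟨_, rfl⟩
  rw [← hz] at h1 h2
  have hle : cntK K z ≤ cntK {m : ℕ | ∃ k ∈ K, m = s * k} y := by
    obtain ⟨K', hK'⟩ : ∃ K' : Set ℕ, K' = {m : ℕ | ∃ k ∈ K, m = s * k} := ⟨_, rfl⟩
    rw [← hK']
    unfold cntK
    apply card_le_card_of_injOn (fun k => s * k)
    · intro k hk
      rw [mem_coe, mem_filter, mem_Icc] at hk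
      show s * k ∈ _
      rw [mem_coe, mem_filter, mem_Icc, hK']
      refine ⟨⟨Nat.mul_pos hs hk.1.1, ?_⟩, k, hk.2, rfl⟩
      have h8 : s * k ≤ s * z := Nat.mul_le_mul_left _ hk.1.2
      have h9 : s * z ≤ y := by rw [hz]; exact Nat.mul_div_le y s
      omega
    · intro a _ b _ hab
      have h8 : s * a = s * b := hab
      exact Nat.eq_of_mul_eq_mul_left hs h8
  refine le_trans ?_ (Nat.cast_le.2 hle)
  have hz2 : (2 : ℝ) ≤ z := by exact_mod_cast h2
  have hyz : (y : ℝ) ≤ 2 * s * z := by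
    have h8 : y < s * (y / s) + s := by
      have := Nat.div_add_mod y s
      have := Nat.mod_lt y (by omega : s > 0)
      omega
    rw [← hz] at h8
    have h9 : s ≤ s * z := Nat.le_mul_of_pos_right _ (by omega)
    have h10 : y ≤ 2 * s * z := by
      have : 2 * s * z = s * z + s * z := by ring
      omega
    exact_mod_cast h10
  have hzy : (z : ℝ) ≤ y := by
    have : z ≤ y := by rw [hz]; exact Nat.div_le_self y s
    exact_mod_cast this
  have hlz : 0 < Real.log z := Real.log_pos (by linarith)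
  have hll : Real.log z ≤ Real.log y := Real.log_le_log (by linarith) hzy
  have hly : 0 < Real.log y := by linarith
  rw [div_le_iff₀ (by positivity)] at h1
  rw [div_le_iff₀ (by positivity)]
  have h4 : Real.log z ^ B ≤ Real.log y ^ B := pow_le_pow_left₀ hlz.le hll B
  have hC : (0 : ℝ) ≤ cntK K z := Nat.cast_nonneg _
  have hP : (0 : ℝ) ≤ Real.log y ^ B := by positivity
  have hs0 : (0 : ℝ) ≤ 2 * s := by positivity
  calc (y : ℝ) ≤ 2 * s * z := hyz
    _ ≤ 2 * s * (cntK K z * Real.log z ^ B) := mul_le_mul_of_nonneg_left h1 hs0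
    _ ≤ 2 * s * (cntK K z * Real.log y ^ B) :=
      mul_le_mul_of_nonneg_left (mul_le_mul_of_nonneg_left h4 hC) hs0
    _ = (cntK K z * Real.log y ^ B) * (2 * s) := by ring
    _ ≤ (cntK K z * Real.log y ^ B) * Real.log y :=
      mul_le_mul_of_nonneg_left h3 (mul_nonneg hC hP)
    _ = (cntK K z : ℝ) * Real.log y ^ (B + 1) := by ring

/-- translates -/
theorem Dense.add {B : ℕ} {K : Set ℕ} (hK : Dense B K) (s : ℕ) :
    Dense (B + 1) {m : ℕ | ∃ k ∈ K, m = k + s} := by
  classical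
  have h6 : Tendsto (fun y : ℕ => y - s) atTop atTop := tendsto_sub_atTop_nat s
  have hlog : Tendsto (fun y : ℕ => Real.log (y : ℝ)) atTop atTop :=
    Real.tendsto_log_atTop.comp tendsto_natCast_atTop_atTop
  have h7 : ∀ᶠ y : ℕ in atTop, ((y - s : ℕ) : ℝ) / Real.log ((y - s : ℕ) : ℝ) ^ B ≤ cntK K (y - s) :=
    h6.eventually hK
  unfold Dense
  filter_upwards [h7, eventually_ge_atTop (2 * s + 4), hlog.eventually_ge_atTop 2] with y h1 h2 h3
  obtain ⟨z, hz⟩ : ∃ z : ℕ, z = y - s := ⟨_, rfl⟩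
  rw [← hz] at h1
  have hle : cntK K z ≤ cntK {m : ℕ | ∃ k ∈ K, m = k + s} y := by
    obtain ⟨K', hK'⟩ : ∃ K' : Set ℕ, K' = {m : ℕ | ∃ k ∈ K, m = k + s} := ⟨_, rfl⟩
    rw [← hK']
    unfold cntK
    apply card_le_card_of_injOn (fun k => k + s)
    · intro k hk
      rw [mem_coe, mem_filter, mem_Icc] at hk
      show k + s ∈ _
      rw [mem_coe, mem_filter, mem_Icc, hK']
      refine ⟨⟨by omega, by omega⟩, k, hk.2, rfl⟩
    · intro a _ b _ hab
      have h8 : a + s = b + s := hab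
      omega
  refine le_trans ?_ (Nat.cast_le.2 hle)
  have hz2 : (2 : ℝ) ≤ z := by exact_mod_cast (by omega : 2 ≤ z)
  have hyz : (y : ℝ) ≤ 2 * z := by exact_mod_cast (by omega : y ≤ 2 * z)
  have hzy : (z : ℝ) ≤ y := by exact_mod_cast (by omega : z ≤ y)
  have hlz : 0 < Real.log z := Real.log_pos (by linarith)
  have hll : Real.log z ≤ Real.log y := Real.log_le_log (by linarith) hzy
  have hly : 0 < Real.log y := by linarith
  rw [div_le_iff₀ (by positivity)] at h1
  rw [div_le_iff₀ (by positivity)]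
  have h4 : Real.log z ^ B ≤ Real.log y ^ B := pow_le_pow_left₀ hlz.le hll B
  have hC : (0 : ℝ) ≤ cntK K z := Nat.cast_nonneg _
  have hP : (0 : ℝ) ≤ Real.log y ^ B := by positivity
  calc (y : ℝ) ≤ 2 * z := hyz
    _ ≤ 2 * (cntK K z * Real.log z ^ B) := by linarith
    _ ≤ 2 * (cntK K z * Real.log y ^ B) := by
      have := mul_le_mul_of_nonneg_left h4 hC
      linarith
    _ = (cntK K z * Real.log y ^ B) * 2 := by ring
    _ ≤ (cntK K z * Real.log y ^ B) * Real.log y :=
      mul_le_mul_of_nonneg_left h3 (mul_nonneg hC hP)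
    _ = (cntK K z : ℝ) * Real.log y ^ (B + 1) := by ring

open Classical in
/-- sums of a prime followed by a bounded gap and an element of a fairly dense set -/
theorem sums_set (hE : Eng) (M a : ℕ) (hM0 : 0 < M) (ha2 : a.Coprime M) (h2M : 2 ∣ M) :
    ∃ e : ℕ, ∀ (B : ℕ) (K : Set ℕ), Dense B K →
    ∃ c : ℝ, 0 < c ∧ ∀ᶠ x : ℕ in atTop,
      c * x / Real.log (Real.log (Real.log (Real.log x))) ^ e ≤
        (((Icc 1 x).filter (fun N => ∃ p m : ℕ, p + m = N ∧ 1 ≤ m ∧ m ∈ K ∧
          (m : ℝ) ≤ Real.log x ^ 45 * Real.log (Real.log x) ^ (B + 1) ∧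
          ∃ h : ℕ, 1 ≤ h ∧ h ≤ 106 ∧ Follow M a (h * M) p)).card : ℝ) := by
  obtain ⟨e, h⟩ := gaps_sum hE M a hM0 ha2 G45 G45_card (fun p hp hpM => by
    apply G45_adm p hp
    rintro rfl
    exact hpM h2M)
  refine ⟨e, fun B K hK => ?_⟩
  obtain ⟨c, hc, h⟩ := h B K hK.set
  have tN : Tendsto (fun N : ℕ => (N : ℝ)) atTop atTop := tendsto_natCast_atTop_atTop
  have tL : Tendsto (fun N : ℕ => Real.log (N : ℝ)) atTop atTop := Real.tendsto_log_atTop.comp tN
  have tLL : Tendsto (fun N : ℕ => Real.log (Real.log (N : ℝ))) atTop atTop :=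
    Real.tendsto_log_atTop.comp tL
  have tLLL : Tendsto (fun N : ℕ => Real.log (Real.log (Real.log (N : ℝ)))) atTop atTop :=
    Real.tendsto_log_atTop.comp tLL
  have t4 : Tendsto (fun N : ℕ => Real.log (Real.log (Real.log (Real.log (N : ℝ))))) atTop atTop :=
    Real.tendsto_log_atTop.comp tLLL
  have t6 : Tendsto (fun N : ℕ => N / 6) atTop atTop := Nat.tendsto_div_const_atTop (by norm_num)
  refine ⟨c / 12, by positivity, ?_⟩
  filter_upwards [t6.eventually h, t6.eventually (tL.eventually_ge_atTop 1),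
    t6.eventually (tLL.eventually_ge_atTop 1), t6.eventually (tLLL.eventually_ge_atTop 1),
    t6.eventually (t4.eventually_ge_atTop 1), eventually_ge_atTop (1000 * M)] with x hX h1 h2 h3 h4 hX1
  obtain ⟨X, hX'⟩ : ∃ X : ℕ, X = x / 6 := ⟨_, rfl⟩
  rw [← hX'] at hX h1 h2 h3 h4
  obtain ⟨g, hg, g', hg', hgg, I, hI1, hI2, hI3⟩ := hX
  have hX0 : (0 : ℝ) < X := by exact_mod_cast (by omega : 0 < X)
  have hXx : (X : ℝ) ≤ x := by exact_mod_cast (by omega : X ≤ x)
  have hx12 : (x : ℝ) ≤ 12 * X := by exact_mod_cast (by omega : x ≤ 12 * X)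
  have g1 : Real.log X ≤ Real.log x := Real.log_le_log hX0 hXx
  have g2 := Real.log_le_log (by linarith) g1
  have g3 := Real.log_le_log (by linarith) g2
  have g4 := Real.log_le_log (by linarith) g3
  have hle : c / 12 * x / Real.log (Real.log (Real.log (Real.log x))) ^ e ≤
      c * X / Real.log (Real.log (Real.log (Real.log X))) ^ e := by
    apply div_le_div₀ (by positivity) _ (by positivity) (pow_le_pow_left₀ (by linarith) g4 e)
    nlinarith
  refine hle.trans (hI3.trans ?_)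
  have hgle := G45_le g hg
  have hgle' := G45_le g' hg'
  have hMg : M * g ≤ 106 * M := by
    rw [mul_comm 106]
    exact Nat.mul_le_mul_left _ hgle
  rw [Nat.cast_le]
  apply card_le_card_of_injOn (fun N => N + M * g)
  · intro N hN
    have hN' : N ∈ I := hN
    obtain ⟨n, m, h5, h6, h7, h8, h9, h10, h11, h12⟩ := hI2 N hN'
    have h13 := mem_Ioc.1 (hI1 hN')
    show N + M * g ∈ _
    rw [mem_coe, mem_filter, mem_Icc]
    refine ⟨⟨by omega, by omega⟩, n + M * g, m, by omega, h11, h10, h12.trans ?_, g' - g, by omega, by omega, h9⟩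
    have e1 : 0 ≤ Real.log X := by linarith
    have e2 : 0 ≤ Real.log (Real.log X) := by linarith
    exact mul_le_mul (pow_le_pow_left₀ e1 g1 45) (pow_le_pow_left₀ e2 g2 (B + 1)) (by positivity)
      (by positivity)
  · intro N _ N' _ hNN
    have h15 : N + M * g = N' + M * g := hNN
    omega

end Pool.Agent.X34.E
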