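import Mathlib
import Pool.Agent.X34.E.E36
import Pool.Agent.H312R2.Diam

/-! Engine E (helper34): primes with an index in a fairly dense set. -/

set_option autoImplicit false
set_option maxHeartbeats 4000000

open Finset Filter

namespace Pool.Agent.X34.E

theorem pi_nth (k : ℕ) (hk : 1 ≤ k) : Nat.primeCounting (Nat.nth Nat.Prime (k - 1)) = k := by
  unfold Nat.primeCounting Nat.primeCounting'
  rw [Nat.count_succ, if_pos (Nat.prime_nth_prime _)]
  have := Nat.primeCounting'_nth_eq (k - 1)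
  unfold Nat.primeCounting' at this
  rw [this]
  omega

theorem nth_le_of_le_pi {k y : ℕ} (hk : 1 ≤ k) (h : k ≤ Nat.primeCounting y) :
    Nat.nth Nat.Prime (k - 1) ≤ y := by
  unfold Nat.primeCounting Nat.primeCounting' at h
  have h1 : Nat.nth Nat.Prime (k - 1) < y + 1 := Nat.nth_lt_of_lt_count (by omega)
  omega

/-- the odd primes with an index in a fairly dense set form a fairly dense set -/
theorem Dense.index {B : ℕ} {K : Set ℕ} (hK : Dense B K) :
    Dense (B + 2) {p : ℕ | p.Prime ∧ p ≠ 2 ∧ Nat.primeCounting p ∈ K} := by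
  classical
  obtain ⟨n0, hpi⟩ := Pool.Agent.H312R2.pi_lower
  have hlog : Tendsto (fun y : ℕ => Real.log (y : ℝ)) atTop atTop :=
    Real.tendsto_log_atTop.comp tendsto_natCast_atTop_atTop
  have h7 : ∀ᶠ y : ℕ in atTop, ((Nat.primeCounting y : ℕ) : ℝ) /
      Real.log ((Nat.primeCounting y : ℕ) : ℝ) ^ B ≤ cntK K (Nat.primeCounting y) :=
    Nat.tendsto_primeCounting.eventually hK
  unfold Dense
  filter_upwards [h7, eventually_ge_atTop n0, hlog.eventually_ge_atTop 4, Pool.Agent.W123.RU.logpow_le (B + 2) 1 (by norm_num),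
    Nat.tendsto_primeCounting.eventually_ge_atTop 3] with y h1 h2 h3 h4 h5
  obtain ⟨hl1, hpi⟩ := hpi y h2
  obtain ⟨t, ht⟩ : ∃ t : ℕ, t = Nat.primeCounting y := ⟨_, rfl⟩
  rw [← ht] at h1 hpi h5
  obtain ⟨K', hK'⟩ : ∃ K' : Set ℕ, K' = {p : ℕ | p.Prime ∧ p ≠ 2 ∧ Nat.primeCounting p ∈ K} := ⟨_, rfl⟩
  rw [← hK']
  have hle : cntK K t ≤ cntK K' y + 1 := by
    have hsub : (((Icc 1 t).filter (· ∈ K)).image (fun k => Nat.nth Nat.Prime (k - 1))) ⊆
        insert 2 ((Icc 1 y).filter (· ∈ K')) := by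
      intro p hp
      obtain ⟨k, hk, rfl⟩ := mem_image.1 hp
      rw [mem_filter, mem_Icc] at hk
      by_cases h2 : Nat.nth Nat.Prime (k - 1) = 2
      · exact mem_insert.2 (Or.inl h2)
      · apply mem_insert_of_mem
        have hpr := Nat.prime_nth_prime (k - 1)
        rw [mem_filter, mem_Icc, hK']
        exact ⟨⟨hpr.one_lt.le, nth_le_of_le_pi hk.1.1 (by rw [← ht]; exact hk.1.2)⟩, hpr, h2,
          by rw [pi_nth k hk.1.1]; exact hk.2⟩
    have hinj : (((Icc 1 t).filter (· ∈ K)).image (fun k => Nat.nth Nat.Prime (k - 1))).card =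
        ((Icc 1 t).filter (· ∈ K)).card := by
      apply card_image_of_injOn
      intro a ha b hb hab
      rw [mem_coe, mem_filter, mem_Icc] at ha hb
      have h8 : Nat.nth Nat.Prime (a - 1) = Nat.nth Nat.Prime (b - 1) := hab
      have h9 := pi_nth a ha.1.1
      have h10 := pi_nth b hb.1.1
      rw [h8] at h9
      omega
    unfold cntK
    calc ((Icc 1 t).filter (· ∈ K)).card = _ := hinj.symm
      _ ≤ _ := card_le_card hsub
      _ ≤ _ := card_insert_le _ _
  have hler : (cntK K t : ℝ) ≤ cntK K' y + 1 := by exact_mod_cast hle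
  have hy0 : (0 : ℝ) ≤ y := Nat.cast_nonneg _
  have hlogp : 0 < Real.log y := by linarith
  have ht3 : (3 : ℝ) ≤ t := by exact_mod_cast h5
  have hty : (t : ℝ) ≤ y := by
    have : t ≤ y := by
      rw [ht]
      have := Nat.count_le (p := Nat.Prime) (n := y + 1)
      have h0 : Nat.count Nat.Prime (y + 1) ≤ y := by
        have h11 : Nat.count Nat.Prime (y + 1) = (filter Nat.Prime (range (y + 1))).card :=
          Nat.count_eq_card_filter_range _ _
        rw [h11]
        have h12 : filter Nat.Prime (range (y + 1)) ⊆ Ioc 0 y := by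
          intro p hp
          rw [mem_filter, mem_range] at hp
          rw [mem_Ioc]
          exact ⟨hp.2.pos, by omega⟩
        simpa using card_le_card h12
      exact h0
    exact_mod_cast this
  have hlt : 0 < Real.log t := Real.log_pos (by linarith)
  have hll : Real.log t ≤ Real.log y := Real.log_le_log (by linarith) hty
  rw [div_le_iff₀ (by positivity)] at h1
  rw [div_le_iff₀ (by positivity)]
  have h6 : Real.log t ^ B ≤ Real.log y ^ B := pow_le_pow_left₀ hlt.le hll B
  have h8 : (y : ℝ) ≤ 2 * (t * Real.log y) := by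
    have : (1 / 2 : ℝ) * (y / Real.log y) * (2 * Real.log y) ≤ t * (2 * Real.log y) :=
      mul_le_mul_of_nonneg_right hpi (by positivity)
    have e : (1 / 2 : ℝ) * (y / Real.log y) * (2 * Real.log y) = y := by field_simp
    linarith
  have h9 : (y : ℝ) ≤ 2 * (cntK K' y + 1) * Real.log y ^ (B + 1) := by
    calc (y : ℝ) ≤ 2 * (t * Real.log y) := h8
      _ ≤ 2 * ((cntK K t * Real.log t ^ B) * Real.log y) := by gcongr
      _ ≤ 2 * (((cntK K' y + 1) * Real.log y ^ B) * Real.log y) := by gcongr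
      _ = 2 * (cntK K' y + 1) * Real.log y ^ (B + 1) := by ring
  obtain ⟨C, hC⟩ : ∃ C : ℝ, C = (cntK K' y : ℝ) := ⟨_, rfl⟩
  rw [← hC] at h9 ⊢
  have hC0 : 0 ≤ C := by rw [hC]; exact Nat.cast_nonneg _
  have h10 : Real.log y ^ (B + 2) = Real.log y ^ (B + 1) * Real.log y := by ring
  have h11 : 0 ≤ Real.log y ^ (B + 1) := by positivity
  have h12 : Real.log y ^ (B + 1) * 4 ≤ Real.log y ^ (B + 1) * Real.log y :=
    mul_le_mul_of_nonneg_left h3 h11
  have h13 : Real.log y ^ (B + 2) ≤ y := by linarith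
  have h14 : C * Real.log y ^ (B + 1) * 4 ≤ C * (Real.log y ^ (B + 1) * Real.log y) := by
    have := mul_le_mul_of_nonneg_left h12 hC0
    linarith
  rw [h10]
  nlinarith

/-- `k` with `k + s` in the set -/
theorem Dense.sub {B : ℕ} {K : Set ℕ} (hK : Dense B K) (s : ℕ) :
    Dense (B + 1) {m : ℕ | m + s ∈ K} := by
  classical
  have hlog : Tendsto (fun y : ℕ => Real.log (y : ℝ)) atTop atTop :=
    Real.tendsto_log_atTop.comp tendsto_natCast_atTop_atTop
  unfold Dense
  filter_upwards [hK, hlog.eventually_ge_atTop 2,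
    Pool.Agent.W123.RU.logpow_le (B + 1) (2 * s + 1) (by positivity)] with y h1 h2 h4
  obtain ⟨K', hK'⟩ : ∃ K' : Set ℕ, K' = {m : ℕ | m + s ∈ K} := ⟨_, rfl⟩
  rw [← hK']
  have hle : cntK K y ≤ cntK K' y + s := by
    unfold cntK
    have hsub : (Icc 1 y).filter (· ∈ K) ⊆
        (((Icc 1 y).filter (· ∈ K')).image (fun m => m + s)) ∪ Icc 1 s := by
      intro k hk
      rw [mem_filter, mem_Icc] at hk
      rw [mem_union]
      by_cases h : k ≤ s
      · right
        rw [mem_Icc]
        omega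
      · left
        rw [mem_image]
        refine ⟨k - s, ?_, by omega⟩
        rw [mem_filter, mem_Icc, hK']
        refine ⟨⟨by omega, by omega⟩, ?_⟩
        show k - s + s ∈ K
        rw [Nat.sub_add_cancel (by omega)]
        exact hk.2
    refine (card_le_card hsub).trans ((card_union_le _ _).trans ?_)
    have h8 : (((Icc 1 y).filter (· ∈ K')).image (fun m => m + s)).card ≤ ((Icc 1 y).filter (· ∈ K')).card :=
      card_image_le
    have h9 : (Icc 1 s).card = s := by simp
    omega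
  have hler : (cntK K y : ℝ) ≤ cntK K' y + s := by exact_mod_cast hle
  have hlogp : 0 < Real.log y := by linarith
  rw [div_le_iff₀ (by positivity)] at h1 ⊢
  have hs0 : (0 : ℝ) ≤ s := Nat.cast_nonneg _
  have hy0 : (0 : ℝ) ≤ y := Nat.cast_nonneg _
  have h8 : Real.log y ^ (B + 1) * s ≤ y / 2 := by
    have : 0 ≤ Real.log y ^ (B + 1) := by positivity
    linarith
  obtain ⟨C, hC⟩ : ∃ C : ℝ, C = (cntK K' y : ℝ) := ⟨_, rfl⟩
  rw [← hC] at hler ⊢
  have hC0 : 0 ≤ C := by rw [hC]; exact Nat.cast_nonneg _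
  have h10 : Real.log y ^ (B + 1) = Real.log y ^ B * Real.log y := by ring
  have h11 : 0 ≤ Real.log y ^ B := by positivity
  have h13 : (y : ℝ) ≤ (C + s) * Real.log y ^ B := h1.trans (mul_le_mul_of_nonneg_right hler h11)
  have h14 : (C + s) * (Real.log y ^ B * 2) ≤ (C + s) * Real.log y ^ (B + 1) := by
    rw [h10]
    exact mul_le_mul_of_nonneg_left (mul_le_mul_of_nonneg_left h2 h11) (by linarith)
  nlinarith

end Pool.Agent.X34.E
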