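import Mathlib
import Pool.Agent.X34.E.E7

/-! Engine E (helper34): 45 linear forms with integer coefficients. -/

set_option autoImplicit false

open Finset Filter

namespace Pool.Agent.X34.E

open Pool.Agent.H95R2.BG.LF

/-- shift of the variable -/
theorem Nar.shift {X : ℕ → Prop} (h : Nar X) (n₀ : ℕ) : Nar (fun m => X (m + n₀)) := by
  classical
  intro l
  obtain ⟨C, hC⟩ := (h.large (n₀ + 1)) (max l 1)
  refine ⟨C, hC.mono ?_⟩
  rintro N ⟨d, h1, h2, h3⟩
  refine ⟨d, h1, h2, h3.trans ?_⟩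
  rw [Nat.cast_le]
  apply card_le_card_of_injOn (fun n => n - n₀)
  · intro n hn
    simp only [coe_filter, mem_Icc, Set.mem_ofPred_eq] at hn ⊢
    obtain ⟨h4, h5⟩ := hn
    have hn0 := (h5 0 (lt_of_lt_of_le one_pos (le_max_right _ _))).2
    simp only [zero_mul, add_zero] at hn0
    refine ⟨⟨by omega, by omega⟩, fun j hj => ?_⟩
    have h6 := (h5 j (lt_of_lt_of_le hj (le_max_left _ _))).1
    have h7 : n - n₀ + j * d + n₀ = n + j * d := by omega
    rwa [h7]
  · intro n hn m hm hnm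
    simp only [coe_filter, mem_Icc, Set.mem_ofPred_eq] at hn hm
    have h4 := (hn.2 0 (lt_of_lt_of_le one_pos (le_max_right _ _))).2
    have h5 := (hm.2 0 (lt_of_lt_of_le one_pos (le_max_right _ _))).2
    simp only [zero_mul, add_zero] at h4 h5
    have h6 : n - n₀ = m - n₀ := hnm
    omega

/-- the data of integer forms made natural -/
theorem nat_forms {K : ℕ} (A : Fin K → ℕ) (B : Fin K → ℤ) (hA : ∀ i, 0 < A i)
    (hinj : Function.Injective (fun i => (A i, B i)))
    (hadm : ∀ p : ℕ, p.Prime → ∃ n : ℤ, ∀ i, ¬ (p : ℤ) ∣ A i * n + B i) :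
    ∃ (N : ℕ) (b : Fin K → ℕ), (∀ i, (b i : ℤ) = (A i : ℤ) * N + B i) ∧ AdmissibleL A b := by
  classical
  have hcop : ∀ i, IsCoprime (A i : ℤ) (B i) := by
    intro i
    rw [Int.isCoprime_iff_gcd_eq_one]
    by_contra hne
    obtain ⟨p, hp, hd⟩ := Nat.exists_prime_and_dvd hne
    obtain ⟨n, hn⟩ := hadm p hp
    apply hn i
    have h1 : (p : ℤ) ∣ A i := (Int.natCast_dvd_natCast.2 hd).trans (Int.gcd_dvd_left _ _)
    have h2 : (p : ℤ) ∣ B i := (Int.natCast_dvd_natCast.2 hd).trans (Int.gcd_dvd_right _ _)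
    exact dvd_add (h1.mul_right _) h2
  set N : ℕ := ∑ i, (B i).natAbs + 1 with hN
  have hbpos : ∀ i, 1 ≤ (A i : ℤ) * N + B i := by
    intro i
    have h1 : (B i).natAbs ≤ ∑ i, (B i).natAbs :=
      Finset.single_le_sum (f := fun i => (B i).natAbs) (fun _ _ => Nat.zero_le _) (mem_univ i)
    have h2 : (1 : ℤ) ≤ A i := by exact_mod_cast hA i
    have h3 : ((B i).natAbs : ℤ) + 1 ≤ N := by
      have : (B i).natAbs + 1 ≤ N := by omega
      exact_mod_cast this
    have h4 : -((B i).natAbs : ℤ) ≤ B i := by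
      have := neg_abs_le (B i)
      rwa [Int.abs_eq_natAbs] at this
    nlinarith
  set b : Fin K → ℕ := fun i => ((A i : ℤ) * N + B i).toNat with hb
  have hbz : ∀ i, (b i : ℤ) = (A i : ℤ) * N + B i := by
    intro i
    rw [hb]
    exact Int.toNat_of_nonneg (by have := hbpos i; omega)
  refine ⟨N, b, hbz, fun i => hA i, ?_, ?_⟩
  · intro i j hij heq
    have h1 : (A i : ℤ) * b j = (A j : ℤ) * b i := by exact_mod_cast heq
    rw [hbz, hbz] at h1
    have h2 : (A i : ℤ) * B j = A j * B i := by linarith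
    have h3 : (A i : ℤ) ∣ A j := (hcop i).dvd_of_dvd_mul_right (Dvd.intro _ h2)
    have h4 : (A j : ℤ) ∣ A i := (hcop j).dvd_of_dvd_mul_right (Dvd.intro _ h2.symm)
    have h5 : A i = A j :=
      Nat.dvd_antisymm (Int.natCast_dvd_natCast.1 h3) (Int.natCast_dvd_natCast.1 h4)
    have h6 : B i = B j := by
      rw [h5] at h2
      have h7 : (A j : ℤ) ≠ 0 := by exact_mod_cast (hA j).ne'
      exact (mul_left_cancel₀ h7 h2).symm
    exact hij (hinj (by simp [h5, h6]))
  · intro p hp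
    obtain ⟨n, hn⟩ := hadm p hp
    have hp0 : (p : ℤ) ≠ 0 := by exact_mod_cast hp.ne_zero
    refine ⟨((n - N) % p).toNat, fun i hdvd => hn i ?_⟩
    have h1 : (p : ℤ) ∣ (A i : ℤ) * (((n - N) % p).toNat : ℤ) + b i := by exact_mod_cast hdvd
    rw [Int.toNat_of_nonneg (Int.emod_nonneg _ hp0), hbz] at h1
    have h3 : (p : ℤ) ∣ (n - N) - (n - N) % p := Int.dvd_self_sub_emod
    have h4 := dvd_add h1 (Dvd.dvd.mul_left h3 (A i : ℤ))
    have h5 : (A i : ℤ) * ((n - N) % p) + ((A i : ℤ) * N + B i) +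
        (A i : ℤ) * ((n - N) - (n - N) % p) = (A i : ℤ) * n + B i := by ring
    rwa [h5] at h4

/-- the integer `z` is a (positive) prime -/
def IsP (z : ℤ) : Prop := ∃ p : ℕ, p.Prime ∧ z = p

theorem isP_iff {z : ℤ} {m : ℕ} (h : z = m) : IsP z ↔ m.Prime := by
  constructor
  · rintro ⟨p, hp, hz⟩
    have : m = p := by
      have h1 : (m : ℤ) = p := by rw [← h, hz]
      exact_mod_cast h1
    rw [this]; exact hp
  · intro hm
    exact ⟨m, hm, h⟩

/-- exact sets of prime forms, integer coefficients, along narrow progressions -/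
theorem forms_nar (hE : Eng) (A : Fin 45 → ℕ) (B : Fin 45 → ℤ) (hA : ∀ i, 0 < A i)
    (hinj : Function.Injective (fun i => (A i, B i)))
    (hadm : ∀ p : ℕ, p.Prime → ∃ n : ℤ, ∀ i, ¬ (p : ℤ) ∣ A i * n + B i) :
    ∃ E : Finset (Fin 45), 2 ≤ E.card ∧ Nar (fun n => ∀ i, IsP ((A i : ℤ) * n + B i) ↔ i ∈ E) := by
  classical
  obtain ⟨N₀, b, hb, hAb⟩ := nat_forms A B hA hinj hadm
  obtain ⟨k, hk, hE⟩ := hE
  obtain ⟨c, hc, hG⟩ := hE A b hAb
  obtain ⟨E, hE2, hEl⟩ := ap_of (by norm_num) A b hAb k c hk hc hG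
  refine ⟨E, hE2, ?_⟩
  apply Nar.affine (q := 1) (b := N₀) one_pos
  intro l₀
  obtain ⟨C, hC⟩ := hEl l₀
  refine ⟨C + 1, ?_⟩
  have ht : Tendsto (fun X : ℕ => 3 * X) atTop atTop :=
    tendsto_atTop_mono (fun X => (by show X ≤ 3 * X; omega)) tendsto_id
  refine ht.frequently ?_
  refine (hC.and_eventually ((log_ev' 3).and (eventually_ge_atTop 1))).mono ?_
  rintro X ⟨⟨d, hd1, hd2, hd3⟩, hXl, hX1⟩
  have hXr : (0 : ℝ) < X := by exact_mod_cast hX1
  have hll : Real.log X ≤ Real.log ((3 * X : ℕ) : ℝ) := by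
    apply Real.log_le_log hXr
    push_cast
    linarith
  have hl3 : 3 ≤ Real.log ((3 * X : ℕ) : ℝ) := hXl.trans hll
  refine ⟨d, hd1, ?_, ?_⟩
  · calc (d : ℝ) ≤ Real.log X ^ C := hd2
      _ ≤ Real.log ((3 * X : ℕ) : ℝ) ^ C := pow_le_pow_left₀ (by linarith) hll C
      _ ≤ _ := pow_le_pow_right₀ (by linarith) (by omega)
  · refine le_trans ?_ (hd3.trans ?_)
    · have h4 : Real.log X ^ C ≤ Real.log ((3 * X : ℕ) : ℝ) ^ C := pow_le_pow_left₀ (by linarith) hll C
      have h5 : 0 < Real.log X ^ C := by positivity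
      rw [div_le_div_iff₀ (by positivity) h5]
      push_cast at h4 hl3 ⊢
      calc 3 * (X : ℝ) * Real.log X ^ C ≤ 3 * (X : ℝ) * Real.log (3 * X) ^ C :=
            mul_le_mul_of_nonneg_left h4 (by positivity)
        _ = X * (3 * Real.log (3 * X) ^ C) := by ring
        _ ≤ X * (Real.log (3 * X) * Real.log (3 * X) ^ C) := by
            apply mul_le_mul_of_nonneg_left _ hXr.le
            apply mul_le_mul_of_nonneg_right hl3
            have : 0 ≤ Real.log (3 * (X : ℝ)) := by linarith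
            positivity
        _ = X * Real.log (3 * X) ^ (C + 1) := by rw [pow_succ]; ring
    · rw [Nat.cast_le]
      apply card_mono
      intro n _ hn t ht i
      obtain ⟨-, -, -, h4⟩ := hn t ht
      rw [← h4 i]
      apply isP_iff
      push_cast
      rw [hb]
      ring

open Classical in
/-- two prime forms, right order, auxiliary form -/
theorem count_aux {K : ℕ} (hK : 0 < K) (A : Fin K → ℕ) (B : Fin K → ℤ) (b : Fin K → ℕ) (N₀ : ℕ)
    (hb : ∀ i, (b i : ℤ) = (A i : ℤ) * N₀ + B i) (k c0 : ℝ) (hc0 : 0 < c0)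
    (hG : ∀ᶠ X : ℝ in atTop, c0 * X / Real.log X ^ K ≤ ((goodR k A b X).card : ℝ)) :
    ∃ c : ℝ, 0 < c ∧ ∀ᶠ x : ℝ in atTop, ∃ i j, i ≠ j ∧ c * x / Real.log x ^ K ≤
      (((Icc 1 ⌊x⌋₊).filter (fun n : ℕ => IsP ((A i : ℤ) * n + B i) ∧ IsP ((A j : ℤ) * n + B j))).card : ℝ) := by
  have hKr : (0 : ℝ) < K := by exact_mod_cast hK
  refine ⟨c0 / (4 * K ^ 2), by positivity, ?_⟩
  have ht : Tendsto (fun x : ℝ => x / 4) atTop atTop := tendsto_id.atTop_div_const (by norm_num)
  filter_upwards [ht.eventually hG, eventually_ge_atTop (4 * (N₀ : ℝ) + 12)] with x hx hx2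
  have hN0 : (0 : ℝ) ≤ N₀ := Nat.cast_nonneg _
  by_contra hcon
  push Not at hcon
  set G := goodR k A b (x / 4) with hGd
  set Gp : Fin K × Fin K → Finset ℕ := fun ij => G.filter (fun n => ij.1 ≠ ij.2 ∧
    (A ij.1 * n + b ij.1).Prime ∧ (A ij.2 * n + b ij.2).Prime) with hGp
  have hcov : G ⊆ (univ : Finset (Fin K × Fin K)).biUnion Gp := by
    intro n hn
    have hn' := hn
    rw [hGd, goodR, mem_filter] at hn'
    obtain ⟨-, -, -, i, j, hij, hi, hj⟩ := hn'
    rw [mem_biUnion]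
    refine ⟨(i, j), mem_univ _, ?_⟩
    rw [hGp, mem_filter]
    exact ⟨hn, hij, hi, hj⟩
  have hlx : 0 < Real.log (x / 4) := Real.log_pos (by linarith)
  have hlx' : Real.log (x / 4) ≤ Real.log x := Real.log_le_log (by linarith) (by linarith)
  have hq0 : 0 < c0 / (4 * K ^ 2) * x / Real.log x ^ K := by
    have : 0 < Real.log x := by linarith
    have : 0 < x := by linarith
    positivity
  have hbd : ∀ ij : Fin K × Fin K, ((Gp ij).card : ℝ) ≤ c0 / (4 * K ^ 2) * x / Real.log x ^ K := by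
    intro ij
    by_cases hij : ij.1 = ij.2
    · have : Gp ij = ∅ := by
        rw [hGp]
        apply filter_eq_empty_iff.2
        intro n _ h
        exact h.1 hij
      rw [this]
      simpa using hq0.le
    · refine le_trans ?_ (hcon ij.1 ij.2 hij).le
      rw [Nat.cast_le]
      apply card_le_card_of_injOn (fun n => n + N₀)
      · intro n hn
        rw [mem_coe, hGp, mem_filter, hGd, goodR, mem_filter, mem_Icc] at hn
        obtain ⟨⟨⟨h1, h2⟩, -⟩, -, h3, h4⟩ := hn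
        have h2' : (n : ℝ) ≤ 3 * (x / 4) := (Nat.le_floor_iff (by linarith)).1 h2
        rw [mem_coe, mem_filter, mem_Icc]
        refine ⟨⟨Nat.le_add_right_of_le h1, ?_⟩, ?_, ?_⟩
        · apply Nat.le_floor
          push_cast
          linarith
        · refine ⟨_, h3, ?_⟩
          push_cast
          rw [hb]; ring
        · refine ⟨_, h4, ?_⟩
          push_cast
          rw [hb]; ring
      · intro n _ m _ h
        have : n + N₀ = m + N₀ := h
        omega
  have h1 : (G.card : ℝ) ≤ ∑ ij : Fin K × Fin K, ((Gp ij).card : ℝ) := by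
    exact_mod_cast (card_le_card hcov).trans card_biUnion_le
  have i0 : Fin K := ⟨0, hK⟩
  have h2 : ∑ ij : Fin K × Fin K, ((Gp ij).card : ℝ) < c0 * (x / 4) / Real.log x ^ K := by
    have hlt : ∑ ij : Fin K × Fin K, ((Gp ij).card : ℝ) <
        ∑ _ij : Fin K × Fin K, c0 / (4 * K ^ 2) * x / Real.log x ^ K := by
      apply sum_lt_sum (fun ij _ => hbd ij)
      refine ⟨(i0, i0), mem_univ _, ?_⟩
      have : Gp (i0, i0) = ∅ := by
        rw [hGp]
        apply filter_eq_empty_iff.2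
        intro n _ h
        exact h.1 rfl
      rw [this]
      simpa using hq0
    refine lt_of_lt_of_le hlt (le_of_eq ?_)
    rw [sum_const, card_univ, Fintype.card_prod, Fintype.card_fin, nsmul_eq_mul]
    push_cast
    field_simp
  have h3 : c0 * (x / 4) / Real.log x ^ K ≤ c0 * (x / 4) / Real.log (x / 4) ^ K := by
    apply div_le_div_of_nonneg_left (by linarith [mul_pos hc0 (by linarith : (0 : ℝ) < x / 4)]) (by positivity)
    exact pow_le_pow_left₀ hlx.le hlx' _
  linarith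

open Classical in
/-- two prime forms, integer coefficients, right order -/
theorem forms_count (hE : Eng) (A : Fin 45 → ℕ) (B : Fin 45 → ℤ) (hA : ∀ i, 0 < A i)
    (hinj : Function.Injective (fun i => (A i, B i)))
    (hadm : ∀ p : ℕ, p.Prime → ∃ n : ℤ, ∀ i, ¬ (p : ℤ) ∣ A i * n + B i) :
    ∃ c : ℝ, 0 < c ∧ ∀ᶠ x : ℝ in atTop, ∃ i j, i ≠ j ∧ c * x / Real.log x ^ 45 ≤
      (((Icc 1 ⌊x⌋₊).filter (fun n : ℕ => IsP ((A i : ℤ) * n + B i) ∧ IsP ((A j : ℤ) * n + B j))).card : ℝ) := by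
  obtain ⟨N₀, b, hb, hAb⟩ := nat_forms A B hA hinj hadm
  obtain ⟨k, hk, hE⟩ := hE
  obtain ⟨c0, hc0, hG⟩ := hE A b hAb
  exact count_aux (by norm_num) A B b N₀ hb k c0 hc0 hG

end Pool.Agent.X34.E
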