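import Mathlib
import Pool.Agent.X34.E.E9

/-! Engine E (helper34): iterates of `x ↦ a + d x`. -/

set_option autoImplicit false

open Finset Filter

namespace Pool.Agent.X34.E

/-- the geometric sum -/
def gs (d : ℤ) (j : ℕ) : ℤ := ∑ i ∈ range j, d ^ i

theorem gs_add (d : ℤ) (j g : ℕ) : gs d (j + g) = gs d j + d ^ j * gs d g := by
  unfold gs
  rw [Finset.sum_range_add, Finset.mul_sum]
  congr 1
  refine Finset.sum_congr rfl fun i _ => ?_
  rw [pow_add]

theorem gs_mul (d : ℤ) (g : ℕ) : (1 - d) * gs d g = 1 - d ^ g := by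
  unfold gs
  have := mul_neg_geom_sum d g
  exact this

/-- iterating the map -/
theorem iter_rel (a d n : ℤ) (j g : ℕ) :
    d ^ (j + g) * n + a * gs d (j + g) = a * gs d j + (d ^ g * n + a * gs d g) * d ^ j := by
  rw [gs_add, pow_add]; ring

theorem dvd_pow_sub_one {p d : ℤ} (h : p ∣ d - 1) (g : ℕ) : p ∣ d ^ g - 1 :=
  h.trans (sub_one_dvd_pow_sub_one d g)

theorem gs_mod {p d : ℤ} (h : p ∣ d - 1) (g : ℕ) : p ∣ gs d g - g := by
  unfold gs
  have e : ∑ i ∈ range g, d ^ i - (g : ℤ) = ∑ i ∈ range g, (d ^ i - 1) := by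
    rw [Finset.sum_sub_distrib]
    simp
  rw [e]
  exact Finset.dvd_sum fun i _ => dvd_pow_sub_one h i

/-- the local conditions -/
theorem iter_adm (a d : ℤ) (hg : Int.gcd a d = 1) (h2 : 2 ∣ a * d) (G : Finset ℕ) (hG : G.card = 45)
    (hloc : ∀ p : ℕ, p.Prime → 3 ≤ p → p ≤ 43 → (p : ℤ) ∣ d - 1 → ¬ (p : ℤ) ∣ a →
      ∃ r : ℕ, ∀ g ∈ G, ¬ g ≡ r [MOD p]) (p : ℕ) (hp : p.Prime) :
    ∃ n : ℤ, ∀ g ∈ G, ¬ (p : ℤ) ∣ d ^ g * n + a * gs d g := by
  have hpp : Prime (p : ℤ) := Nat.prime_iff_prime_int.1 hp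
  have hnot1 : ¬ (p : ℤ) ∣ 1 := fun h => hpp.not_isUnit (isUnit_of_dvd_one h)
  by_cases hpd : (p : ℤ) ∣ d
  · have hpa : ¬ (p : ℤ) ∣ a := by
      intro hpa
      have h3 := Int.dvd_coe_gcd hpa hpd
      rw [hg] at h3
      exact hnot1 (by exact_mod_cast h3)
    refine ⟨1, fun g _ hd => ?_⟩
    rcases Nat.eq_zero_or_pos g with rfl | hg0
    · simp [gs] at hd
      exact hnot1 (by simpa using hd)
    · have h3 : (p : ℤ) ∣ d ^ g := hpd.trans (dvd_pow_self d (by omega))
      have h4 : (p : ℤ) ∣ a * gs d g := (dvd_add_right (h3.mul_right 1)).1 hd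
      rcases hpp.dvd_or_dvd h4 with h5 | h5
      · exact hpa h5
      · have h6 := gs_mul d g
        have h7 : (p : ℤ) ∣ (1 - d) * gs d g := h5.mul_left _
        rw [h6] at h7
        have h8 : (p : ℤ) ∣ 1 := by
          have := dvd_add h7 h3
          simpa using this
        exact hnot1 h8
  · by_cases hpa : (p : ℤ) ∣ a
    · refine ⟨1, fun g _ hd => hpd ?_⟩
      have h3 : (p : ℤ) ∣ a * gs d g := hpa.mul_right _
      have h4 : (p : ℤ) ∣ d ^ g * 1 := (dvd_add_left h3).1 hd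
      rw [mul_one] at h4
      exact hpp.dvd_of_dvd_pow h4
    · by_cases hp1 : (p : ℤ) ∣ d - 1
      · -- `p ≥ 3`
        have hp2 : p ≠ 2 := by
          rintro rfl
          rcases hpp.dvd_or_dvd (show ((2 : ℕ) : ℤ) ∣ a * d by exact_mod_cast h2) with h | h
          · exact hpa h
          · exact hpd h
        have hp3 : 3 ≤ p := by have := hp.two_le; omega
        obtain ⟨r, hr⟩ : ∃ r : ℕ, ∀ g ∈ G, ¬ g ≡ r [MOD p] := by
          by_cases h43 : p ≤ 43
          · exact hloc p hp hp3 h43 hp1 hpa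
          · have h47 : 46 ≤ p := by
              by_contra hc
              have h44 : p = 44 ∨ p = 45 := by omega
              rcases h44 with rfl | rfl
              · revert hp; decide
              · revert hp; decide
            have hcard : (G.image (fun g => g % p)).card < (range p).card := by
              rw [card_range]
              exact lt_of_le_of_lt card_image_le (by omega)
            obtain ⟨r, hr1, hr2⟩ := exists_mem_notMem_of_card_lt_card hcard
            refine ⟨r, fun g hg hm => hr2 (mem_image.2 ⟨g, hg, ?_⟩)⟩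
            rw [mem_range] at hr1
            have h3 : g % p = r % p := hm
            rw [h3, Nat.mod_eq_of_lt hr1]
        refine ⟨-(a * r), fun g hg' hd => hr g hg' ?_⟩
        have h3 := dvd_pow_sub_one hp1 g
        have h4 := gs_mod hp1 g
        have h5 : (p : ℤ) ∣ a * ((g : ℤ) - r) := by
          have e : a * ((g : ℤ) - r) = (d ^ g * -(a * r) + a * gs d g) + (d ^ g - 1) * (a * r) -
              (gs d g - g) * a := by ring
          rw [e]
          exact dvd_sub (dvd_add hd (h3.mul_right _)) (h4.mul_right _)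
        rcases hpp.dvd_or_dvd h5 with h6 | h6
        · exact absurd h6 hpa
        · have h7 : (r : ℤ) ≡ g [ZMOD p] := Int.modEq_iff_dvd.2 h6
          exact (Int.natCast_modEq_iff.1 h7).symm
      · -- the fixed point
        have hcop : IsCoprime (1 - d) (p : ℤ) := by
          rw [isCoprime_comm, hpp.coprime_iff_not_dvd]
          intro h
          apply hp1
          have : d - 1 = -(1 - d) := by ring
          rw [this]; exact (dvd_neg).2 h
        obtain ⟨u, v, huv⟩ := hcop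
        refine ⟨a * u, fun g _ hd => hpa ?_⟩
        have h3 : (p : ℤ) ∣ (1 - d) * (d ^ g * (a * u) + a * gs d g) := hd.mul_left _
        have h4 := gs_mul d g
        have e : a = (1 - d) * (d ^ g * (a * u) + a * gs d g) + p * (a * d ^ g * v) := by
          linear_combination (-a) * h4 - (a * d ^ g) * huv
        rw [e]
        exact dvd_add h3 (dvd_mul_right _ _)

/-- the forms of the iterates are distinct -/
theorem iter_inj (a d : ℤ) (hd : 1 ≤ d) (ha : a ≠ 0) (g g' : ℕ)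
    (h1 : (d.toNat ^ g : ℕ) = d.toNat ^ g') (h2 : a * gs d g = a * gs d g') : g = g' := by
  rcases eq_or_lt_of_le hd with h | h
  · subst h
    have h3 : ∀ j : ℕ, gs 1 j = j := by intro j; simp [gs]
    rw [h3, h3] at h2
    exact_mod_cast mul_left_cancel₀ ha h2
  · have h3 : 2 ≤ d.toNat := by omega
    exact Nat.pow_right_injective h3 h1

/-- narrow progressions of primes which the affine map `x ↦ a + d x` maps to primes -/
def Prog (a d : ℤ) : Prop := Nar (fun q => q.Prime ∧ IsP (a + q * d))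

/-- **iterates, narrow progressions** -/
theorem iter_nar (hE : Eng) (a d : ℤ) (hd : 1 ≤ d) (hg : Int.gcd a d = 1) (h2 : 2 ∣ a * d) (ha : a ≠ 0)
    (G : Finset ℕ) (hG : 45 ≤ G.card)
    (hloc : ∀ p : ℕ, p.Prime → 3 ≤ p → p ≤ 43 → (p : ℤ) ∣ d - 1 → ¬ (p : ℤ) ∣ a →
      ∃ r : ℕ, ∀ g ∈ G, ¬ g ≡ r [MOD p]) :
    ∃ g ∈ G, ∃ g' ∈ G, g < g' ∧ Prog (a * gs d (g' - g)) (d ^ (g' - g)) := by
  classical
  obtain ⟨T, hTG, hT⟩ := Finset.exists_subset_card_eq hG
  set f := T.orderEmbOfFin hT with hf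
  have hmem : ∀ i, f i ∈ T := fun i => Finset.orderEmbOfFin_mem T hT i
  have hdn : (d.toNat : ℤ) = d := Int.toNat_of_nonneg (by omega)
  have hdp : 0 < d.toNat := by omega
  obtain ⟨E, hE2, hN⟩ := forms_nar hE (fun i => d.toNat ^ (f i)) (fun i => a * gs d (f i))
    (fun i => pow_pos hdp _)
    (fun i j h => by
      have h' := Prod.mk.inj h
      exact f.injective (iter_inj a d hd ha _ _ h'.1 h'.2))
    (fun p hp => by
      obtain ⟨n, hn⟩ := iter_adm a d hg h2 T hT (fun p hp h3 h43 h1 h4 => by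
        obtain ⟨r, hr⟩ := hloc p hp h3 h43 h1 h4
        exact ⟨r, fun g hg => hr g (hTG hg)⟩) p hp
      refine ⟨n, fun i => ?_⟩
      push_cast
      rw [hdn]
      exact hn _ (hmem i))
  obtain ⟨i, hi, j, hj, hij⟩ := Finset.one_lt_card.1 (by omega : 1 < E.card)
  have key : ∀ i j, i ∈ E → j ∈ E → f i < f j → ∃ g ∈ G, ∃ g' ∈ G, g < g' ∧
      Prog (a * gs d (g' - g)) (d ^ (g' - g)) := by
    intro i j hi hj hlt
    refine ⟨f i, hTG (hmem i), f j, hTG (hmem j), hlt, ?_⟩
    -- shift so that the form `i` is natural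
    set B : ℤ := a * gs d (f i) with hB
    set Ai : ℕ := d.toNat ^ (f i) with hAi
    have hAi0 : 0 < Ai := pow_pos hdp _
    have hAi1 : (1 : ℤ) ≤ Ai := by exact_mod_cast hAi0
    obtain ⟨n₀, hn₀⟩ : ∃ n₀ : ℕ, -(n₀ : ℤ) ≤ B := ⟨B.natAbs, by
      have := neg_abs_le B
      rwa [Int.abs_eq_natAbs] at this⟩
    have hb0 : 0 ≤ (Ai : ℤ) * n₀ + B := by
      have h4 : (0 : ℤ) ≤ n₀ := Int.natCast_nonneg _
      nlinarith
    obtain ⟨b, hbz⟩ := Int.eq_ofNat_of_zero_le hb0
    apply Nar.affine (q := Ai) (b := b) hAi0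
    refine (hN.shift n₀).mono ?_
    intro m hm
    have h3 := (hm i).2 hi
    have h4 := (hm j).2 hj
    have e1 : (((Ai * m + b : ℕ)) : ℤ) =
        ((d.toNat ^ (f i) : ℕ) : ℤ) * ((m + n₀ : ℕ) : ℤ) + a * gs d (f i) := by
      have e0 : ((Ai * m + b : ℕ) : ℤ) = (Ai : ℤ) * m + ((Ai : ℤ) * n₀ + B) := by
        rw [hbz]; push_cast; ring
      rw [e0, hAi, hB]
      push_cast
      ring
    constructor
    · exact (isP_iff e1.symm).1 h3
    · rw [e1]
      have e2 : f j = (f j - f i) + f i := by omega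
      have e3 := iter_rel a d ((m + n₀ : ℕ) : ℤ) (f j - f i) (f i)
      rw [← e2] at e3
      have e4 : ((d.toNat ^ (f i) : ℕ) : ℤ) = d ^ (f i) := by push_cast; rw [hdn]
      have e5 : ((d.toNat ^ (f j) : ℕ) : ℤ) = d ^ (f j) := by push_cast; rw [hdn]
      rw [e4, ← e3, ← e5]
      exact h4
  rcases lt_or_gt_of_ne (fun h => hij (f.injective h) : f i ≠ f j) with h | h
  · exact key i j hi hj h
  · exact key j i hj hi h

open Classical in
/-- **iterates, right order** -/
theorem iter_count (hE : Eng) (a d : ℤ) (hd : 1 ≤ d) (hg : Int.gcd a d = 1) (h2 : 2 ∣ a * d) (ha : a ≠ 0)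
    (G : Finset ℕ) (hG : 45 ≤ G.card)
    (hloc : ∀ p : ℕ, p.Prime → 3 ≤ p → p ≤ 43 → (p : ℤ) ∣ d - 1 → ¬ (p : ℤ) ∣ a →
      ∃ r : ℕ, ∀ g ∈ G, ¬ g ≡ r [MOD p]) :
    ∃ c : ℝ, 0 < c ∧ ∀ᶠ x : ℝ in atTop, ∃ g ∈ G, ∃ g' ∈ G, g < g' ∧ c * x / Real.log x ^ 45 ≤
      (((Icc 1 ⌊x⌋₊).filter (fun q : ℕ => q.Prime ∧
        IsP (a * gs d (g' - g) + q * d ^ (g' - g)))).card : ℝ) := by
  obtain ⟨T, hTG, hT⟩ := Finset.exists_subset_card_eq hG
  set f := T.orderEmbOfFin hT with hf
  have hmem : ∀ i, f i ∈ T := fun i => Finset.orderEmbOfFin_mem T hT i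
  have hdn : (d.toNat : ℤ) = d := Int.toNat_of_nonneg (by omega)
  have hdp : 0 < d.toNat := by omega
  obtain ⟨c, hc, hN⟩ := forms_count hE (fun i => d.toNat ^ (f i)) (fun i => a * gs d (f i))
    (fun i => pow_pos hdp _)
    (fun i j h => by
      have h' := Prod.mk.inj h
      exact f.injective (iter_inj a d hd ha _ _ h'.1 h'.2))
    (fun p hp => by
      obtain ⟨n, hn⟩ := iter_adm a d hg h2 T hT (fun p hp h3 h43 h1 h4 => by
        obtain ⟨r, hr⟩ := hloc p hp h3 h43 h1 h4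
        exact ⟨r, fun g hg => hr g (hTG hg)⟩) p hp
      refine ⟨n, fun i => ?_⟩
      push_cast
      rw [hdn]
      exact hn _ (hmem i))
  -- size of the forms
  set M : ℕ := ∑ i, (d.toNat ^ (f i) + (a * gs d (f i)).natAbs) + 1 with hM
  have hMr : (1 : ℝ) ≤ M := by
    rw [hM]; push_cast
    have : (0 : ℝ) ≤ ∑ i, ((d.toNat : ℝ) ^ (f i) + ((a * gs d (f i)).natAbs : ℝ)) :=
      sum_nonneg fun i _ => by positivity
    linarith
  have hMi : ∀ i, d.toNat ^ (f i) + (a * gs d (f i)).natAbs ≤ M := by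
    intro i
    have := Finset.single_le_sum (f := fun i => d.toNat ^ (f i) + (a * gs d (f i)).natAbs)
      (fun _ _ => Nat.zero_le _) (mem_univ i)
    rw [hM]
    exact this.trans (Nat.le_succ _)
  refine ⟨c / M, by positivity, ?_⟩
  have ht : Tendsto (fun x : ℝ => x / M) atTop atTop := tendsto_id.atTop_div_const (by linarith)
  filter_upwards [ht.eventually hN, eventually_ge_atTop (3 * (M : ℝ))] with x hx hx3
  have hx0 : 0 < x := by linarith
  obtain ⟨i, j, hij, hcnt⟩ := hx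
  have hlt0 : f i ≠ f j := fun h => hij (f.injective h)
  have hX3 : 3 ≤ x / M := by rw [le_div_iff₀ (by linarith)]; linarith
  have hl1 : 0 < Real.log (x / M) := Real.log_pos (by linarith)
  have hl2 : Real.log (x / M) ≤ Real.log x := by
    apply Real.log_le_log (by linarith)
    rw [div_le_iff₀ (by linarith)]
    nlinarith
  have hlow : c / M * x / Real.log x ^ 45 ≤ c * (x / M) / Real.log (x / M) ^ 45 := by
    have e : c / M * x = c * (x / M) := by ring
    rw [e]
    apply div_le_div_of_nonneg_left (by positivity) (by positivity)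
    exact pow_le_pow_left₀ hl1.le hl2 _
  have key : ∀ i j, f i < f j → c * (x / M) / Real.log (x / M) ^ 45 ≤
      (((Icc 1 ⌊x / M⌋₊).filter (fun n : ℕ => IsP (((d.toNat ^ (f i) : ℕ) : ℤ) * n + a * gs d (f i)) ∧
        IsP (((d.toNat ^ (f j) : ℕ) : ℤ) * n + a * gs d (f j)))).card : ℝ) →
      ∃ g ∈ G, ∃ g' ∈ G, g < g' ∧ c / M * x / Real.log x ^ 45 ≤
      (((Icc 1 ⌊x⌋₊).filter (fun q : ℕ => q.Prime ∧
        IsP (a * gs d (g' - g) + q * d ^ (g' - g)))).card : ℝ) := by
    intro i j hlt hcnt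
    refine ⟨f i, hTG (hmem i), f j, hTG (hmem j), hlt, hlow.trans (hcnt.trans ?_)⟩
    rw [Nat.cast_le]
    apply card_le_card_of_injOn (fun n : ℕ => (((d.toNat ^ (f i) : ℕ) : ℤ) * n + a * gs d (f i)).toNat)
    · intro n hn
      rw [mem_coe, mem_filter, mem_Icc] at hn
      obtain ⟨⟨h3, h4⟩, h5, h6⟩ := hn
      have h4' : (n : ℝ) ≤ x / M := (Nat.le_floor_iff (by linarith)).1 h4
      obtain ⟨p, hp, hpe⟩ := h5
      have hval : (((d.toNat ^ (f i) : ℕ) : ℤ) * n + a * gs d (f i)).toNat = p := by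
        rw [hpe, Int.toNat_natCast]
      rw [show (fun n : ℕ => (((d.toNat ^ (f i) : ℕ) : ℤ) * n + a * gs d (f i)).toNat) n = p from hval]
      rw [mem_coe, mem_filter, mem_Icc]
      refine ⟨⟨hp.one_lt.le, ?_⟩, hp, ?_⟩
      · apply Nat.le_floor
        have h7 : (p : ℤ) ≤ ((M * n : ℕ) : ℤ) := by
          rw [← hpe]
          have h8 : a * gs d (f i) ≤ ((a * gs d (f i)).natAbs : ℤ) := by
            have := le_abs_self (a * gs d (f i))
            rwa [Int.abs_eq_natAbs] at this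
          have h9 : ((d.toNat ^ (f i) + (a * gs d (f i)).natAbs : ℕ) : ℤ) ≤ M := by exact_mod_cast hMi i
          have h10 : (1 : ℤ) ≤ n := by exact_mod_cast h3
          push_cast at h9 ⊢
          have h11 : (0 : ℤ) ≤ ((a * gs d (f i)).natAbs : ℤ) := Int.natCast_nonneg _
          push_cast at h11 h8
          nlinarith
        have h12 : (p : ℝ) ≤ M * n := by exact_mod_cast h7
        calc (p : ℝ) ≤ M * n := h12
          _ ≤ M * (x / M) := mul_le_mul_of_nonneg_left h4' (by linarith)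
          _ = x := by field_simp
      · rw [← hpe]
        have e2 : f j = (f j - f i) + f i := by omega
        have e3 := iter_rel a d (n : ℤ) (f j - f i) (f i)
        rw [← e2] at e3
        have e4 : ((d.toNat ^ (f i) : ℕ) : ℤ) = d ^ (f i) := by push_cast; rw [hdn]
        have e5 : ((d.toNat ^ (f j) : ℕ) : ℤ) = d ^ (f j) := by push_cast; rw [hdn]
        rw [e4, ← e3, ← e5]
        exact h6
    · intro n hn m hm hnm
      rw [mem_coe, mem_filter] at hn hm
      obtain ⟨p, hp, hpe⟩ := hn.2.1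
      obtain ⟨p', hp', hpe'⟩ := hm.2.1
      have h7 : (((d.toNat ^ (f i) : ℕ) : ℤ) * n + a * gs d (f i)).toNat =
        (((d.toNat ^ (f i) : ℕ) : ℤ) * m + a * gs d (f i)).toNat := hnm
      rw [hpe, hpe', Int.toNat_natCast, Int.toNat_natCast] at h7
      rw [h7, ← hpe'] at hpe
      have h8 : ((d.toNat ^ (f i) : ℕ) : ℤ) ≠ 0 := by
        have : d.toNat ^ (f i) ≠ 0 := (pow_pos hdp _).ne'
        exact_mod_cast this
      have h9 : ((d.toNat ^ (f i) : ℕ) : ℤ) * n = ((d.toNat ^ (f i) : ℕ) : ℤ) * m := by linarith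
      exact_mod_cast mul_left_cancel₀ h8 h9
  rcases lt_or_gt_of_ne hlt0 with h | h
  · exact key i j h hcnt
  · refine key j i h (hcnt.trans (le_of_eq ?_))
    congr 2
    apply filter_congr
    intro n _
    exact and_comm

theorem G45_loc (p : ℕ) (hp : p.Prime) (h3 : 3 ≤ p) : ∃ r : ℕ, ∀ g ∈ G45, ¬ g ≡ r [MOD p] := by
  obtain ⟨r, hr⟩ := G45_adm p hp (by omega)
  refine ⟨(p - 1) * r, fun g hg hm => hr g hg ?_⟩
  have h4 : r + g ≡ r + (p - 1) * r [MOD p] := hm.add_left r
  have h5 : r + (p - 1) * r = p * r := by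
    obtain ⟨s, rfl⟩ : ∃ s, p = s + 1 := ⟨p - 1, by omega⟩
    simp only [Nat.add_sub_cancel]
    ring
  rw [h5] at h4
  exact (Nat.modEq_zero_iff_dvd).1 (h4.trans ((Nat.modEq_zero_iff_dvd).2 (dvd_mul_right _ _)))

end Pool.Agent.X34.E
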