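import Mathlib
import Pool.Agent.X34.E.E10

/-! Engine E (helper34): iterates of `x ↦ (b x + c) / a`. -/

set_option autoImplicit false

open Finset Filter

namespace Pool.Agent.X34.E

/-- families of forms indexed by natural numbers: narrow progressions of the values of the form with the
smaller index -/
theorem fam_nar (hE : Eng) (T : Finset ℕ) (hT : T.card = 45) (A : ℕ → ℕ) (B : ℕ → ℤ) (hA : ∀ g ∈ T, 0 < A g)
    (hinj : ∀ g ∈ T, ∀ g' ∈ T, A g = A g' → B g = B g' → g = g')
    (hadm : ∀ p : ℕ, p.Prime → ∃ n : ℤ, ∀ g ∈ T, ¬ (p : ℤ) ∣ A g * n + B g) :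
    ∃ g ∈ T, ∃ g' ∈ T, g < g' ∧ Nar (fun q => q.Prime ∧ ∃ n : ℤ, (q : ℤ) = A g * n + B g ∧
      IsP (A g' * n + B g')) := by
  classical
  set f := T.orderEmbOfFin hT with hf
  have hmem : ∀ i, f i ∈ T := fun i => Finset.orderEmbOfFin_mem T hT i
  obtain ⟨E, hE2, hN⟩ := forms_nar hE (fun i => A (f i)) (fun i => B (f i))
    (fun i => hA _ (hmem i))
    (fun i j h => by
      have h' := Prod.mk.inj h
      exact f.injective (hinj _ (hmem i) _ (hmem j) h'.1 h'.2))
    (fun p hp => by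
      obtain ⟨n, hn⟩ := hadm p hp
      exact ⟨n, fun i => hn _ (hmem i)⟩)
  obtain ⟨i, hi, j, hj, hij⟩ := Finset.one_lt_card.1 (by omega : 1 < E.card)
  have key : ∀ i j, i ∈ E → j ∈ E → f i < f j → ∃ g ∈ T, ∃ g' ∈ T, g < g' ∧
      Nar (fun q => q.Prime ∧ ∃ n : ℤ, (q : ℤ) = A g * n + B g ∧ IsP (A g' * n + B g')) := by
    intro i j hi hj hlt
    refine ⟨f i, hmem i, f j, hmem j, hlt, ?_⟩
    have hAi0 : 0 < A (f i) := hA _ (hmem i)
    have hAi1 : (1 : ℤ) ≤ A (f i) := by exact_mod_cast hAi0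
    obtain ⟨n₀, hn₀⟩ : ∃ n₀ : ℕ, -(n₀ : ℤ) ≤ B (f i) := ⟨(B (f i)).natAbs, by
      have := neg_abs_le (B (f i))
      rwa [Int.abs_eq_natAbs] at this⟩
    have hb0 : 0 ≤ (A (f i) : ℤ) * n₀ + B (f i) := by
      have h4 : (0 : ℤ) ≤ n₀ := Int.natCast_nonneg _
      nlinarith
    obtain ⟨b, hbz⟩ := Int.eq_ofNat_of_zero_le hb0
    apply Nar.affine (q := A (f i)) (b := b) hAi0
    refine (hN.shift n₀).mono ?_
    intro m hm
    have h3 := (hm i).2 hi
    have h4 := (hm j).2 hj
    have e1 : (((A (f i) * m + b : ℕ)) : ℤ) = (A (f i) : ℤ) * ((m + n₀ : ℕ) : ℤ) + B (f i) := by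
      have e0 : ((A (f i) * m + b : ℕ) : ℤ) = (A (f i) : ℤ) * m + ((A (f i) : ℤ) * n₀ + B (f i)) := by
        rw [hbz]; push_cast; ring
      rw [e0]
      push_cast
      ring
    exact ⟨(isP_iff e1.symm).1 h3, _, e1, h4⟩
  rcases lt_or_gt_of_ne (fun h => hij (f.injective h) : f i ≠ f j) with h | h
  · exact key i j hi hj h
  · exact key j i hj hi h

/-- families of forms indexed by natural numbers: right order -/
theorem fam_count (hE : Eng) (T : Finset ℕ) (hT : T.card = 45) (A : ℕ → ℕ) (B : ℕ → ℤ) (hA : ∀ g ∈ T, 0 < A g)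
    (hinj : ∀ g ∈ T, ∀ g' ∈ T, A g = A g' → B g = B g' → g = g')
    (hadm : ∀ p : ℕ, p.Prime → ∃ n : ℤ, ∀ g ∈ T, ¬ (p : ℤ) ∣ A g * n + B g) :
    ∃ c : ℝ, 0 < c ∧ ∀ᶠ x : ℝ in atTop, ∃ g ∈ T, ∃ g' ∈ T, g < g' ∧ c * x / Real.log x ^ 45 ≤
      (Set.ncard {q : ℕ | (q : ℝ) ≤ x ∧ q.Prime ∧ ∃ n : ℤ, (q : ℤ) = A g * n + B g ∧
        IsP (A g' * n + B g')} : ℝ) := by
  classical
  set f := T.orderEmbOfFin hT with hf
  have hmem : ∀ i, f i ∈ T := fun i => Finset.orderEmbOfFin_mem T hT i
  obtain ⟨c, hc, hN⟩ := forms_count hE (fun i => A (f i)) (fun i => B (f i))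
    (fun i => hA _ (hmem i))
    (fun i j h => by
      have h' := Prod.mk.inj h
      exact f.injective (hinj _ (hmem i) _ (hmem j) h'.1 h'.2))
    (fun p hp => by
      obtain ⟨n, hn⟩ := hadm p hp
      exact ⟨n, fun i => hn _ (hmem i)⟩)
  -- size of the forms
  obtain ⟨M, hM⟩ : ∃ M : ℕ, M = ∑ g ∈ T, (A g + (B g).natAbs) + 1 := ⟨_, rfl⟩
  have hM1 : 1 ≤ M := by omega
  have hMr : (1 : ℝ) ≤ M := by exact_mod_cast hM1
  have hMi : ∀ g ∈ T, A g + (B g).natAbs ≤ M := by
    intro g hg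
    have := Finset.single_le_sum (f := fun g => A g + (B g).natAbs) (fun _ _ => Nat.zero_le _) hg
    rw [hM]
    exact this.trans (Nat.le_succ _)
  refine ⟨c / M, by positivity, ?_⟩
  have ht : Tendsto (fun x : ℝ => x / M) atTop atTop := tendsto_id.atTop_div_const (by linarith)
  filter_upwards [ht.eventually hN, eventually_ge_atTop (3 * (M : ℝ))] with x hx hx3
  have hx0 : 0 < x := by linarith
  obtain ⟨i, j, hij, hcnt⟩ := hx
  have hlt0 : f i ≠ f j := fun h => hij (f.injective h)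
  have hX3 : 3 ≤ x / M := by rw [le_div_iff₀ (by linarith)]; linarith
  have hl1 : 0 < Real.log (x / M) := Real.log_pos (by linarith)
  have hl2 : Real.log (x / M) ≤ Real.log x := by
    apply Real.log_le_log (by linarith)
    rw [div_le_iff₀ (by linarith)]
    nlinarith
  have hlow : c / M * x / Real.log x ^ 45 ≤ c * (x / M) / Real.log (x / M) ^ 45 := by
    have e : c / M * x = c * (x / M) := by ring
    rw [e]
    apply div_le_div_of_nonneg_left (by positivity) (by positivity)
    exact pow_le_pow_left₀ hl1.le hl2 _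
  have key : ∀ i j, f i < f j → c * (x / M) / Real.log (x / M) ^ 45 ≤
      (((Icc 1 ⌊x / M⌋₊).filter (fun n : ℕ => IsP ((A (f i) : ℤ) * n + B (f i)) ∧
        IsP ((A (f j) : ℤ) * n + B (f j)))).card : ℝ) →
      ∃ g ∈ T, ∃ g' ∈ T, g < g' ∧ c / M * x / Real.log x ^ 45 ≤
      (Set.ncard {q : ℕ | (q : ℝ) ≤ x ∧ q.Prime ∧ ∃ n : ℤ, (q : ℤ) = A g * n + B g ∧
        IsP (A g' * n + B g')} : ℝ) := by
    intro i j hlt hcnt
    refine ⟨f i, hmem i, f j, hmem j, hlt, hlow.trans (hcnt.trans ?_)⟩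
    rw [Nat.cast_le, ← Set.ncard_coe_finset]
    refine Set.ncard_le_ncard_of_injOn (fun n : ℕ => ((A (f i) : ℤ) * n + B (f i)).toNat) ?_ ?_ ?_
    · intro n hn
      rw [mem_coe, mem_filter, mem_Icc] at hn
      obtain ⟨⟨h3, h4⟩, h5, h6⟩ := hn
      have h4' : (n : ℝ) ≤ x / M := (Nat.le_floor_iff (by linarith)).1 h4
      obtain ⟨p, hp, hpe⟩ := h5
      have hval : ((A (f i) : ℤ) * n + B (f i)).toNat = p := by
        rw [hpe, Int.toNat_natCast]
      show ((A (f i) : ℤ) * n + B (f i)).toNat ∈ _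
      rw [hval]
      refine ⟨?_, hp, n, hpe.symm, h6⟩
      have h7 : (p : ℤ) ≤ ((M * n : ℕ) : ℤ) := by
        rw [← hpe]
        have h8 : B (f i) ≤ ((B (f i)).natAbs : ℤ) := by
          have := le_abs_self (B (f i))
          rwa [Int.abs_eq_natAbs] at this
        have h9 : ((A (f i) + (B (f i)).natAbs : ℕ) : ℤ) ≤ M := by exact_mod_cast hMi _ (hmem i)
        have h10 : (1 : ℤ) ≤ n := by exact_mod_cast h3
        push_cast at h9 ⊢
        have h11 : (0 : ℤ) ≤ ((B (f i)).natAbs : ℤ) := Int.natCast_nonneg _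
        push_cast at h11 h8
        nlinarith
      have h12 : (p : ℝ) ≤ M * n := by exact_mod_cast h7
      calc (p : ℝ) ≤ M * n := h12
        _ ≤ M * (x / M) := mul_le_mul_of_nonneg_left h4' (by linarith)
        _ = x := by field_simp
    · intro n hn m hm hnm
      rw [mem_coe, mem_filter] at hn hm
      obtain ⟨p, hp, hpe⟩ := hn.2.1
      obtain ⟨p', hp', hpe'⟩ := hm.2.1
      have h7 : ((A (f i) : ℤ) * n + B (f i)).toNat = ((A (f i) : ℤ) * m + B (f i)).toNat := hnm
      rw [hpe, hpe', Int.toNat_natCast, Int.toNat_natCast] at h7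
      rw [h7, ← hpe'] at hpe
      have h8 : (A (f i) : ℤ) ≠ 0 := by
        have := (hA _ (hmem i)).ne'
        exact_mod_cast this
      have h9 : (A (f i) : ℤ) * n = (A (f i) : ℤ) * m := by linarith
      exact_mod_cast mul_left_cancel₀ h8 h9
    · exact (Set.finite_Iic ⌊x⌋₊).subset fun q hq => Nat.le_floor hq.1
  rcases lt_or_gt_of_ne hlt0 with h | h
  · exact key i j h hcnt
  · refine key j i h (hcnt.trans (le_of_eq ?_))
    congr 2
    apply filter_congr
    intro n _
    exact and_comm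

/-- the sum `a ^ (j-1) + a ^ (j-2) b + ... + b ^ (j-1)` -/
def ss (a b : ℤ) (j : ℕ) : ℤ := ∑ i ∈ range j, a ^ i * b ^ (j - 1 - i)

theorem ss_succ (a b : ℤ) (j : ℕ) : ss a b (j + 1) = b * ss a b j + a ^ j := by
  unfold ss
  rw [Finset.sum_range_succ, Finset.mul_sum]
  have h1 : j + 1 - 1 - j = 0 := by omega
  rw [h1, pow_zero, mul_one]
  congr 1
  refine Finset.sum_congr rfl fun i hi => ?_
  have h2 : j + 1 - 1 - i = (j - 1 - i) + 1 := by
    have := mem_range.1 hi
    omega
  rw [h2, pow_succ]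
  ring

/-- iterating the relation -/
theorem chain_rel {a b c : ℤ} {J : ℕ} {L : ℕ → ℤ} (hL : ∀ j < J, a * L (j + 1) = b * L j + c) (g j : ℕ)
    (hj : g + j ≤ J) : a ^ j * L (g + j) - b ^ j * L g = c * ss a b j := by
  induction j with
  | zero => simp [ss]
  | succ j ih =>
    have h1 := ih (by omega)
    have h2 := hL (g + j) (by omega)
    rw [ss_succ, show g + (j + 1) = g + j + 1 by ring, pow_succ, pow_succ]
    linear_combination (a ^ j) * h2 + b * h1

/-- constants with `a s_(j+1) = b s_j + c` for `j < J` -/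
theorem chain_exists (a b c : ℤ) (hab : IsCoprime a b) (J : ℕ) :
    ∃ s : ℕ → ℤ, ∀ j < J, a * s (j + 1) = b * s j + c := by
  induction J with
  | zero => exact ⟨fun _ => 0, fun j hj => absurd hj (Nat.not_lt_zero _)⟩
  | succ J ih =>
    obtain ⟨s, hs⟩ := ih
    obtain ⟨u, v, huv⟩ : IsCoprime a (b ^ (J + 1)) := hab.pow_right
    -- `k b ^ (J + 1) ≡ - c - b s_J (mod a)`
    obtain ⟨k, hk⟩ : ∃ k : ℤ, k = v * (-(c + b * s J)) := ⟨_, rfl⟩
    obtain ⟨t, ht⟩ : ∃ t : ℤ, a * t = b * (s J + k * b ^ J) + c := by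
      refine ⟨u * (c + b * s J), ?_⟩
      rw [hk]
      linear_combination (c + b * s J) * huv
    refine ⟨fun j => if j ≤ J then s j + k * a ^ (J - j) * b ^ j else t, fun j hj => ?_⟩
    by_cases h : j < J
    · have h1 : j + 1 ≤ J := by omega
      have h2 : j ≤ J := by omega
      simp only [h1, h2, if_true]
      have h3 : J - j = (J - (j + 1)) + 1 := by omega
      have h4 := hs j h
      rw [h3, pow_succ, pow_succ]
      linear_combination h4
    · have h1 : j = J := by omega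
      subst h1
      have h2 : ¬ j + 1 ≤ j := by omega
      simp only [h2, if_false, le_refl, if_true, Nat.sub_self, pow_zero, mul_one]
      exact ht

/-- sums of powers modulo a divisor of `a - b` -/
theorem chain_mod {a b c : ℤ} {J : ℕ} {L : ℕ → ℤ} (hL : ∀ j < J, a * L (j + 1) = b * L j + c) {p : ℤ}
    (hab : p ∣ a - b) (j : ℕ) (hj : j ≤ J) : p ∣ a * (L j - L 0) - c * j := by
  induction j with
  | zero => simp
  | succ j ih =>
    have h1 := ih (by omega)
    have h2 := hL j (by omega)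
    have e : a * (L (j + 1) - L 0) - c * ((j + 1 : ℕ) : ℤ) = (a * (L j - L 0) - c * j) - (a - b) * L j := by
      push_cast
      linear_combination h2
    rw [e]
    exact dvd_sub h1 (hab.mul_right _)

/-- the local conditions -/
theorem chain_adm (a b : ℕ) (c : ℤ) (ha : 0 < a) (hb : 0 < b) (hab : a.Coprime b)
    (hac : IsCoprime (a : ℤ) c) (hbc : IsCoprime (b : ℤ) c) (hpar : ¬ (Odd a ∧ Odd b ∧ Odd c))
    (G : Finset ℕ) (hG : G.card = 45) (J : ℕ) (hJ : ∀ g ∈ G, g < J) (s : ℕ → ℤ)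
    (hs : ∀ j < J, (a : ℤ) * s (j + 1) = b * s j + c)
    (hloc : ∀ p : ℕ, p.Prime → 3 ≤ p → p ≤ 43 → (p : ℤ) ∣ (a : ℤ) - b → ¬ (p : ℤ) ∣ c →
      ∃ r : ℕ, ∀ g ∈ G, ¬ g ≡ r [MOD p]) (p : ℕ) (hp : p.Prime) :
    ∃ n : ℤ, ∀ g ∈ G, ¬ (p : ℤ) ∣ ((a ^ (J - g) * b ^ g : ℕ) : ℤ) * n + s g := by
  have hpp : Prime (p : ℤ) := Nat.prime_iff_prime_int.1 hp
  have hnu : ¬ IsUnit (p : ℤ) := hpp.not_isUnit
  have hL : ∀ n : ℤ, ∀ j < J, (a : ℤ) * (((a ^ (J - (j + 1)) * b ^ (j + 1) : ℕ) : ℤ) * n + s (j + 1)) =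
      b * (((a ^ (J - j) * b ^ j : ℕ) : ℤ) * n + s j) + c := by
    intro n j hj
    have h3 : J - j = (J - (j + 1)) + 1 := by omega
    have h4 := hs j hj
    rw [h3]
    push_cast
    rw [pow_succ, pow_succ]
    linear_combination h4
  have hcopab : IsCoprime (a : ℤ) (b : ℤ) := Nat.isCoprime_iff_coprime.2 hab
  by_cases hpa : (p : ℤ) ∣ (a : ℤ)
  · -- `p ∣ a`
    have hpc : ¬ (p : ℤ) ∣ c := fun h => hnu (hac.isUnit_of_dvd' hpa h)
    refine ⟨0, fun g hg hd => hpc ?_⟩
    have h1 := hL 0 g (hJ g hg)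
    have h2 : (p : ℤ) ∣ (b : ℤ) * (((a ^ (J - g) * b ^ g : ℕ) : ℤ) * 0 + s g) + c := by
      rw [← h1]
      exact hpa.mul_right _
    exact (dvd_add_right (hd.mul_left _)).1 h2
  · by_cases hpb : (p : ℤ) ∣ (b : ℤ)
    · have hpc : ¬ (p : ℤ) ∣ c := fun h => hnu (hbc.isUnit_of_dvd' hpb h)
      -- choose `n` with `p ∤ a ^ J n + s 0`
      obtain ⟨n, hn⟩ : ∃ n : ℤ, ¬ (p : ℤ) ∣ (a : ℤ) ^ J * n + s 0 := by
        by_cases h0 : (p : ℤ) ∣ s 0
        · refine ⟨1, fun h => hpa ?_⟩
          have h1 : (p : ℤ) ∣ (a : ℤ) ^ J * 1 := (dvd_add_left h0).1 h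
          rw [mul_one] at h1
          exact hpp.dvd_of_dvd_pow h1
        · exact ⟨0, by simpa using h0⟩
      refine ⟨n, fun g hg hd => ?_⟩
      rcases Nat.eq_zero_or_pos g with rfl | hg0
      · apply hn
        simpa using hd
      · have h1 := hL n (g - 1) (by have := hJ g hg; omega)
        rw [show g - 1 + 1 = g by omega] at h1
        apply hpc
        have h2 : (p : ℤ) ∣ (b : ℤ) * (((a ^ (J - (g - 1)) * b ^ (g - 1) : ℕ) : ℤ) * n + s (g - 1)) + c := by
          rw [← h1]
          exact hd.mul_left _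
        exact (dvd_add_right (hpb.mul_right _)).1 h2
    · -- `p ∤ a b`: choose the value of the form number `0`
      have hcopJ : IsCoprime ((a : ℤ) ^ J) (p : ℤ) := by
        apply IsCoprime.pow_left
        rw [isCoprime_comm, hpp.coprime_iff_not_dvd]
        exact hpa
      have hval : ∀ w : ℤ, ∃ n : ℤ, (p : ℤ) ∣ ((a : ℤ) ^ J * n + s 0) - w := by
        intro w
        obtain ⟨u, v, huv⟩ := hcopJ
        refine ⟨u * (w - s 0), -v * (w - s 0), ?_⟩
        linear_combination (w - s 0) * huv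
      by_cases hp1 : (p : ℤ) ∣ (a : ℤ) - b
      · by_cases hpc : (p : ℤ) ∣ c
        · -- the map is the identity
          obtain ⟨n, hn⟩ := hval 1
          refine ⟨n, fun g hg hd => ?_⟩
          have h1 := chain_mod (L := fun j => ((a ^ (J - j) * b ^ j : ℕ) : ℤ) * n + s j) (hL n) hp1 g (hJ g hg).le
          have e0 : ((a ^ (J - 0) * b ^ 0 : ℕ) : ℤ) * n + s 0 = (a : ℤ) ^ J * n + s 0 := by
            push_cast; simp
          rw [e0] at h1
          have h2 : (p : ℤ) ∣ a * ((((a ^ (J - g) * b ^ g : ℕ) : ℤ) * n + s g) - ((a : ℤ) ^ J * n + s 0)) := by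
            have h3 := dvd_add h1 (hpc.mul_right (g : ℤ))
            have e1 : (a : ℤ) * ((((a ^ (J - g) * b ^ g : ℕ) : ℤ) * n + s g) - ((a : ℤ) ^ J * n + s 0)) -
              c * g + c * g = a * ((((a ^ (J - g) * b ^ g : ℕ) : ℤ) * n + s g) - ((a : ℤ) ^ J * n + s 0)) := by
              ring
            rwa [e1] at h3
          rcases hpp.dvd_or_dvd h2 with h4 | h4
          · exact hpa h4
          · have h5 : (p : ℤ) ∣ (a : ℤ) ^ J * n + s 0 := (dvd_sub_right hd).1 h4
            have h6 : (p : ℤ) ∣ 1 := by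
              have h7 := dvd_sub h5 hn
              simpa using h7
            exact hnu (isUnit_of_dvd_one h6)
        · -- arithmetic progressions
          have hp2 : p ≠ 2 := by
            rintro rfl
            apply hpar
            refine ⟨?_, ?_, ?_⟩
            · rw [← Nat.not_even_iff_odd]
              intro h
              exact hpa (by exact_mod_cast h.two_dvd)
            · rw [← Nat.not_even_iff_odd]
              intro h
              exact hpb (by exact_mod_cast h.two_dvd)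
            · rw [← Int.not_even_iff_odd]
              intro h
              exact hpc (by exact_mod_cast h.two_dvd)
          have hp3 : 3 ≤ p := by have := hp.two_le; omega
          obtain ⟨r, hr⟩ : ∃ r : ℕ, ∀ g ∈ G, ¬ g ≡ r [MOD p] := by
            by_cases h43 : p ≤ 43
            · exact hloc p hp hp3 h43 hp1 hpc
            · have h47 : 46 ≤ p := by
                by_contra hc
                have h44 : p = 44 ∨ p = 45 := by omega
                rcases h44 with rfl | rfl
                · revert hp; decide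
                · revert hp; decide
              have hcard : (G.image (fun g => g % p)).card < (range p).card := by
                rw [card_range]
                exact lt_of_le_of_lt card_image_le (by omega)
              obtain ⟨r, hr1, hr2⟩ := exists_mem_notMem_of_card_lt_card hcard
              refine ⟨r, fun g hg hm => hr2 (mem_image.2 ⟨g, hg, ?_⟩)⟩
              rw [mem_range] at hr1
              have h3 : g % p = r % p := hm
              rw [h3, Nat.mod_eq_of_lt hr1]
          -- the value `w` with `a w ≡ - c r`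
          have hcopa : IsCoprime (a : ℤ) (p : ℤ) := by
            rw [isCoprime_comm, hpp.coprime_iff_not_dvd]
            exact hpa
          obtain ⟨u, v, huv⟩ := hcopa
          obtain ⟨n, hn⟩ := hval (u * (-(c * r)))
          refine ⟨n, fun g hg hd => hr g hg ?_⟩
          have h1 := chain_mod (L := fun j => ((a ^ (J - j) * b ^ j : ℕ) : ℤ) * n + s j) (hL n) hp1 g (hJ g hg).le
          have e0 : ((a ^ (J - 0) * b ^ 0 : ℕ) : ℤ) * n + s 0 = (a : ℤ) ^ J * n + s 0 := by
            push_cast; simp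
          rw [e0] at h1
          have h5 : (p : ℤ) ∣ c * ((g : ℤ) - r) := by
            have e : c * ((g : ℤ) - r) = a * (((a ^ (J - g) * b ^ g : ℕ) : ℤ) * n + s g) -
              (a * ((((a ^ (J - g) * b ^ g : ℕ) : ℤ) * n + s g) - ((a : ℤ) ^ J * n + s 0)) - c * g) -
              a * ((a : ℤ) ^ J * n + s 0 - u * (-(c * r))) - p * (v * (c * r)) := by
              linear_combination (c * r) * huv
            rw [e]
            exact dvd_sub (dvd_sub (dvd_sub (hd.mul_left (a : ℤ)) h1) (hn.mul_left (a : ℤ)))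
              (dvd_mul_right (p : ℤ) (v * (c * r)))
          rcases hpp.dvd_or_dvd h5 with h6 | h6
          · exact absurd h6 hpc
          · have h7 : (r : ℤ) ≡ g [ZMOD p] := Int.modEq_iff_dvd.2 h6
            exact (Int.natCast_modEq_iff.1 h7).symm
      · -- the fixed point
        have hcop1 : IsCoprime ((a : ℤ) - b) (p : ℤ) := by
          rw [isCoprime_comm, hpp.coprime_iff_not_dvd]
          exact hp1
        obtain ⟨u, v, huv⟩ := hcop1
        by_cases hpc : (p : ℤ) ∣ c
        · -- values proportional to the first one, which is chosen to be `1`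
          obtain ⟨n, hn⟩ := hval 1
          have hnz : ∀ j, j ≤ J → ¬ (p : ℤ) ∣ ((a ^ (J - j) * b ^ j : ℕ) : ℤ) * n + s j := by
            intro j
            induction j with
            | zero =>
              intro _ hd
              have e0 : ((a ^ (J - 0) * b ^ 0 : ℕ) : ℤ) * n + s 0 = (a : ℤ) ^ J * n + s 0 := by
                push_cast; simp
              rw [e0] at hd
              have h7 := dvd_sub hd hn
              have h6 : (p : ℤ) ∣ 1 := by simpa using h7
              exact hnu (isUnit_of_dvd_one h6)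
            | succ j ih =>
              intro hj hd
              have h1 := hL n j (by omega)
              have h2 : (p : ℤ) ∣ b * (((a ^ (J - j) * b ^ j : ℕ) : ℤ) * n + s j) + c := by
                rw [← h1]
                exact hd.mul_left _
              have h3 := (dvd_add_left hpc).1 h2
              rcases hpp.dvd_or_dvd h3 with h4 | h4
              · exact hpb h4
              · exact ih (by omega) h4
          exact ⟨n, fun g hg => hnz g (hJ g hg).le⟩
        · -- the fixed point `w = c / (a - b)` is not divisible by `p`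
          obtain ⟨n, hn⟩ := hval (u * c)
          have hfix : ∀ j, j ≤ J → (p : ℤ) ∣ (((a ^ (J - j) * b ^ j : ℕ) : ℤ) * n + s j) - u * c := by
            intro j
            induction j with
            | zero =>
              intro _
              have e0 : ((a ^ (J - 0) * b ^ 0 : ℕ) : ℤ) * n + s 0 = (a : ℤ) ^ J * n + s 0 := by
                push_cast; simp
              rw [e0]
              exact hn
            | succ j ih =>
              intro hj
              have h1 := hL n j (by omega)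
              have h2 := ih (by omega)
              have h3 : (p : ℤ) ∣ a * ((((a ^ (J - (j + 1)) * b ^ (j + 1) : ℕ) : ℤ) * n + s (j + 1)) - u * c) := by
                have e : (a : ℤ) * ((((a ^ (J - (j + 1)) * b ^ (j + 1) : ℕ) : ℤ) * n + s (j + 1)) - u * c) =
                  b * ((((a ^ (J - j) * b ^ j : ℕ) : ℤ) * n + s j) - u * c) + p * (v * c) := by
                  linear_combination h1 - c * huv
                rw [e]
                exact dvd_add (h2.mul_left _) (dvd_mul_right _ _)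
              rcases hpp.dvd_or_dvd h3 with h4 | h4
              · exact absurd h4 hpa
              · exact h4
          refine ⟨n, fun g hg hd => hpc ?_⟩
          have h1 := hfix g (hJ g hg).le
          have h2 : (p : ℤ) ∣ u * c := (dvd_sub_right hd).1 h1
          have e : c = ((a : ℤ) - b) * (u * c) + p * (v * c) := by
            linear_combination (-c) * huv
          rw [e]
          exact dvd_add (h2.mul_left _) (dvd_mul_right _ _)

/-- the forms are distinct -/
theorem chain_inj (a b : ℕ) (c : ℤ) (ha : 0 < a) (hb : 0 < b) (hc : c ≠ 0) (hab : a.Coprime b) (J : ℕ)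
    (s : ℕ → ℤ) (hs : ∀ j < J, (a : ℤ) * s (j + 1) = b * s j + c) (g g' : ℕ) (hg : g < J) (hg' : g' < J)
    (h1 : a ^ (J - g) * b ^ g = a ^ (J - g') * b ^ g') (h2 : s g = s g') : g = g' := by
  wlog hlt : g ≤ g' generalizing g g'
  · exact (this g' g hg' hg h1.symm h2.symm (by omega)).symm
  rcases hlt.eq_or_lt with h | h
  · exact h
  exfalso
  -- `a = b`
  have h3 : a ^ (g' - g) = b ^ (g' - g) := by
    have e1 : a ^ (J - g) = a ^ (J - g') * a ^ (g' - g) := by rw [← pow_add]; congr 1; omega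
    have e2 : b ^ g' = b ^ g * b ^ (g' - g) := by rw [← pow_add]; congr 1; omega
    rw [e1, e2] at h1
    have h4 : a ^ (J - g') * b ^ g * a ^ (g' - g) = a ^ (J - g') * b ^ g * b ^ (g' - g) := by
      calc a ^ (J - g') * b ^ g * a ^ (g' - g) = a ^ (J - g') * a ^ (g' - g) * b ^ g := by ring
        _ = a ^ (J - g') * (b ^ g * b ^ (g' - g)) := h1
        _ = _ := by ring
    exact Nat.eq_of_mul_eq_mul_left (by positivity) h4
  have h5 : a = b := Nat.pow_left_injective (by omega : g' - g ≠ 0) h3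
  subst h5
  have ha1 : a = 1 := by simpa using hab
  subst ha1
  have h6 : ∀ j, j ≤ J → s j = s 0 + j * c := by
    intro j
    induction j with
    | zero => intro _; simp
    | succ j ih =>
      intro hj
      have h7 := hs j (by omega)
      have h8 := ih (by omega)
      push_cast at h7 ⊢
      linear_combination h7 + h8
  rw [h6 g (by omega), h6 g' (by omega)] at h2
  have h9 : ((g : ℤ) - g') * c = 0 := by linear_combination h2
  rcases mul_eq_zero.1 h9 with h10 | h10
  · omega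
  · exact hc h10

/-- **iterates of `x ↦ (b x + c) / a`** -/
theorem chain_main (hE : Eng) (a b : ℕ) (c : ℤ) (ha : 0 < a) (hb : 0 < b) (hc : c ≠ 0) (hab : a.Coprime b)
    (hac : IsCoprime (a : ℤ) c) (hbc : IsCoprime (b : ℤ) c) (hpar : ¬ (Odd a ∧ Odd b ∧ Odd c))
    (G : Finset ℕ) (hG : G.card = 45)
    (hloc : ∀ p : ℕ, p.Prime → 3 ≤ p → p ≤ 43 → (p : ℤ) ∣ (a : ℤ) - b → ¬ (p : ℤ) ∣ c →
      ∃ r : ℕ, ∀ g ∈ G, ¬ g ≡ r [MOD p]) :
    (∃ g ∈ G, ∃ g' ∈ G, g < g' ∧ Nar (fun q => q.Prime ∧ ∃ p : ℕ, p.Prime ∧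
      (a : ℤ) ^ (g' - g) * p - (b : ℤ) ^ (g' - g) * q = c * ss a b (g' - g))) ∧
    ∃ c' : ℝ, 0 < c' ∧ ∀ᶠ x : ℝ in atTop, ∃ g ∈ G, ∃ g' ∈ G, g < g' ∧ c' * x / Real.log x ^ 45 ≤
      (Set.ncard {q : ℕ | (q : ℝ) ≤ x ∧ q.Prime ∧ ∃ p : ℕ, p.Prime ∧
        (a : ℤ) ^ (g' - g) * p - (b : ℤ) ^ (g' - g) * q = c * ss a b (g' - g)} : ℝ) := by
  classical
  obtain ⟨J, hJ⟩ : ∃ J : ℕ, ∀ g ∈ G, g < J := ⟨G.sup id + 1, fun g hg => by
    have h1 : g ≤ G.sup id := Finset.le_sup (f := id) hg
    omega⟩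
  obtain ⟨s, hs⟩ := chain_exists (a : ℤ) b c (Nat.isCoprime_iff_coprime.2 hab) J
  have hA : ∀ g ∈ G, 0 < a ^ (J - g) * b ^ g := fun g _ => by positivity
  have hinj : ∀ g ∈ G, ∀ g' ∈ G, a ^ (J - g) * b ^ g = a ^ (J - g') * b ^ g' → s g = s g' → g = g' :=
    fun g hg g' hg' => chain_inj a b c ha hb hc hab J s hs g g' (hJ g hg) (hJ g' hg')
  have hadm := chain_adm a b c ha hb hab hac hbc hpar G hG J hJ s hs hloc
  have hL : ∀ n : ℤ, ∀ j < J, (a : ℤ) * (((a ^ (J - (j + 1)) * b ^ (j + 1) : ℕ) : ℤ) * n + s (j + 1)) =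
      b * (((a ^ (J - j) * b ^ j : ℕ) : ℤ) * n + s j) + c := by
    intro n j hj
    have h3 : J - j = (J - (j + 1)) + 1 := by omega
    have h4 := hs j hj
    rw [h3]
    push_cast
    rw [pow_succ, pow_succ]
    linear_combination h4
  have key : ∀ g g' : ℕ, g < g' → g' < J → ∀ q : ℕ,
      (∃ n : ℤ, (q : ℤ) = ((a ^ (J - g) * b ^ g : ℕ) : ℤ) * n + s g ∧
        IsP (((a ^ (J - g') * b ^ g' : ℕ) : ℤ) * n + s g')) →
      ∃ p : ℕ, p.Prime ∧ (a : ℤ) ^ (g' - g) * p - (b : ℤ) ^ (g' - g) * q = c * ss a b (g' - g) := by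
    rintro g g' hlt hg' q ⟨n, hn, p, hp, hpe⟩
    refine ⟨p, hp, ?_⟩
    have h1 := chain_rel (J := J) (L := fun j => ((a ^ (J - j) * b ^ j : ℕ) : ℤ) * n + s j) (hL n) g (g' - g) (by omega)
    rw [show g + (g' - g) = g' by omega] at h1
    rw [hn, ← hpe]
    exact h1
  constructor
  · obtain ⟨g, hg, g', hg', hlt, h⟩ := fam_nar hE G hG (fun g => a ^ (J - g) * b ^ g) s hA hinj hadm
    refine ⟨g, hg, g', hg', hlt, h.mono ?_⟩
    rintro q ⟨hq, hn⟩
    exact ⟨hq, key g g' hlt (hJ g' hg') q hn⟩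
  · obtain ⟨c', hc', h⟩ := fam_count hE G hG (fun g => a ^ (J - g) * b ^ g) s hA hinj hadm
    refine ⟨c', hc', ?_⟩
    filter_upwards [h] with x hx
    obtain ⟨g, hg, g', hg', hlt, hx⟩ := hx
    refine ⟨g, hg, g', hg', hlt, hx.trans ?_⟩
    rw [Nat.cast_le]
    apply Set.ncard_le_ncard
    · rintro q ⟨h1, h2, h3⟩
      exact ⟨h1, h2, key g g' hlt (hJ g' hg') q h3⟩
    · exact (Set.finite_Iic ⌊x⌋₊).subset fun q hq => Nat.le_floor hq.1

end Pool.Agent.X34.E
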