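import Mathlib
import Pool.Agent.X34.E.E12
import Pool.Agent.TH779.Shat.Trace

/-! Engine E (helper34): families of linear forms, exactness outside an admissible subfamily. -/

set_option autoImplicit false

open Finset Filter

namespace Pool.Agent.X34.E

open Pool.Agent.H95R2.BG.LF
open Pool.Agent.TH779.Shat (congruences)

universe u

/-- a class in which the forms outside `S` have composite values, natural forms -/
theorem class_nat {K : ℕ} {ι : Type u} [Fintype ι] [DecidableEq ι] (a b : ι → ℕ)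
    (ha : ∀ i, 1 ≤ a i) (hne : ∀ i j, i ≠ j → a i * b j ≠ a j * b i) (S : Finset ι) (hS : S.card = K)
    (hloc : ∀ p : ℕ, p.Prime → ∃ n : ℕ, ∀ i ∈ S, ¬ p ∣ a i * n + b i) :
    ∃ (W ν : ℕ) (e : Fin K ≃ S) (A B : Fin K → ℕ), 0 < W ∧ AdmissibleL A B ∧
      (∀ i t, A i * t + B i = a (e i) * (W * t + ν) + b (e i)) ∧
      ∀ t, 1 ≤ t → ∀ i ∉ S, ¬ (a i * (W * t + ν) + b i).Prime := by
  classical
  obtain ⟨W, ν₀, hW, h1, h2⟩ := congruences a b ha hne S (univ \ S) sdiff_disjoint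
  set ν := ν₀ + W with hν
  have h1' : ∀ i ∉ S, ∃ p : ℕ, p.Prime ∧ p ∣ W ∧ p ∣ a i * ν + b i := by
    intro i hi
    obtain ⟨p, hp, hpW, hp2⟩ := h1 i (mem_sdiff.2 ⟨mem_univ _, hi⟩)
    refine ⟨p, hp, hpW, ?_⟩
    rw [hν, mul_add, add_right_comm]
    exact dvd_add hp2 (hpW.mul_left _)
  have h2' : ∀ p : ℕ, p.Prime → p ∣ W → ∀ j ∈ S, ¬ p ∣ a j * ν + b j := by
    intro p hp hpW j hj hd
    apply h2 p hp hpW j hj
    rw [hν, mul_add, add_right_comm] at hd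
    exact (Nat.dvd_add_left (hpW.mul_left (a j))).1 hd
  set e : Fin K ≃ S := (S.equivFinOfCardEq hS).symm with he
  set A : Fin K → ℕ := fun i => a (e i) * W with hA
  set B : Fin K → ℕ := fun i => a (e i) * ν + b (e i) with hB
  have hval : ∀ (i : Fin K) (t : ℕ), A i * t + B i = a (e i) * (W * t + ν) + b (e i) := by
    intro i t
    simp only [hA, hB]
    ring
  refine ⟨W, ν, e, A, B, hW, ⟨fun i => Nat.mul_pos (ha _) hW, ?_, ?_⟩, hval, ?_⟩
  · intro i j hij h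
    have hne' : ((e i : S) : ι) ≠ e j := fun h' => hij (e.injective (Subtype.ext h'))
    apply hne _ _ hne'
    simp only [hA, hB] at h
    have h3 : W * (a (e i) * b (e j)) = W * (a (e j) * b (e i)) := by
      have h4 : a (e i) * W * (a (e j) * ν + b (e j)) =
        W * (a (e i) * b (e j)) + W * (a (e i) * a (e j) * ν) := by ring
      have h5 : a (e j) * W * (a (e i) * ν + b (e i)) =
        W * (a (e j) * b (e i)) + W * (a (e i) * a (e j) * ν) := by ring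
      omega
    exact Nat.eq_of_mul_eq_mul_left hW h3
  · intro p hp
    by_cases hpW : p ∣ W
    · refine ⟨0, fun i => ?_⟩
      rw [hval]
      simp only [mul_zero, zero_add]
      exact h2' p hp hpW _ (e i).2
    · obtain ⟨n, hn⟩ := hloc p hp
      have : Fact p.Prime := ⟨hp⟩
      have hWZ : (W : ZMod p) ≠ 0 := fun h => hpW ((ZMod.natCast_eq_zero_iff _ _).1 h)
      refine ⟨(((n : ZMod p) - ν) / (W : ZMod p)).val, fun i hd => ?_⟩
      rw [hval] at hd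
      apply hn (e i) (e i).2
      rw [← ZMod.natCast_eq_zero_iff] at hd ⊢
      push_cast at hd ⊢
      rw [ZMod.natCast_zmod_val] at hd
      rw [← hd]
      field_simp
      ring
  · intro t ht1 i hiS hi
    obtain ⟨p, hp, hpW, hpd⟩ := h1' i hiS
    have h3 : p ∣ a i * (W * t + ν) + b i := by
      have : a i * (W * t + ν) + b i = W * (a i * t) + (a i * ν + b i) := by ring
      rw [this]
      exact dvd_add (hpW.mul_right _) hpd
    have h4 : p = a i * (W * t + ν) + b i := (Nat.prime_dvd_prime_iff_eq hp hi).1 h3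
    have h5 : p ≤ W := Nat.le_of_dvd hW hpW
    have h6 : W + W ≤ W * t + ν := by
      have : W * 1 ≤ W * t := Nat.mul_le_mul_left _ ht1
      omega
    have h7 : 1 * (W * t + ν) ≤ a i * (W * t + ν) := Nat.mul_le_mul_right _ (ha i)
    omega

/-- a class in which the forms outside `S` have composite values, integer forms -/
theorem class_int {K : ℕ} {ι : Type u} [Fintype ι] (a b : ι → ℤ)
    (ha : ∀ i, 0 < a i) (hne : ∀ i j, i ≠ j → a i * b j ≠ a j * b i) (S : Finset ι) (hS : S.card = K)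
    (hloc : ∀ p : ℕ, p.Prime → ∃ n : ℕ, ∀ i ∈ S, ¬ (p : ℤ) ∣ a i * n + b i) :
    ∃ (W ν : ℕ) (e : Fin K ≃ S) (A B : Fin K → ℕ), 0 < W ∧ AdmissibleL A B ∧
      (∀ i t, ((A i * t + B i : ℕ) : ℤ) = a (e i) * ((W * t + ν : ℕ) : ℤ) + b (e i)) ∧
      ∀ t, 1 ≤ t → ∀ i ∉ S, ¬ (a i * ((W * t + ν : ℕ) : ℤ) + b i).natAbs.Prime := by
  classical
  obtain ⟨s, hs⟩ : ∃ s : ℕ, s = ∑ i, (b i).natAbs := ⟨_, rfl⟩
  set A : ι → ℕ := fun i => (a i).toNat with hA
  set B : ι → ℕ := fun i => (a i * s + b i).toNat with hB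
  have hAi : ∀ i, ((A i : ℕ) : ℤ) = a i := fun i => Int.toNat_of_nonneg (ha i).le
  have hBi : ∀ i, ((B i : ℕ) : ℤ) = a i * s + b i := by
    intro i
    apply Int.toNat_of_nonneg
    have h1 : (b i).natAbs ≤ s := by
      rw [hs]
      exact single_le_sum (f := fun i => (b i).natAbs) (fun _ _ => Nat.zero_le _) (mem_univ i)
    have h2 : -(s : ℤ) ≤ b i := by omega
    have h3 : (s : ℤ) ≤ a i * s := by
      have := ha i
      nlinarith [Int.natCast_nonneg s]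
    linarith
  have hval : ∀ (i : ι) (t : ℕ), a i * ((t + s : ℕ) : ℤ) + b i = ((A i * t + B i : ℕ) : ℤ) := by
    intro i t
    push_cast
    rw [hAi, hBi]
    ring
  obtain ⟨W, ν, e, A', B', hW, hadm, hv, hcomp⟩ := class_nat A B (fun i => by
      have h1 := hAi i
      have h2 := ha i
      omega)
    (by
      intro i j hij h
      apply hne i j hij
      have h1 : ((A i * B j : ℕ) : ℤ) = ((A j * B i : ℕ) : ℤ) := by rw [h]
      push_cast at h1
      rw [hAi, hAi, hBi, hBi] at h1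
      linarith) S hS
    (by
      intro p hp
      obtain ⟨n, hn⟩ := hloc p hp
      refine ⟨n + (p - 1) * s, fun i hi hd => hn i hi ?_⟩
      have h1 : ((p : ℕ) : ℤ) ∣ ((A i * (n + (p - 1) * s) + B i : ℕ) : ℤ) :=
        Int.natCast_dvd_natCast.2 hd
      have h2 : ((A i * (n + (p - 1) * s) + B i : ℕ) : ℤ) = (a i * n + b i) + p * (a i * s) := by
        push_cast [Nat.cast_sub hp.one_lt.le]
        rw [hAi, hBi]
        ring
      rw [h2] at h1
      exact (Int.dvd_add_left (Dvd.intro _ rfl)).1 h1)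
  refine ⟨W, ν + s, e, A', B', hW, hadm, fun i t => ?_, fun t ht i hi hp => ?_⟩
  · rw [hv, ← add_assoc, hval]
  · rw [← add_assoc, hval, Int.natAbs_natCast] at hp
    exact hcomp t ht i hi hp

/-- exactly the forms of `T` have prime values at `n`, and the values of the forms of `S` have no prime
factors `≤ y` -/
def PtF {ι : Type u} (a b : ι → ℤ) (S T : Finset ι) (y : ℝ) (n : ℕ) : Prop :=
  (∀ i, (a i * (n : ℤ) + b i).natAbs.Prime ↔ i ∈ T) ∧
    ∀ i ∈ S, ∀ p : ℕ, p.Prime → (p : ℝ) ≤ y → ¬ (p : ℤ) ∣ a i * (n : ℤ) + b i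

theorem PtF_of {K : ℕ} {ι : Type u} (a b : ι → ℤ) (S : Finset ι) (W ν : ℕ) (e : Fin K ≃ S)
    (A B : Fin K → ℕ) (hv : ∀ i t, ((A i * t + B i : ℕ) : ℤ) = a (e i) * ((W * t + ν : ℕ) : ℤ) + b (e i))
    (hcomp : ∀ t, 1 ≤ t → ∀ i ∉ S, ¬ (a i * ((W * t + ν : ℕ) : ℤ) + b i).natAbs.Prime) :
    ∀ E y m, 1 ≤ m → At A B E y m →
      PtF a b S (E.map ⟨fun i => ((e i : S) : ι), fun _ _ h => e.injective (Subtype.ext h)⟩) y (W * m + ν) := by
  rintro E y m hm ⟨h1, h2⟩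
  constructor
  · intro i
    constructor
    · intro hi
      by_contra hiT
      by_cases hiS : i ∈ S
      · obtain ⟨j, hj⟩ := e.surjective ⟨i, hiS⟩
        have hj' : ((e j : S) : ι) = i := by rw [hj]
        apply hiT
        rw [Finset.mem_map]
        refine ⟨j, (h1 j).1 ?_, hj'⟩
        rw [← hj', ← hv, Int.natAbs_natCast] at hi
        exact hi
      · exact hcomp m hm i hiS hi
    · intro hi
      obtain ⟨j, hj, rfl⟩ := mem_map.1 hi
      show (a (e j) * ((W * m + ν : ℕ) : ℤ) + b (e j)).natAbs.Prime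
      rw [← hv, Int.natAbs_natCast]
      exact (h1 j).2 hj
  · intro i hiS p hp hpy hd
    obtain ⟨j, hj⟩ := e.surjective ⟨i, hiS⟩
    have hj' : ((e j : S) : ι) = i := by rw [hj]
    rw [← hj', ← hv] at hd
    exact h2 j p hp hpy (Int.natCast_dvd_natCast.1 hd)

theorem map_sub {K : ℕ} {ι : Type u} (S : Finset ι) (e : Fin K ≃ S) (E : Finset (Fin K)) :
    E.map ⟨fun i => ((e i : S) : ι), fun _ _ h => e.injective (Subtype.ext h)⟩ ⊆ S := by
  intro i hi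
  obtain ⟨j, -, rfl⟩ := mem_map.1 hi
  exact (e j).2

/-- families of forms with an admissible subfamily of `K` members: right order, for all large `x`, and one
set for arbitrarily large `x` -/
theorem forms_right {K : ℕ} {k : ℝ} (hk : 0 < k) (hE : ∀ (A B : Fin K → ℕ), AdmissibleL A B →
      ∃ c : ℝ, 0 < c ∧ ∀ᶠ X : ℝ in atTop, c * X / Real.log X ^ K ≤ ((goodR k A B X).card : ℝ))
    {ι : Type u} [Fintype ι] (a b : ι → ℤ)
    (ha : ∀ i, 0 < a i) (hne : ∀ i j, i ≠ j → a i * b j ≠ a j * b i) (S : Finset ι) (hS : S.card = K)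
    (hloc : ∀ p : ℕ, p.Prime → ∃ n : ℕ, ∀ i ∈ S, ¬ (p : ℤ) ∣ a i * n + b i) :
    ∃ c : ℝ, 0 < c ∧
      (∀ᶠ x : ℝ in atTop, ∃ T ⊆ S, 2 ≤ T.card ∧ c * x / Real.log x ^ K ≤
        (Set.ncard {n : ℕ | 1 ≤ n ∧ (n : ℝ) ≤ x ∧ PtF a b S T (x ^ (k / 2)) n} : ℝ)) ∧
      ∃ T ⊆ S, 2 ≤ T.card ∧ ∃ᶠ x : ℝ in atTop, c * x / Real.log x ^ K ≤
        (Set.ncard {n : ℕ | 1 ≤ n ∧ (n : ℝ) ≤ x ∧ PtF a b S T (x ^ (k / 2)) n} : ℝ) := by
  classical
  obtain ⟨W, ν, e, A, B, hW, hadm, hv, hcomp⟩ := class_int a b ha hne S hS hloc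
  obtain ⟨c0, hc0, hG⟩ := hE A B hadm
  obtain ⟨c, hc, h⟩ := transfer_count A B k c0 hk hc0 hG W ν hW _ (PtF_of a b S W ν e A B hv hcomp)
  have h' : ∀ᶠ x : ℝ in atTop, ∃ T : Finset ι, T ⊆ S ∧ 2 ≤ T.card ∧ c * x / Real.log x ^ K ≤
        (Set.ncard {n : ℕ | 1 ≤ n ∧ (n : ℝ) ≤ x ∧ PtF a b S T (x ^ (k / 2)) n} : ℝ) := by
    filter_upwards [h] with x hx
    obtain ⟨E, hE2, hx⟩ := hx
    exact ⟨_, map_sub S e E, by rwa [card_map], hx⟩
  refine ⟨c, hc, h', ?_⟩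
  obtain ⟨T, hT⟩ := pigeon_freq h'
  obtain ⟨x, hx⟩ := hT.exists
  exact ⟨T, hx.1, hx.2.1, hT.mono fun x hx => hx.2.2⟩

/-- narrow progressions -/
theorem forms_narrow {K : ℕ} (hK : 0 < K) {k : ℝ} (hk : 0 < k) (hE : ∀ (A B : Fin K → ℕ), AdmissibleL A B →
      ∃ c : ℝ, 0 < c ∧ ∀ᶠ X : ℝ in atTop, c * X / Real.log X ^ K ≤ ((goodR k A B X).card : ℝ))
    {ι : Type u} [Fintype ι] (a b : ι → ℤ)
    (ha : ∀ i, 0 < a i) (hne : ∀ i j, i ≠ j → a i * b j ≠ a j * b i) (S : Finset ι) (hS : S.card = K)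
    (hloc : ∀ p : ℕ, p.Prime → ∃ n : ℕ, ∀ i ∈ S, ¬ (p : ℤ) ∣ a i * n + b i) :
    ∃ T ⊆ S, 2 ≤ T.card ∧ ∀ l : ℕ, ∃ C : ℕ, ∃ᶠ N : ℕ in atTop, ∃ d : ℕ, 1 ≤ d ∧
      (d : ℝ) ≤ Real.log N ^ C ∧ (N : ℝ) / Real.log N ^ C ≤
        (Set.ncard {n : ℕ | 1 ≤ n ∧ n ≤ N ∧ ∀ t < l, PtF a b S T ((N : ℝ) ^ (k / 2)) (n + t * d)} : ℝ) := by
  classical
  obtain ⟨W, ν, e, A, B, hW, hadm, hv, hcomp⟩ := class_int a b ha hne S hS hloc
  obtain ⟨c0, hc0, hG⟩ := hE A B hadm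
  obtain ⟨E, hE2, h⟩ := transfer_nar hK A B hadm k c0 hk hc0 hG W ν hW _ (PtF_of a b S W ν e A B hv hcomp)
  exact ⟨_, map_sub S e E, by rwa [card_map], h⟩

end Pool.Agent.X34.E
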