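import Mathlib
import Pool.Agent.X34.E.E25

/-! Engine E (helper34): gaps at most `106 lcm (2, q)` in all windows around a positive proportion of the integers. -/

set_option autoImplicit false
set_option maxHeartbeats 4000000

open Finset Filter

namespace Pool.Agent.X34.E

open Pool.Agent.W123.RP

open Classical in
theorem co_eq (P : ℕ → Prop) (a b : ℕ) : co P a b = Set.ncard {m : ℕ | a < m ∧ m ≤ b ∧ P m} := by
  unfold co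
  rw [← Set.ncard_coe_finset]
  congr 1
  ext m
  rw [mem_coe, mem_filter, mem_Ioc, Set.mem_ofPred_eq, and_assoc]

open Classical in
theorem filter_eq (X : ℕ) (W : ℕ → Prop) : ((Ioc X (4 * X)).filter (fun n => W n)).card =
    Set.ncard {n : ℕ | X < n ∧ n ≤ 4 * X ∧ W n} := by
  rw [← Set.ncard_coe_finset]
  congr 1
  ext m
  rw [mem_coe, mem_filter, mem_Ioc, Set.mem_ofPred_eq, and_assoc]

/-- in all windows around `n` at the scale `X` there is the right order of elements with the property `A` -/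
def Reg (A : ℕ → Prop) (c C K : ℝ) (X n : ℕ) : Prop :=
  ∀ u v : ℕ, u ≤ n → n ≤ v → K * Real.log X ^ 45 ≤ (v : ℝ) - u → (v : ℝ) - u ≤ n →
    c * (((v : ℝ) - u) / Real.log X ^ 45) ≤ (Set.ncard {p : ℕ | u < p ∧ p ≤ v ∧ A p} : ℝ) ∧
    (Set.ncard {p : ℕ | u < p ∧ p ≤ v ∧ A p} : ℝ) ≤ C * (((v : ℝ) - u) / Real.log X ^ 45)

/-- the lower bound alone -/
def RegL (A : ℕ → Prop) (c K : ℝ) (X n : ℕ) : Prop :=
  ∀ u v : ℕ, u ≤ n → n ≤ v → K * Real.log X ^ 45 ≤ (v : ℝ) - u → (v : ℝ) - u ≤ n →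
    c * (((v : ℝ) - u) / Real.log X ^ 45) ≤ (Set.ncard {p : ℕ | u < p ∧ p ≤ v ∧ A p} : ℝ)

theorem nb_gaps' (hE : Eng) : ∃ k : ℝ, 0 < k ∧ ∀ (M a : ℕ), 0 < M → a.Coprime M → ∀ (G : Finset ℕ), G.card = 45 →
    (∀ p : ℕ, p.Prime → ¬ p ∣ M → ∃ r : ℕ, ∀ g ∈ G, ¬ p ∣ r + g) →
    ∃ c C K κ : ℝ, 0 < c ∧ 0 < C ∧ 0 < K ∧ 0 < κ ∧ ∀ᶠ X : ℕ in atTop, ∃ g ∈ G, ∃ g' ∈ G, g < g' ∧
      κ * X ≤ (Set.ncard {n : ℕ | X < n ∧ n ≤ 4 * X ∧ Reg (FollowR M a G g g' ((X : ℝ) ^ k)) c C K X n} : ℝ) := by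
  obtain ⟨k, hk, h⟩ := nb_gaps hE
  refine ⟨k, hk, fun M a hM0 ha G hG hadm => ?_⟩
  obtain ⟨c, C, K, κ, hc, hC, hK, hκ, hX⟩ := h M a hM0 ha G hG hadm
  refine ⟨c, C, K, κ, hc, hC, hK, hκ, ?_⟩
  filter_upwards [hX] with X hX
  obtain ⟨g, hg, g', hg', hgg, h1⟩ := hX
  refine ⟨g, hg, g', hg', hgg, h1.trans ?_⟩
  rw [Nat.cast_le, filter_eq]
  apply Set.ncard_le_ncard
  · rintro n ⟨h2, h3, h4⟩
    refine ⟨h2, h3, fun u v hu hv h5 h6 => ?_⟩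
    obtain ⟨h7, h8⟩ := h4 u v hu hv h5 h6
    rw [co_eq] at h7 h8
    rw [mul_div_assoc] at h7 h8
    exact ⟨h7, h8⟩
  · exact (Set.finite_Iic (4 * X)).subset fun n hn => hn.2.1

theorem Reg.lower {A B : ℕ → Prop} {c C K : ℝ} {X n : ℕ} (h : Reg A c C K X n) (hAB : ∀ p, A p → B p) :
    RegL B c K X n := by
  intro u v hu hv h1 h2
  refine (h u v hu hv h1 h2).1.trans ?_
  rw [Nat.cast_le]
  apply Set.ncard_le_ncard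
  · rintro p ⟨h3, h4, h5⟩
    exact ⟨h3, h4, hAB p h5⟩
  · exact (Set.finite_Iic v).subset fun n hn => hn.2.1

theorem nb_class (hE : Eng) (q a : ℕ) (hq : 0 < q) (ha : a.Coprime q) :
    ∃ c K κ : ℝ, 0 < c ∧ 0 < K ∧ 0 < κ ∧ ∀ᶠ X : ℕ in atTop, ∃ j : ℕ, 1 ≤ j ∧ j ≤ 106 ∧
      κ * X ≤ (Set.ncard {n : ℕ | X < n ∧ n ≤ 4 * X ∧ RegL (Follow q a (j * Nat.lcm 2 q)) c K X n} : ℝ) := by
  obtain ⟨k, hk, h⟩ := nb_gaps' hE
  obtain ⟨a', ha1, ha2⟩ := lift_class q a hq ha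
  have hM0 : 0 < Nat.lcm 2 q := Nat.lcm_pos (by norm_num) hq
  have hM2 : 2 ∣ Nat.lcm 2 q := Nat.dvd_lcm_left 2 q
  have hMq : q ∣ Nat.lcm 2 q := Nat.dvd_lcm_right 2 q
  obtain ⟨c, C, K, κ, hc, hC, hK, hκ, hX⟩ := h (Nat.lcm 2 q) a' hM0 ha2 G45 G45_card
    (fun p hp hpM => G45_adm p hp (fun h2 => hpM (h2 ▸ hM2)))
  refine ⟨c, K, κ, hc, hK, hκ, ?_⟩
  filter_upwards [hX] with X hX
  obtain ⟨g, hg, g', hg', hgg, h1⟩ := hX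
  have h106 := G45_le g' hg'
  refine ⟨g' - g, by omega, by omega, h1.trans ?_⟩
  rw [Nat.cast_le]
  apply Set.ncard_le_ncard
  · rintro n ⟨h2, h3, h4⟩
    refine ⟨h2, h3, h4.lower fun p hp => ?_⟩
    obtain ⟨⟨h5, h6, h7, h8⟩, -⟩ := hp
    exact ⟨(h5.of_dvd hMq).trans ha1, h6, h7, h8⟩
  · exact (Set.finite_Iic (4 * X)).subset fun n hn => hn.2.1

theorem nb_even (hE : Eng) (M a : ℕ) (hM0 : 0 < M) (hM2 : 2 ∣ M) (ha : a.Coprime M) :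
    ∃ c K κ : ℝ, 0 < c ∧ 0 < K ∧ 0 < κ ∧ ∀ᶠ X : ℕ in atTop, ∃ j : ℕ, 1 ≤ j ∧ j ≤ 106 ∧
      κ * X ≤ (Set.ncard {n : ℕ | X < n ∧ n ≤ 4 * X ∧ RegL (Follow M a (j * M)) c K X n} : ℝ) := by
  obtain ⟨k, hk, h⟩ := nb_gaps' hE
  obtain ⟨c, C, K, κ, hc, hC, hK, hκ, hX⟩ := h M a hM0 ha G45 G45_card
    (fun p hp hpM => G45_adm p hp (fun h2 => hpM (h2 ▸ hM2)))
  refine ⟨c, K, κ, hc, hK, hκ, ?_⟩
  filter_upwards [hX] with X hX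
  obtain ⟨g, hg, g', hg', hgg, h1⟩ := hX
  have h106 := G45_le g' hg'
  refine ⟨g' - g, by omega, by omega, h1.trans ?_⟩
  rw [Nat.cast_le]
  apply Set.ncard_le_ncard
  · rintro n ⟨h2, h3, h4⟩
    exact ⟨h2, h3, h4.lower fun p hp => hp.1⟩
  · exact (Set.finite_Iic (4 * X)).subset fun n hn => hn.2.1

end Pool.Agent.X34.E
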