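import Mathlib
import Pool.Agent.X34.E.E24
import Pool.Agent.X34.E.E18

set_option autoImplicit false
set_option maxHeartbeats 4000000

/-! # Regular neighbourhoods for 45 linear forms -/

namespace Pool.Agent.X34.E

open Finset Filter
open Pool.Agent.H95R2.BG.LF
open Pool.Agent.W123.RP Pool.Agent.H373R2.T7 Pool.Agent.W123.RU Pool.Agent.W123.RU.Poly
open Pool.Agent.TH464.PW
open Pool.Agent.W182.PW

/-- all the forms have values without prime factors `≤ y` -/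
def RoughA (A B : Fin 45 → ℕ) (y : ℝ) (m : ℕ) : Prop :=
  ∀ i, ∀ p : ℕ, p.Prime → (p : ℝ) ≤ y → ¬ p ∣ A i * m + B i

theorem Q_A (A B : Fin 45 → ℕ) (p m : ℕ) : Q (fun i : Fin 45 => lin (A i) ((B i : ℕ) : ℤ)) p m ↔
    ∃ i, p ∣ A i * m + B i := by
  unfold Q
  constructor
  · rintro ⟨i, hi⟩
    rw [lin_eval] at hi
    exact ⟨i, by exact_mod_cast hi⟩
  · rintro ⟨i, hd⟩
    refine ⟨i, ?_⟩
    rw [lin_eval]
    exact_mod_cast hd

theorem win_countF (hE : Eng) : ∃ k : ℝ, 0 < k ∧ ∀ (A B : Fin 45 → ℕ), AdmissibleL A B →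
    ∃ c : ℝ, 0 < c ∧ ∀ᶠ x : ℝ in atTop, ∃ P : Finset (Fin 45), 2 ≤ P.card ∧ c * x / Real.log x ^ 45 ≤
      (Set.ncard {n : ℕ | x < n ∧ (n : ℝ) ≤ 3 * x ∧ At A B P (x ^ k) n} : ℝ) := by
  obtain ⟨k, hk, hE⟩ := hE
  refine ⟨k / 2, by positivity, fun A B hadm => ?_⟩
  obtain ⟨c0, hc0, hG⟩ := hE A B hadm
  obtain ⟨c', hc', h⟩ := transfer_window A B k c0 hk hc0 hG 1 0 one_pos (fun E y n => At A B E y n)
    (fun E y m _ h => by rwa [one_mul, add_zero])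
  refine ⟨c', hc', ?_⟩
  filter_upwards [h] with x hx
  obtain ⟨E, hE2, hx⟩ := hx
  refine ⟨E, hE2, ?_⟩
  simpa using hx

open Classical in
theorem nbF (hE : Eng) : ∃ k : ℝ, 0 < k ∧ ∀ (A B : Fin 45 → ℕ), AdmissibleL A B →
    ∃ c₁ c₂ K κ : ℝ, 0 < c₁ ∧ 0 < c₂ ∧ 0 < K ∧ 0 < κ ∧ ∀ᶠ X : ℕ in atTop, ∃ E : Finset (Fin 45), 2 ≤ E.card ∧
      κ * X ≤ (((Ioc X (4 * X)).filter (fun n => ∀ a b : ℕ, a ≤ n → n ≤ b →
        K * Real.log X ^ 45 ≤ (b : ℝ) - a → (b : ℝ) - a ≤ n →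
          c₁ * ((b : ℝ) - a) / Real.log X ^ 45 ≤ co (At A B E ((X : ℝ) ^ k)) a b ∧
            (co (RoughA A B ((X : ℝ) ^ k)) a b : ℝ) ≤ c₂ * ((b : ℝ) - a) / Real.log X ^ 45)).card : ℝ) := by
  obtain ⟨k, hk, hW⟩ := win_countF hE
  refine ⟨k, hk, fun A B hadm => ?_⟩
  obtain ⟨c, hc, hwin⟩ := hW A B hadm
  have hsys := sys_of A B hadm
  have hkc : Fintype.card (Fin 45) = 45 := Fintype.card_fin 45
  obtain ⟨cc, hcc, hPer⟩ := exists_c (fun i : Fin 45 => lin (A i) ((B i : ℕ) : ℤ)) hsys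
  obtain ⟨D', e, hlarge⟩ := exists_large (fun i : Fin 45 => lin (A i) ((B i : ℕ) : ℤ)) hsys
  obtain ⟨v, Cv, hv, hCv, hV⟩ := V_bounds (fun i : Fin 45 => lin (A i) ((B i : ℕ) : ℤ)) hsys
  rw [hkc] at hV
  obtain ⟨K1, hK1, hmain⟩ := Pool.Agent.W123.RU.sieve_regular cc (2 * cc) (cc ^ 2) D' e hcc
  obtain ⟨r0, hr0⟩ : ∃ r0 : ℕ, r0 = max K1 ⌈2 / k⌉₊ := ⟨_, rfl⟩
  have hr1 : K1 ≤ r0 := by rw [hr0]; exact le_max_left _ _
  have hrk : 2 / k ≤ r0 := (Nat.le_ceil _).trans (by exact_mod_cast (hr0 ▸ le_max_right _ _))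
  have hr2 : 2 ≤ r0 := hK1.trans hr1
  have hrpos : (0 : ℝ) < r0 := by
    have : (2 : ℝ) ≤ r0 := by exact_mod_cast hr2
    linarith
  set C3 : ℝ := Cv * (2 * r0) ^ 45 with hC3
  have hC30 : 0 < C3 := by positivity
  obtain ⟨c₁, c₂, K, κ, L0, hc₁, hc₂, hK, hκ, hreg⟩ := hmain r0 hr1 (c / 4) C3 (by positivity) hC30
  have hXr : Tendsto (fun X : ℕ => (X : ℝ)) atTop atTop := tendsto_natCast_atTop_atTop
  have hpow : Tendsto (fun X : ℕ => (X : ℝ) ^ (1 / (2 * r0 : ℝ))) atTop atTop :=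
    (tendsto_rpow_atTop (by positivity)).comp hXr
  have hlogX : Tendsto (fun X : ℕ => Real.log (X : ℝ)) atTop atTop :=
    Real.tendsto_log_atTop.comp hXr
  -- the statement at one scale
  have key : ∀ᶠ X : ℕ in atTop, ∀ (y : ℝ) (P : Finset (Fin 45)), (X : ℝ) ^ (1 / (r0 : ℝ)) ≤ y →
      c / 4 * X / Real.log X ^ 45 ≤ (co (At A B P y) X (2 * X) : ℝ) →
      κ * X ≤ (((Ioc X (2 * X)).filter (fun n => ∀ a b : ℕ, a ≤ n → n ≤ b →
        K * Real.log X ^ 45 ≤ (b : ℝ) - a → (b : ℝ) - a ≤ n →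
          c₁ * ((b : ℝ) - a) / Real.log X ^ 45 ≤ co (At A B P y) a b ∧
            (co (RoughA A B y) a b : ℝ) ≤ c₂ * ((b : ℝ) - a) / Real.log X ^ 45)).card : ℝ) := by
    filter_upwards [hreg, eventually_ge_atTop 16, hpow.eventually_ge_atTop 3,
      hlogX.eventually_ge_atTop (2 + |L0|), logpow_le (8 * 45) 1 (by norm_num)]
      with X hreg hX16 hX2 hXlog hlp
    intro y P hy hcnt
    have hX16r : (16 : ℝ) ≤ X := by exact_mod_cast hX16
    have hXpos : (0 : ℝ) < X := by linarith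
    have hL0a : 0 ≤ |L0| := abs_nonneg _
    have hlX1 : 1 ≤ Real.log X := by linarith
    have hlX : 0 < Real.log X := by linarith
    set L : ℝ := Real.log X ^ 45 with hL
    have hlL : Real.log X ≤ L := by
      calc Real.log X = Real.log X ^ 1 := (pow_one _).symm
        _ ≤ Real.log X ^ 45 := pow_le_pow_right₀ hlX1 (by norm_num)
    have hLpos : 0 < L := by linarith
    have hL8 : L ^ 8 ≤ X := by
      rw [hL, ← pow_mul, mul_comm 45 8]
      linarith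
    obtain ⟨hy1, hy2, hy3, hy4⟩ := level_low r0 hr2 X (by omega) (by linarith)
    have hy5 : 3 ≤ ⌊(X : ℝ) ^ (1 / (r0 : ℝ))⌋₊ := by
      have : (3 : ℝ) ≤ ⌊(X : ℝ) ^ (1 / (r0 : ℝ))⌋₊ := hX2.trans hy1
      exact_mod_cast this
    have hVy : Vq (Q (fun i : Fin 45 => lin (A i) ((B i : ℕ) : ℤ))) ⌊(X : ℝ) ^ (1 / (r0 : ℝ))⌋₊ ≤ C3 / L := by
      refine (hV _ hy5).2.trans ?_
      have h1 : (Real.log X / (2 * r0)) ^ 45 ≤ Real.log ⌊(X : ℝ) ^ (1 / (r0 : ℝ))⌋₊ ^ 45 :=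
        pow_le_pow_left₀ (by positivity) hy2 45
      calc Cv / Real.log ⌊(X : ℝ) ^ (1 / (r0 : ℝ))⌋₊ ^ 45 ≤ Cv / (Real.log X / (2 * r0)) ^ 45 := by gcongr
        _ = C3 / L := by rw [hC3, hL, div_pow]; field_simp
    obtain ⟨E0, hE0, hlarge'⟩ := hlarge ⌊L⌋₊
    refine hreg (Q (fun i : Fin 45 => lin (A i) ((B i : ℕ) : ℤ))) (CoG (Q (fun i : Fin 45 => lin (A i) ((B i : ℕ) : ℤ)))) L E0
      (sdata _ hsys cc hPer) (by
        have := le_abs_self L0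
        linarith) hL8 hVy hE0 (fun h hh hhE => hlarge' _ h hh hhE) (At A B P y) (RoughA A B y)
      (fun n hn => hn.2) ?_ hcnt
    intro m hm _ _ p hp hq
    rw [mem_pz] at hp
    rw [Q_A] at hq
    obtain ⟨i, hd⟩ := hq
    refine hm i p hp.2 ?_ hd
    exact ((Nat.le_floor_iff (by positivity)).1 hp.1).trans hy
  have key2 : ∀ᶠ X : ℕ in atTop, ∀ (y : ℝ) (P : Finset (Fin 45)), ((2 * X : ℕ) : ℝ) ^ (1 / (r0 : ℝ)) ≤ y →
      c / 4 * ((2 * X : ℕ) : ℝ) / Real.log ((2 * X : ℕ) : ℝ) ^ 45 ≤ (co (At A B P y) (2 * X) (2 * (2 * X)) : ℝ) →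
      κ * ((2 * X : ℕ) : ℝ) ≤ (((Ioc (2 * X) (2 * (2 * X))).filter (fun n => ∀ a b : ℕ, a ≤ n → n ≤ b →
        K * Real.log ((2 * X : ℕ) : ℝ) ^ 45 ≤ (b : ℝ) - a → (b : ℝ) - a ≤ n →
          c₁ * ((b : ℝ) - a) / Real.log ((2 * X : ℕ) : ℝ) ^ 45 ≤ co (At A B P y) a b ∧
            (co (RoughA A B y) a b : ℝ) ≤ c₂ * ((b : ℝ) - a) / Real.log ((2 * X : ℕ) : ℝ) ^ 45)).card : ℝ) :=
    (tendsto_id.const_mul_atTop' (by norm_num : 0 < 2)).eventually key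
  refine ⟨c₁ / 2 ^ 45, c₂, K * 2 ^ 45, κ, by positivity, hc₂, by positivity, hκ, ?_⟩
  filter_upwards [key, key2, hXr.eventually hwin, eventually_ge_atTop 16,
    hlogX.eventually_ge_atTop 1] with X hkey hkey2 hwin hX16 hlX1
  obtain ⟨P, hP2, hcount⟩ := hwin
  refine ⟨P, hP2, ?_⟩
  have hX16r : (16 : ℝ) ≤ X := by exact_mod_cast hX16
  have hXpos : (0 : ℝ) < X := by linarith
  have hlX : 0 < Real.log X := by linarith
  set L : ℝ := Real.log X ^ 45 with hL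
  have hLpos : 0 < L := by positivity
  set y : ℝ := (X : ℝ) ^ k with hy
  have h2Xc : ((2 * X : ℕ) : ℝ) = 2 * X := by push_cast; ring
  have hyX : (X : ℝ) ^ (1 / (r0 : ℝ)) ≤ y ∧ ((2 * X : ℕ) : ℝ) ^ (1 / (r0 : ℝ)) ≤ y := by
    have h1 : ((2 * X : ℕ) : ℝ) ^ (1 / (r0 : ℝ)) ≤ y := by
      calc ((2 * X : ℕ) : ℝ) ^ (1 / (r0 : ℝ)) ≤ ((X : ℝ) ^ (2 : ℝ)) ^ (1 / (r0 : ℝ)) := by
            apply Real.rpow_le_rpow (by positivity) _ (by positivity)
            rw [h2Xc, Real.rpow_two]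
            nlinarith
        _ = (X : ℝ) ^ (2 / (r0 : ℝ)) := by
            rw [← Real.rpow_mul hXpos.le]
            congr 1
            ring
        _ ≤ y := by
            apply Real.rpow_le_rpow_of_exponent_le (by linarith)
            rw [div_le_iff₀ hrpos]
            rw [div_le_iff₀ hk] at hrk
            linarith
    refine ⟨le_trans ?_ h1, h1⟩
    apply Real.rpow_le_rpow hXpos.le _ (by positivity)
    rw [h2Xc]
    linarith
  have hlog2 : Real.log X ≤ Real.log ((2 * X : ℕ) : ℝ) ∧ Real.log ((2 * X : ℕ) : ℝ) ≤ 2 * Real.log X := by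
    constructor
    · apply Real.log_le_log hXpos
      rw [h2Xc]
      linarith
    · rw [← Real.log_rpow hXpos]
      apply Real.log_le_log (by rw [h2Xc]; positivity)
      rw [h2Xc, Real.rpow_two]
      nlinarith
  set L2 : ℝ := Real.log ((2 * X : ℕ) : ℝ) ^ 45 with hL2
  have hLL2 : L ≤ L2 := pow_le_pow_left₀ hlX.le hlog2.1 45
  have hL2L : L2 ≤ 2 ^ 45 * L := by
    rw [hL2, hL, ← mul_pow]
    exact pow_le_pow_left₀ (by linarith [hlog2.1]) hlog2.2 45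
  have hL2pos : 0 < L2 := by linarith
  -- splitting of the count
  have hsplit : c * X / L ≤ (co (At A B P y) X (2 * X) : ℝ) + (co (At A B P y) (2 * X) (2 * (2 * X)) : ℝ) := by
    refine hcount.trans ?_
    have h1 : {n : ℕ | (X : ℝ) < n ∧ (n : ℝ) ≤ 3 * X ∧ At A B P (X ^ k) n} ⊆
        ((((Ioc X (2 * X)).filter (fun n => At A B P y n)) ∪
          ((Ioc (2 * X) (2 * (2 * X))).filter (fun n => At A B P y n)) : Finset ℕ) : Set ℕ) := by
      rintro n ⟨h1, h2, h3⟩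
      rw [coe_union, Set.mem_union, mem_coe, mem_coe, mem_filter, mem_filter, mem_Ioc, mem_Ioc]
      have h4 : X < n := by exact_mod_cast h1
      have h5 : (n : ℝ) ≤ 3 * X := h2
      have h6 : n ≤ 3 * X := by exact_mod_cast h5
      by_cases h7 : n ≤ 2 * X
      · exact Or.inl ⟨⟨h4, h7⟩, h3⟩
      · exact Or.inr ⟨⟨by omega, by omega⟩, h3⟩
    have h2 := Set.ncard_le_ncard h1 (Finset.finite_toSet _)
    rw [Set.ncard_coe_finset] at h2
    have h3 := h2.trans (card_union_le _ _)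
    unfold co
    exact_mod_cast h3
  rcases le_or_gt (c / 2 * X / L) (co (At A B P y) X (2 * X) : ℝ) with h1 | h1
  · have h2 := hkey y P hyX.1 (by
      refine le_trans ?_ h1
      apply div_le_div_of_nonneg_right _ hLpos.le
      nlinarith)
    refine h2.trans ?_
    rw [Nat.cast_le]
    apply card_le_card
    intro n hn
    rw [mem_filter, mem_Ioc] at hn ⊢
    obtain ⟨⟨h3, h4⟩, h5⟩ := hn
    refine ⟨⟨h3, by omega⟩, fun a b ha hb hab1 hab2 => ?_⟩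
    have hab0 : (0 : ℝ) ≤ (b : ℝ) - a := by
      have : (a : ℝ) ≤ b := by exact_mod_cast ha.trans hb
      linarith
    obtain ⟨h6, h7⟩ := h5 a b ha hb (by
      refine le_trans ?_ hab1
      have : K * L ≤ K * 2 ^ 45 * L := by
        have h8 : K ≤ K * 2 ^ 45 := by nlinarith
        exact mul_le_mul_of_nonneg_right h8 hLpos.le
      exact this) hab2
    refine ⟨le_trans ?_ h6, h7⟩
    apply div_le_div_of_nonneg_right _ hLpos.le
    apply mul_le_mul_of_nonneg_right _ hab0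
    rw [div_le_iff₀ (by positivity)]
    nlinarith
  · have h2 := hkey2 y P hyX.2 (by
      have h3 : c / 2 * X / L ≤ (co (At A B P y) (2 * X) (2 * (2 * X)) : ℝ) := by
        have h4 : c * X / L = c / 2 * X / L + c / 2 * X / L := by ring
        linarith
      refine le_trans ?_ h3
      rw [h2Xc]
      calc c / 4 * (2 * (X : ℝ)) / L2 ≤ c / 4 * (2 * (X : ℝ)) / L := by gcongr
        _ = _ := by ring)
    have h3 : κ * X ≤ κ * ((2 * X : ℕ) : ℝ) := by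
      rw [h2Xc]
      nlinarith
    refine (h3.trans h2).trans ?_
    rw [Nat.cast_le]
    apply card_le_card
    intro n hn
    rw [mem_filter, mem_Ioc] at hn ⊢
    obtain ⟨⟨h3, h4⟩, h5⟩ := hn
    refine ⟨⟨by omega, by omega⟩, fun a b ha hb hab1 hab2 => ?_⟩
    have hab0 : (0 : ℝ) ≤ (b : ℝ) - a := by
      have : (a : ℝ) ≤ b := by exact_mod_cast ha.trans hb
      linarith
    obtain ⟨h6, h7⟩ := h5 a b ha hb (by
      refine le_trans ?_ hab1
      calc K * L2 ≤ K * (2 ^ 45 * L) := mul_le_mul_of_nonneg_left hL2L (by linarith)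
        _ = K * 2 ^ 45 * L := by ring) hab2
    constructor
    · refine le_trans ?_ h6
      calc c₁ / 2 ^ 45 * ((b : ℝ) - a) / L = c₁ * ((b : ℝ) - a) / (2 ^ 45 * L) := by field_simp
        _ ≤ c₁ * ((b : ℝ) - a) / L2 := by gcongr
    · refine h7.trans ?_
      gcongr

end Pool.Agent.X34.E
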