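import Mathlib
import Pool.Agent.X34.E.E28
import Pool.Agent.X34.E.E26
import Pool.Agent.X34.E.E13
import Pool.Agent.X34.E.E10

set_option autoImplicit false
set_option maxHeartbeats 4000000

/-! # Regular neighbourhoods for 45 linear forms: families of forms, iterates -/

namespace Pool.Agent.X34.E

open Finset Filter
open Pool.Agent.H95R2.BG.LF
open Pool.Agent.W123.RP Pool.Agent.H373R2.T7 Pool.Agent.W123.RU Pool.Agent.W123.RU.Poly
open Pool.Agent.TH464.PW
open Pool.Agent.W182.PW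
open Pool.Agent.H95R2.BG

/-- at the scale `X`, all windows around `x` contain at least the order `1 / log ^ 45` of elements with the property `P`
and at most this order of elements with the property `R` -/
def RegB (P R : ℕ → Prop) (c C K : ℝ) (X x : ℕ) : Prop :=
  ∀ u v : ℕ, u ≤ x → x ≤ v → K * Real.log X ^ 45 ≤ (v : ℝ) - u → 2 * ((v : ℝ) - u) ≤ x →
    c * (((v : ℝ) - u) / Real.log X ^ 45) ≤ (Set.ncard {q : ℕ | u < q ∧ q ≤ v ∧ P q} : ℝ) ∧
    (Set.ncard {q : ℕ | u < q ∧ q ≤ v ∧ R q} : ℝ) ≤ C * (((v : ℝ) - u) / Real.log X ^ 45)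

open Classical in
/-- the property obtained in `nbF` -/
def RegA (P R : ℕ → Prop) (c C K : ℝ) (X m : ℕ) : Prop :=
  ∀ a b : ℕ, a ≤ m → m ≤ b → K * Real.log X ^ 45 ≤ (b : ℝ) - a → (b : ℝ) - a ≤ m →
    c * ((b : ℝ) - a) / Real.log X ^ 45 ≤ co P a b ∧ (co R a b : ℝ) ≤ C * ((b : ℝ) - a) / Real.log X ^ 45

theorem co_mono {P Q : ℕ → Prop} (h : ∀ n, P n → Q n) (a b : ℕ) :
    Set.ncard {q : ℕ | a < q ∧ q ≤ b ∧ P q} ≤ Set.ncard {q : ℕ | a < q ∧ q ≤ b ∧ Q q} := by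
  apply Set.ncard_le_ncard
  · rintro q ⟨h1, h2, h3⟩
    exact ⟨h1, h2, h q h3⟩
  · exact (Set.finite_Iic b).subset fun n hn => hn.2.1

open Classical in
/-- the counts of an affine image -/
theorem ncard_affine (A b : ℕ) (hA : 0 < A) (P : ℕ → Prop) (u v : ℕ) (hu : b ≤ u) (huv : u ≤ v) :
    Set.ncard {q : ℕ | u < q ∧ q ≤ v ∧ ∃ t, q = A * t + b ∧ P t} = co P ((u - b) / A) ((v - b) / A) := by
  rw [co_eq]
  symm
  apply Set.ncard_congr (fun t _ => A * t + b)
  · rintro t ⟨h1, h2, h3⟩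
    refine ⟨?_, ?_, t, rfl, h3⟩
    · have := (Nat.div_lt_iff_lt_mul hA).1 h1
      rw [mul_comm] at this
      omega
    · have := (Nat.le_div_iff_mul_le hA).1 h2
      rw [mul_comm] at this
      omega
  · intro t t' _ _ h
    have h1 : A * t = A * t' := by omega
    exact Nat.eq_of_mul_eq_mul_left hA h1
  · rintro q ⟨h1, h2, t, rfl, h3⟩
    refine ⟨t, ⟨?_, ?_, h3⟩, rfl⟩
    · rw [Nat.div_lt_iff_lt_mul hA, mul_comm]
      omega
    · rw [Nat.le_div_iff_mul_le hA, mul_comm]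
      omega

open Classical in
theorem affine_reg (A b : ℕ) (hA : 0 < A) (P R : ℕ → Prop) (c C K : ℝ) (hc : 0 < c) (hC : 0 < C) (hK : 0 < K)
    (X m : ℕ) (hX : 1 ≤ Real.log X) (hm : b + 2 ≤ m) (h : RegA P R c C K X m) :
    RegB (fun q => ∃ t, q = A * t + b ∧ P t) (fun q => ∃ t, q = A * t + b ∧ R t) (c / (2 * A)) (2 * C)
      (2 * A * (K + 1)) X (A * m + b) := by
  intro u v hu hv h1 h2
  have hAr : (1 : ℝ) ≤ A := by exact_mod_cast hA
  have hA0 : (0 : ℝ) < A := by linarith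
  set L : ℝ := Real.log X ^ 45 with hL
  have hL1 : 1 ≤ L := one_le_pow₀ hX
  have hL0 : 0 < L := by linarith
  have huv : u ≤ v := hu.trans hv
  have hvx : ((A * m + b : ℕ) : ℝ) ≤ v := by exact_mod_cast hv
  have hux : (u : ℝ) ≤ ((A * m + b : ℕ) : ℝ) := by exact_mod_cast hu
  have hmr : ((b : ℝ) + 2) ≤ m := by exact_mod_cast hm
  have hmA : (m : ℝ) ≤ A * m := by
    have : (0 : ℝ) ≤ m := Nat.cast_nonneg m
    nlinarith
  push_cast at hvx hux h2
  have hub : b ≤ u := by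
    have : (b : ℝ) ≤ u := by nlinarith
    exact_mod_cast this
  rw [ncard_affine A b hA P u v hub huv, ncard_affine A b hA R u v hub huv]
  have hbv : b ≤ v := hub.trans huv
  -- lengths
  have e1 : (((u - b) / A : ℕ) : ℝ) ≤ ((u : ℝ) - b) / A := by
    have := Nat.cast_div_le (α := ℝ) (m := u - b) (n := A)
    rwa [Nat.cast_sub hub] at this
  have e2 : (((v - b) / A : ℕ) : ℝ) ≤ ((v : ℝ) - b) / A := by
    have := Nat.cast_div_le (α := ℝ) (m := v - b) (n := A)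
    rwa [Nat.cast_sub hbv] at this
  have e3 : ((u : ℝ) - b) / A - 1 < (((u - b) / A : ℕ) : ℝ) := by
    have h3 := Nat.lt_div_mul_add (a := u - b) hA
    have h4 : (((u - b : ℕ) : ℝ)) < (((u - b) / A : ℕ) : ℝ) * A + A := by exact_mod_cast h3
    rw [Nat.cast_sub hub] at h4
    rw [div_sub_one hA0.ne', div_lt_iff₀ hA0]
    linarith
  have e4 : ((v : ℝ) - b) / A - 1 < (((v - b) / A : ℕ) : ℝ) := by
    have h3 := Nat.lt_div_mul_add (a := v - b) hA
    have h4 : (((v - b : ℕ) : ℝ)) < (((v - b) / A : ℕ) : ℝ) * A + A := by exact_mod_cast h3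
    rw [Nat.cast_sub hbv] at h4
    rw [div_sub_one hA0.ne', div_lt_iff₀ hA0]
    linarith
  have e5 : ((v : ℝ) - b) / A - ((u : ℝ) - b) / A = ((v : ℝ) - u) / A := by ring
  obtain ⟨D, hD⟩ : ∃ D : ℝ, D = (((v - b) / A : ℕ) : ℝ) - (((u - b) / A : ℕ) : ℝ) := ⟨_, rfl⟩
  have hDlo : ((v : ℝ) - u) / A - 1 ≤ D := by rw [hD]; linarith
  have hDhi : D ≤ ((v : ℝ) - u) / A + 1 := by rw [hD]; linarith
  have hbig : 2 * A * (K + 1) ≤ (v : ℝ) - u := by
    refine le_trans ?_ h1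
    have h3 : 0 ≤ 2 * A * (K + 1) := by positivity
    nlinarith
  have hDA : 2 ≤ ((v : ℝ) - u) / A := by
    rw [le_div_iff₀ hA0]
    nlinarith
  have hDlo2 : ((v : ℝ) - u) / (2 * A) ≤ D := by
    have h3 : ((v : ℝ) - u) / (2 * A) = ((v : ℝ) - u) / A / 2 := by
      rw [mul_comm, div_div]
    rw [h3]
    linarith
  have hDhi2 : D ≤ 2 * ((v : ℝ) - u) := by
    have h3 : ((v : ℝ) - u) / A ≤ (v : ℝ) - u := div_le_self (by nlinarith) hAr
    linarith
  obtain ⟨h3, h4⟩ := h ((u - b) / A) ((v - b) / A)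
    (by
      have h5 : (u - b) / A ≤ (A * m) / A := Nat.div_le_div_right (by omega)
      rwa [Nat.mul_div_cancel_left m hA] at h5)
    (by
      have h5 : (A * m) / A ≤ (v - b) / A := Nat.div_le_div_right (by omega)
      rwa [Nat.mul_div_cancel_left m hA] at h5)
    (by
      rw [← hD]
      refine le_trans ?_ hDlo2
      rw [le_div_iff₀ (by positivity)]
      nlinarith)
    (by
      rw [← hD]
      refine hDhi.trans ?_
      have h5 : ((v : ℝ) - u) / A ≤ (m : ℝ) / 2 + b / 2 := by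
        rw [div_le_iff₀ hA0]
        have h6 : (b : ℝ) ≤ b * A := by
          have : (0 : ℝ) ≤ b := Nat.cast_nonneg b
          nlinarith
        nlinarith
      linarith)
  rw [← hD] at h3 h4
  constructor
  · refine le_trans ?_ h3
    calc c / (2 * A) * (((v : ℝ) - u) / L) = c * (((v : ℝ) - u) / (2 * A)) / L := by
          field_simp
      _ ≤ c * D / L := by gcongr
  · refine h4.trans ?_
    calc C * D / L ≤ C * (2 * ((v : ℝ) - u)) / L := by gcongr
      _ = 2 * C * (((v : ℝ) - u) / L) := by ring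

open Classical in
theorem affine_count (A b : ℕ) (hA : 0 < A) (P R : ℕ → Prop) (c C K κ : ℝ) (hc : 0 < c) (hC : 0 < C) (hK : 0 < K)
    (X : ℕ) (hX : 1 ≤ Real.log X) (hXb : b + 2 ≤ X)
    (h : κ * X ≤ (((Ioc X (4 * X)).filter (fun m => RegA P R c C K X m)).card : ℝ)) :
    κ * X ≤ (Set.ncard {x : ℕ | X < x ∧ x ≤ (4 * A + b) * X ∧
      RegB (fun q => ∃ t, q = A * t + b ∧ P t) (fun q => ∃ t, q = A * t + b ∧ R t) (c / (2 * A)) (2 * C)
        (2 * A * (K + 1)) X x} : ℝ) := by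
  refine h.trans ?_
  rw [← Set.ncard_coe_finset, Nat.cast_le]
  apply Set.ncard_le_ncard_of_injOn (ht := (Set.finite_Iic ((4 * A + b) * X)).subset fun n hn => hn.2.1)
    (fun m => A * m + b)
  · intro m hm
    rw [mem_coe, mem_filter, mem_Ioc] at hm
    obtain ⟨⟨h1, h2⟩, h3⟩ := hm
    refine ⟨?_, ?_, affine_reg A b hA P R c C K hc hC hK X m hX (by omega) h3⟩
    · show X < A * m + b
      nlinarith
    · show A * m + b ≤ (4 * A + b) * X
      nlinarith
  · intro m _ m' _ h1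
    have h2 : A * m + b = A * m' + b := h1
    have h3 : A * m = A * m' := by omega
    exact Nat.eq_of_mul_eq_mul_left hA h3

open Classical in
/-- `nbF` in terms of `RegA` -/
theorem nbF' (hE : Eng) : ∃ k : ℝ, 0 < k ∧ ∀ (A B : Fin 45 → ℕ), AdmissibleL A B →
    ∃ c C K κ : ℝ, 0 < c ∧ 0 < C ∧ 0 < K ∧ 0 < κ ∧ ∀ᶠ X : ℕ in atTop, ∃ E : Finset (Fin 45), 2 ≤ E.card ∧
      κ * X ≤ (((Ioc X (4 * X)).filter (fun m =>
        RegA (At A B E ((X : ℝ) ^ k)) (RoughA A B ((X : ℝ) ^ k)) c C K X m)).card : ℝ) :=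
  nbF hE

theorem RegB.mono {P P' R R' : ℕ → Prop} {c C K c' C' K' : ℝ} {X x : ℕ} (hX : 1 ≤ Real.log X)
    (hP : ∀ n, P n → P' n) (hR : ∀ n, R' n → R n) (hc : c' ≤ c) (hC : C ≤ C') (hK : K ≤ K') (hK0 : 0 < K')
    (h : RegB P R c C K X x) : RegB P' R' c' C' K' X x := by
  intro u v hu hv h1 h2
  have hL : 0 < Real.log X ^ 45 := by positivity
  have hD : 0 ≤ ((v : ℝ) - u) / Real.log X ^ 45 := by
    apply div_nonneg _ hL.le
    have : 0 ≤ K' * Real.log X ^ 45 := by positivity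
    linarith
  obtain ⟨h3, h4⟩ := h u v hu hv ((mul_le_mul_of_nonneg_right hK hL.le).trans h1) h2
  constructor
  · refine (mul_le_mul_of_nonneg_right hc hD).trans (h3.trans ?_)
    rw [Nat.cast_le]
    exact co_mono hP u v
  · refine le_trans ?_ (h4.trans (mul_le_mul_of_nonneg_right hC hD))
    rw [Nat.cast_le]
    exact co_mono hR u v

open Classical in
/-- the elements of a window are positive -/
theorem RegA.pos {P R : ℕ → Prop} {c C K : ℝ} {X m : ℕ} (h : RegA P R c C K X m) :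
    RegA (fun t => 1 ≤ t ∧ P t) R c C K X m := by
  intro a b ha hb h1 h2
  obtain ⟨h3, h4⟩ := h a b ha hb h1 h2
  refine ⟨h3.trans (le_of_eq ?_), h4⟩
  rw [co_eq, co_eq]
  congr 2
  ext t
  constructor
  · rintro ⟨h5, h6, h7⟩
    exact ⟨h5, h6, by omega, h7⟩
  · rintro ⟨h5, h6, -, h7⟩
    exact ⟨h5, h6, h7⟩

/-- families of forms: all windows around a positive proportion of the integers -/
theorem forms_win (hE : Eng) : ∃ k : ℝ, 0 < k ∧ ∀ (ι : Type) [Fintype ι] [DecidableEq ι] (a b : ι → ℕ),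
    (∀ i, 1 ≤ a i) → (∀ i j, i ≠ j → a i * b j ≠ a j * b i) → ∀ S : Finset ι, S.card = 45 →
    (∀ p : ℕ, p.Prime → ∃ n : ℕ, ∀ i ∈ S, ¬ p ∣ a i * n + b i) →
    ∃ (W ν M : ℕ) (c C K κ : ℝ), 0 < W ∧ 0 < c ∧ 0 < C ∧ 0 < K ∧ 0 < κ ∧ ∀ᶠ X : ℕ in atTop,
      ∃ T ⊆ S, 2 ≤ T.card ∧
      κ * X ≤ (Set.ncard {x : ℕ | X < x ∧ x ≤ M * X ∧
        RegB (fun n => n ≡ ν [MOD W] ∧ (∀ i, (a i * n + b i).Prime ↔ i ∈ T) ∧
            ∀ i ∈ S, ∀ p : ℕ, p.Prime → (p : ℝ) ≤ (X : ℝ) ^ k → ¬ p ∣ a i * n + b i)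
          (fun n => ν ≤ n ∧ n ≡ ν [MOD W] ∧
            ∀ i ∈ S, ∀ p : ℕ, p.Prime → (p : ℝ) ≤ (X : ℝ) ^ k → ¬ p ∣ a i * n + b i) c C K X x} : ℝ) := by
  classical
  obtain ⟨k, hk, hN⟩ := nbF' hE
  refine ⟨k, hk, fun ι _ _ a b ha hne S hS hloc => ?_⟩
  obtain ⟨W, ν, e, A, B, hW, hadm, hv, hcomp⟩ := class_nat a b ha hne S hS hloc
  obtain ⟨c, C, K, κ, hc, hC, hK, hκ, hX⟩ := hN A B hadm
  have hWr : (1 : ℝ) ≤ W := by exact_mod_cast hW
  refine ⟨W, ν, 4 * W + ν, c / (2 * W), 2 * C, 2 * W * (K + 1), κ, hW, by positivity, by positivity,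
    by positivity, hκ, ?_⟩
  have hlog : Tendsto (fun X : ℕ => Real.log (X : ℝ)) atTop atTop :=
    Real.tendsto_log_atTop.comp tendsto_natCast_atTop_atTop
  filter_upwards [hX, hlog.eventually_ge_atTop 1, eventually_ge_atTop (ν + 2)] with X hX hX1 hXb
  obtain ⟨E, hE2, hcount⟩ := hX
  refine ⟨E.map ⟨fun i => ((e i : S) : ι), fun _ _ h => e.injective (Subtype.ext h)⟩, map_sub S e E,
    by rwa [card_map], ?_⟩
  have hcount' : κ * X ≤ (((Ioc X (4 * X)).filter (fun m =>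
      RegA (fun t => 1 ≤ t ∧ At A B E ((X : ℝ) ^ k) t) (RoughA A B ((X : ℝ) ^ k)) c C K X m)).card : ℝ) := by
    refine hcount.trans ?_
    rw [Nat.cast_le]
    apply card_le_card
    intro m hm
    rw [mem_filter] at hm ⊢
    exact ⟨hm.1, hm.2.pos⟩
  have h1 := affine_count W ν hW _ _ c C K κ hc hC hK X hX1 (by omega) hcount'
  refine h1.trans ?_
  rw [Nat.cast_le]
  apply Set.ncard_le_ncard
  · rintro x ⟨h2, h3, h4⟩
    refine ⟨h2, h3, h4.mono hX1 ?_ ?_ le_rfl le_rfl le_rfl (by positivity)⟩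
    · rintro n ⟨t, rfl, ht1, ht2, ht3⟩
      refine ⟨?_, ?_, ?_⟩
      · have : W * t + ν ≡ 0 + ν [MOD W] := Nat.ModEq.add_right ν (by
          rw [Nat.modEq_zero_iff_dvd]
          exact dvd_mul_right _ _)
        rwa [zero_add] at this
      · intro i
        constructor
        · intro hi
          by_cases hiS : i ∈ S
          · obtain ⟨j, hj⟩ := e.surjective ⟨i, hiS⟩
            have hj' : ((e j : S) : ι) = i := by rw [hj]
            rw [← hj', ← hv j t] at hi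
            exact mem_map.2 ⟨j, (ht2 j).1 hi, hj'⟩
          · exact absurd hi (hcomp t ht1 i hiS)
        · intro hi
          obtain ⟨j, hj, hji⟩ := mem_map.1 hi
          have hji' : ((e j : S) : ι) = i := hji
          rw [← hji', ← hv j t]
          exact (ht2 j).2 hj
      · intro i hiS p hp hpy
        obtain ⟨j, hj⟩ := e.surjective ⟨i, hiS⟩
        have hj' : ((e j : S) : ι) = i := by rw [hj]
        rw [← hj', ← hv j t]
        exact ht3 j p hp hpy
    · rintro n ⟨hn1, hn2, hn3⟩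
      have hd : W ∣ n - ν := (Nat.modEq_iff_dvd' hn1).1 hn2.symm
      obtain ⟨t, ht⟩ := hd
      refine ⟨t, by omega, ?_⟩
      intro j p hp hpy
      rw [hv j t]
      have h5 : W * t + ν = n := by omega
      rw [h5]
      exact hn3 _ (e j).2 p hp hpy
  · exact (Set.finite_Iic ((4 * W + ν) * X)).subset fun n hn => hn.2.1

end Pool.Agent.X34.E
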