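import Mathlib
import Pool.Agent.X34.E.E29
import Pool.Agent.X34.E.E17

set_option autoImplicit false
set_option maxHeartbeats 4000000

/-! # Regular neighbourhoods for the linear equations `a p - b q = c` and their iterates -/

namespace Pool.Agent.X34.E

open Finset Filter
open Pool.Agent.H95R2.BG

/-- families of forms, primes `q = A g n + B g` for which another form is prime: all windows -/
theorem fam_win (hE : Eng) (T : Finset ℕ) (hT : T.card = 45) (A : ℕ → ℕ) (B : ℕ → ℤ) (hA : ∀ g ∈ T, 0 < A g)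
    (hinj : ∀ g ∈ T, ∀ g' ∈ T, A g = A g' → B g = B g' → g = g')
    (hadm : ∀ p : ℕ, p.Prime → ∃ n : ℤ, ∀ g ∈ T, ¬ (p : ℤ) ∣ A g * n + B g) :
    ∃ (M : ℕ) (c K κ : ℝ), 0 < c ∧ 0 < K ∧ 0 < κ ∧ ∀ᶠ X : ℕ in atTop, ∃ g ∈ T, ∃ g' ∈ T, g < g' ∧
      κ * X ≤ (Set.ncard {x : ℕ | X < x ∧ x ≤ M * X ∧
        RegB (fun q => q.Prime ∧ ∃ n : ℤ, (q : ℤ) = A g * n + B g ∧ IsP (A g' * n + B g')) (fun _ => False)
          c 1 K X x} : ℝ) := by
  classical
  set f := T.orderEmbOfFin hT with hf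
  have hmem : ∀ i, f i ∈ T := fun i => Finset.orderEmbOfFin_mem T hT i
  obtain ⟨N, b, hb, hAb⟩ := nat_forms (fun i => A (f i)) (fun i => B (f i))
    (fun i => hA _ (hmem i))
    (fun i j h => by
      have h' := Prod.mk.inj h
      exact f.injective (hinj _ (hmem i) _ (hmem j) h'.1 h'.2))
    (fun p hp => by
      obtain ⟨n, hn⟩ := hadm p hp
      exact ⟨n, fun i => hn _ (hmem i)⟩)
  obtain ⟨k, hk, hN⟩ := nbF' hE
  obtain ⟨c, C, K, κ, hc, hC, hK, hκ, hX⟩ := hN (fun i => A (f i)) b hAb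
  obtain ⟨M, hM⟩ : ∃ M : ℕ, M = ∑ i : Fin 45, (A (f i) + b i) + 1 := ⟨_, rfl⟩
  have hMi : ∀ i, A (f i) + b i ≤ M := by
    intro i
    have := Finset.single_le_sum (f := fun i => A (f i) + b i) (fun _ _ => Nat.zero_le _) (mem_univ i)
    rw [hM]
    exact this.trans (Nat.le_succ _)
  have hM1 : 1 ≤ M := by omega
  have hMr : (1 : ℝ) ≤ M := by exact_mod_cast hM1
  refine ⟨4 * M, c / (2 * M), 2 * M * (K + 1), κ, by positivity, by positivity, hκ, ?_⟩
  have hlog : Tendsto (fun X : ℕ => Real.log (X : ℝ)) atTop atTop :=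
    Real.tendsto_log_atTop.comp tendsto_natCast_atTop_atTop
  filter_upwards [hX, hlog.eventually_ge_atTop 1, eventually_ge_atTop (M + 2)] with X hX hX1 hXb
  obtain ⟨E, hE2, hcount⟩ := hX
  obtain ⟨i, hi, j, hj, hij⟩ := Finset.one_lt_card.1 (by omega : 1 < E.card)
  have key : ∀ i j, i ∈ E → j ∈ E → f i < f j → ∃ g ∈ T, ∃ g' ∈ T, g < g' ∧
      κ * X ≤ (Set.ncard {x : ℕ | X < x ∧ x ≤ 4 * M * X ∧
        RegB (fun q => q.Prime ∧ ∃ n : ℤ, (q : ℤ) = A g * n + B g ∧ IsP (A g' * n + B g')) (fun _ => False)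
          (c / (2 * M)) 1 (2 * M * (K + 1)) X x} : ℝ) := by
    intro i j hi hj hlt
    refine ⟨f i, hmem i, f j, hmem j, hlt, ?_⟩
    have hAi := hA _ (hmem i)
    have h1 := affine_count (A (f i)) (b i) hAi _ _ c C K κ hc hC hK X hX1
      (by have := hMi i; omega) hcount
    refine h1.trans ?_
    rw [Nat.cast_le]
    have hAM : ((A (f i) : ℕ) : ℝ) ≤ M := by
      have h2 : A (f i) ≤ M := (Nat.le_add_right _ _).trans (hMi i)
      exact_mod_cast h2
    have hA1 : (1 : ℝ) ≤ (A (f i) : ℕ) := by exact_mod_cast hAi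
    apply Set.ncard_le_ncard
    · rintro x ⟨h2, h3, h4⟩
      refine ⟨h2, h3.trans (Nat.mul_le_mul_right _ (by have := hMi i; omega)), ?_⟩
      intro u v hu hv h5 h6
      have hL0 : 0 < Real.log X ^ 45 := by positivity
      have hD0 : 0 ≤ (v : ℝ) - u := by
        have : (u : ℝ) ≤ v := by exact_mod_cast hu.trans hv
        linarith
      obtain ⟨h7, -⟩ := h4 u v hu hv (by
        refine le_trans ?_ h5
        apply mul_le_mul_of_nonneg_right _ hL0.le
        gcongr) h6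
      constructor
      · refine le_trans ?_ (h7.trans ?_)
        · apply mul_le_mul_of_nonneg_right _ (by positivity)
          gcongr
        · rw [Nat.cast_le]
          apply co_mono
          rintro q ⟨t, rfl, ht1, -⟩
          refine ⟨(ht1 i).2 hi, ((t + N : ℕ) : ℤ), ?_, ?_⟩
          · have h8 := hb i
            push_cast
            rw [h8]
            ring
          · refine ⟨A (f j) * t + b j, (ht1 j).2 hj, ?_⟩
            have h8 := hb j
            push_cast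
            rw [h8]
            ring
      · have h9 : {q : ℕ | u < q ∧ q ≤ v ∧ False} = ∅ := by
          ext q
          simp
        rw [h9, Set.ncard_empty, Nat.cast_zero]
        positivity
    · exact (Set.finite_Iic (4 * M * X)).subset fun n hn => hn.2.1
  have hlt0 : f i ≠ f j := fun h => hij (f.injective h)
  rcases lt_or_gt_of_ne hlt0 with h | h
  · exact key i j hi hj h
  · exact key j i hj hi h

/-- the equations `a p - b q = c`: all windows -/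
theorem chain_win (hE : Eng) (a b : ℕ) (c : ℤ) (ha : 0 < a) (hb : 0 < b) (hc : c ≠ 0) (hab : a.Coprime b)
    (hac : IsCoprime (a : ℤ) c) (hbc : IsCoprime (b : ℤ) c) (hpar : ¬ (Odd a ∧ Odd b ∧ Odd c))
    (G : Finset ℕ) (hG : G.card = 45)
    (hloc : ∀ p : ℕ, p.Prime → 3 ≤ p → p ≤ 43 → (p : ℤ) ∣ (a : ℤ) - b → ¬ (p : ℤ) ∣ c →
      ∃ r : ℕ, ∀ g ∈ G, ¬ g ≡ r [MOD p]) :
    ∃ (M : ℕ) (c' K κ : ℝ), 0 < c' ∧ 0 < K ∧ 0 < κ ∧ ∀ᶠ X : ℕ in atTop, ∃ g ∈ G, ∃ g' ∈ G, g < g' ∧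
      κ * X ≤ (Set.ncard {x : ℕ | X < x ∧ x ≤ M * X ∧
        RegB (fun q => q.Prime ∧ ∃ p : ℕ, p.Prime ∧
          (a : ℤ) ^ (g' - g) * p - (b : ℤ) ^ (g' - g) * q = c * ss a b (g' - g)) (fun _ => False) c' 1 K X x} : ℝ) := by
  classical
  obtain ⟨J, hJ⟩ : ∃ J : ℕ, ∀ g ∈ G, g < J := ⟨G.sup id + 1, fun g hg => by
    have h1 : g ≤ G.sup id := Finset.le_sup (f := id) hg
    omega⟩
  obtain ⟨s, hs⟩ := chain_exists (a : ℤ) b c (Nat.isCoprime_iff_coprime.2 hab) J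
  have hA : ∀ g ∈ G, 0 < a ^ (J - g) * b ^ g := fun g _ => by positivity
  have hinj : ∀ g ∈ G, ∀ g' ∈ G, a ^ (J - g) * b ^ g = a ^ (J - g') * b ^ g' → s g = s g' → g = g' :=
    fun g hg g' hg' => chain_inj a b c ha hb hc hab J s hs g g' (hJ g hg) (hJ g' hg')
  have hadm := chain_adm a b c ha hb hab hac hbc hpar G hG J hJ s hs hloc
  have hL : ∀ n : ℤ, ∀ j < J, (a : ℤ) * (((a ^ (J - (j + 1)) * b ^ (j + 1) : ℕ) : ℤ) * n + s (j + 1)) =
      b * (((a ^ (J - j) * b ^ j : ℕ) : ℤ) * n + s j) + c := by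
    intro n j hj
    have h3 : J - j = (J - (j + 1)) + 1 := by omega
    have h4 := hs j hj
    rw [h3]
    push_cast
    rw [pow_succ, pow_succ]
    linear_combination h4
  have key : ∀ g g' : ℕ, g < g' → g' < J → ∀ q : ℕ,
      (∃ n : ℤ, (q : ℤ) = ((a ^ (J - g) * b ^ g : ℕ) : ℤ) * n + s g ∧
        IsP (((a ^ (J - g') * b ^ g' : ℕ) : ℤ) * n + s g')) →
      ∃ p : ℕ, p.Prime ∧ (a : ℤ) ^ (g' - g) * p - (b : ℤ) ^ (g' - g) * q = c * ss a b (g' - g) := by
    rintro g g' hlt hg' q ⟨n, hn, p, hp, hpe⟩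
    refine ⟨p, hp, ?_⟩
    have h1 := chain_rel (J := J) (L := fun j => ((a ^ (J - j) * b ^ j : ℕ) : ℤ) * n + s j) (hL n) g (g' - g) (by omega)
    rw [show g + (g' - g) = g' by omega] at h1
    rw [hn, ← hpe]
    exact h1
  obtain ⟨M, c', K, κ, hc', hK, hκ, h⟩ := fam_win hE G hG (fun g => a ^ (J - g) * b ^ g) s hA hinj hadm
  have hlog : Tendsto (fun X : ℕ => Real.log (X : ℝ)) atTop atTop :=
    Real.tendsto_log_atTop.comp tendsto_natCast_atTop_atTop
  refine ⟨M, c', K, κ, hc', hK, hκ, ?_⟩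
  filter_upwards [h, hlog.eventually_ge_atTop 1] with X hX hX1
  obtain ⟨g, hg, g', hg', hlt, hX⟩ := hX
  refine ⟨g, hg, g', hg', hlt, hX.trans ?_⟩
  rw [Nat.cast_le]
  apply Set.ncard_le_ncard
  · rintro x ⟨h1, h2, h3⟩
    refine ⟨h1, h2, h3.mono hX1 ?_ (fun _ h => h) le_rfl le_rfl le_rfl hK⟩
    rintro q ⟨h4, h5⟩
    exact ⟨h4, key g g' hlt (hJ g' hg') q h5⟩
  · exact (Set.finite_Iic (M * X)).subset fun q hq => hq.2.1

end Pool.Agent.X34.E
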