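import Mathlib
import Pool.Agent.X34.E.E29
import Pool.Agent.Y884.GR.Fam

/-! Engine E (helper34): the gcd recursion for Goldbach pairs at composite integers, right order of magnitude. -/

set_option autoImplicit false

open Finset Filter

namespace Pool.Agent.X34.E

open Pool.Agent.H95R2.BG.LF
open Pool.Agent.Y884.GR

/-- composite odd integers at which the recursion ends at a pair of primes after many nontrivial gcds -/
def GoodN (r C N : ℕ) : Prop := ¬ N.Prime ∧ Odd N ∧ Good r C N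

theorem setup_pair {B k N0 : ℕ} {x p : ℕ → ℕ} {ρ : ℕ → ℤ} (h : Setup B k x p N0 ρ) (r ν i j : ℕ)
    (hlt : i < j) (hij : i + r ≤ j) (hjk : j < k)
    (h1 : ((p k).factorial * ν + (N0 + (p k).factorial + 2 * x i)).Prime)
    (h2 : ((p k).factorial * ν + (N0 + (p k).factorial + 2 * x j)).Prime) :
    GoodN r (2 * x k + 2) ((p k).factorial * ν + (N0 + (p k).factorial + x i + x j)) := by
  set n := (p k).factorial * ν + (N0 + (p k).factorial) with hn
  have e1 : (p k).factorial * ν + (N0 + (p k).factorial + 2 * x i) = n + 2 * x i := by omega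
  have e2 : (p k).factorial * ν + (N0 + (p k).factorial + 2 * x j) = n + 2 * x j := by omega
  have e3 : (p k).factorial * ν + (N0 + (p k).factorial + x i + x j) = n + x i + x j := by omega
  rw [e1] at h1
  rw [e2] at h2
  rw [e3]
  have hch := h.chain ν i j hlt hjk h1 h2
  rw [← hn] at hch
  have hik : i < k := by omega
  have hxi := h.sq.mono hik.le
  have hxj := h.sq.mono hjk.le
  have hbig := hch.big
  have hhit := hch.hit i le_rfl hlt
  have hpi := h.sq.prime i
  have hplt : p i ≤ x (i + 1) + 1 := by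
    have := h.sq.succ i
    omega
  have hxx := h.sq.mono (show i + 1 ≤ j from hlt)
  have hodd : Odd (n + x i + x j) := by
    have h0 : ∀ l, 2 ∣ x l := by
      intro l
      have : (2 : ℕ) ∣ B.factorial := (Nat.prime_two.dvd_factorial).mpr h.B2
      exact Int.natCast_dvd_natCast.mp (by exact_mod_cast h.sq.dvdB this l)
    have h3 : ¬ 2 ∣ n + x j + x i := by
      refine hch.free1 i le_rfl hlt 2 Nat.prime_two ?_
      have := h.sq.big i; have := h.B2; omega
    rw [Nat.odd_iff]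
    omega
  refine ⟨?_, hodd, hch.good (by omega) (by omega)⟩
  intro hpr
  have hd : p i ∣ n + x i + x j := by
    have e : n + x i + x j = n + x j + x i := by ring
    rw [e]; exact hhit
  rcases (Nat.dvd_prime hpr).mp hd with h3 | h3
  · exact hpi.one_lt.ne' h3
  · omega

open Classical in
/-- all windows around a positive proportion of the integers -/
theorem gcd_reg (hE : Eng) (r : ℕ) : ∃ (C M : ℕ) (c K κ : ℝ), 0 < c ∧ 0 < K ∧ 0 < κ ∧
    ∀ᶠ X : ℕ in atTop, κ * X ≤ (Set.ncard {x : ℕ | X < x ∧ x ≤ M * X ∧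
      ∀ u v : ℕ, u ≤ x → x ≤ v → K * Real.log X ^ 45 ≤ (v : ℝ) - u → 2 * ((v : ℝ) - u) ≤ x →
        c * (((v : ℝ) - u) / Real.log X ^ 45) ≤
          (Set.ncard {N : ℕ | u < N ∧ N ≤ v ∧ GoodN r C N} : ℝ)} : ℝ) := by
  obtain ⟨s, hs, hN⟩ := nbF' hE
  obtain ⟨k, hkd⟩ : ∃ k : ℕ, k = 44 * (r + 1) + 1 := ⟨_, rfl⟩
  obtain ⟨x, p, N0, ρ, h⟩ := exists_setup k
  set W : ℕ := (p k).factorial with hW
  have hW0 : 0 < W := Nat.factorial_pos _
  have hidx : ∀ i : Fin 45, (i : ℕ) * (r + 1) < k := by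
    intro i
    have h1 : (i : ℕ) ≤ 44 := by omega
    have h2 : (i : ℕ) * (r + 1) ≤ 44 * (r + 1) := Nat.mul_le_mul_right _ h1
    omega
  have hadm : AdmissibleL (fun _ : Fin 45 => W) (fun i : Fin 45 => N0 + W + 2 * x ((i : ℕ) * (r + 1))) := by
    refine ⟨fun _ => hW0, ?_, ?_⟩
    · intro i j hij heq
      have h1 : N0 + W + 2 * x ((j : ℕ) * (r + 1)) = N0 + W + 2 * x ((i : ℕ) * (r + 1)) :=
        Nat.eq_of_mul_eq_mul_left hW0 heq
      have h2 : x ((j : ℕ) * (r + 1)) = x ((i : ℕ) * (r + 1)) := by omega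
      have h3 := h.sq.inj h2
      have h4 := Nat.eq_of_mul_eq_mul_right (Nat.succ_pos r) h3
      exact hij (Fin.ext h4.symm)
    · intro q hq
      obtain ⟨n, -, hn⟩ := h.adm (by omega) q hq
      exact ⟨n, fun i => hn ⟨(i : ℕ) * (r + 1), hidx i⟩⟩
  obtain ⟨c, C, K, κ, hc, hC, hK, hκ, hX⟩ := hN _ _ hadm
  have hWr : (0 : ℝ) < W := by exact_mod_cast hW0
  have hlog : Tendsto (fun X : ℕ => Real.log (X : ℝ)) atTop atTop :=
    Real.tendsto_log_atTop.comp tendsto_natCast_atTop_atTop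
  refine ⟨2 * x k + 2, 4 * W + (N0 + W + 2 * x k), c / (2 * W), 2 * W * (K + 1), κ, by positivity,
    by positivity, hκ, ?_⟩
  filter_upwards [hX, hlog.eventually_ge_atTop 1, eventually_ge_atTop (N0 + W + 2 * x k + 2)] with X hX hX1 hXb
  obtain ⟨E, hE2, hcount⟩ := hX
  obtain ⟨i, j, hij, hi, hj⟩ : ∃ i j : Fin 45, i < j ∧ i ∈ E ∧ j ∈ E := by
    obtain ⟨i, hi, j, hj, hne⟩ := one_lt_card.1 (show 1 < E.card by omega)
    rcases lt_or_gt_of_ne hne with h1 | h1
    · exact ⟨i, j, h1, hi, hj⟩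
    · exact ⟨j, i, h1, hj, hi⟩
  have hij' : (i : ℕ) + 1 ≤ j := hij
  have hmul : ((i : ℕ) + 1) * (r + 1) ≤ (j : ℕ) * (r + 1) := Nat.mul_le_mul_right _ hij'
  have hmul2 : ((i : ℕ) + 1) * (r + 1) = (i : ℕ) * (r + 1) + r + 1 := by ring
  have hxi := h.sq.mono (hidx i).le
  have hxj := h.sq.mono (hidx j).le
  obtain ⟨b, hb⟩ : ∃ b : ℕ, b = N0 + W + x ((i : ℕ) * (r + 1)) + x ((j : ℕ) * (r + 1)) := ⟨_, rfl⟩
  have h1 := affine_count W b hW0 _ _ c C K κ hc hC hK X hX1 (by omega) hcount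
  refine h1.trans ?_
  rw [Nat.cast_le]
  apply Set.ncard_le_ncard
  · rintro y ⟨h2, h3, h4⟩
    refine ⟨h2, h3.trans (Nat.mul_le_mul_right _ (by omega)), fun u v hu hv h5 h6 => ?_⟩
    obtain ⟨h7, -⟩ := h4 u v hu hv h5 h6
    refine h7.trans ?_
    rw [Nat.cast_le]
    apply co_mono
    rintro q ⟨t, rfl, ht1, -⟩
    rw [hb, hW]
    exact setup_pair h r t ((i : ℕ) * (r + 1)) ((j : ℕ) * (r + 1)) (by omega) (by omega) (hidx j)
      ((ht1 i).2 hi) ((ht1 j).2 hj)
  · exact (Set.finite_Iic ((4 * W + (N0 + W + 2 * x k)) * X)).subset fun n hn => hn.2.1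

/-- the right order of magnitude -/
theorem gcd_count (hE : Eng) (r : ℕ) : ∃ (C M : ℕ) (c K κ : ℝ), 0 < c ∧ 0 < K ∧ 0 < κ ∧
    (∀ᶠ X : ℕ in atTop, c * (X / Real.log X ^ 45) ≤
      (Set.ncard {N : ℕ | 1 ≤ N ∧ N ≤ X ∧ GoodN r C N} : ℝ)) ∧
    ∀ᶠ X : ℕ in atTop, κ * X ≤ (Set.ncard {x : ℕ | X < x ∧ x ≤ M * X ∧
      ∀ u v : ℕ, u ≤ x → x ≤ v → K * Real.log X ^ 45 ≤ (v : ℝ) - u → 2 * ((v : ℝ) - u) ≤ x →
        c * (((v : ℝ) - u) / Real.log X ^ 45) ≤
          (Set.ncard {N : ℕ | u < N ∧ N ≤ v ∧ GoodN r C N} : ℝ)} : ℝ) := by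
  obtain ⟨C, M, c, K, κ, hc, hK, hκ, hX⟩ := gcd_reg hE r
  obtain ⟨D, hDM⟩ : ∃ D : ℕ, D = 2 * (M + 1) := ⟨_, rfl⟩
  have hD0 : 0 < D := by omega
  have hDr : (0 : ℝ) < D := by exact_mod_cast hD0
  have hlogX : Tendsto (fun X : ℕ => Real.log (X : ℝ)) atTop atTop :=
    Real.tendsto_log_atTop.comp tendsto_natCast_atTop_atTop
  have hdivD : Tendsto (fun X : ℕ => X / D) atTop atTop := by
    rw [tendsto_atTop]
    intro b
    filter_upwards [eventually_ge_atTop (b * D)] with X hX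
    exact (Nat.le_div_iff_mul_le hD0).2 hX
  have hsmall : ∀ᶠ X : ℕ in atTop, K * Real.log X ^ 45 ≤ (X : ℝ) / 8 := by
    have h1 : (fun X : ℝ => Real.log X ^ 45) =o[atTop] fun X => X := Real.isLittleO_pow_log_id_atTop
    have h2 := (h1.const_mul_left K).def (show (0 : ℝ) < 1 / 8 by norm_num)
    have h3 := (tendsto_natCast_atTop_atTop (R := ℝ)).eventually h2
    filter_upwards [h3, hlogX.eventually_ge_atTop 0] with X hX hX0
    rw [Real.norm_eq_abs, Real.norm_eq_abs, abs_of_nonneg (by positivity),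
      abs_of_nonneg (Nat.cast_nonneg X)] at hX
    linarith
  refine ⟨C, M, min c (c / (8 * D)), K, κ, lt_min hc (by positivity), hK, hκ, ?_, ?_⟩
  · have hall := hdivD.eventually (hX.and (hsmall.and (eventually_ge_atTop 8)))
    filter_upwards [hall, hlogX.eventually_ge_atTop 1, eventually_ge_atTop D,
      (hlogX.comp hdivD).eventually_ge_atTop 1] with X hX hX1 hXD hX2
    obtain ⟨hX, hsm, hX8⟩ := hX
    have hX2 : 1 ≤ Real.log ((X / D : ℕ) : ℝ) := hX2
    obtain ⟨Y, hY⟩ : ∃ Y : ℕ, Y = X / D := ⟨_, rfl⟩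
    rw [← hY] at hX hsm hX8 hX2
    have hY8 : (8 : ℝ) ≤ Y := by exact_mod_cast hX8
    have hne : {x : ℕ | Y < x ∧ x ≤ M * Y ∧
      ∀ u v : ℕ, u ≤ x → x ≤ v → K * Real.log Y ^ 45 ≤ (v : ℝ) - u → 2 * ((v : ℝ) - u) ≤ x →
        c * (((v : ℝ) - u) / Real.log Y ^ 45) ≤
          (Set.ncard {N : ℕ | u < N ∧ N ≤ v ∧ GoodN r C N} : ℝ)}.Nonempty := by
      apply Set.nonempty_of_ncard_ne_zero
      intro h0
      rw [h0] at hX
      have : 0 < κ * (Y : ℝ) := by positivity
      push_cast at hX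
      linarith
    obtain ⟨x, hx1, hx2, hx3⟩ := hne
    have hx1r : (Y : ℝ) < x := by exact_mod_cast hx1
    have h1 := Nat.div_add_mod x 2
    have h2 := Nat.mod_lt x (show 0 < 2 by norm_num)
    have h3 : (x : ℝ) / 2 - 1 ≤ ((x / 2 : ℕ) : ℝ) := by
      have : (x : ℝ) ≤ 2 * ((x / 2 : ℕ) : ℝ) + 1 := by
        have : x ≤ 2 * (x / 2) + 1 := by omega
        exact_mod_cast this
      linarith
    have h4 : 2 * ((x / 2 : ℕ) : ℝ) ≤ x := by
      have : 2 * (x / 2) ≤ x := by omega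
      exact_mod_cast this
    have h5 : ((x + x / 2 : ℕ) : ℝ) - (x : ℕ) = ((x / 2 : ℕ) : ℝ) := by push_cast; ring
    have h6 := hx3 x (x + x / 2) le_rfl (by omega) (by rw [h5]; linarith) (by rw [h5]; exact h4)
    rw [h5] at h6
    have hXY : (X : ℝ) / (2 * D) ≤ Y := by
      rw [div_le_iff₀ (by positivity)]
      have h7 : X < D * (X / D) + D := by
        have := Nat.div_add_mod X D
        have := Nat.mod_lt X hD0
        omega
      rw [← hY] at h7
      have h8 : (X : ℝ) < D * Y + D := by exact_mod_cast h7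
      nlinarith
    have hYX : Y ≤ X := by rw [hY]; exact Nat.div_le_self X D
    have hlog : Real.log Y ≤ Real.log X := Real.log_le_log (by linarith) (by exact_mod_cast hYX)
    have hL : 0 < Real.log Y ^ 45 := by positivity
    have hL2 : Real.log Y ^ 45 ≤ Real.log X ^ 45 := pow_le_pow_left₀ (by linarith) hlog _
    calc min c (c / (8 * D)) * (X / Real.log X ^ 45) ≤ c / (8 * D) * (X / Real.log X ^ 45) := by
          apply mul_le_mul_of_nonneg_right (min_le_right _ _)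
          positivity
      _ = c * ((X / (2 * D) / 4) / Real.log X ^ 45) := by
          field_simp
          ring
      _ ≤ c * ((Y / 4) / Real.log X ^ 45) := by gcongr
      _ ≤ c * ((Y / 4) / Real.log Y ^ 45) := by gcongr
      _ ≤ c * (((x / 2 : ℕ) : ℝ) / Real.log Y ^ 45) := by
          have : (Y : ℝ) / 4 ≤ ((x / 2 : ℕ) : ℝ) := by linarith
          gcongr
      _ ≤ _ := h6
      _ ≤ _ := by
          rw [Nat.cast_le]
          apply Set.ncard_le_ncard
          · rintro N ⟨g1, g2, g3⟩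
            refine ⟨by omega, g2.trans ?_, g3⟩
            have g4 : D * Y ≤ X := by rw [hY]; exact Nat.mul_div_le X D
            have g5 : x + x / 2 ≤ 2 * x := by omega
            have g6 : 2 * x ≤ 2 * (M * Y) := by omega
            have g7 : 2 * (M * Y) ≤ D * Y := by
              rw [hDM]
              nlinarith
            omega
          · exact (Set.finite_Icc 1 X).subset fun n hn => ⟨hn.1, hn.2.1⟩
  · filter_upwards [hX, hlogX.eventually_ge_atTop 1] with X hX hX1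
    refine hX.trans ?_
    rw [Nat.cast_le]
    apply Set.ncard_le_ncard
    · rintro x ⟨h1, h2, h3⟩
      refine ⟨h1, h2, fun u v hu hv h4 h5 => le_trans ?_ (h3 u v hu hv h4 h5)⟩
      apply mul_le_mul_of_nonneg_right (min_le_left _ _)
      have : 0 ≤ K * Real.log X ^ 45 := by positivity
      apply div_nonneg _ (by positivity)
      linarith
    · exact (Set.finite_Iic (M * X)).subset fun n hn => hn.2.1

end Pool.Agent.X34.E
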