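import Mathlib
import Pool.Agent.X34.E.E20
import Pool.Agent.TH882.D5

/-! Engine E (helper34): sums of two elements of sets of rough integers of the right order of magnitude. -/

set_option autoImplicit false

open Finset Filter

namespace Pool.Agent.X34.E

open Pool.Agent.H361R2.PP
open Pool.Agent.W70.HR
open Pool.Agent.TH882.DD (PS pz R_upper avg Ro FF hh)

theorem FF_upper (δ : ℝ) (hδ : 0 < δ) (hδ1 : δ ≤ 1) : ∃ C : ℝ, 0 < C ∧ ∃ X₀ : ℕ, ∀ X : ℕ, X₀ ≤ X →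
    FF δ X ≤ C / Real.log X := by
  obtain ⟨C, hC, hM⟩ := mer
  obtain ⟨X1, h1⟩ := hM δ hδ hδ1
  refine ⟨C / δ, by positivity, max X1 3, fun X hX => ?_⟩
  obtain ⟨-, h2, -⟩ := h1 X ((le_max_left _ _).trans hX)
  have hX3 : 3 ≤ X := (le_max_right _ _).trans hX
  have hl : 0 < Real.log (X : ℝ) := Real.log_pos (by exact_mod_cast (by omega : 1 < X))
  rw [div_div, le_div_iff₀ (by positivity)]
  unfold FF VV
  exact h2

open Classical in
/-- a positive proportion of the integers are sums, with the right order of representations -/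
theorem sums_core (U : Finset ℕ) (hU : U.Nonempty) (κ c₀ : ℝ) (hκ : 0 < κ) (hc₀ : 0 < c₀) :
    ∃ c : ℝ, 0 < c ∧ ∀ᶠ Y : ℕ in atTop, ∀ A : Finset ℕ, A ⊆ Ico Y (2 * Y) →
      (∀ n ∈ A, ∀ u ∈ U, ∀ p : ℕ, p.Prime → (p : ℝ) ≤ (Y : ℝ) ^ κ → ¬ p ∣ n + u) →
      c₀ * (Y / Real.log Y ^ U.card) ≤ (A.card : ℝ) →
      c * Y ≤ (((Ico (2 * Y) (4 * Y)).filter (fun N =>
        c * (Y / Real.log Y ^ (2 * U.card)) ≤ ((PS A N).card : ℝ))).card : ℝ) := by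
  set δ : ℝ := min κ 1 with hδd
  have hδ : 0 < δ := lt_min hκ one_pos
  have hδ1 : δ ≤ 1 := min_le_right _ _
  have hδκ : δ ≤ κ := min_le_left _ _
  obtain ⟨L, hL⟩ : ∃ L : ℕ, L = U.card := ⟨_, rfl⟩
  rw [← hL]
  set A0 : ℕ := U.sup id with hA0
  have hUA : ∀ u ∈ U, u ≤ A0 := fun u hu => Finset.le_sup (f := id) hu
  obtain ⟨w0, δ', hδ', hδ1', C, hC, X2, h2⟩ := R_upper L A0 δ hδ hδ1
  obtain ⟨C3, hC3, X3, h3⟩ := avg L A0
  obtain ⟨C4, hC4, X4, h4⟩ := FF_upper δ hδ hδ1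
  obtain ⟨X5, h5⟩ := Pool.Agent.H325R2.wtx.2 δ hδ hδ1
  refine ⟨min (c₀ ^ 4 / (4 * (C ^ 2 * C3 * C4 ^ (4 * L)))) (c₀ ^ 2 / 4), by positivity, ?_⟩
  rw [eventually_atTop]
  refine ⟨max (max X2 X3) (max X4 (max X5 3)), ?_⟩
  intro Y hY A hAI hAr hAc
  have hY2 : X2 ≤ Y := by omega
  have hY3 : X3 ≤ Y := by omega
  have hY4 : X4 ≤ Y := by omega
  have hY5 : X5 ≤ Y := by omega
  have hY6 : 3 ≤ Y := by omega
  have hYr : (3 : ℝ) ≤ Y := by exact_mod_cast hY6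
  have hY0 : (0 : ℝ) < Y := by linarith
  have hl : 0 < Real.log (Y : ℝ) := Real.log_pos (by linarith)
  obtain ⟨hF0, -, hR⟩ := h2 Y hY2
  have hFu := h4 Y hY4
  obtain ⟨hJ, -, -⟩ := h5 Y hY5
  set F := FF δ Y with hF
  have hRo : ∀ n ∈ A, Ro δ Y U n := by
    intro n hn u hu p hp hpl
    apply hAr n hn u hu p hp
    have e1 : (p : ℝ) ≤ (2 : ℝ) ^ 2 ^ JJ δ Y := by exact_mod_cast hpl.le
    refine e1.trans (hJ.trans ?_)
    exact Real.rpow_le_rpow_of_exponent_le (by linarith) hδκ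
  set P := P1 w0 (JJ δ' Y) with hP
  have hPp : ∀ p ∈ P, p.Prime := fun p hp => (mem_P1.1 hp).2.1
  have hPS : ∀ N ∈ Ico (2 * Y) (4 * Y), ((PS A N).card : ℝ) ≤ C * (Y * F ^ (2 * L) * hh P U N) := by
    intro N hN
    rw [mem_Ico] at hN
    apply hR U hL.symm hUA N hN.1 (PS A N) ((filter_subset _ _).trans hAI)
    intro n hn
    unfold PS at hn
    rw [mem_filter] at hn
    exact ⟨hRo n hn.1, hRo _ hn.2.2⟩
  have hE : ∑ N ∈ Ico (2 * Y) (4 * Y), ((PS A N).card : ℝ) ^ 2 ≤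
      C ^ 2 * C3 * (Y ^ 3 * F ^ (4 * L)) := by
    calc ∑ N ∈ Ico (2 * Y) (4 * Y), ((PS A N).card : ℝ) ^ 2 ≤
        ∑ N ∈ Ico (2 * Y) (4 * Y), (C * (Y * F ^ (2 * L))) ^ 2 * hh P U N ^ 2 := by
          apply sum_le_sum
          intro N hN
          calc ((PS A N).card : ℝ) ^ 2 ≤ (C * (Y * F ^ (2 * L) * hh P U N)) ^ 2 :=
                pow_le_pow_left₀ (by positivity) (hPS N hN) 2
            _ = _ := by ring
      _ = (C * (Y * F ^ (2 * L))) ^ 2 * ∑ N ∈ Ico (2 * Y) (4 * Y), hh P U N ^ 2 := by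
          rw [mul_sum]
      _ ≤ (C * (Y * F ^ (2 * L))) ^ 2 * (C3 * Y) :=
          mul_le_mul_of_nonneg_left (h3 Y hY3 U hL.symm hU hUA P hPp) (by positivity)
      _ = C ^ 2 * C3 * (Y ^ 3 * (F ^ (2 * L)) ^ 2) := by ring
      _ = _ := by
          rw [← pow_mul]
          congr 3
          ring
  have hFp : F ^ (4 * L) ≤ C4 ^ (4 * L) / Real.log Y ^ (4 * L) := by
    rw [← div_pow]
    exact pow_le_pow_left₀ hF0.le hFu _
  have hE' : ∑ N ∈ Ico (2 * Y) (4 * Y), ((PS A N).card : ℝ) ^ 2 ≤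
      C ^ 2 * C3 * (Y ^ 3 * (C4 ^ (4 * L) / Real.log Y ^ (4 * L))) := by
    refine hE.trans ?_
    gcongr
  have hpz := pz Y (by omega) A hAI _ (by positivity) hE'
  set a : ℝ := (A.card : ℝ) with ha
  have haL : (c₀ * (Y / Real.log Y ^ L)) ^ 4 ≤ a ^ 4 := pow_le_pow_left₀ (by positivity) hAc 4
  have haL2 : (c₀ * (Y / Real.log Y ^ L)) ^ 2 ≤ a ^ 2 := pow_le_pow_left₀ (by positivity) hAc 2
  set G := (Ico (2 * Y) (4 * Y)).filter (fun N => a ^ 2 / (4 * Y) ≤ ((PS A N).card : ℝ)) with hG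
  have hGc : c₀ ^ 4 / (4 * (C ^ 2 * C3 * C4 ^ (4 * L))) * Y ≤ (G.card : ℝ) := by
    have e1 : (c₀ * (Y / Real.log Y ^ L)) ^ 4 / 4 ≤
        C ^ 2 * C3 * (Y ^ 3 * (C4 ^ (4 * L) / Real.log Y ^ (4 * L))) * (G.card : ℝ) :=
      (div_le_div_of_nonneg_right haL (by norm_num)).trans hpz
    have e2 : Real.log (Y : ℝ) ^ (4 * L) = (Real.log Y ^ L) ^ 4 := by
      rw [← pow_mul]
      congr 1
      ring
    have e3 : (c₀ * (Y / Real.log Y ^ L)) ^ 4 / 4 =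
        (c₀ ^ 4 / (4 * (C ^ 2 * C3 * C4 ^ (4 * L))) * Y) *
          (C ^ 2 * C3 * (Y ^ 3 * (C4 ^ (4 * L) / Real.log Y ^ (4 * L)))) := by
      rw [e2]
      have : 0 < C4 ^ (4 * L) := by positivity
      field_simp
    rw [e3, mul_comm (C ^ 2 * C3 * (Y ^ 3 * (C4 ^ (4 * L) / Real.log Y ^ (4 * L)))) (G.card : ℝ)] at e1
    exact le_of_mul_le_mul_right e1 (by positivity)
  refine (mul_le_mul_of_nonneg_right (min_le_left _ _) hY0.le).trans (hGc.trans ?_)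
  apply Nat.cast_le.2
  apply card_le_card
  intro N hN
  rw [hG, mem_filter] at hN
  rw [mem_filter]
  refine ⟨hN.1, le_trans ?_ hN.2⟩
  have e1 : (c₀ * (Y / Real.log Y ^ L)) ^ 2 / (4 * Y) ≤ a ^ 2 / (4 * Y) :=
    div_le_div_of_nonneg_right haL2 (by positivity)
  refine le_trans ?_ e1
  have e2 : Real.log (Y : ℝ) ^ (2 * L) = (Real.log Y ^ L) ^ 2 := by
    rw [← pow_mul]
    congr 1
    ring
  have e3 : (c₀ * (Y / Real.log Y ^ L)) ^ 2 / (4 * Y) = c₀ ^ 2 / 4 * (Y / Real.log Y ^ (2 * L)) := by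
    rw [e2]
    field_simp
  rw [e3]
  exact mul_le_mul_of_nonneg_right (min_le_right _ _) (by positivity)

end Pool.Agent.X34.E
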