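import Mathlib
import Pool.Agent.X34.E.E21

/-! Engine E (helper34): sums of two primes which both are followed by one and the same gap. -/

set_option autoImplicit false

open Finset Filter

namespace Pool.Agent.X34.E

open Pool.Agent.TH882.DD (PS)

open Classical in
/-- a positive proportion of the integers are sums of two primes of the class `a` modulo `M` which both are
followed by the same gap `(g' - g) M` -/
theorem sums_gaps (hE : Eng) (M a : ℕ) (hM0 : 0 < M) (ha : a.Coprime M) (G : Finset ℕ)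
    (hG : G.card = 45) (hadm : ∀ p : ℕ, p.Prime → ¬ p ∣ M → ∃ r : ℕ, ∀ g ∈ G, ¬ p ∣ r + g) :
    ∃ c : ℝ, 0 < c ∧ ∀ᶠ x : ℕ in atTop, ∃ g ∈ G, ∃ g' ∈ G, g < g' ∧ c * x ≤
      (Set.ncard {N : ℕ | N ≤ x ∧ c * (x / Real.log x ^ 90) ≤
        (Set.ncard {p : ℕ | p ≤ N ∧ Follow M a ((g' - g) * M) p ∧
          Follow M a ((g' - g) * M) (N - p)} : ℝ)} : ℝ) := by
  obtain ⟨κ, hκ, hgr⟩ := gaps_rough hE
  obtain ⟨c₀, hc₀, hlow⟩ := hgr M a hM0 ha G hG hadm
  obtain ⟨L, hL⟩ : ∃ L : ℕ, ∀ g ∈ G, g ≤ L :=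
    ⟨G.sup id, fun g hg => Finset.le_sup (f := id) hg⟩
  have hGne : G.Nonempty := by rw [← card_pos]; omega
  set U : Finset ℕ := G.image (fun g => M * g) with hU
  have hUc : U.card = 45 := by
    rw [hU, card_image_of_injective _ (fun g g' h => Nat.eq_of_mul_eq_mul_left hM0 h), hG]
  obtain ⟨c₁, hc₁, hsum⟩ := sums_core U (hGne.image _) (κ / 2) (c₀ / 4) (by positivity) (by positivity)
  rw [hUc] at hsum
  obtain ⟨Y0, hY0⟩ := eventually_atTop.1 hsum
  have ht9 : Tendsto (fun x : ℕ => x / 9) atTop atTop := Nat.tendsto_div_const_atTop (by norm_num)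
  have ht9r : Tendsto (fun x : ℕ => ((x / 9 : ℕ) : ℝ)) atTop atTop := tendsto_natCast_atTop_atTop.comp ht9
  refine ⟨c₁ / 10, by positivity, ?_⟩
  filter_upwards [ht9r.eventually hlow, ht9.eventually_ge_atTop (Y0 + 2 * (L * M) + 4),
    eventually_ge_atTop 90] with x h1 h2 h3
  obtain ⟨g, hg, g', hg', hgg, h1⟩ := h1
  refine ⟨g, hg, g', hg', hgg, ?_⟩
  obtain ⟨h, hh⟩ : ∃ h : ℕ, h = (g' - g) * M := ⟨_, rfl⟩
  rw [← hh] at h1 ⊢
  obtain ⟨X, hX⟩ : ∃ X : ℕ, X = x / 9 := ⟨_, rfl⟩
  rw [← hX] at h1 h2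
  have hMg : M * g ≤ L * M := by
    rw [mul_comm]
    exact Nat.mul_le_mul_right _ (hL g hg)
  have hX4 : (4 : ℝ) ≤ X := by exact_mod_cast (by omega : 4 ≤ X)
  have hXpos : (0 : ℝ) < X := by linarith
  have hlX : 0 < Real.log (X : ℝ) := Real.log_pos (by linarith)
  -- the set
  set T : Finset ℕ := (Ico X (4 * X)).filter (fun n => n < 3 * X ∧ Follow M a h (n + M * g) ∧
      ∀ g'' ∈ G, ∀ p : ℕ, p.Prime → (p : ℝ) ≤ (X : ℝ) ^ κ → ¬ p ∣ n + M * g'') with hT
  have hTc : c₀ * X / Real.log X ^ 45 ≤ (T.card : ℝ) := by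
    refine h1.trans ?_
    rw [← Set.ncard_coe_finset, Nat.cast_le]
    refine Set.ncard_le_ncard (fun n hn => ?_) (Finset.finite_toSet _)
    obtain ⟨h5, h6, h7, h8⟩ := hn
    have h5' : X < n := by exact_mod_cast h5
    have h6' : n + M * g + h < 3 * X := by exact_mod_cast h6
    rw [mem_coe, hT, mem_filter, mem_Ico]
    exact ⟨⟨by omega, by omega⟩, by omega, h7, h8⟩
  have hsplit : T.card ≤ (T.filter (fun n => n ∈ Ico X (2 * X))).card +
      (T.filter (fun n => n ∈ Ico (2 * X) (2 * (2 * X)))).card := by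
    refine le_trans (card_le_card ?_) (card_union_le _ _)
    intro n hn
    have h5 := hn
    rw [hT, mem_filter, mem_Ico] at h5
    rw [mem_union]
    by_cases h6 : n < 2 * X
    · exact Or.inl (mem_filter.2 ⟨hn, mem_Ico.2 ⟨h5.1.1, h6⟩⟩)
    · exact Or.inr (mem_filter.2 ⟨hn, mem_Ico.2 ⟨by omega, by omega⟩⟩)
  obtain ⟨Y, hXY, hY2, hYc⟩ : ∃ Y : ℕ, X ≤ Y ∧ Y ≤ 2 * X ∧ c₀ / 4 * (Y / Real.log Y ^ 45) ≤
      ((T.filter (fun n => n ∈ Ico Y (2 * Y))).card : ℝ) := by
    by_contra hcon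
    push Not at hcon
    have h5 := hcon X le_rfl (by omega)
    have h6 := hcon (2 * X) (by omega) le_rfl
    have h7 : (T.card : ℝ) ≤ ((T.filter (fun n => n ∈ Ico X (2 * X))).card : ℝ) +
      ((T.filter (fun n => n ∈ Ico (2 * X) (2 * (2 * X)))).card : ℝ) := by exact_mod_cast hsplit
    have h8 : ((2 * X : ℕ) : ℝ) / Real.log ((2 * X : ℕ) : ℝ) ^ 45 ≤ 2 * (X / Real.log X ^ 45) := by
      push_cast
      rw [← mul_div_assoc]
      apply div_le_div_of_nonneg_left (by positivity) (by positivity)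
      apply pow_le_pow_left₀ hlX.le
      exact Real.log_le_log hXpos (by linarith)
    have h9 : c₀ / 4 * (((2 * X : ℕ) : ℝ) / Real.log ((2 * X : ℕ) : ℝ) ^ 45) ≤
        c₀ / 2 * (X / Real.log X ^ 45) := by
      calc c₀ / 4 * (((2 * X : ℕ) : ℝ) / Real.log ((2 * X : ℕ) : ℝ) ^ 45) ≤
          c₀ / 4 * (2 * (X / Real.log X ^ 45)) := mul_le_mul_of_nonneg_left h8 (by positivity)
        _ = _ := by ring
    have h10 : c₀ * X / Real.log X ^ 45 = c₀ * (X / Real.log X ^ 45) := by ring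
    have h11 : 0 < X / Real.log (X : ℝ) ^ 45 := by positivity
    rw [h10] at hTc
    nlinarith
  set A : Finset ℕ := T.filter (fun n => n ∈ Ico Y (2 * Y)) with hA
  have hYr : (X : ℝ) ≤ Y := by exact_mod_cast hXY
  have hYpos : (0 : ℝ) < Y := by linarith
  have hgood := hY0 Y (by omega) A (fun n hn => (mem_filter.1 hn).2) (by
    intro n hn u hu p hp hpY
    rw [hU] at hu
    obtain ⟨g'', hg'', rfl⟩ := mem_image.1 hu
    have h5 := (mem_filter.1 hn).1
    rw [hT, mem_filter] at h5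
    apply h5.2.2.2 g'' hg'' p hp
    refine hpY.trans ?_
    have h6 : (Y : ℝ) ≤ (X : ℝ) ^ (2 : ℝ) := by
      have h7 : (Y : ℝ) ≤ 2 * X := by exact_mod_cast hY2
      rw [Real.rpow_two, sq]
      nlinarith
    calc (Y : ℝ) ^ (κ / 2) ≤ ((X : ℝ) ^ (2 : ℝ)) ^ (κ / 2) :=
          Real.rpow_le_rpow hYpos.le h6 (by positivity)
      _ = (X : ℝ) ^ κ := by
          rw [← Real.rpow_mul hXpos.le]
          congr 1
          ring) hYc
  have hx9 : x ≤ 10 * X := by omega
  have hx10 : (x : ℝ) ≤ 10 * Y := by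
    have : x ≤ 10 * Y := by omega
    exact_mod_cast this
  have hYx : Y ≤ x := by omega
  have hlYx : Real.log (Y : ℝ) ≤ Real.log x := Real.log_le_log hYpos (by exact_mod_cast hYx)
  have hlY : 0 < Real.log (Y : ℝ) := Real.log_pos (by linarith)
  calc c₁ / 10 * x ≤ c₁ / 10 * (10 * Y) := mul_le_mul_of_nonneg_left hx10 (by positivity)
    _ = c₁ * Y := by ring
    _ ≤ _ := hgood
    _ ≤ _ := by
      rw [← Set.ncard_coe_finset, Nat.cast_le]
      refine Set.ncard_le_ncard_of_injOn (fun N => N + 2 * (M * g)) ?_ ?_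
        ((Set.finite_Iic x).subset fun N hN => hN.1)
      · intro N hN
        rw [mem_coe, mem_filter, mem_Ico] at hN
        obtain ⟨⟨h5, h6⟩, h7⟩ := hN
        show N + 2 * (M * g) ≤ x ∧ _
        refine ⟨by omega, ?_⟩
        have h8 : c₁ / 10 * ((x : ℝ) / Real.log x ^ 90) ≤ c₁ * (Y / Real.log Y ^ (2 * 45)) := by
          calc c₁ / 10 * ((x : ℝ) / Real.log x ^ 90) ≤ c₁ / 10 * (10 * Y / Real.log Y ^ 90) := by
                apply mul_le_mul_of_nonneg_left _ (by positivity)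
                exact div_le_div₀ (by positivity) hx10 (by positivity) (pow_le_pow_left₀ hlY.le hlYx 90)
            _ = c₁ * (Y / Real.log Y ^ (2 * 45)) := by ring
        refine h8.trans (h7.trans ?_)
        rw [← Set.ncard_coe_finset, Nat.cast_le]
        refine Set.ncard_le_ncard_of_injOn (fun n => n + M * g) ?_ ?_
          ((Set.finite_Iic (N + 2 * (M * g))).subset fun p hp => hp.1)
        · intro n hn
          rw [mem_coe] at hn
          unfold PS at hn
          rw [mem_filter] at hn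
          obtain ⟨h9, h10, h11⟩ := hn
          have h12 := (mem_filter.1 h9).1
          have h13 := (mem_filter.1 h11).1
          rw [hT, mem_filter] at h12 h13
          show n + M * g ≤ N + 2 * (M * g) ∧ Follow M a h (n + M * g) ∧
            Follow M a h (N + 2 * (M * g) - (n + M * g))
          have e1 : N + 2 * (M * g) - (n + M * g) = N - n + M * g := by omega
          rw [e1]
          exact ⟨by omega, h12.2.2.1, h13.2.2.1⟩
        · intro n _ n' _ he
          simp only at he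
          omega
      · intro n _ n' _ he
        simp only at he
        omega

end Pool.Agent.X34.E
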