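import Mathlib
import Pool.Agent.X34.E.E23
import Pool.Agent.X34.E.E24
import Pool.Agent.X34.E.E26

/-! Engine E (helper34): exact patterns of primes in the translates of sieve windows. -/

set_option autoImplicit false

open Finset Filter

namespace Pool.Agent.X34.E

open Pool.Agent.W123.RP

/-- `n ≡ j` modulo all primes `≤ k`, the primes in `(n, n + k]` are the `n + t`, `t ∈ B`, and the `n + t`, `t ∈ S`, have
no prime factor `≤ y` -/
def Win (j k : ℕ) (S B : Finset ℕ) (y : ℝ) (n : ℕ) : Prop :=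
  (∀ p : ℕ, p.Prime → p ≤ k → n ≡ j [MOD p]) ∧ (∀ t : ℕ, 1 ≤ t → t ≤ k → ((n + t).Prime ↔ t ∈ B)) ∧
    ∀ t ∈ S, ∀ p : ℕ, p.Prime → (p : ℝ) ≤ y → ¬ p ∣ n + t

/-- the elements of `S` are among the `t ∈ (0, k]` for which `j + t` has no prime factor `≤ k` -/
def Sub (j k : ℕ) (S : Finset ℕ) : Prop := ∀ t ∈ S, 1 ≤ t ∧ t ≤ k ∧ ∀ p : ℕ, p.Prime → p ≤ k → ¬ p ∣ j + t

theorem cop_primorial {k m : ℕ} (h : ∀ p : ℕ, p.Prime → p ≤ k → ¬ p ∣ m) : m.Coprime (primorial k) := by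
  unfold primorial
  apply Nat.Coprime.prod_right
  intro p hp
  rw [mem_filter, mem_range] at hp
  rw [Nat.coprime_comm, Nat.Prime.coprime_iff_not_dvd hp.2]
  exact h p hp.2 (by omega)

theorem Sub.adm {j k : ℕ} {S : Finset ℕ} (h : Sub j k S) : Adm (S.image (fun t : ℕ => (t : ℤ))) := by
  intro p hp
  rcases le_or_gt p k with hpk | hpk
  · refine ⟨j, fun s hs => ?_⟩
    obtain ⟨t, ht, rfl⟩ := mem_image.1 hs
    have := (h t ht).2.2 p hp hpk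
    intro hd
    exact this (by exact_mod_cast hd)
  · refine ⟨0, fun s hs => ?_⟩
    obtain ⟨t, ht, rfl⟩ := mem_image.1 hs
    intro hd
    rw [zero_add] at hd
    have h1 := Nat.le_of_dvd (h t ht).1 (Int.natCast_dvd_natCast.1 hd)
    have h2 := (h t ht).2.1
    omega

theorem Sub.cop {j k : ℕ} {S : Finset ℕ} (h : Sub j k S) :
    ∀ s ∈ S.image (fun t : ℕ => (t : ℤ)), IsCoprime ((j : ℤ) + s) ((primorial k : ℕ) : ℤ) := by
  intro s hs
  obtain ⟨t, ht, rfl⟩ := mem_image.1 hs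
  have h1 := cop_primorial (h t ht).2.2
  exact_mod_cast Nat.isCoprime_iff_coprime.2 h1

theorem Sub.le {j k : ℕ} {S : Finset ℕ} (h : Sub j k S) :
    ∀ s ∈ S.image (fun t : ℕ => (t : ℤ)), |s| ≤ (k : ℕ) := by
  intro s hs
  obtain ⟨t, ht, rfl⟩ := mem_image.1 hs
  rw [abs_of_nonneg (by positivity)]
  exact_mod_cast (h t ht).2.1

/-- back from integers -/
def pull (S : Finset ℕ) (P : Finset ℤ) : Finset ℕ := S.filter (fun t => (t : ℤ) ∈ P)

theorem pull_sub (S : Finset ℕ) (P : Finset ℤ) : pull S P ⊆ S := filter_subset _ _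

theorem pull_card {S : Finset ℕ} {P : Finset ℤ} (h : P ⊆ S.image (fun t : ℕ => (t : ℤ))) (h2 : 2 ≤ P.card) :
    2 ≤ (pull S P).card := by
  have h1 : P ⊆ (pull S P).image (fun t : ℕ => (t : ℤ)) := by
    intro z hz
    obtain ⟨t, ht, rfl⟩ := mem_image.1 (h hz)
    exact mem_image.2 ⟨t, mem_filter.2 ⟨ht, hz⟩, rfl⟩
  exact h2.trans ((card_le_card h1).trans card_image_le)

theorem mod_of {j k n : ℕ} (h : (n : ℤ) ≡ (j : ℤ) [ZMOD (primorial k : ℕ)]) :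
    ∀ p : ℕ, p.Prime → p ≤ k → n ≡ j [MOD p] := by
  intro p hp hpk
  have h1 : n ≡ j [MOD primorial k] := (Int.natCast_modEq_iff).1 h
  apply h1.of_dvd
  unfold primorial
  exact dvd_prod_of_mem _ (mem_filter.2 ⟨mem_range.2 (by omega), hp⟩)

theorem prime_of {S : Finset ℕ} {P : Finset ℤ} (hP : P ⊆ S.image (fun t : ℕ => (t : ℤ))) {k n : ℕ}
    (h : ∀ z : ℤ, |z| ≤ (k : ℕ) → ((∃ p : ℕ, p.Prime ∧ (p : ℤ) = n + z) ↔ z ∈ P)) :
    ∀ t : ℕ, 1 ≤ t → t ≤ k → ((n + t).Prime ↔ t ∈ pull S P) := by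
  intro t _ htk
  have h1 := h t (by rw [abs_of_nonneg (by positivity)]; exact_mod_cast htk)
  constructor
  · intro hp
    have h2 := h1.1 ⟨n + t, hp, by push_cast; ring⟩
    obtain ⟨t', ht', he⟩ := mem_image.1 (hP h2)
    have : t' = t := by exact_mod_cast he
    subst this
    exact mem_filter.2 ⟨ht', h2⟩
  · intro ht
    obtain ⟨p, hp, he⟩ := h1.2 (mem_filter.1 ht).2
    have : p = n + t := by exact_mod_cast he
    exact this ▸ hp

theorem Win_of {j k : ℕ} {S : Finset ℕ} {P : Finset ℤ} (hP : P ⊆ S.image (fun t : ℕ => (t : ℤ))) {y : ℝ} {n : ℕ}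
    (h : Pt (primorial k) j (S.image (fun t : ℕ => (t : ℤ))) P k y n) : Win j k S (pull S P) y n := by
  refine ⟨mod_of h.1, prime_of hP h.2.1, fun t ht p hp hpy hd => ?_⟩
  exact h.2.2 t (mem_image.2 ⟨t, ht, rfl⟩) p hp hpy (by exact_mod_cast hd)

theorem Win_rough {j k : ℕ} {S B : Finset ℕ} {y : ℝ} {n : ℕ} (h : Win j k S B y n) :
    RoughS (S.image (fun t : ℕ => (t : ℤ))) y n := by
  intro s hs p hp hpy hd
  obtain ⟨t, ht, rfl⟩ := mem_image.1 hs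
  exact h.2.2 t ht p hp hpy (by exact_mod_cast hd)

theorem card_img (S : Finset ℕ) : (S.image (fun t : ℕ => (t : ℤ))).card = S.card :=
  card_image_of_injective _ Nat.cast_injective

theorem two_pc {n k : ℕ} {B : Finset ℕ} (h2 : 2 ≤ B.card) (hB : ∀ t ∈ B, 1 ≤ t ∧ t ≤ k ∧ (n + t).Prime) :
    Nat.primeCounting n + 2 ≤ Nat.primeCounting (n + k) := by
  have h1 : ∀ m, Nat.primeCounting m = ((Icc 1 m).filter Nat.Prime).card := by
    intro m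
    rw [Nat.primeCounting, Nat.primeCounting', Nat.count_eq_card_filter_range]
    congr 1
    ext p
    simp only [mem_filter, mem_range, mem_Icc]
    constructor
    · rintro ⟨h3, h4⟩
      exact ⟨⟨h4.one_lt.le, by omega⟩, h4⟩
    · rintro ⟨h3, h4⟩
      exact ⟨by omega, h4⟩
  rw [h1, h1]
  have h3 : ((Icc 1 n).filter Nat.Prime) ∪ B.image (fun t => n + t) ⊆ (Icc 1 (n + k)).filter Nat.Prime := by
    intro p hp
    rcases mem_union.1 hp with h | h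
    · rw [mem_filter, mem_Icc] at h ⊢
      exact ⟨⟨h.1.1, by omega⟩, h.2⟩
    · obtain ⟨t, ht, rfl⟩ := mem_image.1 h
      have := hB t ht
      rw [mem_filter, mem_Icc]
      exact ⟨⟨by omega, by omega⟩, this.2.2⟩
  have h4 : Disjoint ((Icc 1 n).filter Nat.Prime) (B.image (fun t => n + t)) := by
    rw [Finset.disjoint_left]
    intro p hp hq
    obtain ⟨t, ht, rfl⟩ := mem_image.1 hq
    rw [mem_filter, mem_Icc] at hp
    have := (hB t ht).1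
    omega
  have h5 := card_le_card h3
  rw [card_union_of_disjoint h4, card_image_of_injective _ (fun a b h => by simpa using h)] at h5
  omega

theorem win_count (hE : Eng) (j k : ℕ) (S : Finset ℕ) (hS : S.card = 45) (hsub : Sub j k S) :
    ∃ c : ℝ, 0 < c ∧ ∀ᶠ X : ℕ in atTop, ∃ B ⊆ S, 2 ≤ B.card ∧
      c * (X / Real.log X ^ 45) ≤ (Set.ncard {n : ℕ | 1 ≤ n ∧ n ≤ X ∧ Win j k ∅ B 0 n} : ℝ) := by
  obtain ⟨s1, hs1, hA⟩ := exact_two_sided hE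
  obtain ⟨c, C, hc, hC, hev⟩ := hA (S.image (fun t : ℕ => (t : ℤ))) (by rw [card_img]; exact hS) hsub.adm
    (primorial k) j (primorial_pos k) hsub.cop k 1 one_pos le_rfl
  refine ⟨c, hc, ?_⟩
  filter_upwards [hev] with X hX
  obtain ⟨-, P, hP, hP2, hcount, -⟩ := hX
  refine ⟨pull S P, pull_sub S P, pull_card hP hP2, hcount.trans ?_⟩
  rw [Nat.cast_le]
  apply Set.ncard_le_ncard
  · rintro n ⟨h1, h2, h3⟩
    have h4 := Win_of hP h3
    exact ⟨h1, h2, h4.1, h4.2.1, fun t ht => absurd ht (notMem_empty t)⟩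
  · exact (Set.finite_Icc 1 X).subset fun m hm => ⟨hm.1, hm.2.1⟩

theorem win_regular (hE : Eng) : ∃ s : ℝ, 0 < s ∧ ∀ (j k : ℕ) (S : Finset ℕ), S.card = 45 → Sub j k S →
    ∃ c C K κ : ℝ, 0 < c ∧ 0 < C ∧ 0 < K ∧ 0 < κ ∧ ∀ᶠ X : ℕ in atTop, ∃ B ⊆ S, 2 ≤ B.card ∧
      κ * X ≤ (Set.ncard {n : ℕ | X < n ∧ n ≤ 4 * X ∧ Reg (Win j k S B ((X : ℝ) ^ s)) c C K X n} : ℝ) := by
  obtain ⟨s2, hs2, hB⟩ := nb hE
  refine ⟨s2, hs2, fun j k S hS hsub => ?_⟩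
  obtain ⟨c₁, c₂, K, κ, hc₁, hc₂, hK, hκ, hev⟩ := hB (S.image (fun t : ℕ => (t : ℤ)))
    (by rw [card_img]; exact hS) hsub.adm (primorial k) j (primorial_pos k) hsub.cop k hsub.le
  refine ⟨c₁, c₂, K, κ, hc₁, hc₂, hK, hκ, ?_⟩
  filter_upwards [hev] with X hX
  obtain ⟨P, hP, hP2, hcount⟩ := hX
  refine ⟨pull S P, pull_sub S P, pull_card hP hP2, hcount.trans ?_⟩
  rw [Nat.cast_le, filter_eq]
  apply Set.ncard_le_ncard
  · rintro n ⟨h2, h3, h4⟩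
    refine ⟨h2, h3, fun u v hu hv h5 h6 => ?_⟩
    obtain ⟨h7, h8⟩ := h4 u v hu hv h5 h6
    rw [co_eq] at h7 h8
    rw [mul_div_assoc] at h7 h8
    have e1 : Set.ncard {m : ℕ | u < m ∧ m ≤ v ∧
          Pt (primorial k) j (S.image (fun t : ℕ => (t : ℤ))) P k ((X : ℝ) ^ s2) m} ≤
        Set.ncard {m : ℕ | u < m ∧ m ≤ v ∧ Win j k S (pull S P) ((X : ℝ) ^ s2) m} := by
      exact Set.ncard_le_ncard (fun m hm => ⟨hm.1, hm.2.1, Win_of hP hm.2.2⟩)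
        ((Set.finite_Ioc u v).subset fun m hm => ⟨hm.1, hm.2.1⟩)
    have e2 : Set.ncard {m : ℕ | u < m ∧ m ≤ v ∧ Win j k S (pull S P) ((X : ℝ) ^ s2) m} ≤
        Set.ncard {m : ℕ | u < m ∧ m ≤ v ∧ RoughS (S.image (fun t : ℕ => (t : ℤ))) ((X : ℝ) ^ s2) m} := by
      exact Set.ncard_le_ncard (fun m hm => ⟨hm.1, hm.2.1, Win_rough hm.2.2⟩)
        ((Set.finite_Ioc u v).subset fun m hm => ⟨hm.1, hm.2.1⟩)
    exact ⟨h7.trans (by exact_mod_cast e1), le_trans (by exact_mod_cast e2) h8⟩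
  · exact (Set.finite_Iic (4 * X)).subset fun n hn => hn.2.1

theorem win_narrow (hE : Eng) (j k : ℕ) (S : Finset ℕ) (hS : 45 ≤ S.card) (hsub : Sub j k S) :
    ∃ B ⊆ S, 2 ≤ B.card ∧ ∀ l : ℕ, ∃ C : ℕ, ∃ᶠ N : ℕ in atTop, ∃ d : ℕ, 1 ≤ d ∧ (d : ℝ) ≤ (Real.log N) ^ C ∧
      (N : ℝ) / (Real.log N) ^ C ≤ (Set.ncard {n : ℕ | 1 ≤ n ∧ n ≤ N ∧ ∀ i < l, Win j k ∅ B 0 (n + i * d)} : ℝ) := by
  classical
  obtain ⟨P, hP, hP2, h⟩ := nar_exact hE (S.image (fun t : ℕ => (t : ℤ))) (by rw [card_img]; exact hS) hsub.adm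
    (primorial k) j (primorial_pos k) hsub.cop
  refine ⟨pull S P, pull_sub S P, pull_card hP hP2, fun l => ?_⟩
  have hN : Nar (Win j k ∅ (pull S P) 0) := Nar.mono (h k) (fun n hn =>
    ⟨mod_of hn.1, prime_of hP hn.2, fun t ht => absurd ht (notMem_empty t)⟩)
  obtain ⟨C, hC⟩ := hN l
  refine ⟨C, hC.mono ?_⟩
  rintro N ⟨d, hd1, hd2, hd3⟩
  refine ⟨d, hd1, hd2, hd3.trans ?_⟩
  rw [← Set.ncard_coe_finset, Nat.cast_le]
  apply Set.ncard_le_ncard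
  · intro n hn
    obtain ⟨h0, h00⟩ := Finset.mem_filter.1 (Finset.mem_coe.1 hn)
    rw [mem_Icc] at h0
    exact ⟨h0.1, h0.2, fun i hi => h00 i hi⟩
  · exact (Set.finite_Icc 1 N).subset fun m hm => ⟨hm.1, hm.2.1⟩

theorem Win.two {j k n : ℕ} {S S' B : Finset ℕ} {y : ℝ} (hsub : Sub j k S) (hB : B ⊆ S) (h2 : 2 ≤ B.card)
    (h : Win j k S' B y n) : Nat.primeCounting n + 2 ≤ Nat.primeCounting (n + k) := by
  refine two_pc h2 (fun t ht => ?_)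
  have h1 := hsub t (hB ht)
  exact ⟨h1.1, h1.2.1, (h.2.1 t h1.1 h1.2.1).2 ht⟩

end Pool.Agent.X34.E
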