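import Mathlib
import Pool.Agent.X34.E.E32

/-! Engine E (helper34): sums of the elements of two dense sets of rough integers, at different scales. -/

set_option autoImplicit false
set_option maxHeartbeats 4000000

open Finset Filter

namespace Pool.Agent.X34.E

theorem exists_D (U : Finset ℤ) : ∃ D : ℕ, ∀ t ∈ dif U, |t| ≤ D := by
  refine ⟨(dif U).sup Int.natAbs, fun t ht => ?_⟩
  have h1 : t.natAbs ≤ (dif U).sup Int.natAbs := Finset.le_sup (f := Int.natAbs) ht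
  rw [Int.abs_eq_natAbs]
  exact_mod_cast h1

theorem exp_two_le : Real.exp 2 ≤ 8 := by
  have h7 := Real.exp_one_lt_d9
  have h8 : Real.exp 2 = Real.exp 1 ^ 2 := by
    rw [← Real.exp_nat_mul]; norm_num
  have h9 := Real.exp_pos 1
  rw [h8]
  nlinarith

open Classical in
/-- the number of the pairs of elements with a given distance -/
theorem dist_pairs (S : Finset ℕ) (P : ℕ → Prop) (Y h : ℕ) (hS : S ⊆ Ioc Y (4 * Y)) (hP : ∀ s ∈ S, P s)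
    :
    (S.offDiag.filter (fun z => Nat.dist z.1 z.2 = h)).card ≤
      2 * ((Ioc Y (4 * Y)).filter (fun n => P n ∧ P (n + h))).card := by
  have h1 : (S.offDiag.filter (fun z => Nat.dist z.1 z.2 = h)) ⊆
      (((Ioc Y (4 * Y)).filter (fun n => P n ∧ P (n + h))).image (fun n => (n, n + h))) ∪
      (((Ioc Y (4 * Y)).filter (fun n => P n ∧ P (n + h))).image (fun n => (n + h, n))) := by
    intro z hz
    rw [mem_filter, mem_offDiag] at hz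
    obtain ⟨⟨h1, h2, h3⟩, h4⟩ := hz
    rw [mem_union, mem_image, mem_image]
    rcases lt_or_gt_of_ne h3 with h5 | h5
    · left
      rw [Nat.dist_eq_sub_of_le h5.le] at h4
      have e : z.2 = z.1 + h := by omega
      refine ⟨z.1, mem_filter.2 ⟨hS h1, hP _ h1, by rw [← e]; exact hP _ h2⟩, ?_⟩
      exact Prod.ext rfl e.symm
    · right
      rw [Nat.dist_comm, Nat.dist_eq_sub_of_le h5.le] at h4
      have e : z.1 = z.2 + h := by omega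
      refine ⟨z.2, mem_filter.2 ⟨hS h2, hP _ h2, by rw [← e]; exact hP _ h1⟩, ?_⟩
      exact Prod.ext e.symm rfl
  refine (card_le_card h1).trans ((card_union_le _ _).trans ?_)
  have h2 := card_image_le (s := (Ioc Y (4 * Y)).filter (fun n => P n ∧ P (n + h))) (f := fun n => (n, n + h))
  have h3 := card_image_le (s := (Ioc Y (4 * Y)).filter (fun n => P n ∧ P (n + h))) (f := fun n => (n + h, n))
  omega

theorem mul_le_add_sq (a b : ℝ) : a * b ≤ a ^ 2 + b ^ 2 := by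
  nlinarith [sq_nonneg (a - b)]

open Classical in
/-- **Sums of the elements of two dense sets of rough integers.** -/
theorem sumE (U₁ U₂ : Finset ℤ) (hadm₁ : Adm U₁) (hadm₂ : Adm U₂) (hU₁ : U₁.Nonempty) (hU₂ : U₂.Nonempty)
    (κ₁ κ₂ c₁ c₂ : ℝ) (hκ₁ : 0 < κ₁) (hκ₂ : 0 < κ₂) (hc₁ : 0 < c₁) (hc₂ : 0 < c₂) :
    ∃ K c : ℝ, 0 < K ∧ 0 < c ∧ ∃ Y₀ : ℕ, ∀ X Y : ℕ, Y₀ ≤ Y → Y ≤ X →
      K * (Real.log X ^ U₁.card * Real.log Y ^ U₂.card) ≤ Y →
      ∀ A S : Finset ℕ, A ⊆ Ioc X (4 * X) → (∀ a ∈ A, RoughS U₁ ((X : ℝ) ^ κ₁) a) →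
      c₁ * X / Real.log X ^ U₁.card ≤ #A → S ⊆ Ioc Y (4 * Y) → (∀ s ∈ S, RoughS U₂ ((Y : ℝ) ^ κ₂) s) →
      c₂ * Y / Real.log Y ^ U₂.card ≤ #S → c * X ≤ (#((S ×ˢ A).image (fun z => z.1 + z.2)) : ℝ) := by
  obtain ⟨D₁, hD₁⟩ := exists_D U₁
  obtain ⟨D₂, hD₂⟩ := exists_D U₂
  obtain ⟨D, hDd⟩ : ∃ D : ℕ, D = D₁ + D₂ := ⟨_, rfl⟩
  have hD1 : ∀ t ∈ dif U₁, |t| ≤ D := fun t ht => (hD₁ t ht).trans (by rw [hDd]; push_cast; omega)
  have hD2 : ∀ t ∈ dif U₂, |t| ≤ D := fun t ht => (hD₂ t ht).trans (by rw [hDd]; push_cast; omega)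
  obtain ⟨e₁, he₁, C₁, hC₁, hp₁⟩ := pair_bound U₁ hadm₁ κ₁ hκ₁ D hD1
  obtain ⟨e₂, he₂, C₂, hC₂, hp₂⟩ := pair_bound U₂ hadm₂ κ₂ hκ₂ D hD2
  obtain ⟨g₁, hg₁⟩ : ∃ g : ℕ, g = U₁.card := ⟨_, rfl⟩
  obtain ⟨g₂, hg₂⟩ : ∃ g : ℕ, g = U₂.card := ⟨_, rfl⟩
  rw [← hg₁] at hp₁ ⊢
  rw [← hg₂] at hp₂ ⊢
  obtain ⟨d₁, hd₁⟩ : ∃ d : ℕ, d = (dif U₁).card := ⟨_, rfl⟩
  obtain ⟨d₂, hd₂⟩ : ∃ d : ℕ, d = (dif U₂).card := ⟨_, rfl⟩
  obtain ⟨w, hw⟩ : ∃ w : ℕ, w = 3 + 2 * e₁ * d₁ + 2 * e₂ * d₂ := ⟨_, rfl⟩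
  have hw3 : 3 ≤ w := by omega
  obtain ⟨Lw, hLw⟩ : ∃ Lw : ℝ, Lw = Real.log w := ⟨_, rfl⟩
  have hLw0 : 0 ≤ Lw := by rw [hLw]; exact Real.log_natCast_nonneg w
  -- the constants
  obtain ⟨C, hC⟩ : ∃ C : ℝ, C = 2 * C₂ * Lw ^ e₂ * (C₁ * Lw ^ e₁) * (64 * (d₁ + d₂)) := ⟨_, rfl⟩
  have hC0 : 0 ≤ C := by rw [hC]; positivity
  obtain ⟨b, hb⟩ : ∃ b : ℝ, b = c₁ * c₂ / (D + 1) := ⟨_, rfl⟩
  have hb0 : 0 < b := by rw [hb]; positivity
  obtain ⟨F, hF⟩ : ∃ F : ℝ, F = 1 + C / b ^ 2 := ⟨_, rfl⟩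
  have hF0 : 0 < F := by rw [hF]; positivity
  obtain ⟨X₁, hX₁⟩ := eventually_atTop.1 hp₁
  obtain ⟨X₂, hX₂⟩ := eventually_atTop.1 hp₂
  refine ⟨1 / b, 1 / F, by positivity, by positivity, max X₁ (max X₂ (D + 3)), ?_⟩
  intro X Y hY hYX hK A S0 hA hAr hAc hS0 hSr0 hSc0
  have hYX₂ : X₂ ≤ Y := (le_max_left _ _).trans ((le_max_right _ _).trans hY)
  have hYD : D + 3 ≤ Y := (le_max_right _ _).trans ((le_max_right _ _).trans hY)
  have hXX₁ : X₁ ≤ X := ((le_max_left _ _).trans hY).trans hYX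
  have hYr : (3 : ℝ) ≤ Y := by exact_mod_cast (by omega : 3 ≤ Y)
  have hXr : (3 : ℝ) ≤ X := by exact_mod_cast (by omega : 3 ≤ X)
  have hlX : 0 < Real.log X := Real.log_pos (by linarith)
  have hlY : 0 < Real.log Y := Real.log_pos (by linarith)
  obtain ⟨S, hSS, hScd, hsep⟩ := spaced S0 D
  have hS : S ⊆ Ioc Y (4 * Y) := hSS.trans hS0
  have hSr : ∀ s ∈ S, RoughS U₂ ((Y : ℝ) ^ κ₂) s := fun s hs => hSr0 s (hSS hs)
  have hScr : (#S0 : ℝ) ≤ (D + 1) * #S := by exact_mod_cast hScd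
  have hSc : c₂ / (D + 1) * (Y / Real.log Y ^ g₂) ≤ #S := by
    have h1 : c₂ * Y / Real.log Y ^ g₂ ≤ (D + 1) * #S := hSc0.trans hScr
    have h2 : c₂ / (D + 1) * (Y / Real.log Y ^ g₂) = (c₂ * Y / Real.log Y ^ g₂) / (D + 1) := by
      field_simp
    rw [h2, div_le_iff₀ (by positivity)]
    linarith
  -- the sum over the pairs
  obtain ⟨N, hN⟩ : ∃ N : ℕ → ℝ, N = fun h => (#(A.filter (fun k => k + h ∈ A)) : ℝ) := ⟨_, rfl⟩
  have hN0 : ∀ h, 0 ≤ N h := fun h => by rw [hN]; exact Nat.cast_nonneg _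
  have hsum : ∑ z ∈ S.offDiag, N (Nat.dist z.1 z.2) ≤ C * ((Y / Real.log Y ^ g₂) ^ 2 * (X / Real.log X ^ (2 * g₁))) := by
    have hmap : ∀ z ∈ S.offDiag, Nat.dist z.1 z.2 ∈ Icc (D + 1) (3 * Y) := by
      intro z hz
      rw [mem_offDiag] at hz
      have h1 := hsep _ hz.1 _ hz.2.1 hz.2.2
      have h2 := mem_Ioc.1 (hS hz.1)
      have h3 := mem_Ioc.1 (hS hz.2.1)
      rw [mem_Icc]
      refine ⟨h1, ?_⟩
      rcases le_total z.1 z.2 with h4 | h4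
      · rw [Nat.dist_eq_sub_of_le h4]; omega
      · rw [Nat.dist_comm, Nat.dist_eq_sub_of_le h4]; omega
    rw [← sum_fiberwise_of_maps_to hmap]
    have h1 : ∀ h ∈ Icc (D + 1) (3 * Y), ∑ z ∈ S.offDiag with Nat.dist z.1 z.2 = h, N (Nat.dist z.1 z.2) ≤
        (2 * C₂ * Lw ^ e₂ * (C₁ * Lw ^ e₁)) * (Y / Real.log Y ^ (2 * g₂)) * (X / Real.log X ^ (2 * g₁)) *
          (FT (dif U₁) w h ^ (2 * e₁) + FT (dif U₂) w h ^ (2 * e₂)) := by
      intro h hh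
      rw [mem_Icc] at hh
      have h2 : ∑ z ∈ S.offDiag with Nat.dist z.1 z.2 = h, N (Nat.dist z.1 z.2) =
          ((S.offDiag.filter (fun z => Nat.dist z.1 z.2 = h)).card : ℝ) * N h := by
        rw [sum_congr rfl (fun z hz => by rw [(mem_filter.1 hz).2] : ∀ z ∈
          S.offDiag.filter (fun z => Nat.dist z.1 z.2 = h), N (Nat.dist z.1 z.2) = N h), sum_const, nsmul_eq_mul]
      rw [h2]
      have h3 : ((S.offDiag.filter (fun z => Nat.dist z.1 z.2 = h)).card : ℝ) ≤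
          2 * (C₂ * (Y / Real.log Y ^ (2 * g₂)) * (Lw ^ e₂ * FT (dif U₂) w h ^ e₂)) := by
        have h4 := dist_pairs S (RoughS U₂ ((Y : ℝ) ^ κ₂)) Y h hS hSr
        have h5 := hX₂ Y hYX₂ w h hw3 hh.1
        rw [← hLw] at h5
        have h6 : ((S.offDiag.filter (fun z => Nat.dist z.1 z.2 = h)).card : ℝ) ≤
            2 * (((Ioc Y (4 * Y)).filter (fun n => RoughS U₂ ((Y : ℝ) ^ κ₂) n ∧
              RoughS U₂ ((Y : ℝ) ^ κ₂) (n + h))).card : ℝ) := by exact_mod_cast h4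
        linarith
      have h4 : N h ≤ C₁ * (X / Real.log X ^ (2 * g₁)) * (Lw ^ e₁ * FT (dif U₁) w h ^ e₁) := by
        have h5 := hX₁ X hXX₁ w h hw3 hh.1
        rw [← hLw] at h5
        refine le_trans ?_ h5
        rw [hN]
        beta_reduce
        have : #(A.filter (fun k => k + h ∈ A)) ≤ ((Ioc X (4 * X)).filter
            (fun n => RoughS U₁ ((X : ℝ) ^ κ₁) n ∧ RoughS U₁ ((X : ℝ) ^ κ₁) (n + h))).card := by
          apply card_le_card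
          intro k hk
          rw [mem_filter] at hk
          rw [mem_filter]
          exact ⟨hA hk.1, hAr _ hk.1, hAr _ hk.2⟩
        exact_mod_cast this
      have hF1 : 0 ≤ FT (dif U₁) w h := by linarith [one_le_FT (dif U₁) w h]
      have hF2 : 0 ≤ FT (dif U₂) w h := by linarith [one_le_FT (dif U₂) w h]
      have h5 : FT (dif U₁) w h ^ e₁ * FT (dif U₂) w h ^ e₂ ≤
          FT (dif U₁) w h ^ (2 * e₁) + FT (dif U₂) w h ^ (2 * e₂) := by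
        have := mul_le_add_sq (FT (dif U₁) w h ^ e₁) (FT (dif U₂) w h ^ e₂)
        rw [← pow_mul, ← pow_mul] at this
        rw [mul_comm 2 e₁, mul_comm 2 e₂]
        exact this
      calc ((S.offDiag.filter (fun z => Nat.dist z.1 z.2 = h)).card : ℝ) * N h ≤
            (2 * (C₂ * (Y / Real.log Y ^ (2 * g₂)) * (Lw ^ e₂ * FT (dif U₂) w h ^ e₂))) *
            (C₁ * (X / Real.log X ^ (2 * g₁)) * (Lw ^ e₁ * FT (dif U₁) w h ^ e₁)) :=
            mul_le_mul h3 h4 (hN0 h) (by positivity)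
        _ = (2 * C₂ * Lw ^ e₂ * (C₁ * Lw ^ e₁)) * (Y / Real.log Y ^ (2 * g₂)) * (X / Real.log X ^ (2 * g₁)) *
          (FT (dif U₁) w h ^ e₁ * FT (dif U₂) w h ^ e₂) := by ring
        _ ≤ _ := mul_le_mul_of_nonneg_left h5 (by positivity)
    refine (sum_le_sum h1).trans ?_
    rw [← mul_sum, sum_add_distrib]
    have h2 := moment_FT (dif U₁) (dif_nonempty hU₁) D hD1 w (2 * e₁) (3 * Y) (by omega) (by
      rw [hw, ← hd₁]; omega)
    have h3 := moment_FT (dif U₂) (dif_nonempty hU₂) D hD2 w (2 * e₂) (3 * Y) (by omega) (by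
      rw [hw, ← hd₂]; omega)
    rw [← hd₁] at h2
    rw [← hd₂] at h3
    have h4 : ((3 * Y + D : ℕ) : ℝ) * Real.exp 2 ≤ 64 * Y := by
      have h5 : ((3 * Y + D : ℕ) : ℝ) ≤ 8 * Y := by exact_mod_cast (by omega : 3 * Y + D ≤ 8 * Y)
      calc ((3 * Y + D : ℕ) : ℝ) * Real.exp 2 ≤ (8 * Y) * 8 :=
            mul_le_mul h5 exp_two_le (Real.exp_pos 2).le (by positivity)
        _ = 64 * Y := by ring
    have h5 : ∑ i ∈ Icc (D + 1) (3 * Y), FT (dif U₁) w i ^ (2 * e₁) +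
        ∑ i ∈ Icc (D + 1) (3 * Y), FT (dif U₂) w i ^ (2 * e₂) ≤ (64 * (d₁ + d₂)) * Y := by
      have h6 : (d₁ : ℝ) * (((3 * Y + D : ℕ) : ℝ) * Real.exp 2) ≤ d₁ * (64 * Y) :=
        mul_le_mul_of_nonneg_left h4 (Nat.cast_nonneg _)
      have h7 : (d₂ : ℝ) * (((3 * Y + D : ℕ) : ℝ) * Real.exp 2) ≤ d₂ * (64 * Y) :=
        mul_le_mul_of_nonneg_left h4 (Nat.cast_nonneg _)
      linarith
    refine (mul_le_mul_of_nonneg_left h5 (by positivity)).trans (le_of_eq ?_)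
    rw [hC, div_pow, ← pow_mul, mul_comm g₂ 2]
    field_simp
  -- the count
  have hcs := Pool.Agent.TH685.TI.cs A S
  obtain ⟨I, hI⟩ : ∃ I : Finset ℕ, I = (S ×ˢ A).image (fun z => z.1 + z.2) := ⟨_, rfl⟩
  have hII : #I ≤ #((S0 ×ˢ A).image (fun z => z.1 + z.2)) := by
    rw [hI]
    apply card_le_card
    apply image_subset_image
    exact product_subset_product hSS (Subset.refl _)
  rw [← hI] at hcs
  obtain ⟨t, ht⟩ : ∃ t : ℝ, t = (#S : ℝ) * #A := ⟨_, rfl⟩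
  rw [← ht] at hcs
  have ht1 : b * ((Y / Real.log Y ^ g₂) * (X / Real.log X ^ g₁)) ≤ t := by
    rw [ht]
    calc b * ((Y / Real.log Y ^ g₂) * (X / Real.log X ^ g₁)) =
          (c₂ / (D + 1) * (Y / Real.log Y ^ g₂)) * (c₁ * X / Real.log X ^ g₁) := by rw [hb]; field_simp
      _ ≤ (#S : ℝ) * #A := mul_le_mul hSc hAc (by positivity) (Nat.cast_nonneg _)
  have ht2 : (X : ℝ) ≤ t := by
    refine le_trans ?_ ht1
    have h1 : (1 : ℝ) / b * (Real.log X ^ g₁ * Real.log Y ^ g₂) ≤ Y := hK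
    rw [one_div, inv_mul_le_iff₀ hb0] at h1
    have h2 : b * ((Y / Real.log Y ^ g₂) * (X / Real.log X ^ g₁)) =
        (b * Y / (Real.log X ^ g₁ * Real.log Y ^ g₂)) * X := by field_simp
    rw [h2]
    have h3 : 1 ≤ b * Y / (Real.log X ^ g₁ * Real.log Y ^ g₂) := by
      rw [one_le_div (by positivity)]
      exact h1
    exact le_mul_of_one_le_left (by linarith) h3
  have htpos : 0 < t := by linarith
  have ht3 : t ≤ t ^ 2 / X := by
    rw [le_div_iff₀ (by linarith)]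
    calc t * X ≤ t * t := mul_le_mul_of_nonneg_left ht2 htpos.le
      _ = t ^ 2 := by ring
  have ht4 : C * ((Y / Real.log Y ^ g₂) ^ 2 * (X / Real.log X ^ (2 * g₁))) ≤ t ^ 2 / X * (C / b ^ 2) := by
    have h1 : (b * ((Y / Real.log Y ^ g₂) * (X / Real.log X ^ g₁))) ^ 2 ≤ t ^ 2 :=
      pow_le_pow_left₀ (by positivity) ht1 2
    have h2 : C * ((Y / Real.log Y ^ g₂) ^ 2 * (X / Real.log X ^ (2 * g₁))) =
        (b * ((Y / Real.log Y ^ g₂) * (X / Real.log X ^ g₁))) ^ 2 / X * (C / b ^ 2) := by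
      rw [mul_pow, mul_pow, div_pow (X : ℝ), ← pow_mul, mul_comm g₁ 2]
      field_simp
    rw [h2]
    gcongr
  have hfin : (X : ℝ) ≤ #I * F := by
    have hXpos : (0 : ℝ) < X := by linarith
    have h1 : t ^ 2 ≤ #I * (t ^ 2 / X * F) := by
      refine hcs.trans ?_
      apply mul_le_mul_of_nonneg_left _ (Nat.cast_nonneg _)
      have h0 : ∑ z ∈ S.offDiag, (#(A.filter (fun k => k + Nat.dist z.1 z.2 ∈ A)) : ℝ) =
          ∑ z ∈ S.offDiag, N (Nat.dist z.1 z.2) := by rw [hN]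
      rw [h0]
      calc t + ∑ z ∈ S.offDiag, N (Nat.dist z.1 z.2)
          ≤ t ^ 2 / X + t ^ 2 / X * (C / b ^ 2) := by linarith
        _ = t ^ 2 / X * F := by rw [hF]; ring
    have h3 : t ^ 2 * X ≤ t ^ 2 * (#I * F) := by
      calc t ^ 2 * X ≤ (#I * (t ^ 2 / X * F)) * X := by gcongr
        _ = t ^ 2 * (#I * F) := by field_simp
    exact le_of_mul_le_mul_left h3 (by positivity)
  have hIIr : (#I : ℝ) ≤ #((S0 ×ˢ A).image (fun z => z.1 + z.2)) := by exact_mod_cast hII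
  rw [one_div, inv_mul_le_iff₀ hF0]
  calc (X : ℝ) ≤ #I * F := hfin
    _ ≤ #((S0 ×ˢ A).image (fun z => z.1 + z.2)) * F := mul_le_mul_of_nonneg_right hIIr hF0.le
    _ = F * #((S0 ×ˢ A).image (fun z => z.1 + z.2)) := by ring

end Pool.Agent.X34.E
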