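import Mathlib
import Pool.Agent.X34.E.E41
import Pool.Agent.X34.E.E34

/-! Engine E (helper34): sums of two primes followed by bounded gaps, at different scales. -/

set_option autoImplicit false
set_option maxHeartbeats 4000000

open Finset Filter

namespace Pool.Agent.X34.E

/-- the dense sets of rough integers of the engine -/
theorem gaps_A (hE : Eng) (M a : ℕ) (hM0 : 0 < M) (ha2 : a.Coprime M) (G : Finset ℕ) (hG : G.card = 45)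
    (hadm : ∀ p : ℕ, p.Prime → ¬ p ∣ M → ∃ r : ℕ, ∀ g ∈ G, ¬ p ∣ r + g) :
    ∃ (S : Finset ℤ) (κ c : ℝ), S.card = 45 ∧ Adm S ∧ 0 < κ ∧ 0 < c ∧
      ∀ᶠ X : ℕ in atTop, ∃ g ∈ G, ∃ g' ∈ G, g < g' ∧ ∃ A : Finset ℕ, A ⊆ Ioc X (4 * X) ∧
        (∀ n ∈ A, RoughS S ((X : ℝ) ^ κ) n) ∧ c * X / Real.log X ^ 45 ≤ #A ∧
        ∀ n ∈ A, X < n ∧ n + M * g < 3 * X ∧ Follow M a ((g' - g) * M) (n + M * g) := by
  classical
  obtain ⟨κ, hκ, hcount⟩ := gaps_rough hE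
  obtain ⟨S, R, hS, hSadm, -, -, -, hSform, -⟩ := setS M a hM0 ha2 G hG hadm
  obtain ⟨c₀, hc₀, hcount⟩ := hcount M a hM0 ha2 G hG hadm
  refine ⟨S, κ, c₀, hS, hSadm, hκ, hc₀, ?_⟩
  filter_upwards [tendsto_natCast_atTop_atTop.eventually hcount] with X hX
  obtain ⟨g, hg, g', hg', hgg, hX⟩ := hX
  refine ⟨g, hg, g', hg', hgg, ?_⟩
  obtain ⟨A, hA⟩ : ∃ A : Finset ℕ, A = (Ioc X (4 * X)).filter (fun n => n + M * g < 3 * X ∧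
    Follow M a ((g' - g) * M) (n + M * g) ∧
    ∀ g'' ∈ G, ∀ p : ℕ, p.Prime → (p : ℝ) ≤ (X : ℝ) ^ κ → ¬ p ∣ n + M * g'') := ⟨_, rfl⟩
  refine ⟨A, by rw [hA]; exact filter_subset _ _, ?_, ?_, ?_⟩
  · intro n hn s hs p hp hpX hd
    rw [hA, mem_filter] at hn
    obtain ⟨g'', hg'', rfl⟩ := hSform s hs
    refine hn.2.2.2 g'' hg'' p hp hpX ?_
    have e3 : (n : ℤ) + (M : ℤ) * g'' = ((n + M * g'' : ℕ) : ℤ) := by push_cast; ring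
    rw [e3] at hd
    exact Int.natCast_dvd_natCast.1 hd
  · refine hX.trans ?_
    rw [← Set.ncard_coe_finset, Nat.cast_le]
    apply Set.ncard_le_ncard _ (Finset.finite_toSet _)
    rintro n ⟨h1, h2, h3, h4⟩
    have h8 : n + M * g + (g' - g) * M < 3 * X := by
      have : ((n + M * g + (g' - g) * M : ℕ) : ℝ) < ((3 * X : ℕ) : ℝ) := by push_cast at h2 ⊢; linarith
      exact_mod_cast this
    rw [hA, mem_coe, mem_filter, mem_Ioc]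
    exact ⟨⟨by exact_mod_cast h1, by omega⟩, by omega, h3, h4⟩
  · intro n hn
    rw [hA, mem_filter, mem_Ioc] at hn
    exact ⟨hn.1.1, hn.2.1, hn.2.2.1⟩

open Classical in
/-- sums of two primes followed by bounded gaps, at two scales; each of the two sets may be restricted to one half of its
range -/
theorem sums_two (hE : Eng) (M₁ a₁ M₂ a₂ : ℕ) (hM₁ : 0 < M₁) (ha₁ : a₁.Coprime M₁) (hM₂ : 0 < M₂)
    (ha₂ : a₂.Coprime M₂) (G₁ G₂ : Finset ℕ) (hG₁ : G₁.card = 45) (hG₂ : G₂.card = 45)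
    (hadm₁ : ∀ p : ℕ, p.Prime → ¬ p ∣ M₁ → ∃ r : ℕ, ∀ g ∈ G₁, ¬ p ∣ r + g)
    (hadm₂ : ∀ p : ℕ, p.Prime → ¬ p ∣ M₂ → ∃ r : ℕ, ∀ g ∈ G₂, ¬ p ∣ r + g) :
    ∃ K c : ℝ, 0 < K ∧ 0 < c ∧ ∃ Y₀ : ℕ, ∀ X : ℕ, Y₀ ≤ X → ∀ β : ℕ → Prop, ∃ σ : Bool,
      ∃ g₁ ∈ G₁, ∃ g₁' ∈ G₁, g₁ < g₁' ∧
      ∀ Y : ℕ, Y₀ ≤ Y → Y ≤ X → K * (Real.log X ^ 45 * Real.log Y ^ 45) ≤ Y →
      ∃ g₂ ∈ G₂, ∃ g₂' ∈ G₂, g₂ < g₂' ∧
      c * X ≤ (((Ioc X (6 * X)).filter (fun N => ∃ q p : ℕ, q + p = N ∧ X < p ∧ p < 3 * X ∧ Y < q ∧ q < 3 * Y ∧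
        (if σ then β p else ¬ β p) ∧
        Follow M₁ a₁ ((g₁' - g₁) * M₁) p ∧ Follow M₂ a₂ ((g₂' - g₂) * M₂) q)).card : ℝ) := by
  obtain ⟨S₁, κ₁, c₁, hS₁, hS₁a, hκ₁, hc₁, h₁⟩ := gaps_A hE M₁ a₁ hM₁ ha₁ G₁ hG₁ hadm₁
  obtain ⟨S₂, κ₂, c₂, hS₂, hS₂a, hκ₂, hc₂, h₂⟩ := gaps_A hE M₂ a₂ hM₂ ha₂ G₂ hG₂ hadm₂
  obtain ⟨K, c, hK, hc, Y₀, hsum⟩ := sumE S₁ S₂ hS₁a hS₂a (by rw [← card_pos]; omega) (by rw [← card_pos]; omega)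
    κ₁ κ₂ (c₁ / 2) c₂ hκ₁ hκ₂ (by positivity) hc₂
  rw [hS₁, hS₂] at hsum
  obtain ⟨X₁, hX₁⟩ := eventually_atTop.1 h₁
  obtain ⟨X₂, hX₂⟩ := eventually_atTop.1 h₂
  refine ⟨K, c, hK, hc, max Y₀ (max X₁ X₂), fun X hX β => ?_⟩
  obtain ⟨g₁, hg₁, g₁', hg₁', hgg₁, A, hA1, hA2, hA3, hA4⟩ :=
    hX₁ X ((le_max_left _ _).trans ((le_max_right _ _).trans hX))
  -- the half
  have hhalf : ∃ σ : Bool, c₁ / 2 * X / Real.log X ^ 45 ≤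
      #(A.filter (fun n => if σ then β (n + M₁ * g₁) else ¬ β (n + M₁ * g₁))) := by
    by_contra hcon
    push Not at hcon
    have h3 := hcon true
    have h4 := hcon false
    simp only [if_true, Bool.false_eq_true, if_false] at h3 h4
    have h5 := card_filter_add_card_filter_not (s := A) (fun n => β (n + M₁ * g₁))
    have h6 : (#(A.filter (fun n => β (n + M₁ * g₁))) : ℝ) + #(A.filter (fun n => ¬ β (n + M₁ * g₁))) = #A := by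
      exact_mod_cast h5
    have e1 : c₁ * X / Real.log X ^ 45 = c₁ / 2 * X / Real.log X ^ 45 + c₁ / 2 * X / Real.log X ^ 45 := by ring
    linarith
  obtain ⟨σ, hσ⟩ := hhalf
  refine ⟨σ, g₁, hg₁, g₁', hg₁', hgg₁, fun Y hY hYX hKY => ?_⟩
  obtain ⟨g₂, hg₂, g₂', hg₂', hgg₂, T, hT1, hT2, hT3, hT4⟩ :=
    hX₂ Y ((le_max_right _ _).trans ((le_max_right _ _).trans hY))
  refine ⟨g₂, hg₂, g₂', hg₂', hgg₂, ?_⟩
  have h5 := hsum X Y ((le_max_left _ _).trans hY) hYX hKY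
    (A.filter (fun n => if σ then β (n + M₁ * g₁) else ¬ β (n + M₁ * g₁))) T
    ((filter_subset _ _).trans hA1) (fun n hn => hA2 n (mem_filter.1 hn).1) hσ hT1 hT2 hT3
  refine h5.trans ?_
  rw [Nat.cast_le]
  apply card_le_card_of_injOn (fun N => N + (M₁ * g₁ + M₂ * g₂))
  · intro N hN
    rw [mem_coe, mem_image] at hN
    obtain ⟨z, hz, rfl⟩ := hN
    rw [mem_product, mem_filter] at hz
    obtain ⟨hz1, hz2, hz3⟩ := hz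
    obtain ⟨h6, h7, h8⟩ := hA4 _ hz2
    obtain ⟨h9, h10, h11⟩ := hT4 _ hz1
    show z.1 + z.2 + (M₁ * g₁ + M₂ * g₂) ∈ _
    rw [mem_coe, mem_filter, mem_Ioc]
    exact ⟨⟨by omega, by omega⟩, z.1 + M₂ * g₂, z.2 + M₁ * g₁, by omega, by omega, h7, by omega, h10, hz3, h8, h11⟩
  · intro a _ b _ hab
    have : a + (M₁ * g₁ + M₂ * g₂) = b + (M₁ * g₁ + M₂ * g₂) := hab
    omega

end Pool.Agent.X34.E
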